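import Pool.Agent.H907.Henon.Fin4

/-!
The compact surface `S̄(f)`: compact surfaces containing the orbit surface `S(f)` as the complement
of the union of all compact curves, and containing no exceptional curve of the first kind.
-/

open Filter Topology Set
open scoped Manifold ContDiff

set_option linter.unusedSectionVars false

namespace Pool.Agent.H907.Henon

variable {M M' : Type} [TopologicalSpace M] [ChartedSpace (ℂ × ℂ) M] [TopologicalSpace M']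
  [ChartedSpace (ℂ × ℂ) M']

theorem curvePts_image (e : M ≃ₘ^ω⟮𝓘(ℂ, ℂ × ℂ), 𝓘(ℂ, ℂ × ℂ)⟯ M') {x : M} (hx : x ∈ curvePts M) :
    e x ∈ curvePts M' := by
  obtain ⟨X, i1, i2, u, h1, h2, h3, h4, h5, ⟨a, b, hab⟩, ⟨t, rfl⟩⟩ := hx
  exact ⟨X, i1, i2, e ∘ u, h1, h2, h3, h4, e.contMDiff.comp h5,
    ⟨a, b, fun h => hab (e.injective h)⟩, ⟨t, rfl⟩⟩

/-- local lifts -/
theorem holo_aux {f g : ℂ × ℂ → ℂ × ℂ} (e : M ≃ₘ^ω⟮𝓘(ℂ, ℂ × ℂ), 𝓘(ℂ, ℂ × ℂ)⟯ M')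
    {j : ℂ × ℂ → M} {j' : ℂ × ℂ → M'}
    (hj : IsLocalDiffeomorphOn 𝓘(ℂ, ℂ × ℂ) 𝓘(ℂ, ℂ × ℂ) ω j (Om f))
    (hj' : IsLocalDiffeomorphOn 𝓘(ℂ, ℂ × ℂ) 𝓘(ℂ, ℂ × ℂ) ω j' (Om g))
    (hOm : IsOpen (Om g))
    {q q' : ℂ × ℂ} (hq : q ∈ Om f) (hq' : q' ∈ Om g) (hqq : e (j q) = j' q') :
    ∃ U : Set (ℂ × ℂ), IsOpen U ∧ q ∈ U ∧ ∃ F : ℂ × ℂ → ℂ × ℂ,
      DifferentiableOn ℂ F U ∧ ∀ u ∈ U, F u ∈ Om g ∧ e (j u) = j' (F u) := by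
  have h1 : IsLocalDiffeomorphAt 𝓘(ℂ, ℂ × ℂ) 𝓘(ℂ, ℂ × ℂ) ω j q := hj ⟨q, hq⟩
  have h2 : IsLocalDiffeomorphAt 𝓘(ℂ, ℂ × ℂ) 𝓘(ℂ, ℂ × ℂ) ω j' q' := hj' ⟨q', hq'⟩
  have h3 : IsLocalDiffeomorphAt 𝓘(ℂ, ℂ × ℂ) 𝓘(ℂ, ℂ × ℂ) ω (e ∘ j) q :=
    h1.comp 𝓘(ℂ, ℂ × ℂ) M' (e.isLocalDiffeomorph _)
  have h4 : IsLocalDiffeomorphAt 𝓘(ℂ, ℂ × ℂ) 𝓘(ℂ, ℂ × ℂ) ω h2.localInverse ((e ∘ j) q) := by
    have := h2.localInverse_isLocalDiffeomorphAt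
    rw [← hqq] at this
    exact this
  have h5 := h3.comp 𝓘(ℂ, ℂ × ℂ) (ℂ × ℂ) h4
  set F : ℂ × ℂ → ℂ × ℂ := h2.localInverse ∘ (e ∘ j) with hF
  have hFq : F q = q' := by
    show h2.localInverse (e (j q)) = q'
    rw [hqq]
    exact h2.localInverse_left_inv h2.localInverse_mem_target
  have hcont : ContinuousAt F q := h5.contMDiffAt.continuousAt
  have hcont2 : ContinuousAt (e ∘ j) q := h3.contMDiffAt.continuousAt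
  have ev1 : ∀ᶠ u in 𝓝 q, F u ∈ Om g :=
    hcont.eventually_mem (by rw [hFq]; exact hOm.mem_nhds hq')
  have ev2 : ∀ᶠ u in 𝓝 q, (e ∘ j) u ∈ h2.localInverse.source := by
    refine hcont2.eventually_mem ?_
    have : (e ∘ j) q = j' q' := hqq
    rw [this]
    exact h2.localInverse_open_source.mem_nhds h2.localInverse_mem_source
  obtain ⟨Φ, hΦ, hΦe⟩ := h5
  have ev3 : ∀ᶠ u in 𝓝 q, u ∈ Φ.source := Φ.open_source.mem_nhds hΦ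
  obtain ⟨U, hUsub, hU, hqU⟩ := mem_nhds_iff.1 (ev1.and (ev2.and ev3))
  refine ⟨U, hU, hqU, F, ?_, ?_⟩
  · have hd : ContMDiffOn 𝓘(ℂ, ℂ × ℂ) 𝓘(ℂ, ℂ × ℂ) ω F U :=
      (Φ.contMDiffOn_toFun.congr hΦe).mono fun u hu => (hUsub hu).2.2
    exact (contMDiffOn_iff_contDiffOn.1 hd).differentiableOn (by simp)
  · intro u hu
    obtain ⟨a1, a2, -⟩ := hUsub hu
    refine ⟨a1, ?_⟩
    exact (h2.localInverse_right_inv a2).symm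

/-- the embedding of the orbit space -/
def jbar {f : ℂ × ℂ → ℂ × ℂ} {j : ℂ × ℂ → M}
    (h : ∀ p ∈ Om f, ∀ q ∈ Om f, j p = j q ↔ SameOrbit f p q) : S f → M :=
  Quotient.lift (s := orbSetoid f) (fun p : Om f => j p.1) (fun p q hpq => (h p.1 p.2 q.1 q.2).2 hpq)

theorem jbar_mk {f : ℂ × ℂ → ℂ × ℂ} {j : ℂ × ℂ → M}
    (h : ∀ p ∈ Om f, ∀ q ∈ Om f, j p = j q ↔ SameOrbit f p q) (q : ℂ × ℂ) (hq : q ∈ Om f) :
    jbar h (S.mk f q hq) = j q := rfl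

theorem S.ind {f : ℂ × ℂ → ℂ × ℂ} (x : S f) : ∃ q, ∃ hq : q ∈ Om f, x = S.mk f q hq := by
  induction x using Quotient.inductionOn with
  | h p => exact ⟨p.1, p.2, rfl⟩

theorem jbar_inj {f : ℂ × ℂ → ℂ × ℂ} {j : ℂ × ℂ → M}
    (h : ∀ p ∈ Om f, ∀ q ∈ Om f, j p = j q ↔ SameOrbit f p q) : Function.Injective (jbar h) := by
  intro x y hxy
  obtain ⟨p, hp, rfl⟩ := S.ind x
  obtain ⟨q, hq, rfl⟩ := S.ind y
  exact S.mk_eq_iff.2 ((h p hp q hq).1 hxy)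

theorem biholo_of_barS {f g : ℂ × ℂ → ℂ × ℂ} (hf : IsGenHenon f) (hg : IsGenHenon g)
    (h : IsBarS f M) (h' : IsBarS g M') (e : M ≃ₘ^ω⟮𝓘(ℂ, ℂ × ℂ), 𝓘(ℂ, ℂ × ℂ)⟯ M') :
    Biholo f g := by
  obtain ⟨-, -, -, -, -, j, hj, hjo, hjc⟩ := h
  obtain ⟨-, -, -, -, -, j', hj', hjo', hjc'⟩ := h'
  have hr : ∀ q ∈ Om f, ∃ q' ∈ Om g, j' q' = e (j q) := by
    intro q hq
    by_contra hcon
    have h1 : e (j q) ∈ (j' '' Om g)ᶜ := hcon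
    rw [hjc'] at h1
    have h2 := curvePts_image e.symm h1
    rw [e.symm_apply_apply, ← hjc] at h2
    exact h2 ⟨q, hq, rfl⟩
  have hr' : ∀ q ∈ Om g, ∃ q' ∈ Om f, e (j q') = j' q := by
    intro q hq
    by_contra hcon
    have h1 : e.symm (j' q) ∈ (j '' Om f)ᶜ := by
      rintro ⟨p, hp, hpq⟩
      exact hcon ⟨p, hp, by rw [hpq, e.apply_symm_apply]⟩
    rw [hjc] at h1
    have h2 := curvePts_image e h1
    rw [e.apply_symm_apply, ← hjc'] at h2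
    exact h2 ⟨q, hq, rfl⟩
  have hx : ∀ x : S f, ∃ y : S g, jbar hjo' y = e (jbar hjo x) := by
    intro x
    obtain ⟨q, hq, rfl⟩ := S.ind x
    obtain ⟨q', hq', h1⟩ := hr q hq
    exact ⟨S.mk g q' hq', h1⟩
  have hy : ∀ y : S g, ∃ x : S f, e (jbar hjo x) = jbar hjo' y := by
    intro y
    obtain ⟨q, hq, rfl⟩ := S.ind y
    obtain ⟨q', hq', h1⟩ := hr' q hq
    exact ⟨S.mk f q' hq', h1⟩
  choose a ha using hx
  choose b hb using hy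
  let Φ : S f ≃ S g :=
    { toFun := a
      invFun := b
      left_inv := fun x => jbar_inj hjo (e.injective (by
        show e (jbar hjo (b (a x))) = e (jbar hjo x)
        rw [hb, ha]))
      right_inv := fun y => jbar_inj hjo' (by rw [ha, hb]) }
  refine ⟨Φ, ?_, ?_⟩
  · intro q hq
    obtain ⟨q', hq', hqq⟩ := hr q hq
    obtain ⟨U, hU, hqU, F, hF, hFU⟩ := holo_aux e hj hj' (isOpen_Om hg) hq hq' hqq.symm
    refine ⟨U, hU, hqU, F, hF, fun u hu huO => ?_⟩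
    obtain ⟨h1, h2⟩ := hFU u hu
    refine ⟨h1, jbar_inj hjo' ?_⟩
    show jbar hjo' (a (S.mk f u huO)) = _
    rw [ha]
    exact h2
  · intro q hq
    obtain ⟨q', hq', hqq⟩ := hr' q hq
    have hqq' : e.symm (j' q) = j q' := by rw [← hqq, e.symm_apply_apply]
    obtain ⟨U, hU, hqU, F, hF, hFU⟩ := holo_aux e.symm hj' hj (isOpen_Om hf) hq hq' hqq'
    refine ⟨U, hU, hqU, F, hF, fun u hu huO => ?_⟩
    obtain ⟨h1, h2⟩ := hFU u hu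
    refine ⟨h1, jbar_inj hjo (e.injective ?_)⟩
    show e (jbar hjo (b (S.mk g u huO))) = _
    rw [hb]
    show j' u = e (j (F u))
    rw [← h2, e.apply_symm_apply]

/-- a polynomial automorphism as a diffeomorphism -/
def polyDiffeo {τ τ' : ℂ × ℂ → ℂ × ℂ} (h1 : IsPolyMap τ) (h2 : IsPolyMap τ')
    (h3 : ∀ q, τ' (τ q) = q) (h4 : ∀ q, τ (τ' q) = q) :
    (ℂ × ℂ) ≃ₘ^ω⟮𝓘(ℂ, ℂ × ℂ), 𝓘(ℂ, ℂ × ℂ)⟯ (ℂ × ℂ) where
  toFun := τ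
  invFun := τ'
  left_inv := h3
  right_inv := h4
  contMDiff_toFun := h1.contDiff.contMDiff
  contMDiff_invFun := h2.contDiff.contMDiff

theorem barS_of_conj {f g : ℂ × ℂ → ℂ × ℂ} (hf : IsGenHenon f) (hg : IsGenHenon g)
    (h : IsBarS f M) (hc : PolyConj f g) : IsBarS g M := by
  obtain ⟨i1, i2, i3, i4, i5, j, hj, hjo, hjc⟩ := h
  obtain ⟨τ, τ', h1, h2, h3, h4, h5⟩ := hc
  have h5' : ∀ q, f (τ' q) = τ' (g q) := by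
    intro q
    rw [← h3 (f (τ' q)), ← h5, h4]
  have m1 : ∀ {q}, q ∈ Om f → τ q ∈ Om g :=
    Easy.mem_Om_conj hf hg τ τ' h2.contDiff.continuous h3 h4 h5
  have m2 : ∀ {q}, q ∈ Om g → τ' q ∈ Om f :=
    Easy.mem_Om_conj hg hf τ' τ h1.contDiff.continuous h4 h3 h5'
  refine ⟨i1, i2, i3, i4, i5, j ∘ τ', ?_, ?_, ?_⟩
  · rintro ⟨q, hq⟩
    have a1 : IsLocalDiffeomorphAt 𝓘(ℂ, ℂ × ℂ) 𝓘(ℂ, ℂ × ℂ) ω τ' q :=
      (polyDiffeo h2 h1 h4 h3).isLocalDiffeomorph q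
    exact a1.comp 𝓘(ℂ, ℂ × ℂ) M (hj ⟨τ' q, m2 hq⟩)
  · intro p hp q hq
    simp only [Function.comp]
    rw [hjo _ (m2 hp) _ (m2 hq)]
    constructor
    · intro hs
      have := Easy.sameOrbit_conj h5 hs
      rwa [h4, h4] at this
    · exact Easy.sameOrbit_conj h5'
  · rw [← hjc, image_comp]
    congr 2
    ext q
    constructor
    · rintro ⟨p, hp, rfl⟩
      exact m2 hp
    · intro hq
      exact ⟨τ q, m1 hq, h3 q⟩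

end Pool.Agent.H907.Henon
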