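import Mathlib

open Polynomial Filter Topology Set

namespace Pool.Agent.H907.Henon

/-- shift by a period multiplies by `N` -/
theorem chain_shift (D d : ℕ → ℕ) (k N : ℕ) (hD : ∀ j, D (j + 1) = d j * D j)
    (hdk : ∀ j, d (j + k) = d j) (hDk : D k = N * D 0) (j : ℕ) : D (j + k) = N * D j := by
  induction j with
  | zero => simpa using hDk
  | succ j ih =>
    have : j + 1 + k = j + k + 1 := by ring
    rw [this, hD, hdk, ih, hD]
    ring

theorem chain_pos (D d : ℕ → ℕ) (hD0 : 0 < D 0) (hd : ∀ j, 2 ≤ d j)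
    (hD : ∀ j, D (j + 1) = d j * D j) (j : ℕ) : 0 < D j := by
  induction j with
  | zero => exact hD0
  | succ j ih =>
    rw [hD]
    exact Nat.mul_pos (by have := hd j; omega) ih

theorem chain_strictMono (D d : ℕ → ℕ) (hD0 : 0 < D 0) (hd : ∀ j, 2 ≤ d j)
    (hD : ∀ j, D (j + 1) = d j * D j) : StrictMono D := by
  apply strictMono_nat_of_lt_succ
  intro j
  rw [hD]
  have := chain_pos D d hD0 hd hD j
  have := hd j
  nlinarith

theorem chain_dvd (D d : ℕ → ℕ) (hD : ∀ j, D (j + 1) = d j * D j) {i j : ℕ} (h : i ≤ j) :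
    D i ∣ D j := by
  induction h with
  | refl => exact dvd_rfl
  | step h ih => rw [hD]; exact ih.mul_left _

/-- an admissible multiple larger than `D j + D (j+1)` is divisible by `D (j+1)` -/
theorem chain_dvd_of_gt (D d : ℕ → ℕ) (hD0 : 0 < D 0) (hd : ∀ j, 2 ≤ d j)
    (hD : ∀ j, D (j + 1) = d j * D j) (j i t M : ℕ) (hM : M = t * D i)
    (ht : t < d i ∨ t = d i + 1) (hgt : D j + D (j + 1) < M) : D (j + 1) ∣ M := by
  have hmono := chain_strictMono D d hD0 hd hD
  rcases lt_or_ge j i with hij | hij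
  · rw [hM]
    exact (chain_dvd D d hD hij).mul_left _
  · exfalso
    have h1 : M ≤ D i + D (i + 1) := by
      rw [hM, hD]
      rcases ht with ht | ht
      · nlinarith
      · rw [ht]; linarith
    have h2 : D i ≤ D j := hmono.monotone hij
    have h3 : D (i + 1) ≤ D (j + 1) := hmono.monotone (by omega)
    omega

/-- if `p` divides `N` then `p` divides some later ratio, and the valuation is constant before -/
theorem chain_next (D d : ℕ → ℕ) (k N p : ℕ) (hD0 : 0 < D 0) (hd : ∀ j, 2 ≤ d j)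
    (hD : ∀ j, D (j + 1) = d j * D j) (hdk : ∀ j, d (j + k) = d j) (hDk : D k = N * D 0)
    (hp : p.Prime) (hpN : p ∣ N) (j : ℕ) :
    ∃ m, j ≤ m ∧ p ∣ d m ∧ (D m).factorization p = (D j).factorization p := by
  have hpos := chain_pos D d hD0 hd hD
  have hconst : ∀ m, (∀ m', j ≤ m' → m' < j + m → ¬ p ∣ d m') →
      (D (j + m)).factorization p = (D j).factorization p := by
    intro m
    induction m with
    | zero => intro _; rfl
    | succ m ih =>
      intro h
      have h1 := ih (fun m' h1 h2 => h m' h1 (by omega))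
      have h2 : ¬ p ∣ d (j + m) := h (j + m) (by omega) (by omega)
      have : j + (m + 1) = j + m + 1 := by ring
      rw [this, hD, Nat.factorization_mul (by have := hd (j + m); omega) (hpos _).ne']
      simp [Nat.factorization_eq_zero_of_not_dvd h2, h1]
  have hex : ∃ m, j ≤ m ∧ p ∣ d m := by
    by_contra hno
    push Not at hno
    have h1 := hconst k (fun m' h1 _ => hno m' h1)
    rw [chain_shift D d k N hD hdk hDk] at h1
    have hN0 : N ≠ 0 := by
      rintro rfl
      have := hpos k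
      rw [hDk] at this
      simp at this
    rw [Nat.factorization_mul hN0 (hpos _).ne'] at h1
    have h2 : 0 < N.factorization p := hp.factorization_pos_of_dvd hN0 hpN
    simp at h1
    omega
  classical
  refine ⟨Nat.find hex, (Nat.find_spec hex).1, (Nat.find_spec hex).2, ?_⟩
  obtain ⟨m, hm⟩ := Nat.exists_eq_add_of_le (Nat.find_spec hex).1
  rw [hm]
  apply hconst
  intro m' h1 h2 h3
  exact Nat.find_min hex (m := m') (by omega) ⟨h1, h3⟩

/-- the key claim: no `E i + E (i+1)` lies strictly between two consecutive `D j + D (j+1)` -/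
theorem chain_no_between (D E d e : ℕ → ℕ) (k l N : ℕ) (hk : 0 < k) (hl : 0 < l)
    (hD0 : 0 < D 0) (hE0 : 0 < E 0) (hd : ∀ j, 2 ≤ d j) (he : ∀ j, 2 ≤ e j)
    (hD : ∀ j, D (j + 1) = d j * D j) (hE : ∀ j, E (j + 1) = e j * E j)
    (hdk : ∀ j, d (j + k) = d j) (hel : ∀ j, e (j + l) = e j)
    (hDk : D k = N * D 0) (hEl : E l = N * E 0) (J : ℕ)
    (h1 : ∀ j, J ≤ j → ∃ i t, D j + D (j + 1) = t * E i ∧ 1 ≤ t ∧ (t < e i ∨ t = e i + 1))
    (h2 : ∀ i, J ≤ i → ∃ j t, E i + E (i + 1) = t * D j ∧ 1 ≤ t ∧ (t < d j ∨ t = d j + 1))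
    (i j : ℕ) (hi : J ≤ i) (hj : J ≤ j)
    (ha : D j + D (j + 1) < E i + E (i + 1)) (hb : E i + E (i + 1) < D (j + 1) + D (j + 2)) :
    False := by
  have hDpos := chain_pos D d hD0 hd hD
  have hEpos := chain_pos E e hE0 he hE
  have hDmono := chain_strictMono D d hD0 hd hD
  obtain ⟨p, hp, hpe⟩ := Nat.exists_prime_and_dvd (n := e i) (by have := he i; omega)
  -- `p` divides `N`
  have hpN : p ∣ N := by
    have h3 : E (i + 1) ∣ E (i + l) := chain_dvd E e hE (by omega)
    rw [chain_shift E e l N hE hel hEl, hE] at h3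
    have h4 : e i ∣ N := Nat.dvd_of_mul_dvd_mul_right (hEpos i) h3
    exact hpe.trans h4
  -- valuations of `y`
  have hval : ∀ (C c : ℕ → ℕ) (m : ℕ), 0 < C m → C (m + 1) = c m * C m → p ∣ c m →
      (C m + C (m + 1)).factorization p = (C m).factorization p := by
    intro C c m hpos hC hdiv
    have h5 : C m + C (m + 1) = (c m + 1) * C m := by rw [hC]; ring
    have h6 : ¬ p ∣ c m + 1 := by
      intro h
      have h7 : p ∣ 1 := (Nat.dvd_add_right hdiv).1 h
      exact hp.one_lt.ne' (Nat.dvd_one.1 h7)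
    rw [h5, Nat.factorization_mul (by omega) hpos.ne']
    simp [Nat.factorization_eq_zero_of_not_dvd h6]
  -- step 1
  obtain ⟨j', t, hjt, ht1, ht2⟩ := h2 i hi
  have hdvd1 : D (j + 1) ∣ E i + E (i + 1) :=
    chain_dvd_of_gt D d hD0 hd hD j j' t _ hjt ht2 ha
  have hv1 : (D (j + 1)).factorization p ≤ (E i).factorization p := by
    rw [← hval E e i (hEpos i) (hE i) hpe]
    exact (Nat.factorization_le_iff_dvd (hDpos _).ne' (by have := hEpos i; omega)).2 hdvd1 p
  -- step 2
  obtain ⟨m, hjm, hpm, hvm⟩ := chain_next D d k N p hD0 hd hD hdk hDk hp hpN (j + 1)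
  obtain ⟨i', t', hit, ht1', ht2'⟩ := h1 m (by omega)
  have hgt : E i + E (i + 1) < D m + D (m + 1) := by
    have h8 : D (j + 1) ≤ D m := hDmono.monotone hjm
    have h9 : D (j + 2) ≤ D (m + 1) := hDmono.monotone (by omega)
    omega
  have hdvd2 : E (i + 1) ∣ D m + D (m + 1) :=
    chain_dvd_of_gt E e hE0 he hE i i' t' _ hit ht2' hgt
  have hv2 : (E (i + 1)).factorization p ≤ (D m).factorization p := by
    rw [← hval D d m (hDpos m) (hD m) hpm]
    exact (Nat.factorization_le_iff_dvd (hEpos _).ne' (by have := hDpos m; omega)).2 hdvd2 p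
  have hv3 : (E i).factorization p < (E (i + 1)).factorization p := by
    rw [hE, Nat.factorization_mul (by have := he i; omega) (hEpos i).ne']
    have : 0 < (e i).factorization p := hp.factorization_pos_of_dvd (by have := he i; omega) hpe
    simp
    omega
  omega

/-- Chain lemma.  D and E are chains of positive integers with integer ratios at least 2, periodic
with the same total ratio N.  Admissible multiples of D j are t * D j with 1 ≤ t < d j or
t = d j + 1.  If all D j + D (j+1) (j large) are admissible multiples of members of E and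
conversely, then the two chains coincide eventually. -/
theorem chain_lemma (D E d e : ℕ → ℕ) (k l N : ℕ) (hk : 0 < k) (hl : 0 < l)
    (hD0 : 0 < D 0) (hE0 : 0 < E 0) (hd : ∀ j, 2 ≤ d j) (he : ∀ j, 2 ≤ e j)
    (hD : ∀ j, D (j + 1) = d j * D j) (hE : ∀ j, E (j + 1) = e j * E j)
    (hdk : ∀ j, d (j + k) = d j) (hel : ∀ j, e (j + l) = e j)
    (hDk : D k = N * D 0) (hEl : E l = N * E 0) (J : ℕ)
    (h1 : ∀ j, J ≤ j → ∃ i t, D j + D (j + 1) = t * E i ∧ 1 ≤ t ∧ (t < e i ∨ t = e i + 1))
    (h2 : ∀ i, J ≤ i → ∃ j t, E i + E (i + 1) = t * D j ∧ 1 ≤ t ∧ (t < d j ∨ t = d j + 1)) :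
    k = l ∧ ∃ i₀ j₀, ∀ n, E (i₀ + n) = D (j₀ + n) := by
  classical
  have hDpos := chain_pos D d hD0 hd hD
  have hEpos := chain_pos E e hE0 he hE
  have hDmono := chain_strictMono D d hD0 hd hD
  have hEmono := chain_strictMono E e hE0 he hE
  have hDs := chain_shift D d k N hD hdk hDk
  have hEs := chain_shift E e l N hE hel hEl
  have c1 := chain_no_between D E d e k l N hk hl hD0 hE0 hd he hD hE hdk hel hDk hEl J h1 h2
  have c2 := chain_no_between E D e d l k N hl hk hE0 hD0 he hd hE hD hel hdk hEl hDk J h2 h1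
  -- the sequence of `y`s
  set y : ℕ → ℕ := fun j => D j + D (j + 1) with hy
  set z : ℕ → ℕ := fun j => E j + E (j + 1) with hz
  have hymono : StrictMono y := fun a b hab =>
    add_lt_add (hDmono hab) (hDmono (Nat.succ_lt_succ hab))
  have hzmono : StrictMono z := fun a b hab =>
    add_lt_add (hEmono hab) (hEmono (Nat.succ_lt_succ hab))
  have c1' : ∀ i j, J ≤ i → J ≤ j → y j < z i → z i < y (j + 1) → False := fun i j a b c d =>
    c1 i j a b c d
  have c2' : ∀ i j, J ≤ i → J ≤ j → z j < y i → y i < z (j + 1) → False := fun i j a b c d =>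
    c2 i j a b c d
  -- the starting indices
  obtain ⟨i₀, hi₀J, hi₀⟩ : ∃ i₀, J ≤ i₀ ∧ y J ≤ z i₀ := by
    refine ⟨max J (y J), le_max_left _ _, ?_⟩
    exact (le_max_right J (y J)).trans (hzmono.id_le _)
  have hex : ∃ j, z i₀ < y (j + 1) := ⟨z i₀, lt_of_lt_of_le (Nat.lt_succ_self _) (hymono.id_le _)⟩
  obtain ⟨j₀, hj₀, hmin⟩ : ∃ j₀, z i₀ < y (j₀ + 1) ∧ ∀ m < j₀, ¬ z i₀ < y (m + 1) :=
    ⟨Nat.find hex, Nat.find_spec hex, fun m hm => Nat.find_min hex hm⟩
  have hj₀J : J ≤ j₀ := by
    by_contra hlt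
    have h3 : y (j₀ + 1) ≤ y J := hymono.monotone (by omega)
    omega
  have hle : y j₀ ≤ z i₀ := by
    rcases Nat.eq_zero_or_pos j₀ with h0 | h0
    · subst h0
      have : J = 0 := by omega
      subst this
      exact hi₀
    · have h3 := hmin (j₀ - 1) (by omega)
      rw [Nat.sub_add_cancel h0] at h3
      omega
  have heq : y j₀ = z i₀ := by
    rcases hle.lt_or_eq with h3 | h3
    · exact (c1' i₀ j₀ hi₀J hj₀J h3 hj₀).elim
    · exact h3
  have hall : ∀ n, y (j₀ + n) = z (i₀ + n) := by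
    intro n
    induction n with
    | zero => exact heq
    | succ n ih =>
      rcases lt_trichotomy (y (j₀ + (n + 1))) (z (i₀ + (n + 1))) with h3 | h3 | h3
      · exfalso
        refine c2' (j₀ + (n + 1)) (i₀ + n) (by omega) (by omega) ?_ h3
        rw [← ih]
        exact hymono (by omega)
      · exact h3
      · exfalso
        refine c1' (i₀ + (n + 1)) (j₀ + n) (by omega) (by omega) ?_ h3
        rw [ih]
        exact hzmono (by omega)
  have hys : ∀ j, y (j + k) = N * y j := by
    intro j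
    simp only [hy]
    have : j + k + 1 = j + 1 + k := by ring
    rw [this, hDs, hDs]
    ring
  have hzs : ∀ j, z (j + l) = N * z j := by
    intro j
    simp only [hz]
    have : j + l + 1 = j + 1 + l := by ring
    rw [this, hEs, hEs]
    ring
  have hkl : k = l := by
    have h3 : y (j₀ + k) = y (j₀ + l) := by
      rw [hys, hall l, hzs, heq]
    have := hymono.injective h3
    omega
  refine ⟨hkl, i₀, j₀, ?_⟩
  -- the differences
  have hdelta : ∀ n m, ((D (j₀ + (n + m)) : ℤ) - E (i₀ + (n + m))) =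
      (-1) ^ m * ((D (j₀ + n) : ℤ) - E (i₀ + n)) := by
    intro n m
    induction m with
    | zero => simp
    | succ m ih =>
      have h3 := hall (n + m)
      simp only [hy, hz] at h3
      have h4 : (D (j₀ + (n + m)) : ℤ) + D (j₀ + (n + m) + 1) =
          E (i₀ + (n + m)) + E (i₀ + (n + m) + 1) := by exact_mod_cast h3
      have h5 : j₀ + (n + (m + 1)) = j₀ + (n + m) + 1 := by ring
      have h6 : i₀ + (n + (m + 1)) = i₀ + (n + m) + 1 := by ring
      rw [h5, h6, pow_succ]
      linarith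
  intro n
  have h3 := hdelta n k
  have h4 : (D (j₀ + (n + k)) : ℤ) = N * D (j₀ + n) := by
    have := hDs (j₀ + n)
    rw [← add_assoc]
    exact_mod_cast this
  have h5 : (E (i₀ + (n + k)) : ℤ) = N * E (i₀ + n) := by
    have := hEs (i₀ + n)
    rw [← add_assoc, hkl]
    exact_mod_cast this
  have hN2 : 2 ≤ N := by
    have h6 : D 1 ≤ D k := hDmono.monotone hk
    rw [hDk, hD 0] at h6
    have h7 := hd 0
    by_contra hlt
    have h8 : N * D 0 ≤ 1 * D 0 := Nat.mul_le_mul_right _ (by omega)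
    nlinarith
  have h9 : (N : ℤ) * ((D (j₀ + n) : ℤ) - E (i₀ + n)) =
      (-1) ^ k * ((D (j₀ + n) : ℤ) - E (i₀ + n)) := by
    rw [← h3, h4, h5]; ring
  have h10 : ((N : ℤ) - (-1) ^ k) * ((D (j₀ + n) : ℤ) - E (i₀ + n)) = 0 := by
    rw [sub_mul, h9]; ring
  have h11 : ((N : ℤ) - (-1) ^ k) ≠ 0 := by
    have : (2 : ℤ) ≤ N := by exact_mod_cast hN2
    rcases neg_one_pow_eq_or ℤ k with h | h <;> rw [h] <;> omega
  have h12 := (mul_eq_zero.1 h10).resolve_left h11
  have h13 : (D (j₀ + n) : ℤ) = E (i₀ + n) := by linarith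
  exact_mod_cast h13.symm

end Pool.Agent.H907.Henon
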