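import Mathlib

open Polynomial Filter Topology Set

namespace Pool.Agent.H907.Henon

theorem geom_zero_aux {x : ℂ} {n : ℕ} (h : x ^ n = 1) (h1 : x ≠ 1) :
    ∑ i ∈ Finset.range n, x ^ i = 0 := by
  rw [geom_sum_eq h1, h, sub_self, zero_div]

/-- If a polynomial `p` equals `h(z) - c h(z^D)` on `|z| > 1` then its coefficients of index
`0 < M < D` satisfy Cauchy type bounds depending on `h` only. -/
theorem coeff_bound (h : ℂ → ℂ) (hc : ContinuousOn h {z | 1 < ‖z‖}) (ρ : ℝ) (hρ : 1 < ρ) :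
    ∃ K : ℝ, ∀ (p : ℂ[X]) (D : ℕ) (c : ℂ),
      (∀ z, 1 < ‖z‖ → p.eval z = h z - c * h (z ^ D)) →
      ∀ M, 0 < M → M < D → ‖p.coeff M‖ * ρ ^ M ≤ K := by
  have hcomp : IsCompact (Metric.sphere (0 : ℂ) ρ) := isCompact_sphere 0 ρ
  have hsub : Metric.sphere (0 : ℂ) ρ ⊆ {z | 1 < ‖z‖} := by
    intro z hz
    have : ‖z‖ = ρ := by simpa using hz
    show 1 < ‖z‖
    rw [this]; exact hρ
  obtain ⟨K, hK⟩ := hcomp.exists_bound_of_continuousOn (hc.mono hsub)
  refine ⟨K, fun p D c hp M hM0 hMD => ?_⟩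
  set N1 : ℕ := p.natDegree + 2 with hN1
  set N : ℕ := D * N1 with hN
  have hD : 0 < D := lt_trans hM0 hMD
  have hN1pos : 0 < N1 := by omega
  have hNpos : 0 < N := Nat.mul_pos hD hN1pos
  have hMN : M < N := lt_of_lt_of_le hMD (Nat.le_mul_of_pos_right D hN1pos)
  set ω : ℂ := Complex.exp (2 * Real.pi * Complex.I / N) with hω
  have hprim : IsPrimitiveRoot ω N := Complex.isPrimitiveRoot_exp N hNpos.ne'
  have hω0 : ω ≠ 0 := Complex.exp_ne_zero _
  have hωnorm : ‖ω‖ = 1 := hprim.norm'_eq_one hNpos.ne'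
  have hρ0 : (0 : ℝ) < ρ := lt_trans one_pos hρ
  -- the averaging functional
  let S : (ℂ → ℂ) → ℂ := fun F => ∑ a ∈ Finset.range N1, ∑ b ∈ Finset.range D,
    F (ρ * ω ^ (a + N1 * b)) * ((ω ^ M)⁻¹) ^ (a + N1 * b)
  have hpt : ∀ k : ℕ, ‖(ρ : ℂ) * ω ^ k‖ = ρ := by
    intro k
    rw [norm_mul, norm_pow, hωnorm, one_pow, mul_one, Complex.norm_real, Real.norm_eq_abs,
      abs_of_pos hρ0]
  -- value on the polynomial
  have hSp : S (fun z => p.eval z) = (N : ℂ) * (p.coeff M * (ρ : ℂ) ^ M) := by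
    have e1 : ∀ k : ℕ, p.eval ((ρ : ℂ) * ω ^ k) * ((ω ^ M)⁻¹) ^ k =
        ∑ j ∈ Finset.range N1, p.coeff j * (ρ : ℂ) ^ j * (ω ^ j * (ω ^ M)⁻¹) ^ k := by
      intro k
      rw [Polynomial.eval_eq_sum_range' (n := N1) (by omega), Finset.sum_mul]
      refine Finset.sum_congr rfl fun j _ => ?_
      rw [mul_pow, mul_pow, ← pow_mul, ← pow_mul, mul_comm k j]
      ring
    have e2 : ∀ j ∈ Finset.range N1, (∑ a ∈ Finset.range N1, ∑ b ∈ Finset.range D,
        (ω ^ j * (ω ^ M)⁻¹) ^ (a + N1 * b)) = if j = M then (N : ℂ) else 0 := by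
      intro j hj
      have hjN : j < N := lt_of_lt_of_le (Finset.mem_range.1 hj)
        (Nat.le_mul_of_pos_left N1 hD)
      set x := ω ^ j * (ω ^ M)⁻¹ with hx
      have hxN : x ^ N = 1 := by
        have hj' : (ω ^ j) ^ N = 1 := by rw [← pow_mul, mul_comm, pow_mul, hprim.pow_eq_one, one_pow]
        have hM' : (ω ^ M) ^ N = 1 := by rw [← pow_mul, mul_comm, pow_mul, hprim.pow_eq_one, one_pow]
        rw [hx, mul_pow, inv_pow, hj', hM', inv_one, one_mul]
      split_ifs with hjM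
      · have : x = 1 := by rw [hx, hjM, mul_inv_cancel₀ (pow_ne_zero _ hω0)]
        simp only [this, one_pow, Finset.sum_const, Finset.card_range, nsmul_eq_mul, mul_one]
        rw [hN]; push_cast; ring
      · have hx1 : x ≠ 1 := by
          intro hx1
          apply hjM
          have : ω ^ j = ω ^ M := by
            have h2 := hx1
            rw [hx] at h2
            exact (mul_inv_eq_one₀ (pow_ne_zero _ hω0)).1 h2
          exact hprim.pow_inj hjN hMN this
        have e3 : (∑ a ∈ Finset.range N1, ∑ b ∈ Finset.range D, x ^ (a + N1 * b)) =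
            (∑ a ∈ Finset.range N1, x ^ a) * (∑ b ∈ Finset.range D, (x ^ N1) ^ b) := by
          rw [Finset.sum_mul_sum]
          refine Finset.sum_congr rfl fun a _ => Finset.sum_congr rfl fun b _ => ?_
          rw [pow_add, pow_mul]
        rw [e3]
        by_cases hx2 : x ^ N1 = 1
        · rw [geom_zero_aux hx2 hx1, zero_mul]
        · rw [geom_zero_aux (x := x ^ N1) (n := D) (by rw [← pow_mul, mul_comm, ← hN, hxN]) hx2,
            mul_zero]
    have e4 : S (fun z => p.eval z) = ∑ j ∈ Finset.range N1, p.coeff j * (ρ : ℂ) ^ j *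
        (∑ a ∈ Finset.range N1, ∑ b ∈ Finset.range D, (ω ^ j * (ω ^ M)⁻¹) ^ (a + N1 * b)) := by
      simp only [S, e1, Finset.mul_sum]
      rw [Finset.sum_comm (s := Finset.range N1) (t := Finset.range N1)]
      refine Finset.sum_congr rfl fun a _ => ?_
      rw [Finset.sum_comm]
    rw [e4, Finset.sum_congr rfl fun j hj => by rw [e2 j hj]]
    by_cases hMr : M < N1
    · simp only [mul_ite, mul_zero, Finset.sum_ite_eq', Finset.mem_range, hMr, if_true]
      ring
    · have : p.coeff M = 0 := Polynomial.coeff_eq_zero_of_natDegree_lt (by omega)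
      simp only [mul_ite, mul_zero, Finset.sum_ite_eq', Finset.mem_range, hMr, if_false, this,
        zero_mul]
  -- value on `h (z ^ D)`
  have hSD : S (fun z => h (z ^ D)) = 0 := by
    have hy : ((ω ^ M)⁻¹) ^ N1 ≠ 1 := by
      intro hy
      rw [inv_pow, inv_eq_one, ← pow_mul] at hy
      have h1 : N ∣ M * N1 := (hprim.pow_eq_one_iff_dvd _).1 hy
      rw [hN] at h1
      have h2 : D ∣ M := Nat.dvd_of_mul_dvd_mul_right hN1pos h1
      exact absurd (Nat.le_of_dvd hM0 h2) (by omega)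
    have hyD : (((ω ^ M)⁻¹) ^ N1) ^ D = 1 := by
      rw [← pow_mul, inv_pow, ← pow_mul, mul_comm M, mul_comm N1 D, ← hN, pow_mul,
        hprim.pow_eq_one, one_pow, inv_one]
    simp only [S]
    refine Finset.sum_eq_zero fun a _ => ?_
    have e5 : ∀ b ∈ Finset.range D, h ((ρ * ω ^ (a + N1 * b)) ^ D) *
        ((ω ^ M)⁻¹) ^ (a + N1 * b) = h ((ρ * ω ^ a) ^ D) * ((ω ^ M)⁻¹) ^ a *
          (((ω ^ M)⁻¹) ^ N1) ^ b := by
      intro b _
      have : ((ρ : ℂ) * ω ^ (a + N1 * b)) ^ D = (ρ * ω ^ a) ^ D := by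
        rw [pow_add, ← mul_assoc, mul_pow, ← pow_mul, mul_right_comm, mul_comm N1 D, ← hN,
          pow_mul, hprim.pow_eq_one, one_pow, mul_one]
      rw [this, pow_add, pow_mul]
      ring
    rw [Finset.sum_congr rfl e5, ← Finset.mul_sum, geom_zero_aux hyD hy, mul_zero]
  -- linearity
  have hlin : S (fun z => p.eval z) = S h - c * S (fun z => h (z ^ D)) := by
    simp only [S, Finset.mul_sum, ← Finset.sum_sub_distrib]
    refine Finset.sum_congr rfl fun a _ => Finset.sum_congr rfl fun b _ => ?_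
    rw [hp _ (by rw [hpt]; exact hρ)]
    ring
  have hbound : ‖S h‖ ≤ N * K := by
    calc ‖S h‖ ≤ ∑ a ∈ Finset.range N1, ∑ b ∈ Finset.range D, K := by
          refine (norm_sum_le _ _).trans (Finset.sum_le_sum fun a _ => ?_)
          refine (norm_sum_le _ _).trans (Finset.sum_le_sum fun b _ => ?_)
          rw [norm_mul, norm_pow, norm_inv, norm_pow, hωnorm, one_pow, inv_one, one_pow, mul_one]
          exact hK _ (by simp only [mem_sphere_iff_norm, sub_zero, hpt])
      _ = N * K := by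
          simp only [Finset.sum_const, Finset.card_range, nsmul_eq_mul]
          rw [hN]; push_cast; ring
  rw [hSD, mul_zero, sub_zero] at hlin
  rw [← hlin, hSp] at hbound
  rw [norm_mul, norm_mul, Complex.norm_natCast, norm_pow, Complex.norm_real, Real.norm_eq_abs,
    abs_of_pos hρ0] at hbound
  exact le_of_mul_le_mul_left hbound (by exact_mod_cast hNpos)

end Pool.Agent.H907.Henon
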