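import Pool.Agent.H907.Henon.QpDef
import Pool.Agent.H907.Henon.Coeff
import Pool.Agent.H907.Henon.Chain

open Polynomial Filter Topology Set

namespace Pool.Agent.H907.Henon

/-- the algebraic conditions on the data used here -/
structure Dat.Alg (h : Dat) : Prop where
  a0 : h.a ≠ 0
  deg : h.Q.natDegree = h.m + 3
  mon : h.Q.Monic
  c1 : h.Q.coeff (h.m + 2) = 0
  c0 : h.Q.coeff 0 = 0


/-! ### Auxiliary lemmas for `comb` -/

section aux

theorem Dp_pos' (S : ℕ → Dat) (n : ℕ) : 0 < Dp S n := by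
  induction n with
  | zero => simp [Dp]
  | succ n ih => rw [Dp_succ']; exact Nat.mul_pos ih (by simp [Dat.d])

theorem two_mul_Dp_le (S : ℕ → Dat) (n : ℕ) : 2 * Dp S n ≤ Dp S (n + 1) := by
  rw [Dp_succ', mul_comm]
  exact Nat.mul_le_mul_left _ (by simp [Dat.d])

theorem lt_Dp (S : ℕ → Dat) (n : ℕ) : n < Dp S n := by
  induction n with
  | zero => exact Dp_pos' S 0
  | succ n ih => have := two_mul_Dp_le S n; omega

theorem Dp_mono (S : ℕ → Dat) {i j : ℕ} (h : i ≤ j) : Dp S i ≤ Dp S j := by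
  induction j, h using Nat.le_induction with
  | base => exact le_rfl
  | succ j _ ih => have := two_mul_Dp_le S j; omega

theorem Dp_dvd (S : ℕ → Dat) {i j : ℕ} (h : i ≤ j) : Dp S i ∣ Dp S j := by
  induction j, h using Nat.le_induction with
  | base => exact dvd_rfl
  | succ j _ ih => rw [Dp_succ']; exact ih.mul_right _

theorem Dp_add {S : ℕ → Dat} {m : ℕ} (hS : ∀ n, S (n + m) = S n) (j : ℕ) :
    Dp S (j + m) = Dp S m * Dp S j := by
  induction j with
  | zero => simp [Dp]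
  | succ j ih =>
    rw [show j + 1 + m = (j + m) + 1 by ring, Dp_succ', Dp_succ', ih, hS]
    ring

theorem Bp_add {S : ℕ → Dat} {m : ℕ} (hS : ∀ n, S (n + m) = S n) (j : ℕ) :
    Bp S (j + m) = Bp S m * Bp S j := by
  induction j with
  | zero => simp [Bp]
  | succ j ih =>
    rw [show j + 1 + m = (j + m) + 1 by ring, Bp_succ', Bp_succ', ih, hS]
    ring

theorem per_mul {α : Type*} {S : ℕ → α} {k : ℕ} (hS : ∀ n, S (n + k) = S n) (m n : ℕ) :
    S (n + m * k) = S n := by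
  induction m with
  | zero => simp
  | succ m ih => rw [show n + (m + 1) * k = (n + m * k) + k by ring, hS, ih]

theorem Dp_mul {S : ℕ → Dat} {k : ℕ} (hS : ∀ n, S (n + k) = S n) (m : ℕ) :
    Dp S (m * k) = Dp S k ^ m := by
  induction m with
  | zero => simp [Dp]
  | succ m ih => rw [Nat.succ_mul, Dp_add hS, ih, pow_succ, mul_comm]

theorem Bp_mul {S : ℕ → Dat} {k : ℕ} (hS : ∀ n, S (n + k) = S n) (m : ℕ) :
    Bp S (m * k) = Bp S k ^ m := by
  induction m with
  | zero => simp [Bp]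
  | succ m ih => rw [Nat.succ_mul, Bp_add hS, ih, pow_succ, mul_comm]

theorem Dat.Alg.b_ne {h : Dat} (hh : h.Alg) : h.b ≠ 0 := by
  rw [Dat.b]
  exact div_ne_zero hh.a0 (Nat.cast_ne_zero.mpr (by omega))

theorem Bp_ne' {S : ℕ → Dat} (hA : ∀ n, (S n).Alg) (n : ℕ) : Bp S n ≠ 0 := by
  induction n with
  | zero => simp [Bp]
  | succ n ih => rw [Bp_succ']; exact mul_ne_zero ih (hA n).b_ne

theorem qp_add {S : ℕ → Dat} {c : ℕ → ℂ} {m : ℕ} (hS : ∀ n, S (n + m) = S n)
    (hc : ∀ n, c (n + m) = c n) (j : ℕ) :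
    qp S c (j + m) = C (Bp S j) * qp S c m + (qp S c j).comp (X ^ Dp S m) := by
  induction j with
  | zero => simp [qp, Bp]
  | succ j ih =>
    rw [show j + 1 + m = (j + m) + 1 by ring]
    show C (S (j + m)).b * qp S c (j + m) + ((S (j + m)).Q + C (c (j + m))).comp
      (X ^ Dp S (j + m)) = C (Bp S (j + 1)) * qp S c m + (C (S j).b * qp S c j +
        ((S j).Q + C (c j)).comp (X ^ Dp S j)).comp (X ^ Dp S m)
    rw [hS, hc, ih, Dp_add hS, Bp_succ']
    simp only [add_comp, mul_comp, C_comp, comp_assoc, pow_comp, X_comp, C_mul, ← pow_mul]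
    ring

/-- the coefficients of the `j`-th block -/
noncomputable def gc (S : ℕ → Dat) (α : ℂ) (r j M : ℕ) : ℂ :=
  if r * Dp S j ∣ M then
    (Bp S (j + 1))⁻¹ * ((S j).Q.coeff (M / (r * Dp S j)) * (α ^ Dp S j) ^ (M / (r * Dp S j)))
  else 0

theorem coeff_comp_aux (P : ℂ[X]) (a : ℂ) (R : ℕ) (hR : 0 < R) (M : ℕ) :
    (P.comp (C a * X ^ R)).coeff M = if R ∣ M then P.coeff (M / R) * a ^ (M / R) else 0 := by
  have h1 : P.comp (C a * X ^ R) = expand ℂ R (P.comp (C a * X)) := by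
    rw [expand_eq_comp_X_pow, comp_assoc]
    simp
  rw [h1, coeff_expand hR]
  simp only [comp_C_mul_X_coeff]

theorem coeff_qp {S : ℕ → Dat} (c : ℕ → ℂ) (hA : ∀ n, (S n).Alg) (α : ℂ) {r : ℕ} (hr : 0 < r)
    {M : ℕ} (hM : 0 < M) (n : ℕ) :
    ((qp S c n).comp (C α * X ^ r)).coeff M = Bp S n * ∑ j ∈ Finset.range n, gc S α r j M := by
  induction n with
  | zero => simp [qp]
  | succ n ih =>
    have h1 : (qp S c (n + 1)).comp (C α * X ^ r) = C (S n).b * (qp S c n).comp (C α * X ^ r) +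
        ((S n).Q + C (c n)).comp (C (α ^ Dp S n) * X ^ (r * Dp S n)) := by
      show (C (S n).b * qp S c n + ((S n).Q + C (c n)).comp (X ^ Dp S n)).comp
        (C α * X ^ r) = _
      rw [add_comp, mul_comp, C_comp, comp_assoc, pow_comp, X_comp, mul_pow, ← C_pow,
        ← pow_mul]
    have hR : 0 < r * Dp S n := Nat.mul_pos hr (Dp_pos' S n)
    have h2 : (((S n).Q + C (c n)).comp (C (α ^ Dp S n) * X ^ (r * Dp S n))).coeff M =
        Bp S (n + 1) * gc S α r n M := by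
      rw [coeff_comp_aux _ _ _ hR, gc]
      split_ifs with hdvd
      · have h3 : M / (r * Dp S n) ≠ 0 :=
          (Nat.div_pos (Nat.le_of_dvd hM hdvd) hR).ne'
        rw [coeff_add, coeff_C_of_ne_zero h3, add_zero, mul_inv_cancel_left₀ (Bp_ne' hA _)]
      · simp
    rw [h1, coeff_add, coeff_C_mul, ih, h2, Finset.sum_range_succ, Bp_succ']
    ring

theorem gc_zero_of_le {S : ℕ → Dat} {α : ℂ} {r : ℕ} (hr : 0 < r) {j M : ℕ} (hM : 0 < M)
    (h : M ≤ j) : gc S α r j M = 0 := by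
  rw [gc, if_neg]
  intro hdvd
  have h1 := Nat.le_of_dvd hM hdvd
  have h2 := lt_Dp S j
  have h3 : Dp S j ≤ r * Dp S j := Nat.le_mul_of_pos_left _ hr
  omega

/-- the stable coefficients -/
noncomputable def Lam (S : ℕ → Dat) (α : ℂ) (r M : ℕ) : ℂ :=
  ∑ j ∈ Finset.range M, gc S α r j M

theorem sum_gc {S : ℕ → Dat} {α : ℂ} {r : ℕ} (hr : 0 < r) {M n : ℕ} (hM : 0 < M)
    (h : M ≤ n) : ∑ j ∈ Finset.range n, gc S α r j M = Lam S α r M := by
  rw [Lam]
  symm
  apply Finset.sum_subset (Finset.range_mono h)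
  intro j _ hj
  exact gc_zero_of_le hr hM (by simpa using hj)

/-- A nonzero coefficient comes from an admissible multiple. -/
theorem gc_ne {S : ℕ → Dat} (hA : ∀ n, (S n).Alg) {α : ℂ} {r : ℕ} {j M : ℕ}
    (hM : 0 < M) (h : gc S α r j M ≠ 0) :
    ∃ t, M = t * (r * Dp S j) ∧ 1 ≤ t ∧ (t < (S j).d ∨ t = (S j).d + 1) := by
  rw [gc] at h
  split_ifs at h with hdvd
  · obtain ⟨t, ht⟩ := hdvd
    have h0 : 0 < r * Dp S j := by
      rcases Nat.eq_zero_or_pos (r * Dp S j) with h0 | h0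
      · rw [h0, zero_mul] at ht; omega
      · exact h0
    have hdiv : M / (r * Dp S j) = t := by rw [ht, Nat.mul_div_cancel_left _ h0]
    rw [hdiv] at h
    have hQ : (S j).Q.coeff t ≠ 0 := by
      intro h'
      apply h
      rw [h']; simp
    refine ⟨t, by rw [ht, mul_comm], ?_, ?_⟩
    · rcases Nat.eq_zero_or_pos t with h1 | h1
      · rw [h1, mul_zero] at ht; omega
      · exact h1
    · have h1 : t ≤ (S j).Q.natDegree := le_natDegree_of_ne_zero hQ
      have h2 : t ≠ (S j).m + 2 := by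
        rintro rfl
        exact hQ (hA j).c1
      rw [(hA j).deg] at h1
      rw [Dat.d]
      omega
  · exact absurd rfl h

/-- Uniqueness of admissible representations. -/
theorem adm_unique (S : ℕ → Dat) {r : ℕ} (hr : 0 < r) {i j t t' : ℕ} (hij : i < j)
    (ht : 1 ≤ t) (h : t * (r * Dp S j) = t' * (r * Dp S i)) (ht' : t' < (S i).d ∨ t' = (S i).d + 1) :
    False := by
  have h1 : t * Dp S j = t' * Dp S i := by
    have : r * (t * Dp S j) = r * (t' * Dp S i) := by linarith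
    exact Nat.eq_of_mul_eq_mul_left hr this
  have h2 : Dp S (i + 1) ∣ Dp S j := Dp_dvd S hij
  have h3 : Dp S (i + 1) ≤ t' * Dp S i := by
    rw [← h1]
    exact (Nat.le_of_dvd (Dp_pos' S j) h2).trans (Nat.le_mul_of_pos_left _ ht)
  have hpos := Dp_pos' S i
  rcases ht' with ht' | ht'
  · rw [Dp_succ', mul_comm] at h3
    have := Nat.le_of_mul_le_mul_right h3 hpos
    omega
  · have h4 : t' * Dp S i = Dp S (i + 1) + Dp S i := by
      rw [ht', Dp_succ']; ring
    have h5 : Dp S (i + 1) ∣ Dp S (i + 1) + Dp S i := by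
      rw [← h4, ← h1]
      exact h2.mul_left _
    have h6 : Dp S (i + 1) ∣ Dp S i := (Nat.dvd_add_right (dvd_refl _)).mp h5
    have h7 := Nat.le_of_dvd hpos h6
    have h8 := two_mul_Dp_le S i
    omega

theorem Lam_adm {S : ℕ → Dat} (hA : ∀ n, (S n).Alg) {α : ℂ} {r : ℕ} (hr : 0 < r)
    {j t : ℕ} (ht : 1 ≤ t) (hadm : t < (S j).d ∨ t = (S j).d + 1) :
    Lam S α r (t * (r * Dp S j)) =
      (Bp S (j + 1))⁻¹ * ((S j).Q.coeff t * (α ^ Dp S j) ^ t) := by
  have hR : 0 < r * Dp S j := Nat.mul_pos hr (Dp_pos' S j)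
  have hM : 0 < t * (r * Dp S j) := Nat.mul_pos ht hR
  have h1 : gc S α r j (t * (r * Dp S j)) =
      (Bp S (j + 1))⁻¹ * ((S j).Q.coeff t * (α ^ Dp S j) ^ t) := by
    rw [gc, if_pos (Dvd.intro_left _ rfl), Nat.mul_div_cancel _ hR]
  rw [← h1, ← sum_gc hr hM (le_max_left (t * (r * Dp S j)) (j + 1))]
  apply Finset.sum_eq_single_of_mem
  · rw [Finset.mem_range]
    exact lt_of_lt_of_le (Nat.lt_succ_self j) (le_max_right _ _)
  · intro i _ hij
    by_contra hne
    obtain ⟨t', ht', h2, h3⟩ := gc_ne hA hM hne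
    rcases lt_or_gt_of_ne hij with h4 | h4
    · exact adm_unique S hr h4 ht ht' h3
    · exact adm_unique S hr h4 h2 ht'.symm hadm

/-- For all `t ≥ 1` (not only admissible ones) if the value at non-admissible ones is not
needed. -/
theorem Lam_ne {S : ℕ → Dat} (hA : ∀ n, (S n).Alg) {α : ℂ} (hα : α ≠ 0) {r : ℕ} (hr : 0 < r)
    (j : ℕ) : Lam S α r (((S j).d + 1) * (r * Dp S j)) ≠ 0 := by
  rw [Lam_adm hA hr (by omega) (Or.inr rfl)]
  have h1 : (S j).Q.coeff ((S j).d + 1) = 1 := by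
    have := (hA j).mon
    rw [Monic, leadingCoeff, (hA j).deg] at this
    exact this
  rw [h1, one_mul]
  exact mul_ne_zero (inv_ne_zero (Bp_ne' hA _)) (pow_ne_zero _ (pow_ne_zero _ hα))

theorem exists_adm {S : ℕ → Dat} (hA : ∀ n, (S n).Alg) {α : ℂ} {r : ℕ} {M : ℕ} (hM : 0 < M)
    (h : Lam S α r M ≠ 0) :
    ∃ j t, M = t * (r * Dp S j) ∧ 1 ≤ t ∧ (t < (S j).d ∨ t = (S j).d + 1) := by
  obtain ⟨j, _, hj⟩ := Finset.exists_ne_zero_of_sum_ne_zero h
  obtain ⟨t, ht⟩ := gc_ne hA hM hj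
  exact ⟨j, t, ht⟩

theorem pow_alpha {α : ℂ} {N : ℕ} (hN : 0 < N) (hα : α ^ (N - 1) = 1) : α ^ N = α := by
  obtain ⟨n, rfl⟩ : ∃ n, N = n + 1 := ⟨N - 1, by omega⟩
  rw [pow_succ]
  simp only [Nat.add_sub_cancel] at hα
  rw [hα, one_mul]

theorem pow_alpha' {α : ℂ} {N : ℕ} (hα : α ^ N = α) (m : ℕ) : α ^ (N ^ m) = α := by
  induction m with
  | zero => simp
  | succ m ih => rw [pow_succ, pow_mul, ih, hα]

theorem gc_shift {S : ℕ → Dat} {k : ℕ} (hS : ∀ n, S (n + k) = S n) {α : ℂ}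
    (hα : α ^ Dp S k = α) {r : ℕ} (j M : ℕ) :
    gc S α r (j + k) (Dp S k * M) = (Bp S k)⁻¹ * gc S α r j M := by
  have hN : 0 < Dp S k := Dp_pos' S k
  have e1 : r * Dp S (j + k) = Dp S k * (r * Dp S j) := by rw [Dp_add hS]; ring
  have e2 : Bp S (j + k + 1) = Bp S k * Bp S (j + 1) := by
    rw [show j + k + 1 = (j + 1) + k by ring, Bp_add hS]
  have e3 : α ^ Dp S (j + k) = α ^ Dp S j := by
    rw [Dp_add hS, pow_mul, hα]
  rw [gc, gc, e1, e2, e3, hS]
  by_cases hdvd : r * Dp S j ∣ M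
  · rw [if_pos hdvd, if_pos (Nat.mul_dvd_mul_left _ hdvd), Nat.mul_div_mul_left _ _ hN,
      mul_inv]
    ring
  · rw [if_neg hdvd, if_neg, mul_zero]
    intro h
    exact hdvd (Nat.dvd_of_mul_dvd_mul_left hN h)

theorem Lam_shift {S : ℕ → Dat} (hA : ∀ n, (S n).Alg) {k : ℕ}
    (hS : ∀ n, S (n + k) = S n) {α : ℂ} (hα : α ^ Dp S k = α) {r : ℕ} (hr : 0 < r)
    {M : ℕ} (hM : 2 * r ≤ M) :
    Lam S α r (Dp S k * M) = (Bp S k)⁻¹ * Lam S α r M := by
  have hN : 0 < Dp S k := Dp_pos' S k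
  have hM0 : 0 < M := by omega
  have hNM : 0 < Dp S k * M := Nat.mul_pos hN hM0
  have h1 : Lam S α r (Dp S k * M) =
      ∑ j ∈ Finset.range (k + Dp S k * M), gc S α r j (Dp S k * M) :=
    (sum_gc hr hNM (by omega)).symm
  rw [h1, Finset.sum_range_add]
  have h2 : ∑ j ∈ Finset.range k, gc S α r j (Dp S k * M) = 0 := by
    apply Finset.sum_eq_zero
    intro j hj
    rw [Finset.mem_range] at hj
    by_contra hne
    obtain ⟨t, ht, ht1, ht2⟩ := gc_ne hA hNM hne
    have h3 : t ≤ (S j).d + 1 := by omega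
    have h4 : Dp S (j + 1) ≤ Dp S k := Dp_mono S hj
    have h5 := two_mul_Dp_le S j
    have h6 := Dp_pos' S j
    have h7 : t * (r * Dp S j) ≤ r * (Dp S (j + 1) + Dp S j) := by
      calc t * (r * Dp S j) ≤ ((S j).d + 1) * (r * Dp S j) := Nat.mul_le_mul_right _ h3
        _ = r * (Dp S (j + 1) + Dp S j) := by rw [Dp_succ']; ring
    have h8 : r * (Dp S (j + 1) + Dp S j) < r * (2 * Dp S k) :=
      Nat.mul_lt_mul_of_pos_left (by omega) hr
    have h9 : r * (2 * Dp S k) ≤ Dp S k * M := by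
      calc r * (2 * Dp S k) = Dp S k * (2 * r) := by ring
        _ ≤ _ := Nat.mul_le_mul_left _ hM
    omega
  rw [h2, zero_add]
  have h3 : ∀ j, gc S α r (k + j) (Dp S k * M) = (Bp S k)⁻¹ * gc S α r j M := by
    intro j
    rw [add_comm k j]
    exact gc_shift hS hα j M
  simp only [h3]
  rw [← Finset.mul_sum, sum_gc hr hM0 (Nat.le_mul_of_pos_left _ hN)]

/-- The iterated functional equation. -/
theorem iter_eq {S S' : ℕ → Dat} {k l : ℕ} (hS : ∀ n, S (n + k) = S n)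
    (hS' : ∀ n, S' (n + l) = S' n) {c c' : ℕ → ℂ} (hc : ∀ n, c (n + k) = c n)
    (hc' : ∀ n, c' (n + l) = c' n)
    (hd : Dp S k = Dp S' l) (hβ : Bp S k = Bp S' l) {b α : ℂ} {r : ℕ} {h : ℂ → ℂ}
    (hα : α ^ Dp S k = α)
    (hE : ∀ z, 1 < ‖z‖ → b * (qp S c k).eval z + h (z ^ Dp S k) =
      Bp S k * h z + (qp S' c' l).eval (α * z ^ r)) (n : ℕ) :
    ∀ z, 1 < ‖z‖ → b * (qp S c (n * k)).eval z + h (z ^ (Dp S k ^ n)) =
      Bp S k ^ n * h z + (qp S' c' (n * l)).eval (α * z ^ r) := by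
  induction n with
  | zero => intro z _; simp [qp]
  | succ n ih =>
    intro z hz
    have hNpos : 0 < Dp S k := Dp_pos' S k
    have e1 : (n + 1) * k = k + n * k := by ring
    have e2 : (n + 1) * l = l + n * l := by ring
    have g1 : qp S c ((n + 1) * k) = C (Bp S k) * qp S c (n * k) +
        (qp S c k).comp (X ^ (Dp S k ^ n)) := by
      rw [e1, qp_add (per_mul hS n) (per_mul hc n), Dp_mul hS]
    have g2 : qp S' c' ((n + 1) * l) = C (Bp S k) * qp S' c' (n * l) +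
        (qp S' c' l).comp (X ^ (Dp S k ^ n)) := by
      rw [e2, qp_add (per_mul hS' n) (per_mul hc' n), Dp_mul hS', hβ, hd]
    have hw : 1 < ‖z ^ (Dp S k ^ n)‖ := by
      rw [norm_pow]
      exact one_lt_pow₀ hz (pow_pos hNpos n).ne'
    have k1 := ih z hz
    have k2 := hE _ hw
    have e3 : (z ^ (Dp S k ^ n)) ^ Dp S k = z ^ (Dp S k ^ (n + 1)) := by
      rw [← pow_mul, pow_succ]
    have e4 : (α * z ^ r) ^ (Dp S k ^ n) = α * (z ^ (Dp S k ^ n)) ^ r := by
      rw [mul_pow, pow_alpha' hα, ← pow_mul, ← pow_mul, mul_comm r]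
    rw [g1, g2]
    simp only [eval_add, eval_mul, eval_C, eval_comp, eval_pow, eval_X]
    rw [e4]
    rw [e3] at k2
    linear_combination (Bp S k) * k1 + k2

/-- The stable coefficients of both sides agree. -/
theorem Lam_eq {S S' : ℕ → Dat} {k l : ℕ} (hk : 0 < k) (hl : 0 < l)
    (hS : ∀ n, S (n + k) = S n)
    (hS' : ∀ n, S' (n + l) = S' n) {c c' : ℕ → ℂ} (hc : ∀ n, c (n + k) = c n)
    (hc' : ∀ n, c' (n + l) = c' n) (hA : ∀ n, (S n).Alg) (hA' : ∀ n, (S' n).Alg)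
    (hd : Dp S k = Dp S' l) (hβ : Bp S k = Bp S' l) {b α : ℂ} {r : ℕ} {h : ℂ → ℂ}
    (hr : 0 < r) (hα : α ^ Dp S k = α) (hcont : ContinuousOn h {z | 1 < ‖z‖})
    (hE : ∀ z, 1 < ‖z‖ → b * (qp S c k).eval z + h (z ^ Dp S k) =
      Bp S k * h z + (qp S' c' l).eval (α * z ^ r)) {M : ℕ} (hM : 2 * r ≤ M) :
    b * Lam S 1 1 M = Lam S' α r M := by
  obtain ⟨K, hK⟩ := coeff_bound h hcont 2 (by norm_num)
  have hβ0 : Bp S k ≠ 0 := Bp_ne' hA k
  set N := Dp S k with hN
  have hN1 : 1 < N := by have := lt_Dp S k; omega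
  -- the bound for all coefficients
  have hbound : ∀ M : ℕ, 0 < M → ‖b * Lam S 1 1 M - Lam S' α r M‖ * 2 ^ M ≤ K := by
    intro M hM
    have h1 := hK (C (b * (Bp S k ^ M)⁻¹) * qp S c (M * k) -
      C ((Bp S k ^ M)⁻¹) * (qp S' c' (M * l)).comp (C α * X ^ r)) (N ^ M) ((Bp S k ^ M)⁻¹)
      (by
        intro z hz
        have h2 := iter_eq hS hS' hc hc' hd hβ hα hE M z hz
        have h3 : Bp S k ^ M ≠ 0 := pow_ne_zero _ hβ0
        simp only [eval_sub, eval_mul, eval_C, eval_comp, eval_pow, eval_X]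
        field_simp
        linear_combination h2) M hM (Nat.lt_pow_self hN1)
    have e1 : (qp S c (M * k)).coeff M = Bp S k ^ M * Lam S 1 1 M := by
      have h2 := coeff_qp c hA 1 one_pos hM (M * k)
      rw [sum_gc one_pos hM (Nat.le_mul_of_pos_right _ hk), Bp_mul hS] at h2
      rw [← h2]
      simp
    have e2 : ((qp S' c' (M * l)).comp (C α * X ^ r)).coeff M =
        Bp S k ^ M * Lam S' α r M := by
      have h2 := coeff_qp c' hA' α hr hM (M * l)
      rw [sum_gc hr hM (Nat.le_mul_of_pos_right _ hl), Bp_mul hS', ← hβ] at h2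
      exact h2
    rw [coeff_sub, coeff_C_mul, coeff_C_mul, e1, e2] at h1
    have h3 : Bp S k ^ M ≠ 0 := pow_ne_zero _ hβ0
    have e3 : b * (Bp S k ^ M)⁻¹ * (Bp S k ^ M * Lam S 1 1 M) -
        (Bp S k ^ M)⁻¹ * (Bp S k ^ M * Lam S' α r M) = b * Lam S 1 1 M - Lam S' α r M := by
      field_simp
    rwa [e3] at h1
  -- homogeneity
  have hhom : ∀ n : ℕ, b * Lam S 1 1 (N ^ n * M) - Lam S' α r (N ^ n * M) =
      (Bp S k ^ n)⁻¹ * (b * Lam S 1 1 M - Lam S' α r M) := by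
    intro n
    induction n with
    | zero => simp
    | succ n ih =>
      have hge : 2 * r ≤ N ^ n * M :=
        hM.trans (Nat.le_mul_of_pos_left _ (pow_pos (by omega) n))
      have h1 := Lam_shift (α := 1) hA hS (by simp) one_pos
        (M := N ^ n * M) (by omega)
      have h2 := Lam_shift (α := α) hA' hS' (by rw [← hd]; exact hα) hr (M := N ^ n * M) hge
      rw [← hd, ← hβ] at h2
      rw [← hN] at h1
      have e1 : N ^ (n + 1) * M = N * (N ^ n * M) := by ring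
      rw [e1, h1, h2, pow_succ, mul_inv]
      linear_combination (Bp S k)⁻¹ * ih
  -- the limit
  have hMpos : 0 < M := by omega
  obtain ⟨s, hs⟩ : ∃ s : ℕ, ‖Bp S k‖ ≤ (N : ℝ) ^ s := by
    obtain ⟨s, hs⟩ := pow_unbounded_of_one_lt ‖Bp S k‖ (show (1 : ℝ) < N by exact_mod_cast hN1)
    exact ⟨s, hs.le⟩
  have hle : ∀ n : ℕ, ‖b * Lam S 1 1 M - Lam S' α r M‖ ≤
      |K| * ((((N ^ n * M : ℕ) : ℝ)) ^ s / 2 ^ (N ^ n * M)) := by
    intro n
    have h1 := hbound (N ^ n * M) (Nat.mul_pos (pow_pos (by omega) n) hMpos)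
    rw [hhom n, norm_mul, norm_inv, norm_pow] at h1
    have hβn : 0 < ‖Bp S k‖ ^ n := pow_pos (norm_pos_iff.mpr hβ0) n
    have h2n : (0 : ℝ) < 2 ^ (N ^ n * M) := by positivity
    have h2 : ‖b * Lam S 1 1 M - Lam S' α r M‖ ≤ K * ‖Bp S k‖ ^ n / 2 ^ (N ^ n * M) := by
      rw [le_div_iff₀ h2n]
      calc ‖b * Lam S 1 1 M - Lam S' α r M‖ * 2 ^ (N ^ n * M)
          = ((‖Bp S k‖ ^ n)⁻¹ * ‖b * Lam S 1 1 M - Lam S' α r M‖ * 2 ^ (N ^ n * M)) *
              ‖Bp S k‖ ^ n := by field_simp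
        _ ≤ K * ‖Bp S k‖ ^ n := mul_le_mul_of_nonneg_right h1 hβn.le
    have h3 : ‖Bp S k‖ ^ n ≤ ((N ^ n * M : ℕ) : ℝ) ^ s := by
      calc ‖Bp S k‖ ^ n ≤ ((N : ℝ) ^ s) ^ n := pow_le_pow_left₀ (norm_nonneg _) hs n
        _ = ((N : ℝ) ^ n) ^ s := by rw [← pow_mul, ← pow_mul, mul_comm]
        _ ≤ ((N ^ n * M : ℕ) : ℝ) ^ s := by
            apply pow_le_pow_left₀ (by positivity)
            push_cast
            have : (1 : ℝ) ≤ M := by exact_mod_cast hMpos
            nlinarith [show (0 : ℝ) ≤ (N : ℝ) ^ n by positivity]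
    calc ‖b * Lam S 1 1 M - Lam S' α r M‖ ≤ K * ‖Bp S k‖ ^ n / 2 ^ (N ^ n * M) := h2
      _ ≤ |K| * ((N ^ n * M : ℕ) : ℝ) ^ s / 2 ^ (N ^ n * M) := by
          apply div_le_div_of_nonneg_right _ h2n.le
          exact mul_le_mul (le_abs_self K) h3 hβn.le (abs_nonneg K)
      _ = _ := by rw [mul_div_assoc]
  have hlim : Tendsto (fun n : ℕ => |K| * ((((N ^ n * M : ℕ) : ℝ)) ^ s / 2 ^ (N ^ n * M)))
      atTop (𝓝 (|K| * 0)) := by
    apply Tendsto.const_mul
    have h1 : Tendsto (fun n : ℕ => (n : ℝ) ^ s / 2 ^ n) atTop (𝓝 0) :=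
      tendsto_pow_const_div_const_pow_of_one_lt s (by norm_num)
    have h2 : Tendsto (fun n : ℕ => N ^ n * M) atTop atTop := by
      apply tendsto_atTop_mono _ (tendsto_id)
      intro n
      exact (Nat.lt_pow_self hN1).le.trans (Nat.le_mul_of_pos_right _ hMpos)
    exact h1.comp h2
  have hfin : ‖b * Lam S 1 1 M - Lam S' α r M‖ ≤ 0 := by
    have := ge_of_tendsto' hlim hle
    simpa using this
  have h0 := norm_le_zero_iff.mp hfin
  exact sub_eq_zero.mp h0

end aux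

/-- The functional equation of the models determines the data. -/
theorem comb {S S' : ℕ → Dat} {k l : ℕ} (hk : 0 < k) (hl : 0 < l) (hS : ∀ n, S (n + k) = S n)
    (hS' : ∀ n, S' (n + l) = S' n) {c c' : ℕ → ℂ} (hc : ∀ n, c (n + k) = c n)
    (hc' : ∀ n, c' (n + l) = c' n) (hA : ∀ n, (S n).Alg) (hA' : ∀ n, (S' n).Alg)
    (hd : Dp S k = Dp S' l) (hβ : Bp S k = Bp S' l) {b α : ℂ} {r : ℕ} {h : ℂ → ℂ} (hb : b ≠ 0)
    (hr : 0 < r) (hα : α ^ (Dp S k - 1) = 1) (hcont : ContinuousOn h {z | 1 < ‖z‖})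
    (hE : ∀ z, 1 < ‖z‖ → b * (qp S c k).eval z + h (z ^ Dp S k) =
      Bp S k * h z + (qp S' c' l).eval (α * z ^ r)) :
    k = l ∧ ∃ s : ℕ, ∀ n, (S (n + s)).m = (S' n).m ∧
      (S (n + 1 + s)).a * α ^ Dp S' (n + 2) = (S' (n + 1)).a * α ^ Dp S' n ∧
      ∀ t, 1 ≤ t → (S (n + s)).Q.coeff t * α ^ (Dp S' n + Dp S' (n + 1)) =
        (S' n).Q.coeff t * α ^ (Dp S' n * t) := by
  have hNpos : 0 < Dp S k := Dp_pos' S k
  have hN1 : 1 < Dp S k := by have := lt_Dp S k; omega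
  have hα1 : α ^ Dp S k = α := pow_alpha hNpos hα
  have hα0 : α ≠ 0 := by
    rintro rfl
    rw [zero_pow (by omega)] at hα
    exact zero_ne_one hα
  have hL : ∀ M, 2 * r ≤ M → b * Lam S 1 1 M = Lam S' α r M := fun M hM =>
    Lam_eq hk hl hS hS' hc hc' hA hA' hd hβ hr hα1 hcont hE hM
  -- chains
  have h1 : ∀ j, 2 * r ≤ j → ∃ i t, Dp S j + Dp S (j + 1) = t * (r * Dp S' i) ∧ 1 ≤ t ∧
      (t < (S' i).d ∨ t = (S' i).d + 1) := by
    intro j hj
    have e1 : Dp S j + Dp S (j + 1) = ((S j).d + 1) * (1 * Dp S j) := by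
      rw [Dp_succ']; ring
    have hge : 2 * r ≤ Dp S j + Dp S (j + 1) := by
      have := lt_Dp S j
      omega
    have h2 := hL _ hge
    have h3 : Lam S 1 1 (Dp S j + Dp S (j + 1)) ≠ 0 := by
      rw [e1]
      exact Lam_ne hA one_ne_zero one_pos j
    exact exists_adm hA' (by omega) (by rw [← h2]; exact mul_ne_zero hb h3)
  have h2 : ∀ i, 2 * r ≤ i → ∃ j t, r * Dp S' i + r * Dp S' (i + 1) = t * Dp S j ∧ 1 ≤ t ∧
      (t < (S j).d ∨ t = (S j).d + 1) := by
    intro i _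
    have e1 : r * Dp S' i + r * Dp S' (i + 1) = ((S' i).d + 1) * (r * Dp S' i) := by
      rw [Dp_succ']; ring
    have hge : 2 * r ≤ r * Dp S' i + r * Dp S' (i + 1) := by
      have g1 := Dp_pos' S' i
      have g2 := Dp_pos' S' (i + 1)
      nlinarith
    have h2 := hL _ hge
    have h3 : Lam S' α r (r * Dp S' i + r * Dp S' (i + 1)) ≠ 0 := by
      rw [e1]
      exact Lam_ne hA' hα0 hr i
    have h4 : Lam S 1 1 (r * Dp S' i + r * Dp S' (i + 1)) ≠ 0 := by
      intro h0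
      rw [h0, mul_zero] at h2
      exact h3 h2.symm
    obtain ⟨j, t, g1, g2⟩ := exists_adm hA (by omega) h4
    exact ⟨j, t, by rw [g1, one_mul], g2⟩
  obtain ⟨hkl, i₀, j₀, hij⟩ := chain_lemma (fun j => Dp S j) (fun i => r * Dp S' i)
    (fun j => (S j).d) (fun i => (S' i).d) k l (Dp S k) hk hl (by simp [Dp])
    (by simpa [Dp] using hr) (fun j => by simp [Dat.d]) (fun j => by simp [Dat.d])
    (fun j => by show Dp S (j + 1) = _; rw [Dp_succ', mul_comm])
    (fun j => by show r * Dp S' (j + 1) = _; rw [Dp_succ']; ring)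
    (fun j => by show (S (j + k)).d = _; rw [hS]) (fun j => by show (S' (j + l)).d = _; rw [hS'])
    (by show Dp S k = _ * 1; rw [mul_one])
    (by show r * Dp S' l = _ * (r * 1); rw [hd]; ring) (2 * r) h1 h2
  refine ⟨hkl, ?_⟩
  -- shift to a multiple of the period
  have hij' : ∀ n, r * Dp S' (i₀ + n) = Dp S (j₀ + n) := hij
  set i₁ := (i₀ + 1) * l with hi₁
  have hi₁ge : i₀ + 1 ≤ i₁ := Nat.le_mul_of_pos_right _ hl
  set s := j₀ + (i₁ - i₀) with hs
  have hEq : ∀ n, r * Dp S' (n + i₁) = Dp S (n + s) := by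
    intro n
    have := hij' (n + (i₁ - i₀))
    rw [show i₀ + (n + (i₁ - i₀)) = n + i₁ by omega,
      show j₀ + (n + (i₁ - i₀)) = n + s by omega] at this
    exact this
  have hSp : ∀ n, S' (n + i₁) = S' n := per_mul hS' (i₀ + 1)
  have hDp : ∀ n, α ^ Dp S' (n + i₁) = α ^ Dp S' n := by
    intro n
    rw [Dp_add hSp, hi₁, Dp_mul hS', pow_mul, ← hd, pow_alpha' hα1]
  have hdeg : ∀ n, (S (n + s)).d = (S' n).d := by
    intro n
    have g1 := hEq n
    have g2 := hEq (n + 1)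
    rw [show n + 1 + i₁ = (n + i₁) + 1 by ring, show n + 1 + s = (n + s) + 1 by ring,
      Dp_succ', Dp_succ', hSp, ← mul_assoc, g1] at g2
    exact (Nat.eq_of_mul_eq_mul_left (Dp_pos' S (n + s)) g2).symm
  -- comparison of the coefficients
  have hcoef : ∀ n t, 1 ≤ t → b * ((Bp S (n + s + 1))⁻¹ * (S (n + s)).Q.coeff t) =
      (Bp S' (n + i₁ + 1))⁻¹ * ((S' n).Q.coeff t * (α ^ Dp S' n) ^ t) := by
    intro n t ht
    by_cases hadm : t < (S' n).d ∨ t = (S' n).d + 1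
    · have hge : 2 * r ≤ t * (r * Dp S' (n + i₁)) := by
        have g1 := lt_Dp S' (n + i₁)
        have g2 : 2 ≤ Dp S' (n + i₁) := by omega
        calc 2 * r ≤ r * Dp S' (n + i₁) := by rw [mul_comm]; exact Nat.mul_le_mul_left _ g2
          _ ≤ _ := Nat.le_mul_of_pos_left _ ht
      have g1 := hL _ hge
      rw [Lam_adm hA' hr ht (by rw [hSp]; exact hadm), hEq] at g1
      have g2 := Lam_adm (α := 1) hA one_pos (j := n + s) ht (by rw [hdeg]; exact hadm)
      rw [one_mul] at g2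
      rw [g2, hSp, hDp] at g1
      simpa using g1
    · have z1 : (S' n).Q.coeff t = 0 := by
        by_contra hne
        have g1 : t ≤ (S' n).Q.natDegree := le_natDegree_of_ne_zero hne
        have g2 : t ≠ (S' n).m + 2 := by
          rintro rfl
          exact hne (hA' n).c1
        rw [(hA' n).deg] at g1
        apply hadm
        rw [Dat.d]
        omega
      have z2 : (S (n + s)).Q.coeff t = 0 := by
        by_contra hne
        have g1 : t ≤ (S (n + s)).Q.natDegree := le_natDegree_of_ne_zero hne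
        have g2 : t ≠ (S (n + s)).m + 2 := by
          rintro rfl
          exact hne (hA (n + s)).c1
        rw [(hA (n + s)).deg] at g1
        apply hadm
        rw [← hdeg n, Dat.d]
        omega
      rw [z1, z2]
      simp
  have htop : ∀ n, b * (Bp S (n + s + 1))⁻¹ =
      (Bp S' (n + i₁ + 1))⁻¹ * α ^ (Dp S' n + Dp S' (n + 1)) := by
    intro n
    have g := hcoef n ((S' n).d + 1) (by omega)
    have g1 : (S' n).Q.coeff ((S' n).d + 1) = 1 := by
      have := (hA' n).mon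
      rw [Monic, leadingCoeff, (hA' n).deg] at this
      exact this
    have g2 : (S (n + s)).Q.coeff ((S' n).d + 1) = 1 := by
      have := (hA (n + s)).mon
      rw [Monic, leadingCoeff, (hA (n + s)).deg] at this
      rw [← hdeg n]
      exact this
    rw [g1, g2, mul_one, one_mul, ← pow_mul, Nat.mul_succ] at g
    rw [g, Dp_succ', add_comm (Dp S' n)]
  refine ⟨s, fun n => ⟨?_, ?_, ?_⟩⟩
  · have := hdeg n
    simp only [Dat.d] at this
    omega
  · have g1 := htop n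
    have g2 := htop (n + 1)
    have e1 : Bp S (n + 1 + s + 1) = Bp S (n + s + 1) * (S (n + 1 + s)).b := by
      rw [Bp_succ', show n + 1 + s = n + s + 1 by ring]
    have e2 : Bp S' (n + 1 + i₁ + 1) = Bp S' (n + i₁ + 1) * (S' (n + 1)).b := by
      rw [Bp_succ', hSp, show n + 1 + i₁ = n + i₁ + 1 by ring]
    rw [e1, e2, mul_inv, mul_inv, ← mul_assoc, g1, show n + 1 + 1 = n + 2 by rfl] at g2
    have n1 : Bp S' (n + i₁ + 1) ≠ 0 := Bp_ne' hA' _
    have n2 : (S (n + 1 + s)).b ≠ 0 := (hA _).b_ne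
    have n3 : (S' (n + 1)).b ≠ 0 := (hA' _).b_ne
    have n4 : α ^ Dp S' (n + 1) ≠ 0 := pow_ne_zero _ hα0
    rw [pow_add, pow_add] at g2
    have g3 : α ^ Dp S' n * (S' (n + 1)).b = α ^ Dp S' (n + 2) * (S (n + 1 + s)).b := by
      field_simp at g2
      rw [g2]
      ring
    have hmm : (S (n + 1 + s)).m = (S' (n + 1)).m := by
      have := hdeg (n + 1)
      simp only [Dat.d] at this
      omega
    rw [Dat.b, Dat.b, hmm] at g3
    have n5 : (((S' (n + 1)).m + 2 : ℕ) : ℂ) ≠ 0 := Nat.cast_ne_zero.mpr (by omega)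
    field_simp at g3
    linear_combination -g3
  · intro t ht
    have g := hcoef n t ht
    have g1 := htop n
    have n1 : Bp S' (n + i₁ + 1) ≠ 0 := Bp_ne' hA' _
    rw [← mul_assoc, g1, mul_assoc] at g
    have g2 := mul_left_cancel₀ (inv_ne_zero n1) g
    rw [pow_mul]
    linear_combination g2

end Pool.Agent.H907.Henon
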