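import Mathlib

/-!
General complex analysis lemmas.
-/

open Filter Topology Set Metric

namespace Pool.Agent.H907.Henon

variable {E F : Type*} [NormedAddCommGroup E] [NormedSpace ℂ E] [NormedAddCommGroup F]
  [NormedSpace ℂ F]

/-- Schwarz type Lipschitz estimate from a bound. -/
theorem dist_le_of_bound {f : E → F} {c z : E} {R M : ℝ} (hd : DifferentiableOn ℂ f (ball c R))
    (hM : ∀ x ∈ ball c R, ‖f x‖ ≤ M) (hz : z ∈ ball c R) :
    ‖f z - f c‖ ≤ 2 * M / R * ‖z - c‖ := by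
  have hR : 0 < R := nonempty_ball.mp ⟨_, hz⟩
  have h := Complex.dist_le_div_mul_dist_of_mapsTo_ball (R₂ := 2 * M) hd (fun x hx => by
    rw [mem_closedBall, dist_eq_norm]
    calc ‖f x - f c‖ ≤ ‖f x‖ + ‖f c‖ := norm_sub_le _ _
      _ ≤ M + M := add_le_add (hM x hx) (hM c (mem_ball_self hR))
      _ = 2 * M := by ring) hz
  simpa [dist_eq_norm] using h

theorem norm_fderiv_le_of_bound {f : E → F} {c : E} {R M : ℝ} (hR : 0 < R)
    (hd : DifferentiableOn ℂ f (ball c R)) (hM : ∀ x ∈ ball c R, ‖f x‖ ≤ M) :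
    ‖fderiv ℂ f c‖ ≤ 2 * M / R := by
  refine Complex.norm_fderiv_le_div_of_mapsTo_ball hd (fun x hx => ?_) hR
  rw [mem_closedBall, dist_eq_norm]
  calc ‖f x - f c‖ ≤ ‖f x‖ + ‖f c‖ := norm_sub_le _ _
    _ ≤ M + M := add_le_add (hM x hx) (hM c (mem_ball_self hR))
    _ = 2 * M := by ring

/-- A series of holomorphic functions with a summable bound is holomorphic. -/
theorem differentiableOn_tsum' [CompleteSpace F] {U : Set E} (hU : IsOpen U) {f : ℕ → E → F}
    {u : ℕ → ℝ} (hu : Summable u) (hf : ∀ n, DifferentiableOn ℂ (f n) U)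
    (hb : ∀ n, ∀ x ∈ U, ‖f n x‖ ≤ u n) :
    DifferentiableOn ℂ (fun x => ∑' n, f n x) U := by
  intro x hx
  obtain ⟨r, hr, hrU⟩ := Metric.isOpen_iff.1 hU x hx
  have hr2 : 0 < r / 2 := by positivity
  have hsub : ∀ y ∈ ball x (r / 2), ball y (r / 2) ⊆ U := by
    intro y hy z hz
    refine hrU ?_
    rw [mem_ball] at *
    calc dist z x ≤ dist z y + dist y x := dist_triangle _ _ _
      _ < r / 2 + r / 2 := add_lt_add hz hy
      _ = r := by ring
  have h := hasFDerivAt_tsum_of_isPreconnected (𝕜 := ℂ) (u := fun n => 2 * u n / (r / 2))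
    (s := ball x (r / 2)) (f := f) (f' := fun n y => fderiv ℂ (f n) y) (x₀ := x) (x := x)
    ((hu.mul_left 2).div_const _) isOpen_ball (convex_ball x (r / 2)).isPreconnected ?_ ?_ (mem_ball_self hr2) ?_ (mem_ball_self hr2)
  · exact h.differentiableAt.differentiableWithinAt
  · intro n y hy
    have hy' : y ∈ U := hsub y hy (mem_ball_self hr2)
    exact ((hf n y hy').differentiableAt (hU.mem_nhds hy')).hasFDerivAt
  · intro n y hy
    exact norm_fderiv_le_of_bound hr2 ((hf n).mono (hsub y hy)) fun z hz => hb n z (hsub y hy hz)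
  · exact Summable.of_norm_bounded hu fun n => hb n x hx

/-- A bounded holomorphic function on `|x| > R` has a limit at infinity, with rate. -/
theorem exists_lim_inf {g : ℂ → ℂ} {R K : ℝ} (hR : 0 < R)
    (hg : DifferentiableOn ℂ g {x | R < ‖x‖}) (hK : ∀ x, R < ‖x‖ → ‖g x‖ ≤ K) :
    ∃ c : ℂ, ‖c‖ ≤ K ∧ ∀ x, R < ‖x‖ → ‖g x - c‖ ≤ 2 * K * R / ‖x‖ := by
  set G : ℂ → ℂ := fun u => g u⁻¹ with hG
  have hball : ∀ u ∈ ball (0 : ℂ) R⁻¹ \ {0}, R < ‖u⁻¹‖ := by
    intro u hu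
    have h0 : u ≠ 0 := fun h => hu.2 (by simp [h])
    have h1 : ‖u‖ < R⁻¹ := by simpa using hu.1
    rw [norm_inv, lt_inv_comm₀ hR (norm_pos_iff.2 h0)]
    exact h1
  have hGd : DifferentiableOn ℂ G (ball 0 R⁻¹ \ {0}) := by
    intro u hu
    have h0 : u ≠ 0 := fun h => hu.2 (by simp [h])
    have h1 := hball u hu
    have hopen : IsOpen {x : ℂ | R < ‖x‖} := isOpen_lt continuous_const continuous_norm
    have h2 : DifferentiableAt ℂ g u⁻¹ := (hg u⁻¹ h1).differentiableAt (hopen.mem_nhds h1)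
    exact (h2.comp u (differentiableAt_inv h0)).differentiableWithinAt
  have hR' : 0 < R⁻¹ := inv_pos.2 hR
  have hb : BddAbove (norm ∘ G '' (ball (0:ℂ) R⁻¹ \ {0})) := by
    refine ⟨K, ?_⟩
    rintro _ ⟨u, hu, rfl⟩
    exact hK _ (hball u hu)
  have key := Complex.differentiableOn_update_limUnder_of_bddAbove
    (isOpen_ball.mem_nhds (mem_ball_self hR')) hGd hb
  set c := limUnder (𝓝[≠] (0:ℂ)) G with hc
  set G1 := Function.update G 0 c with hG1
  have hG1u : ∀ u, u ≠ 0 → G1 u = G u := fun u hu => by simp [hG1, Function.update_of_ne hu]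
  have hcont : ContinuousAt G1 0 :=
    (key 0 (mem_ball_self hR')).continuousWithinAt.continuousAt
      (isOpen_ball.mem_nhds (mem_ball_self hR'))
  have hG10 : G1 0 = c := by simp [hG1]
  have hcK : ‖c‖ ≤ K := by
    have h1 : Tendsto (fun u => ‖G1 u‖) (𝓝[≠] (0:ℂ)) (𝓝 ‖c‖) := by
      rw [← hG10]; exact (hcont.tendsto.norm).mono_left nhdsWithin_le_nhds
    refine le_of_tendsto h1 ?_
    have h2 : ball (0:ℂ) R⁻¹ ∈ 𝓝[≠] (0:ℂ) :=
      nhdsWithin_le_nhds (isOpen_ball.mem_nhds (mem_ball_self hR'))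
    filter_upwards [h2, self_mem_nhdsWithin] with u hu hu'
    rw [hG1u u hu']
    exact hK _ (hball u ⟨hu, hu'⟩)
  refine ⟨c, hcK, fun x hx => ?_⟩
  have hx0 : x ≠ 0 := by
    rintro rfl
    simp at hx
    linarith
  have hxn : 0 < ‖x‖ := norm_pos_iff.2 hx0
  have hmem : x⁻¹ ∈ ball (0:ℂ) R⁻¹ := by
    simp only [mem_ball, dist_zero_right, norm_inv]
    exact inv_strictAnti₀ hR hx
  have h3 := dist_le_of_bound (M := K) key (fun u hu => by
    by_cases h : u = 0
    · rw [h, hG10]; exact hcK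
    · rw [hG1u u h]
      exact hK _ (hball u ⟨hu, h⟩)) hmem
  rw [hG1u _ (inv_ne_zero hx0), hG10] at h3
  simp only [hG, inv_inv, sub_zero, norm_inv] at h3
  calc ‖g x - c‖ ≤ 2 * K / R⁻¹ * ‖x‖⁻¹ := h3
    _ = 2 * K * R / ‖x‖ := by field_simp

end Pool.Agent.H907.Henon
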