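import Mathlib

/-!
# Definitions for problem MP_e79cb7_ag (Hénon maps with biholomorphic class VII surfaces)

All definitions used in the statement of the main theorem are collected in this file.
-/

open Polynomial Filter Topology Set
open scoped Manifold ContDiff

namespace Pool.Agent.H907.Henon

/-! ## Generalized Hénon maps -/

/-- The data `(a, P)` of an elementary Hénon map: `a ≠ 0` and `P` a polynomial of degree `≥ 2`. -/
structure Fac where
  a : ℂ
  P : ℂ[X]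
  ha : a ≠ 0
  hP : 2 ≤ P.natDegree

/-- The elementary Hénon map `H_{a,P}(x,y) = (P(x) - a y, x)`. -/
noncomputable def Fac.map (h : Fac) (q : ℂ × ℂ) : ℂ × ℂ := (h.P.eval q.1 - h.a * q.2, q.1)

/-- The composition `H_1 ∘ H_2 ∘ ⋯ ∘ H_k` for the list `[H_1, …, H_k]`. -/
noncomputable def comp : List Fac → ℂ × ℂ → ℂ × ℂ
  | [] => id
  | h :: t => h.map ∘ comp t

/-- `f` is a generalized Hénon map: a composition of `k ≥ 1` elementary Hénon maps. -/
def IsGenHenon (f : ℂ × ℂ → ℂ × ℂ) : Prop := ∃ l : List Fac, l ≠ [] ∧ f = comp l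

/-! ## The basin `Ω(f)` and the orbit surface `S(f)` -/

/-- The basin `Ω(f)` of the point `p = [1:0:0]` at infinity: the points `q` of `ℂ²` with
`f^n(q) → [1:0:0]` in the projective plane, i.e. `|x_n| → ∞` and `y_n / x_n → 0`
where `f^n(q) = (x_n, y_n)`. -/
def Om (f : ℂ × ℂ → ℂ × ℂ) : Set (ℂ × ℂ) :=
  {q | Tendsto (fun n : ℕ => ‖(f^[n] q).1‖) atTop atTop ∧
       Tendsto (fun n : ℕ => (f^[n] q).2 / (f^[n] q).1) atTop (𝓝 0)}

/-- Two points lie in the same orbit of the group generated by the bijection `f`. -/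
def SameOrbit (f : ℂ × ℂ → ℂ × ℂ) (p q : ℂ × ℂ) : Prop := ∃ m n : ℕ, f^[m] p = f^[n] q

/-- The orbit relation on `Ω(f)`. -/
def orbSetoid (f : ℂ × ℂ → ℂ × ℂ) : Setoid (Om f) where
  r p q := SameOrbit f p.1 q.1
  iseqv := by
    refine ⟨fun p => ⟨0, 0, rfl⟩, fun {p q} ⟨m, n, h⟩ => ⟨n, m, h.symm⟩, ?_⟩
    rintro p q r ⟨m, n, h⟩ ⟨m', n', h'⟩
    refine ⟨m' + m, n + n', ?_⟩
    rw [Function.iterate_add_apply, h, ← Function.iterate_add_apply, Nat.add_comm m' n,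
      Function.iterate_add_apply, h', ← Function.iterate_add_apply]

/-- The orbit space `S(f) = Ω(f)/⟨f⟩`. -/
def S (f : ℂ × ℂ → ℂ × ℂ) : Type := Quotient (orbSetoid f)

/-- The class of a point of `Ω(f)` in `S(f)`. -/
def S.mk (f : ℂ × ℂ → ℂ × ℂ) (q : ℂ × ℂ) (hq : q ∈ Om f) : S f :=
  Quotient.mk (orbSetoid f) ⟨q, hq⟩

theorem S.mk_eq_iff {f : ℂ × ℂ → ℂ × ℂ} {p q : ℂ × ℂ} {hp : p ∈ Om f} {hq : q ∈ Om f} :
    S.mk f p hp = S.mk f q hq ↔ SameOrbit f p q :=
  Quotient.eq (r := orbSetoid f)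

/-- A map `Φ : S(f) → S(g)` is holomorphic: it is locally induced by holomorphic maps `F` defined on
open subsets `U` of `ℂ²`, that is `Φ [u] = [F u]` for `u ∈ U ∩ Ω(f)`. (The projections
`Ω(f) → S(f)` are the unramified coverings which define the complex structures.) -/
def Holo (f g : ℂ × ℂ → ℂ × ℂ) (Φ : S f → S g) : Prop :=
  ∀ q ∈ Om f, ∃ U : Set (ℂ × ℂ), IsOpen U ∧ q ∈ U ∧ ∃ F : ℂ × ℂ → ℂ × ℂ,
    DifferentiableOn ℂ F U ∧
      ∀ u (_ : u ∈ U) (hu : u ∈ Om f), ∃ hF : F u ∈ Om g, Φ (S.mk f u hu) = S.mk g (F u) hF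

/-- `S(f)` and `S(g)` are biholomorphic: there is a bijection which is holomorphic in both
directions. -/
def Biholo (f g : ℂ × ℂ → ℂ × ℂ) : Prop :=
  ∃ Φ : S f ≃ S g, Holo f g Φ ∧ Holo g f Φ.symm

/-! ## The compact surface `S̄(f)` -/

/-- The set of points of a complex surface `M` which lie on a compact curve, that is, on the image
of a non-constant holomorphic map from a compact connected Riemann surface to `M`. -/
def curvePts (M : Type) [TopologicalSpace M] [ChartedSpace (ℂ × ℂ) M] : Set M :=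
  {x | ∃ (X : Type) (_ : TopologicalSpace X) (_ : ChartedSpace ℂ X) (u : X → M),
    T2Space X ∧ CompactSpace X ∧ ConnectedSpace X ∧ IsManifold 𝓘(ℂ, ℂ) ω X ∧
    ContMDiff 𝓘(ℂ, ℂ) 𝓘(ℂ, ℂ × ℂ) ω u ∧ (∃ a b, u a ≠ u b) ∧ x ∈ range u}

/-- A compact complex surface `M` is minimal: every surjective holomorphic map `π : M → N` to a
compact complex surface `N` that is injective outside one fibre is injective.  By the
Castelnuovo–Grauert criterion this means that `M` contains no smooth rational curve of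
self-intersection `-1`. -/
def IsMinimal (M : Type) [TopologicalSpace M] [ChartedSpace (ℂ × ℂ) M] : Prop :=
  ∀ (N : Type) [TopologicalSpace N] [ChartedSpace (ℂ × ℂ) N] [IsManifold 𝓘(ℂ, ℂ × ℂ) ω N]
    [T2Space N] [CompactSpace N] (π : M → N) (p : N),
    ContMDiff 𝓘(ℂ, ℂ × ℂ) 𝓘(ℂ, ℂ × ℂ) ω π → Function.Surjective π →
    InjOn π (π ⁻¹' {p})ᶜ → Function.Injective π

/-- `IsBarS f M`: the complex surface `M` is (a model of) `S̄(f)`.  That is: `M` is a compact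
connected Hausdorff complex manifold of dimension two, it is minimal, and there is a local
biholomorphism `j : Ω(f) → M` whose fibres are exactly the orbits of `f` (so that `j` induces a
biholomorphic map of the orbit surface `S(f)` onto an open subset of `M`) such that the complement
of the image of `j` is the union of all compact curves of `M`.

This describes `S̄(f)` uniquely: `S(f)` contains no compact curve, so the exceptional curve of
the minimal resolution `S̄(f)` of the one-point normal compactification of `S(f)` is the union of all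
compact curves of `S̄(f)`; conversely such an `M` is a compactification of `S(f)` by a compact curve,
hence a resolution of the normal one-point compactification, and it is the minimal one. -/
def IsBarS (f : ℂ × ℂ → ℂ × ℂ) (M : Type) [TopologicalSpace M] [ChartedSpace (ℂ × ℂ) M] : Prop :=
  IsManifold 𝓘(ℂ, ℂ × ℂ) ω M ∧ T2Space M ∧ CompactSpace M ∧ ConnectedSpace M ∧ IsMinimal M ∧
  ∃ j : ℂ × ℂ → M, IsLocalDiffeomorphOn 𝓘(ℂ, ℂ × ℂ) 𝓘(ℂ, ℂ × ℂ) ω j (Om f) ∧
    (∀ p ∈ Om f, ∀ q ∈ Om f, j p = j q ↔ SameOrbit f p q) ∧ (j '' Om f)ᶜ = curvePts M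

/-- The surfaces `S̄(f)` and `S̄(g)` are biholomorphic, where `M` is a model of `S̄(f)`: some model
`M'` of `S̄(g)` is biholomorphic to `M`. -/
def BarBiholo (g : ℂ × ℂ → ℂ × ℂ) (M : Type) [TopologicalSpace M] [ChartedSpace (ℂ × ℂ) M] :
    Prop :=
  ∃ (M' : Type) (_ : TopologicalSpace M') (_ : ChartedSpace (ℂ × ℂ) M'), IsBarS g M' ∧
    Nonempty (M ≃ₘ^ω⟮𝓘(ℂ, ℂ × ℂ), 𝓘(ℂ, ℂ × ℂ)⟯ M')

/-! ## Conjugacy -/

/-- polynomial self-map of `ℂ²` -/
def IsPolyMap (τ : ℂ × ℂ → ℂ × ℂ) : Prop :=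
  ∃ p q : MvPolynomial (Fin 2) ℂ, ∀ x : ℂ × ℂ,
    τ x = (MvPolynomial.eval ![x.1, x.2] p, MvPolynomial.eval ![x.1, x.2] q)

/-- `g = τ ∘ f ∘ τ⁻¹` for a polynomial automorphism `τ` of `ℂ²` (with inverse `τ'`) -/
def PolyConj (f g : ℂ × ℂ → ℂ × ℂ) : Prop :=
  ∃ τ τ' : ℂ × ℂ → ℂ × ℂ, IsPolyMap τ ∧ IsPolyMap τ' ∧ (∀ q, τ' (τ q) = q) ∧
    (∀ q, τ (τ' q) = q) ∧ ∀ q, g (τ q) = τ (f q)

/-- `g = τ ∘ f ∘ τ⁻¹` for a biholomorphic map `τ : ℂ² → ℂ²` (with inverse `τ'`) -/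
def HolConj (f g : ℂ × ℂ → ℂ × ℂ) : Prop :=
  ∃ τ τ' : ℂ × ℂ → ℂ × ℂ, Differentiable ℂ τ ∧ Differentiable ℂ τ' ∧ (∀ q, τ' (τ q) = q) ∧
    (∀ q, τ (τ' q) = q) ∧ ∀ q, g (τ q) = τ (f q)

/-- Explicit description in terms of the coefficients.  Let `l = [(a_0,P_0), …, (a_{k-1},P_{k-1})]`
and `m = [(b_0,R_0), …, (b_{k-1},R_{k-1})]`, indices being taken modulo `k`.  There are a rotation
`r` and numbers `σ_i ≠ 0`, `t_i` (`i` modulo `k`) with
`σ_i b_i = a_{i+r} σ_{i+2}` and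
`σ_i R_i(x) + t_i + a_{i+r} t_{i+2} = P_{i+r}(σ_{i+1} x + t_{i+1})` for all `i`.  Equivalently
`A_i ∘ H_{b_i,R_i} = H_{a_{i+r},P_{i+r}} ∘ A_{i+1}` with
`A_i(x,y) = (σ_i x + t_i, σ_{i+1} y + t_{i+1})`. -/
def Explicit (l m : List Fac) : Prop :=
  m.length = l.length ∧ ∃ (r : ℕ) (σ t : ℕ → ℂ), (∀ i, σ i ≠ 0) ∧
    σ l.length = σ 0 ∧ σ (l.length + 1) = σ 1 ∧ t l.length = t 0 ∧ t (l.length + 1) = t 1 ∧
    ∀ (i : ℕ) (h : i < m.length) (h' : i < (l.rotate r).length),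
      σ i * m[i].a = (l.rotate r)[i].a * σ (i + 2) ∧
      C (σ i) * m[i].P + C (t i + (l.rotate r)[i].a * t (i + 2)) =
        (l.rotate r)[i].P.comp (C (σ (i + 1)) * X + C (t (i + 1)))

end Pool.Agent.H907.Henon
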