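import Pool.Agent.H907.Henon.Defs

open Polynomial Filter Topology Set

namespace Pool.Agent.H907.Henon.Easy


/-! ### Filtration lemmas -/

theorem growth (h : Fac) (M : ℝ) : ∃ R : ℝ, ∀ x y : ℂ, R < ‖x‖ → ‖y‖ ≤ ‖x‖ →
    M * ‖x‖ < ‖h.P.eval x - h.a * y‖ := by
  have hdeg : 0 < (divX h.P).degree := by
    rw [← natDegree_pos_iff_degree_pos, natDegree_divX_eq_natDegree_tsub_one]
    have := h.hP
    omega
  have ht : Tendsto (fun x : ℂ => ‖(divX h.P).eval x‖) (comap norm atTop) atTop :=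
    (divX h.P).tendsto_norm_atTop hdeg tendsto_comap
  have h1 := ht.eventually_ge_atTop (|M| + ‖h.a‖ + ‖h.P.coeff 0‖ + 1)
  rw [eventually_comap] at h1
  obtain ⟨R, hR⟩ := eventually_atTop.1 h1
  refine ⟨max R 1, fun x y hx hy => ?_⟩
  have hx1 : R ≤ ‖x‖ := ((le_max_left _ _).trans_lt hx).le
  have hx2 : 1 < ‖x‖ := (le_max_right _ _).trans_lt hx
  have h2 := hR ‖x‖ hx1 x rfl
  have h3 : h.P.eval x = (divX h.P).eval x * x + h.P.coeff 0 := by
    conv_lhs => rw [← divX_mul_X_add h.P]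
    simp
  have h4 : ‖(divX h.P).eval x * x‖ ≤ ‖h.P.eval x - h.a * y‖ + ‖h.a * y‖ + ‖h.P.coeff 0‖ := by
    have : (divX h.P).eval x * x = (h.P.eval x - h.a * y) + h.a * y - h.P.coeff 0 := by rw [h3]; ring
    rw [this]
    exact (norm_sub_le _ _).trans (add_le_add_left (norm_add_le _ _) _)
  rw [norm_mul, norm_mul] at h4
  have h5 : ‖h.a‖ * ‖y‖ ≤ ‖h.a‖ * ‖x‖ := by gcongr
  have h6 : (|M| + ‖h.a‖ + ‖h.P.coeff 0‖ + 1) * ‖x‖ ≤ ‖(divX h.P).eval x‖ * ‖x‖ := by gcongr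
  have h7 : ‖h.P.coeff 0‖ * 1 ≤ ‖h.P.coeff 0‖ * ‖x‖ := by gcongr
  have h8 : M * ‖x‖ ≤ |M| * ‖x‖ := by gcongr; exact le_abs_self M
  nlinarith

theorem growth_list (l : List Fac) (M : ℝ) : ∃ R : ℝ, ∀ h ∈ l, ∀ x y : ℂ, R < ‖x‖ → ‖y‖ ≤ ‖x‖ →
    M * ‖x‖ < ‖h.P.eval x - h.a * y‖ := by
  induction l with
  | nil => exact ⟨0, by simp⟩
  | cons h t ih =>
    obtain ⟨R, hR⟩ := ih
    obtain ⟨R', hR'⟩ := growth h M
    refine ⟨max R R', fun k hk x y hx hy => ?_⟩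
    rcases List.mem_cons.1 hk with rfl | hk
    · exact hR' x y ((le_max_right _ _).trans_lt hx) hy
    · exact hR k hk x y ((le_max_left _ _).trans_lt hx) hy

/-- the forward invariant region -/
def V (R : ℝ) : Set (ℂ × ℂ) := {q | R < ‖q.1‖ ∧ ‖q.2‖ ≤ ‖q.1‖}

/-- `R` is a good radius for `l` and the factor `M` -/
def Rad (l : List Fac) (M R : ℝ) : Prop := ∀ h ∈ l, ∀ x y : ℂ, R < ‖x‖ → ‖y‖ ≤ ‖x‖ →
    M * ‖x‖ < ‖h.P.eval x - h.a * y‖

theorem map_V {l : List Fac} {M R : ℝ} (hM : 1 ≤ M) (hR : Rad l M R) {h : Fac} (hh : h ∈ l)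
    {q : ℂ × ℂ} (hq : q ∈ V R) : h.map q ∈ V R ∧ M * ‖q.1‖ < ‖(h.map q).1‖ := by
  have h1 := hR h hh q.1 q.2 hq.1 hq.2
  have h2 : ‖q.1‖ ≤ M * ‖q.1‖ := by nlinarith [norm_nonneg q.1]
  refine ⟨⟨?_, ?_⟩, h1⟩
  · exact hq.1.trans (h2.trans_lt h1)
  · exact (h2.trans_lt h1).le

theorem comp_V {l : List Fac} {M R : ℝ} (hM : 1 ≤ M) (hR : Rad l M R) {q : ℂ × ℂ} (hq : q ∈ V R) :
    comp l q ∈ V R ∧ ‖q.1‖ ≤ ‖(comp l q).1‖ := by
  induction l with
  | nil => exact ⟨hq, le_rfl⟩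
  | cons h t ih =>
    obtain ⟨h1, h2⟩ := ih (fun k hk => hR k (List.mem_cons_of_mem _ hk))
    obtain ⟨h3, h4⟩ := map_V hM hR (List.mem_cons_self) h1
    refine ⟨h3, ?_⟩
    have h5 : ‖(comp t q).1‖ ≤ M * ‖(comp t q).1‖ := by nlinarith [norm_nonneg (comp t q).1]
    exact h2.trans (h5.trans h4.le)

theorem comp_V' {l : List Fac} (hl : l ≠ []) {M R : ℝ} (hM : 1 ≤ M) (hR : Rad l M R) {q : ℂ × ℂ}
    (hq : q ∈ V R) : M * ‖q.1‖ ≤ ‖(comp l q).1‖ ∧ M * ‖(comp l q).2‖ ≤ ‖(comp l q).1‖ := by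
  cases l with
  | nil => exact absurd rfl hl
  | cons h t =>
    obtain ⟨h1, h2⟩ := comp_V hM (fun k hk => hR k (List.mem_cons_of_mem _ hk) : Rad t M R) hq
    obtain ⟨h3, h4⟩ := map_V hM hR (List.mem_cons_self) h1
    refine ⟨?_, h4.le⟩
    refine le_trans ?_ h4.le
    gcongr

theorem map_nV {h : Fac} {R : ℝ} {q : ℂ × ℂ} (hq : h.map q ∉ V R) : ‖h.map q‖ ≤ max R ‖q‖ := by
  have h1 : ‖q.1‖ ≤ ‖q‖ := norm_fst_le q
  have h2 : (h.map q).2 = q.1 := rfl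
  rw [Prod.norm_def, h2]
  by_cases h3 : ‖(h.map q).1‖ ≤ R
  · exact max_le_max h3 h1
  · have h4 : ¬ (‖(h.map q).2‖ ≤ ‖(h.map q).1‖) := fun h4 => hq ⟨not_le.1 h3, h4⟩
    rw [h2, not_le] at h4
    rw [max_eq_right h4.le]
    exact h1.trans (le_max_right _ _)

theorem comp_nV {l : List Fac} {M R : ℝ} (hM : 1 ≤ M) (hR : Rad l M R) {q : ℂ × ℂ}
    (hq : comp l q ∉ V R) : ‖comp l q‖ ≤ max R ‖q‖ := by
  induction l with
  | nil => exact le_max_right _ _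
  | cons h t ih =>
    have h1 : comp t q ∉ V R := fun h1 => hq (map_V hM hR (List.mem_cons_self) h1).1
    have h2 := ih (fun k hk => hR k (List.mem_cons_of_mem _ hk)) h1
    have h3 : ‖h.map (comp t q)‖ ≤ max R ‖comp t q‖ := map_nV hq
    exact h3.trans (max_le (le_max_left _ _) h2)

theorem iter_nV {l : List Fac} {M R : ℝ} (hM : 1 ≤ M) (hR : Rad l M R) {q : ℂ × ℂ} (n : ℕ)
    (hq : (comp l)^[n] q ∉ V R) : ‖(comp l)^[n] q‖ ≤ max R ‖q‖ := by
  induction n with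
  | zero => exact le_max_right _ _
  | succ n ih =>
    rw [Function.iterate_succ_apply'] at hq ⊢
    have h1 : (comp l)^[n] q ∉ V R := fun h1 => hq (comp_V hM hR h1).1
    exact (comp_nV hM hR hq).trans (max_le (le_max_left _ _) (ih h1))

theorem iter_V {l : List Fac} (hl : l ≠ []) {M R : ℝ} (hM : 1 ≤ M) (hR : Rad l M R) {q : ℂ × ℂ}
    (hq : q ∈ V R) (n : ℕ) : (comp l)^[n] q ∈ V R ∧ M ^ n * ‖q.1‖ ≤ ‖((comp l)^[n] q).1‖ := by
  induction n with
  | zero => simpa using hq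
  | succ n ih =>
    rw [Function.iterate_succ_apply']
    refine ⟨(comp_V hM hR ih.1).1, le_trans ?_ (comp_V' hl hM hR ih.1).1⟩
    have : M ^ (n + 1) * ‖q.1‖ = M * (M ^ n * ‖q.1‖) := by ring
    rw [this]
    exact mul_le_mul_of_nonneg_left ih.2 (by linarith)

/-- For a generalized Hénon map the basin of `[1:0:0]` is the set of points with unbounded forward
orbit. -/
theorem mem_Om_iff {f : ℂ × ℂ → ℂ × ℂ} (hf : IsGenHenon f) (q : ℂ × ℂ) :
    q ∈ Om f ↔ ¬ Bornology.IsBounded (Set.range fun n : ℕ => f^[n] q) := by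
  obtain ⟨l, hl, rfl⟩ := hf
  constructor
  · rintro ⟨h1, -⟩ hb
    obtain ⟨C, hC⟩ := hb.exists_norm_le
    obtain ⟨n, hn⟩ := (h1.eventually_gt_atTop C).exists
    have h2 := hC _ ⟨n, rfl⟩
    have h3 : ‖((comp l)^[n] q).1‖ ≤ ‖(comp l)^[n] q‖ := norm_fst_le _
    linarith
  · intro hb
    obtain ⟨R, hR⟩ := growth_list l 2
    have hR' : Rad l 2 (max R 1) := fun h hh x y hx hy => hR h hh x y ((le_max_left _ _).trans_lt hx) hy
    obtain ⟨N, hN⟩ : ∃ n, (comp l)^[n] q ∈ V (max R 1) := by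
      by_contra hcon
      push Not at hcon
      refine hb ((Metric.isBounded_closedBall (x := (0 : ℂ × ℂ)) (r := max (max R 1) ‖q‖)).subset ?_)
      rintro _ ⟨n, rfl⟩
      rw [mem_closedBall_zero_iff]
      exact iter_nV (by norm_num) hR' n (hcon n)
    have hin : ∀ k, (comp l)^[k] ((comp l)^[N] q) ∈ V (max R 1) ∧
        2 ^ k * ‖((comp l)^[N] q).1‖ ≤ ‖((comp l)^[k] ((comp l)^[N] q)).1‖ :=
      fun k => iter_V hl (by norm_num) hR' hN k
    have hpos : 0 < ‖((comp l)^[N] q).1‖ := lt_of_lt_of_le zero_lt_one ((le_max_right _ _).trans hN.1.le)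
    have ht : Tendsto (fun n : ℕ => ‖((comp l)^[n] q).1‖) atTop atTop := by
      rw [← tendsto_add_atTop_iff_nat N]
      refine tendsto_atTop_mono (fun k => ?_)
        ((tendsto_pow_atTop_atTop_of_one_lt (r := (2 : ℝ)) (by norm_num)).atTop_mul_const hpos)
      rw [Function.iterate_add_apply]
      exact (hin k).2
    refine ⟨ht, ?_⟩
    rw [← tendsto_add_atTop_iff_nat 1]
    rw [Metric.tendsto_atTop]
    intro ε hε
    obtain ⟨R2, hR2⟩ := growth_list l (max 1 (2 / ε))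
    obtain ⟨K, hK⟩ := eventually_atTop.1 (ht.eventually_gt_atTop R2)
    refine ⟨max N K, fun n hn => ?_⟩
    have hnN : N ≤ n := (le_max_left _ _).trans hn
    have hnK : K ≤ n := (le_max_right _ _).trans hn
    have h1 : (comp l)^[n] q ∈ V (max R 1) := by
      have := (hin (n - N)).1
      rwa [← Function.iterate_add_apply, Nat.sub_add_cancel hnN] at this
    have h2 : (comp l)^[n] q ∈ V R2 := ⟨hK n hnK, h1.2⟩
    have h3 := (comp_V' hl (le_max_left _ _) hR2 h2)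
    have h4 : ‖(comp l ((comp l)^[n] q)).2‖ * (2 / ε) ≤ ‖(comp l ((comp l)^[n] q)).1‖ := by
      refine le_trans ?_ h3.2
      rw [mul_comm]
      gcongr
      exact le_max_right _ _
    have h5 : (comp l)^[n + 1] q = comp l ((comp l)^[n] q) := Function.iterate_succ_apply' _ _ _
    rw [h5, dist_zero_right, norm_div]
    have h6 : 0 < ‖(comp l ((comp l)^[n] q)).1‖ := by
      have := (comp_V (by norm_num) hR' h1).1.1
      exact lt_of_lt_of_le zero_lt_one ((le_max_right _ _).trans this.le)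
    rw [div_lt_iff₀ h6]
    rw [mul_div_assoc', div_le_iff₀ hε] at h4
    nlinarith

theorem iter_conj {f g τ : ℂ × ℂ → ℂ × ℂ} (hc : ∀ q, g (τ q) = τ (f q)) (n : ℕ) (q : ℂ × ℂ) :
    g^[n] (τ q) = τ (f^[n] q) := by
  induction n with
  | zero => rfl
  | succ n ih => rw [Function.iterate_succ_apply', Function.iterate_succ_apply', ih, hc]

theorem bdd_conj {f g τ : ℂ × ℂ → ℂ × ℂ} (hτ : Continuous τ) (hc : ∀ q, g (τ q) = τ (f q)) (q : ℂ × ℂ)
    (hb : Bornology.IsBounded (Set.range fun n : ℕ => f^[n] q)) :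
    Bornology.IsBounded (Set.range fun n : ℕ => g^[n] (τ q)) := by
  have h1 : IsCompact (τ '' closure (Set.range fun n : ℕ => f^[n] q)) := hb.isCompact_closure.image hτ
  refine h1.isBounded.subset ?_
  rintro _ ⟨n, rfl⟩
  exact ⟨f^[n] q, subset_closure ⟨n, rfl⟩, (iter_conj hc n q).symm⟩

theorem mem_Om_conj {f g : ℂ × ℂ → ℂ × ℂ} (hf : IsGenHenon f) (hg : IsGenHenon g)
    (τ τ' : ℂ × ℂ → ℂ × ℂ) (hτ' : Continuous τ')
    (h1 : ∀ q, τ' (τ q) = q) (h2 : ∀ q, τ (τ' q) = q) (hc : ∀ q, g (τ q) = τ (f q)) {q : ℂ × ℂ}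
    (hq : q ∈ Om f) : τ q ∈ Om g := by
  rw [mem_Om_iff hg]
  rw [mem_Om_iff hf] at hq
  intro hb
  have hc' : ∀ q, f (τ' q) = τ' (g q) := by
    intro q
    rw [← h1 (f (τ' q)), ← hc, h2]
  have := bdd_conj hτ' hc' (τ q) hb
  rw [h1] at this
  exact hq this

theorem sameOrbit_conj {f g τ : ℂ × ℂ → ℂ × ℂ} (hc : ∀ q, g (τ q) = τ (f q)) {p q : ℂ × ℂ}
    (h : SameOrbit f p q) : SameOrbit g (τ p) (τ q) := by
  obtain ⟨m, n, h⟩ := h
  exact ⟨m, n, by rw [iter_conj hc, iter_conj hc, h]⟩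

/-- Conjugate maps have biholomorphic orbit surfaces. -/
theorem biholo_of_conj {f g : ℂ × ℂ → ℂ × ℂ} (hf : IsGenHenon f) (hg : IsGenHenon g)
    (τ τ' : ℂ × ℂ → ℂ × ℂ) (hτ : Differentiable ℂ τ) (hτ' : Differentiable ℂ τ')
    (h1 : ∀ q, τ' (τ q) = q) (h2 : ∀ q, τ (τ' q) = q) (hc : ∀ q, g (τ q) = τ (f q)) :
    Biholo f g := by
  have hc' : ∀ q, f (τ' q) = τ' (g q) := by
    intro q
    rw [← h1 (f (τ' q)), ← hc, h2]
  have hm : ∀ {q}, q ∈ Om f → τ q ∈ Om g := mem_Om_conj hf hg τ τ' hτ'.continuous h1 h2 hc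
  have hm' : ∀ {q}, q ∈ Om g → τ' q ∈ Om f := mem_Om_conj hg hf τ' τ hτ.continuous h2 h1 hc'
  let Φ : S f ≃ S g :=
    { toFun := Quotient.map (fun p : Om f => (⟨τ p.1, hm p.2⟩ : Om g))
        (fun p q h => sameOrbit_conj hc h)
      invFun := Quotient.map (fun p : Om g => (⟨τ' p.1, hm' p.2⟩ : Om f))
        (fun p q h => sameOrbit_conj hc' h)
      left_inv := by
        intro x
        induction x using Quotient.inductionOn with
        | h p =>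
          exact congrArg (Quotient.mk (orbSetoid f)) (Subtype.ext (h1 p.1))
      right_inv := by
        intro x
        induction x using Quotient.inductionOn with
        | h p =>
          exact congrArg (Quotient.mk (orbSetoid g)) (Subtype.ext (h2 p.1)) }
  refine ⟨Φ, ?_, ?_⟩
  · intro q _
    exact ⟨univ, isOpen_univ, mem_univ q, τ, hτ.differentiableOn, fun u _ hu => ⟨hm hu, rfl⟩⟩
  · intro q _
    exact ⟨univ, isOpen_univ, mem_univ q, τ', hτ'.differentiableOn, fun u _ hu => ⟨hm' hu, rfl⟩⟩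

end Pool.Agent.H907.Henon.Easy

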