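import Pool.Agent.H907.Henon.Near1

open Polynomial Filter Topology Set

namespace Pool.Agent.H907.Henon

/-- The estimates are monotone in the constant. -/
theorem Dat.Est.mono {C C' : ℝ} {h : Dat} (hE : h.Est C) (hC : C ≤ C') : h.Est C' where
  dC := hE.dC.trans hC
  a0 := hE.a0
  aC := hE.aC.trans hC
  aC' := hE.aC'.trans hC
  P1 x hx := (hE.P1 x hx).trans (by gcongr)
  P2 z x s hz h1 h2 := (hE.P2 z x s hz h1 h2).trans (by gcongr)
  Q1 z hz := (hE.Q1 z hz).trans (by gcongr)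
  Q2 z hz := (hE.Q2 z hz).trans (by gcongr)

/-- The sum of the absolute values of the coefficients. -/
noncomputable def coefSum (p : ℂ[X]) : ℝ := ∑ i ∈ Finset.range (p.natDegree + 1), ‖p.coeff i‖

theorem coefSum_nonneg (p : ℂ[X]) : 0 ≤ coefSum p := Finset.sum_nonneg fun _ _ => norm_nonneg _

/-- A polynomial of degree `≤ n` is bounded by `K R ^ n` on the disk of radius `R ≥ 1`. -/
theorem eval_le_coefSum (p : ℂ[X]) {n : ℕ} (hn : p.natDegree ≤ n) {R : ℝ} (hR : 1 ≤ R) {t : ℂ}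
    (ht : ‖t‖ ≤ R) : ‖p.eval t‖ ≤ coefSum p * R ^ n := by
  rw [Polynomial.eval_eq_sum_range, coefSum, Finset.sum_mul]
  refine (norm_sum_le _ _).trans (Finset.sum_le_sum fun i hi => ?_)
  rw [norm_mul, norm_pow]
  have hi' : i ≤ n := (Nat.lt_succ_iff.1 (Finset.mem_range.1 hi)).trans hn
  have h1 : ‖t‖ ^ i ≤ R ^ i := pow_le_pow_left₀ (norm_nonneg _) ht i
  have h2 : R ^ i ≤ R ^ n := pow_le_pow_right₀ hR hi'
  exact mul_le_mul_of_nonneg_left (h1.trans h2) (norm_nonneg _)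

theorem pow_sub_le {z t : ℂ} {n : ℕ} {R : ℝ} (hz : ‖z‖ ≤ R) (ht : ‖t‖ ≤ R) :
    ‖t ^ (n + 1) - z ^ (n + 1)‖ ≤ (n + 1) * R ^ n * ‖t - z‖ := by
  have hR : 0 ≤ R := (norm_nonneg _).trans hz
  have h := (Commute.all t z).geom_sum₂_mul (n + 1)
  rw [← h, norm_mul]
  refine mul_le_mul_of_nonneg_right ?_ (norm_nonneg _)
  refine (norm_sum_le _ _).trans ?_
  have h2 : ∀ i ∈ Finset.range (n + 1), ‖t ^ i * z ^ (n + 1 - 1 - i)‖ ≤ R ^ n := by
    intro i hi
    have hi' : i ≤ n := Nat.lt_succ_iff.1 (Finset.mem_range.1 hi)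
    rw [norm_mul, norm_pow, norm_pow]
    calc ‖t‖ ^ i * ‖z‖ ^ (n + 1 - 1 - i) ≤ R ^ i * R ^ (n + 1 - 1 - i) := by gcongr
      _ = R ^ n := by rw [← pow_add]; congr 1; omega
  refine (Finset.sum_le_sum h2).trans ?_
  rw [Finset.sum_const, Finset.card_range, nsmul_eq_mul]
  push_cast
  exact le_refl _

/-- The derivative of the lower order part. -/
theorem lower_deriv_le (L : ℂ[X]) {m : ℕ} (hL : L.natDegree ≤ m) :
    ∃ K : ℝ, 0 ≤ K ∧ ∀ R : ℝ, 1 ≤ R → ∀ t : ℂ, ‖t‖ ≤ R →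
      ‖L.derivative.eval t‖ ≤ K * (R ^ m * (1 / R)) := by
  rcases m with _ | k
  · refine ⟨0, le_refl _, fun R hR t ht => ?_⟩
    have : L.derivative = 0 := by
      rw [Polynomial.eq_C_of_natDegree_le_zero hL, Polynomial.derivative_C]
    simp [this]
  · refine ⟨coefSum L.derivative, coefSum_nonneg _, fun R hR t ht => ?_⟩
    have hd : L.derivative.natDegree ≤ k := by
      have := Polynomial.natDegree_derivative_le L
      omega
    have h := eval_le_coefSum L.derivative hd hR ht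
    have hR0 : R ≠ 0 := by positivity
    have : R ^ (k + 1) * (1 / R) = R ^ k := by
      rw [pow_succ]; field_simp
    rw [this]
    exact h

/-- Existence of the constant. -/
theorem exists_est (h : Dat) (ha : h.a ≠ 0) (hP : h.P.natDegree = h.m + 2) (hPm : h.P.Monic)
    (hPc : h.P.coeff (h.m + 1) = 0) (hQ : h.Q.natDegree = h.m + 3) (hQm : h.Q.Monic)
    (hQc : h.Q.coeff (h.m + 2) = 0)
    (hPQ : ∃ K : ℝ, ∀ z : ℂ, 1 ≤ ‖z‖ →
      ‖h.P.eval (h.Q.eval z / z ^ (h.m + 2)) - z ^ (h.m + 2)‖ ≤ K / ‖z‖) :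
    ∃ C : ℝ, 1 ≤ C ∧ h.Est C := by
  obtain ⟨K2, hK2⟩ := hPQ
  obtain ⟨m, a, P, Q⟩ := h
  simp only at ha hP hPm hPc hQ hQm hQc hK2
  set L : ℂ[X] := P - X ^ (m + 2) with hL
  have hLd : L.natDegree ≤ m := by
    rw [Polynomial.natDegree_le_iff_coeff_eq_zero]
    intro N hN
    rw [hL, Polynomial.coeff_sub, Polynomial.coeff_X_pow]
    rcases (by omega : N = m + 1 ∨ N = m + 2 ∨ m + 2 < N) with h | h | h
    · rw [h, hPc]; simp
    · rw [h]
      have : P.coeff (m + 2) = 1 := by rw [← hP]; exact hPm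
      rw [this]; simp
    · rw [Polynomial.coeff_eq_zero_of_natDegree_lt (by omega)]
      rw [if_neg (by omega)]; simp
  set M : ℂ[X] := Q - X ^ (m + 3) with hM
  have hMd : M.natDegree ≤ m + 1 := by
    rw [Polynomial.natDegree_le_iff_coeff_eq_zero]
    intro N hN
    rw [hM, Polynomial.coeff_sub, Polynomial.coeff_X_pow]
    rcases (by omega : N = m + 2 ∨ N = m + 3 ∨ m + 3 < N) with h | h | h
    · rw [h, hQc]; simp
    · rw [h]
      have : Q.coeff (m + 3) = 1 := by rw [← hQ]; exact hQm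
      rw [this]; simp
    · rw [Polynomial.coeff_eq_zero_of_natDegree_lt (by omega)]
      rw [if_neg (by omega)]; simp
  have hPL : ∀ t : ℂ, P.eval t = t ^ (m + 2) + L.eval t := by
    intro t; rw [hL]; simp
  have hQM : ∀ t : ℂ, Q.eval t = t ^ (m + 3) + M.eval t := by
    intro t; rw [hM]; simp
  obtain ⟨KD, hKD0, hKD⟩ := lower_deriv_le L hLd
  -- the constant
  set A : ℝ := (m + 2) * ((m + 1) * 2 ^ m) with hA
  have hA0 : 0 ≤ A := by positivity
  set C : ℝ := (m + 2) + ‖a‖ + ‖a‖⁻¹ + coefSum L + coefSum M + |K2| + A + KD * 2 ^ m with hC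
  have c1 := coefSum_nonneg L
  have c2 := coefSum_nonneg M
  have c3 : 0 ≤ ‖a‖ := norm_nonneg _
  have c4 : 0 ≤ ‖a‖⁻¹ := inv_nonneg.2 (norm_nonneg _)
  have c5 : 0 ≤ |K2| := abs_nonneg _
  have c6 : 0 ≤ KD * 2 ^ m := by positivity
  have c7 : (0 : ℝ) ≤ m := Nat.cast_nonneg _
  refine ⟨C, by rw [hC]; linarith, ?_, ha, ?_, ?_, ?_, ?_, ?_, ?_⟩
  · show ((m + 2 : ℕ) : ℝ) ≤ C
    push_cast; rw [hC]; linarith
  · show ‖a‖ ≤ C
    rw [hC]; linarith
  · show ‖a‖⁻¹ ≤ C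
    rw [hC]; linarith
  · intro x hx
    show ‖P.eval x - x ^ (m + 2)‖ ≤ C * ‖x‖ ^ m
    rw [hPL, add_sub_cancel_left]
    refine (eval_le_coefSum L hLd hx (le_refl _)).trans ?_
    have : coefSum L ≤ C := by rw [hC]; linarith
    gcongr
  · intro z x s hz hx hs
    show ‖P.eval x - P.eval s - ((m + 2 : ℕ) : ℂ) * z ^ (m + 1) * (x - s)‖ ≤
      C * ‖z‖ ^ m * (‖x - z‖ + ‖s - z‖ + 1 / ‖z‖) * ‖x - s‖
    set R : ℝ := max ‖x - z‖ ‖s - z‖ with hR
    have hRz : R ≤ ‖z‖ := max_le hx hs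
    have hRs : R ≤ ‖x - z‖ + ‖s - z‖ :=
      max_le (le_add_of_nonneg_right (norm_nonneg _)) (le_add_of_nonneg_left (norm_nonneg _))
    have hR0 : 0 ≤ R := (norm_nonneg _).trans (le_max_left _ _)
    have hz0 : 0 < ‖z‖ := by linarith
    set B : ℝ := C * ‖z‖ ^ m * (‖x - z‖ + ‖s - z‖ + 1 / ‖z‖) with hB
    have hder : ∀ t ∈ Metric.closedBall z R,
        HasDerivWithinAt (fun t => P.eval t - ((m + 2 : ℕ) : ℂ) * z ^ (m + 1) * t)
          (P.derivative.eval t - ((m + 2 : ℕ) : ℂ) * z ^ (m + 1) * 1) (Metric.closedBall z R) t := by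
      intro t _
      exact ((P.hasDerivAt t).sub ((hasDerivAt_id t).const_mul _)).hasDerivWithinAt
    have hbd : ∀ t ∈ Metric.closedBall z R,
        ‖P.derivative.eval t - ((m + 2 : ℕ) : ℂ) * z ^ (m + 1) * 1‖ ≤ B := by
      intro t ht
      have ht1 : ‖t - z‖ ≤ R := by
        rw [Metric.mem_closedBall, dist_eq_norm] at ht; exact ht
      have ht2 : ‖t‖ ≤ 2 * ‖z‖ := by
        calc ‖t‖ = ‖(t - z) + z‖ := by ring_nf
          _ ≤ ‖t - z‖ + ‖z‖ := norm_add_le _ _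
          _ ≤ 2 * ‖z‖ := by linarith
      have hPd : P.derivative.eval t = ((m + 2 : ℕ) : ℂ) * t ^ (m + 1) + L.derivative.eval t := by
        have : P = X ^ (m + 2) + L := by rw [hL]; ring
        rw [this]
        simp
        left; ring
      have e1 : P.derivative.eval t - ((m + 2 : ℕ) : ℂ) * z ^ (m + 1) * 1 =
          ((m + 2 : ℕ) : ℂ) * (t ^ (m + 1) - z ^ (m + 1)) + L.derivative.eval t := by
        rw [hPd]; ring
      rw [e1]
      refine (norm_add_le _ _).trans ?_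
      rw [norm_mul, Complex.norm_natCast]
      have h1 := pow_sub_le (n := m) (z := z) (t := t) (R := 2 * ‖z‖) (by linarith) ht2
      have h2 := hKD (2 * ‖z‖) (by linarith) t ht2
      have h3 : ((m + 2 : ℕ) : ℝ) * ‖t ^ (m + 1) - z ^ (m + 1)‖ ≤
          A * ‖z‖ ^ m * (‖x - z‖ + ‖s - z‖) := by
        calc ((m + 2 : ℕ) : ℝ) * ‖t ^ (m + 1) - z ^ (m + 1)‖
            ≤ ((m + 2 : ℕ) : ℝ) * ((m + 1) * (2 * ‖z‖) ^ m * ‖t - z‖) := by gcongr
          _ ≤ ((m + 2 : ℕ) : ℝ) * ((m + 1) * (2 * ‖z‖) ^ m * (‖x - z‖ + ‖s - z‖)) := by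
              gcongr; exact ht1.trans hRs
          _ = A * ‖z‖ ^ m * (‖x - z‖ + ‖s - z‖) := by
              rw [hA, mul_pow]; push_cast; ring
      have h4 : ‖L.derivative.eval t‖ ≤ KD * 2 ^ m * ‖z‖ ^ m * (1 / ‖z‖) := by
        refine h2.trans ?_
        have : (2 * ‖z‖) ^ m * (1 / (2 * ‖z‖)) ≤ 2 ^ m * ‖z‖ ^ m * (1 / ‖z‖) := by
          rw [mul_pow]
          gcongr
          linarith
        calc KD * ((2 * ‖z‖) ^ m * (1 / (2 * ‖z‖))) ≤ KD * (2 ^ m * ‖z‖ ^ m * (1 / ‖z‖)) := by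
              gcongr
          _ = _ := by ring
      have hAC : A ≤ C := by rw [hC]; linarith
      have hKC : KD * 2 ^ m ≤ C := by rw [hC]; linarith
      calc ((m + 2 : ℕ) : ℝ) * ‖t ^ (m + 1) - z ^ (m + 1)‖ + ‖L.derivative.eval t‖
          ≤ A * ‖z‖ ^ m * (‖x - z‖ + ‖s - z‖) + KD * 2 ^ m * ‖z‖ ^ m * (1 / ‖z‖) :=
            add_le_add h3 h4
        _ ≤ C * ‖z‖ ^ m * (‖x - z‖ + ‖s - z‖) + C * ‖z‖ ^ m * (1 / ‖z‖) := by gcongr
        _ = B := by rw [hB]; ring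
    have hconv : Convex ℝ (Metric.closedBall z R) := convex_closedBall _ _
    have hxm : x ∈ Metric.closedBall z R := by
      rw [Metric.mem_closedBall, dist_eq_norm]; exact le_max_left _ _
    have hsm : s ∈ Metric.closedBall z R := by
      rw [Metric.mem_closedBall, dist_eq_norm]; exact le_max_right _ _
    have key := hconv.norm_image_sub_le_of_norm_hasDerivWithin_le hder hbd hsm hxm
    have e2 : P.eval x - P.eval s - ((m + 2 : ℕ) : ℂ) * z ^ (m + 1) * (x - s) =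
        (P.eval x - ((m + 2 : ℕ) : ℂ) * z ^ (m + 1) * x) -
          (P.eval s - ((m + 2 : ℕ) : ℂ) * z ^ (m + 1) * s) := by ring
    rw [e2]
    exact key
  · intro z hz
    show ‖Q.eval z / z ^ (m + 2) - z‖ ≤ C / ‖z‖
    have hz0 : z ≠ 0 := by
      rintro rfl; simp at hz; linarith
    have hz1 : 0 < ‖z‖ := by linarith
    have e : Q.eval z / z ^ (m + 2) - z = M.eval z / z ^ (m + 2) := by
      rw [hQM]; field_simp; ring
    rw [e, norm_div, norm_pow]
    have h1 := eval_le_coefSum M hMd hz (le_refl ‖z‖)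
    have hMC : coefSum M ≤ C := by rw [hC]; linarith
    calc ‖M.eval z‖ / ‖z‖ ^ (m + 2) ≤ (C * ‖z‖ ^ (m + 1)) / ‖z‖ ^ (m + 2) := by
          gcongr
          exact h1.trans (by gcongr)
      _ = C / ‖z‖ := by
          rw [div_eq_div_iff (by positivity) (by positivity)]; ring
  · intro z hz
    show ‖P.eval (Q.eval z / z ^ (m + 2)) - z ^ (m + 2)‖ ≤ C / ‖z‖
    refine (hK2 z hz).trans ?_
    have : K2 ≤ C := by
      have := le_abs_self K2
      rw [hC]; linarith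
    gcongr

end Pool.Agent.H907.Henon
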