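import Pool.Agent.H907.Henon.Norm
import Pool.Agent.H907.Henon.Easy

/-!
Formal properties: equivalence relation, rotation of factors.
-/

open Filter Topology Set Metric Polynomial

namespace Pool.Agent.H907.Henon

theorem Biholo.symm {f g : ℂ × ℂ → ℂ × ℂ} (h : Biholo f g) : Biholo g f := by
  obtain ⟨Φ, h1, h2⟩ := h
  exact ⟨Φ.symm, h2, by simpa using h1⟩

theorem Holo.comp {f g k : ℂ × ℂ → ℂ × ℂ} {Φ : S f → S g} {Θ : S g → S k} (h : Holo f g Φ)
    (h' : Holo g k Θ) : Holo f k (fun x => Θ (Φ x)) := by
  intro q hq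
  obtain ⟨U, hU, hqU, F, hF, hFU⟩ := h q hq
  obtain ⟨hFq, -⟩ := hFU q hqU hq
  obtain ⟨W, hW, hqW, G, hG, hGW⟩ := h' (F q) hFq
  refine ⟨U ∩ F ⁻¹' W, hF.continuousOn.isOpen_inter_preimage hU hW, ⟨hqU, hqW⟩, G ∘ F,
    hG.comp (hF.mono inter_subset_left) (fun x hx => hx.2), ?_⟩
  rintro u ⟨huU, huW⟩ hu
  obtain ⟨h1, h2⟩ := hFU u huU hu
  obtain ⟨h3, h4⟩ := hGW (F u) huW h1
  exact ⟨h3, (congrArg Θ h2).trans h4⟩

theorem Biholo.trans {f g k : ℂ × ℂ → ℂ × ℂ} (h : Biholo f g) (h' : Biholo g k) : Biholo f k := by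
  obtain ⟨Φ, h1, h2⟩ := h
  obtain ⟨Θ, h3, h4⟩ := h'
  exact ⟨Φ.trans Θ, h1.comp h3, h4.comp h2⟩

/-- composition along a concatenation -/
theorem comp_append (l l' : List Fac) : comp (l ++ l') = comp l ∘ comp l' := by
  induction l with
  | nil => rfl
  | cons h t ih => simp only [List.cons_append, comp, ih, Function.comp_assoc]

/-- the list of the first `k` factors of a sequence, in the order of composition -/
def lst (S : ℕ → Fac) : ℕ → List Fac
  | 0 => []
  | k + 1 => S k :: lst S k

theorem comp_lst (S : ℕ → Fac) (k : ℕ) : comp (lst S k) = cmp S k := by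
  induction k with
  | zero => rfl
  | succ k ih => simp only [lst, comp, cmp, ih]

theorem lst_length (S : ℕ → Fac) (k : ℕ) : (lst S k).length = k := by
  induction k with
  | zero => rfl
  | succ k ih => simp [lst, ih]

theorem lst_ne {S : ℕ → Fac} {k : ℕ} (hk : 0 < k) : lst S k ≠ [] := by
  intro h
  have := lst_length S k
  rw [h] at this
  simp at this
  omega

theorem cmp_isGenHenon {S : ℕ → Fac} {k : ℕ} (hk : 0 < k) : IsGenHenon (cmp S k) :=
  ⟨lst S k, lst_ne hk, (comp_lst S k).symm⟩

theorem lst_congr {S S' : ℕ → Fac} {k : ℕ} (h : ∀ j, j < k → S j = S' j) : lst S k = lst S' k := by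
  induction k with
  | zero => rfl
  | succ k ih =>
    simp only [lst]
    rw [h k (by omega), ih (fun j hj => h j (by omega))]

theorem lst_add (S : ℕ → Fac) (s k : ℕ) :
    lst S (s + k) = lst (fun j => S (j + s)) k ++ lst S s := by
  induction k with
  | zero => rfl
  | succ k ih =>
    show S (s + k) :: lst S (s + k) = S (k + s) :: lst (fun j => S (j + s)) k ++ lst S s
    rw [ih, Nat.add_comm s k]
    rfl

/-- every nonempty list is the list of a periodic sequence -/
theorem exists_seq (l : List Fac) (hl : l ≠ []) : ∃ S : ℕ → Fac,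
    (∀ j, S (j + l.length) = S j) ∧ lst S l.length = l := by
  have hpos : 0 < l.length := List.length_pos_iff.2 hl
  set d : Fac := l.head hl with hd
  refine ⟨fun j => l.getD (l.length - 1 - j % l.length) d, fun j => ?_, ?_⟩
  · simp only [Nat.add_mod_right]
  · have key : ∀ k ≤ l.length, lst (fun j => l.getD (l.length - 1 - j % l.length) d) k =
        l.drop (l.length - k) := by
      intro k hk
      induction k with
      | zero => simp [lst]
      | succ k ih =>
        have h1 := ih (by omega)
        show l.getD (l.length - 1 - k % l.length) d :: lst _ k = _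
        rw [h1, Nat.mod_eq_of_lt (by omega : k < l.length)]
        have h2 : l.length - (k + 1) < l.length := by omega
        rw [List.drop_eq_getElem_cons h2]
        have h3 : l.length - 1 - k = l.length - (k + 1) := by omega
        have h4 : l.length - (k + 1) + 1 = l.length - k := by omega
        rw [h3, h4, List.getD_eq_getElem _ _ h2]
    have := key l.length le_rfl
    simpa using this

theorem cmp_add (S : ℕ → Fac) (s k : ℕ) :
    cmp S (s + k) = cmp (fun j => S (j + s)) k ∘ cmp S s := by
  rw [← comp_lst, lst_add, comp_append, comp_lst, comp_lst]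

/-- conjugation of a rotated composition -/
theorem cmp_rotate {S : ℕ → Fac} {k : ℕ} (hS : ∀ j, S (j + k) = S j) (s : ℕ) (q : ℂ × ℂ) :
    cmp (fun j => S (j + s)) k (cmp S s q) = cmp S s (cmp S k q) := by
  have h1 := congrFun (cmp_add S s k) q
  have h2 := congrFun (cmp_add S k s) q
  have h3 : (fun j => S (j + k)) = S := funext hS
  rw [h3] at h2
  simp only [Function.comp] at h1 h2
  rw [← h1, ← h2, Nat.add_comm]

theorem Sim.shift {k : ℕ} {S S' : ℕ → Fac} (h : Sim k S S') (n : ℕ) :
    Sim k (fun j => S (j + n)) (fun j => S' (j + n)) := by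
  obtain ⟨s, t, h1, h2, h3, h4, h5⟩ := h
  refine ⟨fun j => s (j + n), fun j => t (j + n), ?_, ?_, fun j => h3 _, ?_, ?_⟩
  · intro j; simp only []; rw [Nat.add_right_comm, h1]
  · intro j; simp only []; rw [Nat.add_right_comm, h2]
  · intro j
    simp only []
    rw [Nat.add_right_comm j 2 n]; exact h4 _
  · intro j
    simp only []
    rw [Nat.add_right_comm j 2 n, Nat.add_right_comm j 1 n]; exact h5 _

end Pool.Agent.H907.Henon
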