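import Pool.Agent.H907.Henon.QpDef

/-!
Uniformization of the basin of a periodic composition.
-/

open Filter Topology Set Metric Polynomial

namespace Pool.Agent.H907.Henon

/-- a choice of the limit constant of a sequence of data -/
noncomputable def cst (C R : ℝ) (T : ℕ → Dat) : ℂ :=
  Classical.epsilon fun c => ‖c‖ ≤ 600 * C ^ 3 ∧ ∀ q ∈ V R,
      ‖E0 (sh T) ((T 0).H q) - c‖ ≤ 1200 * C ^ 3 * R * (1 + ‖q.2‖) / ‖q.1‖

theorem cst_spec {C R : ℝ} (B : Big C R) {T : ℕ → Dat} (hT : ∀ n, (T n).Est C) :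
    ‖cst C R T‖ ≤ 600 * C ^ 3 ∧ ∀ q ∈ V R,
      ‖E0 (sh T) ((T 0).H q) - cst C R T‖ ≤ 1200 * C ^ 3 * R * (1 + ‖q.2‖) / ‖q.1‖ := by
  obtain ⟨c, hc⟩ := exists_const B hT
  exact Classical.epsilon_spec (p := fun c => ‖c‖ ≤ 600 * C ^ 3 ∧ ∀ q ∈ V R,
      ‖E0 (sh T) ((T 0).H q) - c‖ ≤ 1200 * C ^ 3 * R * (1 + ‖q.2‖) / ‖q.1‖) ⟨c, hc⟩

/-- the sequence of constants -/
noncomputable def cs (C R : ℝ) (S : ℕ → Dat) (k : ℕ) : ℕ → ℂ
  | 0 => cst C R (sh^[k - 1] S)
  | n + 1 => cst C R (sh^[n] S)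

theorem cs_Cst {C R : ℝ} (B : Big C R) {S : ℕ → Dat} (hS : ∀ n, (S n).Est C) (k : ℕ) :
    Cst C R S (cs C R S k) := by
  refine ⟨fun n => ?_, fun n q hq => ?_⟩
  · cases n with
    | zero => exact (cst_spec B (iter_est hS (k - 1))).1
    | succ n => exact (cst_spec B (iter_est hS n)).1
  · exact (cst_spec B (iter_est hS n)).2 q hq

theorem cs_period {C R : ℝ} {S : ℕ → Dat} {k : ℕ} (hk : 0 < k) (hS : ∀ n, S (n + k) = S n)
    (n : ℕ) : cs C R S k (n + k) = cs C R S k n := by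
  obtain ⟨k', rfl⟩ := Nat.exists_eq_succ_of_ne_zero hk.ne'
  cases n with
  | zero =>
    rw [Nat.zero_add]
    rfl
  | succ n =>
    have e : n + 1 + (k' + 1) = (n + (k' + 1)) + 1 := by ring
    show cs C R S (k' + 1) (n + 1 + (k' + 1)) = cst C R (sh^[n] S)
    rw [e]
    show cst C R (sh^[n + (k' + 1)] S) = cst C R (sh^[n] S)
    congr 1
    funext j
    rw [sh_iter_apply, sh_iter_apply, ← Nat.add_assoc]
    exact hS (j + n)

/-- points of the basin -/
theorem mem_Om_orb {C R : ℝ} (B : Big C R) {S : ℕ → Dat} (hS : ∀ n, (S n).Est C) {k : ℕ}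
    (hk : 0 < k) (hper : ∀ n, S (n + k) = S n) (q : ℂ × ℂ) :
    q ∈ Om (orb S k) ↔ ∃ n, orb S n q ∈ V R := by
  have hR := B.Rpos
  constructor
  · rintro ⟨h1, h2⟩
    have h3 : ∀ᶠ n : ℕ in atTop, R < ‖((orb S k)^[n] q).1‖ := h1.eventually_gt_atTop R
    have h4 : ∀ᶠ n : ℕ in atTop, ‖((orb S k)^[n] q).2 / ((orb S k)^[n] q).1‖ < 1 := by
      have := h2.norm
      rw [norm_zero] at this
      exact this.eventually_lt_const one_pos
    obtain ⟨n, h5, h6⟩ := (h3.and h4).exists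
    refine ⟨k * n, ?_⟩
    rw [← orb_period hper]
    refine ⟨h5, ?_⟩
    rw [norm_div, div_lt_one (by linarith)] at h6
    exact h6
  · rintro ⟨n, hn⟩
    have hg : ∀ j, (R / 2) ^ j * ‖(orb S n q).1‖ ≤ ‖(orb S (n + j) q).1‖ := fun j => by
      rw [orb_add]; exact orb_growth B (iter_est hS n) hn j
    have hrho : ∀ j, 1 + ‖(orb S (n + j) q).2‖ ≤ 2 * (2 / R) ^ j * ‖(orb S (n + j) q).1‖ :=
      fun j => by rw [orb_add]; exact orb_rho B (iter_est hS n) hn j
    have hmem : ∀ j, orb S (n + j) q ∈ V R := fun j => by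
      rw [orb_add]; exact orb_mem B (iter_est hS n) hn j
    have hR0 := B.R0
    have hx0 := V.pos B hn
    have hsub : Tendsto (fun m : ℕ => k * m - n) atTop atTop := by
      refine tendsto_atTop_mono (f := fun m : ℕ => m - n) (fun m => ?_) ?_
      · exact Nat.sub_le_sub_right (Nat.le_mul_of_pos_left m hk) n
      · exact tendsto_sub_atTop_nat n
    have hev : ∀ᶠ m : ℕ in atTop, n + (k * m - n) = k * m := by
      filter_upwards [eventually_ge_atTop n] with m hm
      have : m ≤ k * m := Nat.le_mul_of_pos_left m hk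
      omega
    constructor
    · have h1 : Tendsto (fun j : ℕ => (R / 2) ^ j * ‖(orb S n q).1‖) atTop atTop :=
        (tendsto_pow_atTop_atTop_of_one_lt (by linarith)).atTop_mul_const hx0
      have h2 : Tendsto (fun j : ℕ => ‖(orb S (n + j) q).1‖) atTop atTop :=
        tendsto_atTop_mono hg h1
      refine (h2.comp hsub).congr' ?_
      filter_upwards [hev] with m hm
      simp only [Function.comp]
      rw [hm, orb_period hper]
    · have h1 : Tendsto (fun j : ℕ => 2 * (2 / R) ^ j) atTop (𝓝 (2 * 0)) := by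
        refine (tendsto_pow_atTop_nhds_zero_of_lt_one (by positivity) ?_).const_mul 2
        rw [div_lt_one hR]
        linarith
      rw [mul_zero] at h1
      have h2 : Tendsto (fun j : ℕ => (orb S (n + j) q).2 / (orb S (n + j) q).1) atTop (𝓝 0) := by
        refine squeeze_zero_norm (fun j => ?_) h1
        have hx := V.pos B (hmem j)
        rw [norm_div, div_le_iff₀ hx]
        have := hrho j
        linarith
      refine (h2.comp hsub).congr' ?_
      filter_upwards [hev] with m hm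
      simp only [Function.comp]
      rw [hm, orb_period hper]

theorem iter_eq_self {α : Type*} {S : ℕ → α} {k : ℕ} (h : ∀ n, S (n + k) = S n) : sh^[k] S = S := by
  have := sh_iter_period h 1
  rwa [Nat.mul_one] at this

/-- Uniformization. -/
theorem exists_unif' {C : ℝ} (hC : 1 ≤ C) {S : ℕ → Dat} (hS : ∀ n, (S n).Est C) {k : ℕ}
    (hk : 0 < k) (hper : ∀ n, S (n + k) = S n) :
    ∃ c : ℕ → ℂ, (∀ n, c (n + k) = c n) ∧ ∃ Ψ : ℂ × ℂ → ℂ × ℂ,
      Unif (orb S k) (Dp S k) (Bp S k) (fun z => (qp S c k).eval z) Ψ := by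
  set R := 2 ^ 20 * C ^ 7 with hR
  have B : Big C R := ⟨hC, le_rfl⟩
  set c := cs C R S k with hcdef
  have hc : Cst C R S c := cs_Cst B hS k
  have hcper : ∀ n, c (n + k) = c n := cs_period hk hper
  refine ⟨c, hcper, Psi C R S c, ?_⟩
  refine ⟨?_, ?_, ?_, ?_, ?_⟩
  · exact fun x hx => (Psi_differentiableAt B hS hc hx).differentiableWithinAt
  · ext q
    rw [mem_Om_orb B hS hk hper]
    constructor
    · rintro ⟨x, hx, rfl⟩
      obtain ⟨n, hn⟩ := (eventually_mem B hS hc hx).exists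
      exact ⟨n, orb_Psi_mem B hS hc hn⟩
    · rintro ⟨n, hn⟩
      obtain ⟨x, hx, h⟩ := Psi_surj B hS hc hn
      exact ⟨x, hx, h⟩
  · intro x hx
    rw [← mo_eq]
    have := Psi_mo B hS hc hx k
    rwa [iter_eq_self hper, iter_eq_self hcper] at this
  · intro x hx y hy
    rw [Psi_ker B hS hc hx hy]
    constructor
    · rintro ⟨m, l, h⟩
      -- extend to a multiple of `k`
      have h1 : ∀ n, ∃ l : ℤ, tr l (mo S c (m + n) x) = mo S c (m + n) y := by
        intro n
        refine ⟨(Dp (sh^[m] S) n : ℤ) * l, ?_⟩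
        rw [mo_add, mo_add, ← h, mo_tr]
      have h2 : m ≤ k * m := Nat.le_mul_of_pos_left m hk
      obtain ⟨l', hl'⟩ := h1 (k * m - m)
      refine ⟨m, l', ?_⟩
      rw [mo_period hper hcper]
      rwa [Nat.add_sub_cancel' h2] at hl'
    · rintro ⟨m, l, h⟩
      refine ⟨k * m, l, ?_⟩
      rwa [mo_period hper hcper] at h
  · intro x hx
    exact Psi_loc B hS hc hx

end Pool.Agent.H907.Henon
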