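import Pool.Agent.H907.Henon.Model

open Polynomial Filter Topology Set

namespace Pool.Agent.H907.Henon

/-! ### elementary properties of the model maps -/

theorem tr_tr (m n : ℤ) (x : ℂ × ℂ) : tr m (tr n x) = tr (m + n) x := by
  simp only [tr, Prod.mk.injEq, and_true]
  push_cast; ring

theorem tr_zero (x : ℂ × ℂ) : tr 0 x = x := by simp [tr]

theorem tl_tr (d : ℕ) (β : ℂ) (q : ℂ → ℂ) (n : ℤ) (x : ℂ × ℂ) :
    tl d β q (tr n x) = tr (d * n) (tl d β q x) := by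
  have : Complex.exp (x.1 + n * (2 * Real.pi * Complex.I)) = Complex.exp x.1 :=
    Complex.exp_eq_exp_iff_exists_int.2 ⟨n, rfl⟩
  simp only [tl, tr, this, Prod.mk.injEq, and_true]
  push_cast; ring

theorem tl_iter_tr (d : ℕ) (β : ℂ) (q : ℂ → ℂ) (m : ℕ) (n : ℤ) (x : ℂ × ℂ) :
    (tl d β q)^[m] (tr n x) = tr ((d : ℤ) ^ m * n) ((tl d β q)^[m] x) := by
  induction m with
  | zero => simp
  | succ m ih =>
    rw [Function.iterate_succ_apply', Function.iterate_succ_apply', ih, tl_tr]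
    congr 1; ring

theorem tl_injective {d : ℕ} (hd : 2 ≤ d) {β : ℂ} (hβ : β ≠ 0) (q : ℂ → ℂ) :
    Function.Injective (tl d β q) := by
  intro x y h
  have hd0 : (d : ℂ) ≠ 0 := by exact_mod_cast (by omega : d ≠ 0)
  have h1 : (d : ℂ) * x.1 = d * y.1 := congrArg Prod.fst h
  have h2 : β * x.2 + q (Complex.exp x.1) = β * y.2 + q (Complex.exp y.1) := congrArg Prod.snd h
  have h3 : x.1 = y.1 := mul_left_cancel₀ hd0 h1
  rw [h3] at h2
  have h4 : x.2 = y.2 := mul_left_cancel₀ hβ (add_right_cancel h2)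
  exact Prod.ext h3 h4

theorem tl_iter_injective {d : ℕ} (hd : 2 ≤ d) {β : ℂ} (hβ : β ≠ 0) (q : ℂ → ℂ) (m : ℕ) :
    Function.Injective ((tl d β q)^[m]) := (tl_injective hd hβ q).iterate m

theorem tr_injective (n : ℤ) : Function.Injective (tr n) := by
  intro x y h
  have := congrArg (tr (-n)) h
  rwa [tr_tr, tr_tr, neg_add_cancel, tr_zero, tr_zero] at this

/-- The explicit form of the iterates of the model map. -/
theorem exists_Q_iter (d : ℕ) (β : ℂ) {q : ℂ → ℂ} (hq : Differentiable ℂ q) (m : ℕ) :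
    ∃ Q : ℂ → ℂ, Differentiable ℂ Q ∧
      ∀ x, (tl d β q)^[m] x = ((d : ℂ) ^ m * x.1, β ^ m * x.2 + Q x.1) := by
  induction m with
  | zero => exact ⟨fun _ => 0, differentiable_const _, fun x => by simp⟩
  | succ m ih =>
    obtain ⟨Q, hQ, h⟩ := ih
    refine ⟨fun ζ => β * Q ζ + q (Complex.exp ((d : ℂ) ^ m * ζ)), ?_, fun x => ?_⟩
    · exact (hQ.const_mul β).add (hq.comp (Complex.differentiable_exp.comp
        (differentiable_id.const_mul _)))
    · rw [Function.iterate_succ_apply', h, tl]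
      simp only [Prod.mk.injEq]
      constructor <;> ring

theorem tl_mem {d : ℕ} (hd : 2 ≤ d) (β : ℂ) (q : ℂ → ℂ) {x : ℂ × ℂ} :
    tl d β q x ∈ HC ↔ x ∈ HC := by
  have hd0 : (0 : ℝ) < d := by exact_mod_cast (by omega : 0 < d)
  simp only [HC, mem_ofPred_eq, tl]
  rw [← Complex.ofReal_natCast, Complex.re_ofReal_mul]
  exact mul_pos_iff_of_pos_left hd0

theorem tl_iter_mem {d : ℕ} (hd : 2 ≤ d) (β : ℂ) (q : ℂ → ℂ) (m : ℕ) {x : ℂ × ℂ} :
    (tl d β q)^[m] x ∈ HC ↔ x ∈ HC := by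
  induction m with
  | zero => simp
  | succ m ih => rw [Function.iterate_succ_apply', tl_mem hd, ih]

theorem tr_mem (n : ℤ) {x : ℂ × ℂ} : tr n x ∈ HC ↔ x ∈ HC := by
  simp only [HC, mem_ofPred_eq, tr]
  have : ((x.1 + n * (2 * Real.pi * Complex.I)) : ℂ).re = x.1.re := by simp
  rw [this]

/-- The inverse of the model map. -/
noncomputable def tli (d : ℕ) (β : ℂ) (q : ℂ → ℂ) (x : ℂ × ℂ) : ℂ × ℂ :=
  (x.1 / d, (x.2 - q (Complex.exp (x.1 / d))) / β)

theorem tl_tli {d : ℕ} (hd : 2 ≤ d) {β : ℂ} (hβ : β ≠ 0) (q : ℂ → ℂ) (x : ℂ × ℂ) :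
    tl d β q (tli d β q x) = x := by
  have hd0 : (d : ℂ) ≠ 0 := by exact_mod_cast (by omega : d ≠ 0)
  apply Prod.ext
  · simp only [tl, tli]; field_simp
  · simp only [tl, tli]; field_simp; ring

theorem tl_tli_iter {d : ℕ} (hd : 2 ≤ d) {β : ℂ} (hβ : β ≠ 0) (q : ℂ → ℂ) (m : ℕ)
    (x : ℂ × ℂ) : (tl d β q)^[m] ((tli d β q)^[m] x) = x := by
  induction m generalizing x with
  | zero => simp
  | succ m ih =>
    rw [Function.iterate_succ_apply, Function.iterate_succ_apply' (tli d β q), tl_tli hd hβ, ih]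

theorem tl_continuous (d : ℕ) (β : ℂ) {q : ℂ → ℂ} (hq : Differentiable ℂ q) :
    Continuous (tl d β q) := by
  have := hq.continuous
  have h2 : Continuous Complex.exp := Complex.continuous_exp
  unfold tl
  fun_prop

theorem tli_continuous (d : ℕ) (β : ℂ) {q : ℂ → ℂ} (hq : Differentiable ℂ q) :
    Continuous (tli d β q) := by
  have := hq.continuous
  have h2 : Continuous Complex.exp := Complex.continuous_exp
  unfold tli
  fun_prop

theorem tr_continuous (n : ℤ) : Continuous (tr n) := by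
  unfold tr
  fun_prop

theorem tli_mem {d : ℕ} (hd : 2 ≤ d) {β : ℂ} (hβ : β ≠ 0) (q : ℂ → ℂ) {x : ℂ × ℂ} :
    tli d β q x ∈ HC ↔ x ∈ HC := by
  rw [← tl_mem hd β q (x := tli d β q x), tl_tli hd hβ]

theorem tli_iter_mem {d : ℕ} (hd : 2 ≤ d) {β : ℂ} (hβ : β ≠ 0) (q : ℂ → ℂ) (m : ℕ)
    {x : ℂ × ℂ} : (tli d β q)^[m] x ∈ HC ↔ x ∈ HC := by
  induction m with
  | zero => simp
  | succ m ih => rw [Function.iterate_succ_apply', tli_mem hd hβ, ih]

/-- `MRel` is transitive in the needed form. -/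
theorem MRel.trans' {d : ℕ} {β : ℂ} {q : ℂ → ℂ} {x y z : ℂ × ℂ}
    (h1 : MRel d β q x y) (h2 : MRel d β q x z) : MRel d β q y z := by
  obtain ⟨m, n, l, h1⟩ := h1
  obtain ⟨m', n', l', h2⟩ := h2
  refine ⟨m' + n, m + n', (d : ℤ) ^ m * l' - (d : ℤ) ^ m' * l, ?_⟩
  have e1 : (tl d β q)^[m' + n] y = tr ((d : ℤ) ^ m' * l) ((tl d β q)^[m' + m] x) := by
    rw [Function.iterate_add_apply, ← h1, tl_iter_tr, ← Function.iterate_add_apply]
  have e2 : (tl d β q)^[m + n'] z = tr ((d : ℤ) ^ m * l') ((tl d β q)^[m' + m] x) := by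
    rw [Function.iterate_add_apply, ← h2, tl_iter_tr, ← Function.iterate_add_apply,
      add_comm m m']
  rw [e1, e2, tr_tr]
  congr 1; ring

theorem isOpen_HC : IsOpen HC :=
  isOpen_lt continuous_const (Complex.continuous_re.comp continuous_fst)

theorem convex_HC : Convex ℝ HC := by
  intro x hx y hy a b ha hb hab
  have hx' : 0 < x.1.re := hx
  have hy' : 0 < y.1.re := hy
  show 0 < (a • x + b • y).1.re
  have : (a • x + b • y).1.re = a * x.1.re + b * y.1.re := by simp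
  rw [this]
  rcases ha.eq_or_lt with h | h
  · have hb1 : b = 1 := by linarith
    rw [← h, hb1]; linarith
  · have := mul_pos h hx'
    have := mul_nonneg hb hy'.le
    linarith


section
variable {d : ℕ} {β : ℂ} {q : ℂ → ℂ}

theorem tli_tl (hd : 2 ≤ d) (hβ : β ≠ 0) (q : ℂ → ℂ) (x : ℂ × ℂ) :
    tli d β q (tl d β q x) = x :=
  tl_injective hd hβ q (tl_tli hd hβ q _)

/-- The model map as a homeomorphism of `HC`. -/
noncomputable def Th (hd : 2 ≤ d) (hβ : β ≠ 0) (hq : Differentiable ℂ q) : HC ≃ₜ HC where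
  toFun x := ⟨tl d β q x, (tl_mem hd β q).2 x.2⟩
  invFun x := ⟨tli d β q x, (tli_mem hd hβ q).2 x.2⟩
  left_inv x := Subtype.ext (tli_tl hd hβ q x)
  right_inv x := Subtype.ext (tl_tli hd hβ q x)
  continuous_toFun := ((tl_continuous d β hq).comp continuous_subtype_val).subtype_mk _
  continuous_invFun := ((tli_continuous d β hq).comp continuous_subtype_val).subtype_mk _

/-- The translation as a homeomorphism of `HC`. -/
noncomputable def Rh (l : ℤ) : HC ≃ₜ HC where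
  toFun x := ⟨tr l x, (tr_mem l).2 x.2⟩
  invFun x := ⟨tr (-l) x, (tr_mem (-l)).2 x.2⟩
  left_inv x := Subtype.ext (by simp only []; rw [tr_tr, neg_add_cancel, tr_zero])
  right_inv x := Subtype.ext (by simp only []; rw [tr_tr, add_neg_cancel, tr_zero])
  continuous_toFun := ((tr_continuous l).comp continuous_subtype_val).subtype_mk _
  continuous_invFun := ((tr_continuous (-l)).comp continuous_subtype_val).subtype_mk _

theorem Th_pow (hd : 2 ≤ d) (hβ : β ≠ 0) (hq : Differentiable ℂ q) (m : ℕ) (x : HC) :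
    (((Th hd hβ hq) ^ m) x : ℂ × ℂ) = (tl d β q)^[m] x := by
  induction m with
  | zero => simp
  | succ m ih =>
    rw [pow_succ', Function.iterate_succ_apply', ← ih]
    rfl

theorem MRel.refl' (x : ℂ × ℂ) : MRel d β q x x := ⟨0, 0, 0, by simp [tr_zero]⟩

theorem MRel.symm' {x y : ℂ × ℂ} (h : MRel d β q x y) : MRel d β q y x := h.trans' (MRel.refl' x)

theorem MRel.trans'' {x y z : ℂ × ℂ} (h : MRel d β q x y) (h2 : MRel d β q y z) :
    MRel d β q x z := h.symm'.trans' h2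

/-- The orbit relation on `HC`. -/
noncomputable def mSetoid (d : ℕ) (β : ℂ) (q : ℂ → ℂ) : Setoid HC where
  r x y := MRel d β q x y
  iseqv := ⟨fun x => MRel.refl' x.1, fun h => h.symm', fun h h2 => h.trans'' h2⟩

/-- The quotient space. -/
abbrev MQ (d : ℕ) (β : ℂ) (q : ℂ → ℂ) : Type := Quotient (mSetoid d β q)

/-- The projection. -/
noncomputable def mpi (d : ℕ) (β : ℂ) (q : ℂ → ℂ) (x : HC) : MQ d β q := Quotient.mk (mSetoid d β q) x

theorem mpi_eq_iff {x y : HC} : mpi d β q x = mpi d β q y ↔ MRel d β q x y :=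
  Quotient.eq (r := mSetoid d β q)

/-- The deck group. -/
noncomputable def deck (d : ℕ) (β : ℂ) (q : ℂ → ℂ) : Subgroup (HC ≃ₜ HC) where
  carrier := {γ | ∀ x : HC, MRel d β q x (γ x)}
  mul_mem' {a b} ha hb x := (hb x).trans'' (ha (b x))
  one_mem' x := MRel.refl' x.1
  inv_mem' {a} ha x := by
    have := ha (a⁻¹ x)
    have h2 : a (a⁻¹ x) = x := a.apply_symm_apply x
    rw [h2] at this
    exact this.symm'

noncomputable instance deckAction (d : ℕ) (β : ℂ) (q : ℂ → ℂ) : MulAction (deck d β q) HC where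
  smul γ x := γ.1 x
  one_smul _ := rfl
  mul_smul _ _ _ := rfl

theorem deck_smul (γ : deck d β q) (x : HC) : γ • x = γ.1 x := rfl

/-- Every pair of related points is related by an explicit deck map. -/
theorem exists_deck (hd : 2 ≤ d) (hβ : β ≠ 0) (hq : Differentiable ℂ q) {x y : HC}
    (h : MRel d β q x y) : ∃ γ : deck d β q, γ • x = y := by
  obtain ⟨m, n, l, h⟩ := h
  set T := Th hd hβ hq with hT
  have hrel : ∀ z : HC, tr l ((tl d β q)^[m] z) =
      (tl d β q)^[n] (((T ^ n)⁻¹ * (Rh l * T ^ m)) z : HC) := by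
    intro z
    rw [← Th_pow hd hβ hq n, ← hT]
    have h1 : (T ^ n) (((T ^ n)⁻¹ * (Rh l * T ^ m)) z) = (Rh l * T ^ m) z :=
      (T ^ n).apply_symm_apply _
    rw [h1]
    show _ = tr l ((T ^ m) z : HC)
    rw [Th_pow]
  refine ⟨⟨(T ^ n)⁻¹ * (Rh l * T ^ m), fun z => ⟨m, n, l, hrel z⟩⟩, ?_⟩
  rw [deck_smul]
  apply Subtype.ext
  apply tl_iter_injective hd hβ q n
  rw [← h]
  exact (hrel x).symm

/-- `MRel` is locally injective. -/
def LocInj (d : ℕ) (β : ℂ) (q : ℂ → ℂ) : Prop :=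
  ∀ x ∈ HC, ∃ V ∈ 𝓝 x, ∀ y ∈ V ∩ HC, ∀ z ∈ V ∩ HC, MRel d β q y z → y = z

instance : PreconnectedSpace HC :=
  isPreconnected_iff_preconnectedSpace.1 convex_HC.isPreconnected

/-- Two continuous maps into `HC` which are related pointwise and agree at a point are equal. -/
theorem eq_of_rel (hl : LocInj d β q) {A : Type*} [TopologicalSpace A] [PreconnectedSpace A]
    (F G : A → HC) (hF : Continuous F) (hG : Continuous G)
    (hr : ∀ a, MRel d β q (F a) (G a)) (a0 : A) (h0 : F a0 = G a0) : F = G := by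
  have hclosed : IsClosed {a | F a = G a} := isClosed_eq hF hG
  have hopen : IsOpen {a | F a = G a} := by
    rw [isOpen_iff_mem_nhds]
    intro a ha
    obtain ⟨V, hV, hVe⟩ := hl (F a) (F a).2
    have e1 : ∀ᶠ b in 𝓝 a, (F b : ℂ × ℂ) ∈ V :=
      (continuous_subtype_val.comp hF).continuousAt hV
    have e2 : ∀ᶠ b in 𝓝 a, (G b : ℂ × ℂ) ∈ V := by
      have ha' : F a = G a := ha
      have : V ∈ 𝓝 ((G a : HC) : ℂ × ℂ) := by rw [← ha']; exact hV
      exact (continuous_subtype_val.comp hG).continuousAt this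
    filter_upwards [e1, e2] with b h1 h2
    exact Subtype.ext (hVe _ ⟨h1, (F b).2⟩ _ ⟨h2, (G b).2⟩ (hr b))
  have huniv : {a | F a = G a} = univ := IsClopen.eq_univ ⟨hclosed, hopen⟩ ⟨a0, h0⟩
  funext a
  have : a ∈ {a | F a = G a} := by rw [huniv]; trivial
  exact this

theorem mpi_isQuotientMap : IsQuotientMap (mpi d β q) := isQuotientMap_quotient_mk'

theorem mpi_quotientCovering (hd : 2 ≤ d) (hβ : β ≠ 0) (hq : Differentiable ℂ q)
    (hl : LocInj d β q) : IsQuotientCoveringMap (mpi d β q) (deck d β q) where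
  toIsQuotientMap := mpi_isQuotientMap
  continuous_const_smul γ := γ.1.continuous
  apply_eq_iff_mem_orbit := by
    intro e1 e2
    rw [mpi_eq_iff]
    constructor
    · intro h
      obtain ⟨γ, hγ⟩ := exists_deck hd hβ hq h.symm'
      exact ⟨γ, hγ⟩
    · rintro ⟨γ, hγ⟩
      have := γ.2 e2
      have h2 : γ.1 e2 = e1 := hγ
      rw [h2] at this
      exact this.symm'
  disjoint := by
    intro e
    obtain ⟨V, hV, hVe⟩ := hl e e.2
    refine ⟨Subtype.val ⁻¹' V, continuous_subtype_val.continuousAt hV, fun γ => ?_⟩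
    rintro ⟨_, ⟨u, hu, rfl⟩, hv⟩
    have h1 : (u : ℂ × ℂ) = ((γ • u : HC) : ℂ × ℂ) :=
      hVe _ ⟨hu, u.2⟩ _ ⟨hv, (γ • u : HC).2⟩ (γ.2 u)
    have h2 : u = γ • u := Subtype.ext h1
    have h3 : (fun x : HC => x) = fun x => γ.1 x :=
      eq_of_rel hl _ _ continuous_id γ.1.continuous (fun x => γ.2 x) u h2
    apply Subtype.ext
    apply Homeomorph.ext
    intro x
    exact (congrFun h3 x).symm

theorem mpi_isCovering (hd : 2 ≤ d) (hβ : β ≠ 0) (hq : Differentiable ℂ q)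
    (hl : LocInj d β q) : IsCoveringMap (mpi d β q) :=
  (mpi_quotientCovering hd hβ hq hl).isCoveringMap

instance : LocallyPathConnectedSpace HC := isOpen_HC.locallyPathConnectedSpace

instance : ContractibleSpace HC :=
  convex_HC.contractibleSpace ⟨(1, 0), by simp [HC]⟩

end

section
variable {f g : ℂ × ℂ → ℂ × ℂ} {d d' : ℕ} {β β' : ℂ} {q q' : ℂ → ℂ} {Ψ Ψ' : ℂ × ℂ → ℂ × ℂ}

theorem Unif.mem (U : Unif f d β q Ψ) {x : ℂ × ℂ} (hx : x ∈ HC) : Ψ x ∈ Om f := by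
  rw [← U.image]; exact ⟨x, hx, rfl⟩

theorem Unif.iter (U : Unif f d β q Ψ) (hd : 2 ≤ d) (m : ℕ) {x : ℂ × ℂ} (hx : x ∈ HC) :
    f^[m] (Ψ x) = Ψ ((tl d β q)^[m] x) := by
  induction m with
  | zero => rfl
  | succ m ih =>
    rw [Function.iterate_succ_apply', Function.iterate_succ_apply', ih,
      U.conj _ ((tl_iter_mem hd β q m).2 hx)]

/-- The class in `S(f)` of the image of a point of `HC`. -/
noncomputable def Unif.cl (U : Unif f d β q Ψ) (x : HC) : S f := S.mk f (Ψ x) (U.mem x.2)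

theorem Unif.cl_eq_iff (U : Unif f d β q Ψ) (hd : 2 ≤ d) {x y : HC} :
    U.cl x = U.cl y ↔ MRel d β q x y := by
  unfold Unif.cl
  rw [S.mk_eq_iff]
  constructor
  · rintro ⟨m, n, h⟩
    rw [U.iter hd m x.2, U.iter hd n y.2,
      U.ker _ ((tl_iter_mem hd β q m).2 x.2) _ ((tl_iter_mem hd β q n).2 y.2)] at h
    obtain ⟨k, l, h⟩ := h
    refine ⟨k + m, k + n, l, ?_⟩
    rw [Function.iterate_add_apply, Function.iterate_add_apply]
    exact h
  · rintro ⟨m, n, l, h⟩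
    refine ⟨m, n, ?_⟩
    rw [U.iter hd m x.2, U.iter hd n y.2, ← h,
      U.ker _ ((tl_iter_mem hd β q m).2 x.2) _
        ((tr_mem l).2 ((tl_iter_mem hd β q m).2 x.2))]
    exact ⟨0, l, rfl⟩

theorem Unif.cl_surj (U : Unif f d β q Ψ) (s : S f) : ∃ x : HC, U.cl x = s := by
  induction s using Quotient.ind with
  | _ p =>
    obtain ⟨p, hp⟩ := p
    have hp' := hp
    rw [← U.image] at hp'
    obtain ⟨x, hx, rfl⟩ := hp'
    exact ⟨⟨x, hx⟩, rfl⟩

theorem Unif.locInj (U : Unif f d β q Ψ) (hd : 2 ≤ d) : LocInj d β q := by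
  intro x hx
  have hx' : 0 < x.1.re := hx
  obtain ⟨W, _, _, lam, _, _, _, hev⟩ := U.loc x hx
  have hV2 : {y : ℂ × ℂ | 2 / 3 * x.1.re < y.1.re ∧ y.1.re < 4 / 3 * x.1.re} ∈ 𝓝 x := by
    have c : Continuous fun y : ℂ × ℂ => y.1.re := Complex.continuous_re.comp continuous_fst
    refine IsOpen.mem_nhds ?_ ⟨by linarith, by linarith⟩
    exact (isOpen_lt continuous_const c).inter (isOpen_lt c continuous_const)
  refine ⟨_, Filter.inter_mem hev hV2, ?_⟩
  rintro y ⟨⟨hy1, hy2⟩, hy⟩ z ⟨⟨hz1, hz2⟩, hz⟩ ⟨m, n, l, h⟩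
  have hre : ∀ (k : ℕ) (w : ℂ × ℂ), ((tl d β q)^[k] w).1.re = (d : ℝ) ^ k * w.1.re := by
    intro k w
    induction k with
    | zero => simp
    | succ k ih =>
      rw [Function.iterate_succ_apply']
      show ((d : ℂ) * ((tl d β q)^[k] w).1).re = _
      rw [← Complex.ofReal_natCast, Complex.re_ofReal_mul, ih, pow_succ]
      ring
  have h1 : (d : ℝ) ^ m * y.1.re = (d : ℝ) ^ n * z.1.re := by
    rw [← hre, ← hre, ← h]
    simp [tr]
  have hd2 : (2 : ℝ) ≤ d := by exact_mod_cast hd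
  have hdpos : (0 : ℝ) < d := by linarith
  have hmn : m = n := by
    rcases lt_trichotomy m n with hlt | heq | hgt
    · exfalso
      obtain ⟨k, rfl⟩ : ∃ k, n = m + (k + 1) := ⟨n - m - 1, by omega⟩
      rw [pow_add, mul_assoc] at h1
      have h2 : y.1.re = (d : ℝ) ^ (k + 1) * z.1.re := mul_left_cancel₀ (by positivity) h1
      have h3 : (2 : ℝ) ≤ (d : ℝ) ^ (k + 1) := by
        calc (2 : ℝ) ≤ d := hd2
          _ ≤ (d : ℝ) ^ (k + 1) := le_self_pow₀ (by linarith) (by omega)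
      have hz3 : 0 < z.1.re := hz
      have h4 := mul_le_mul_of_nonneg_right h3 hz3.le
      have h5 : 2 / 3 * x.1.re < z.1.re := hz2.1
      have h6 : y.1.re < 4 / 3 * x.1.re := hy2.2
      linarith
    · exact heq
    · exfalso
      obtain ⟨k, rfl⟩ : ∃ k, m = n + (k + 1) := ⟨m - n - 1, by omega⟩
      rw [pow_add, mul_assoc] at h1
      have h2 : (d : ℝ) ^ (k + 1) * y.1.re = z.1.re := mul_left_cancel₀ (by positivity) h1
      have h3 : (2 : ℝ) ≤ (d : ℝ) ^ (k + 1) := by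
        calc (2 : ℝ) ≤ d := hd2
          _ ≤ (d : ℝ) ^ (k + 1) := le_self_pow₀ (by linarith) (by omega)
      have hy3 : 0 < y.1.re := hy
      have h4 := mul_le_mul_of_nonneg_right h3 hy3.le
      have h5 : 2 / 3 * x.1.re < y.1.re := hy2.1
      have h6 : z.1.re < 4 / 3 * x.1.re := hz2.2
      linarith
  subst hmn
  have h2 : Ψ y = Ψ z := (U.ker y hy z hz).2 ⟨m, l, h⟩
  have hy4 : lam (Ψ y) = y := hy1
  have hz4 : lam (Ψ z) = z := hz1
  rw [← hy4, ← hz4, h2]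

/-- Local holomorphic lifts. -/
theorem local_lift (U : Unif f d β q Ψ) (U' : Unif g d' β' q' Ψ') {B : S f → S g}
    (hB : Holo f g B) {x0 : ℂ × ℂ} (hx0 : x0 ∈ HC) :
    ∃ (W : Set (ℂ × ℂ)) (F : ℂ × ℂ → ℂ × ℂ), IsOpen W ∧ x0 ∈ W ∧ W ⊆ HC ∧
      DifferentiableOn ℂ F W ∧ ∀ x (hx : x ∈ HC), x ∈ W → ∃ hF : F x ∈ HC,
        B (U.cl ⟨x, hx⟩) = U'.cl ⟨F x, hF⟩ := by
  obtain ⟨V, hVo, hV0, G, hG, hGe⟩ := hB (Ψ x0) (U.mem hx0)
  obtain ⟨hG0, _⟩ := hGe (Ψ x0) hV0 (U.mem hx0)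
  have hG0' := hG0
  rw [← U'.image] at hG0'
  obtain ⟨y0, hy0, hy0e⟩ := hG0'
  obtain ⟨V', hV'o, hV'0, lam, hlam, _, hlam2, _⟩ := U'.loc y0 hy0
  rw [hy0e] at hV'0
  have hΨc : ContinuousOn Ψ HC := U.diff.continuousOn
  -- the open set
  have h1 : IsOpen (HC ∩ Ψ ⁻¹' V) := hΨc.isOpen_inter_preimage isOpen_HC hVo
  have h2 : ContinuousOn (G ∘ Ψ) (HC ∩ Ψ ⁻¹' V) :=
    hG.continuousOn.comp (hΨc.mono inter_subset_left) (fun x hx => hx.2)
  have h3 : IsOpen ((HC ∩ Ψ ⁻¹' V) ∩ (G ∘ Ψ) ⁻¹' V') := h2.isOpen_inter_preimage h1 hV'o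
  refine ⟨_, fun x => lam (G (Ψ x)), h3, ⟨⟨hx0, hV0⟩, hV'0⟩, fun x hx => hx.1.1, ?_, ?_⟩
  · refine hlam.comp (hG.comp (U.diff.mono fun x hx => hx.1.1) fun x hx => hx.1.2) ?_
    exact fun x hx => hx.2
  · intro x hx hxW
    obtain ⟨hF, hF2⟩ := hlam2 (G (Ψ x)) hxW.2
    refine ⟨hF, ?_⟩
    obtain ⟨hm, he⟩ := hGe (Ψ x) hxW.1.2 (U.mem hx)
    unfold Unif.cl
    simp only []
    rw [he]
    congr 1
    exact hF2.symm

open Classical in
/-- A retraction onto `HC`. -/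
noncomputable def rHC (z : ℂ × ℂ) : HC := if h : z ∈ HC then ⟨z, h⟩ else ⟨(1, 0), by simp [HC]⟩

theorem rHC_of_mem {z : ℂ × ℂ} (h : z ∈ HC) : rHC z = ⟨z, h⟩ := dif_pos h

theorem rHC_coe (z : HC) : rHC (z : ℂ × ℂ) = z := rHC_of_mem z.2

theorem rHC_continuousAt {z : ℂ × ℂ} (h : z ∈ HC) : ContinuousAt rHC z := by
  rw [Topology.IsInducing.subtypeVal.continuousAt_iff]
  have : (fun w => w) =ᶠ[𝓝 z] (Subtype.val ∘ rHC) := by
    filter_upwards [isOpen_HC.mem_nhds h] with w hw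
    simp only [Function.comp]
    rw [rHC_of_mem hw]
  exact continuousAt_id.congr this

theorem cont_lift (U : Unif f d β q Ψ) (U' : Unif g d' β' q' Ψ') (hd' : 2 ≤ d')
    (hβ' : β' ≠ 0) (hq' : Differentiable ℂ q') {B : S f → S g}
    (hB : Holo f g B) (a0 e0 : HC) (h0 : B (U.cl a0) = U'.cl e0) :
    ∃ L : HC → HC, Continuous L ∧ L a0 = e0 ∧ ∀ x, B (U.cl x) = U'.cl (L x) := by
  choose s hs using U'.cl_surj
  set μ : HC → MQ d' β' q' := fun x => mpi d' β' q' (s (B (U.cl x))) with hμ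
  have hμe : ∀ x y : HC, μ x = mpi d' β' q' y ↔ B (U.cl x) = U'.cl y := by
    intro x y
    simp only [hμ]
    rw [mpi_eq_iff, ← U'.cl_eq_iff hd', hs]
  have hμc : Continuous μ := by
    rw [continuous_iff_continuousAt]
    intro x0
    obtain ⟨W, F, hWo, hx0, hWs, hF, hFe⟩ := local_lift U U' hB x0.2
    obtain ⟨hFm, _⟩ := hFe x0.1 x0.2 hx0
    have c1 : ContinuousAt (fun x : HC => F x) x0 :=
      ContinuousAt.comp (f := Subtype.val) (g := F) (x := x0)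
        (hF.continuousOn.continuousAt (hWo.mem_nhds hx0)) continuous_subtype_val.continuousAt
    have c2 : ContinuousAt (fun x : HC => rHC (F x)) x0 :=
      ContinuousAt.comp (f := fun x : HC => F x) (g := rHC) (x := x0)
        (rHC_continuousAt hFm) c1
    have c3 : ContinuousAt (fun x : HC => mpi d' β' q' (rHC (F x))) x0 :=
      mpi_isQuotientMap.continuous.continuousAt.comp c2
    refine c3.congr ?_
    have : ∀ᶠ x : HC in 𝓝 x0, (x : ℂ × ℂ) ∈ W :=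
      continuous_subtype_val.continuousAt (hWo.mem_nhds hx0)
    filter_upwards [this] with x hx
    obtain ⟨hFx, he⟩ := hFe x.1 x.2 hx
    rw [eq_comm, hμe, rHC_of_mem hFx]
    exact he
  obtain ⟨L, ⟨hL1, hL2⟩, _⟩ := (mpi_isCovering hd' hβ' hq' (U'.locInj hd')).existsUnique_continuousMap_lifts
    (⟨μ, hμc⟩ : C(HC, MQ d' β' q')) a0 e0 (by
      show mpi d' β' q' e0 = μ a0
      rw [eq_comm, hμe, h0])
  refine ⟨L, L.continuous, hL1, fun x => ?_⟩
  rw [← hμe]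
  exact (congrFun hL2 x).symm

theorem tli_differentiable (d : ℕ) (β : ℂ) {q : ℂ → ℂ} (hq : Differentiable ℂ q) :
    Differentiable ℂ (tli d β q) := by
  have h1 : Differentiable ℂ fun x : ℂ × ℂ => x.1 / (d : ℂ) := by fun_prop
  have h2 : Differentiable ℂ fun x : ℂ × ℂ => q (Complex.exp (x.1 / (d : ℂ))) :=
    hq.comp (Complex.differentiable_exp.comp h1)
  have h3 : Differentiable ℂ fun x : ℂ × ℂ => (x.2 - q (Complex.exp (x.1 / (d : ℂ)))) / β := by
    fun_prop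
  exact h1.prodMk h3

theorem tl_differentiable (d : ℕ) (β : ℂ) {q : ℂ → ℂ} (hq : Differentiable ℂ q) :
    Differentiable ℂ (tl d β q) := by
  have h1 : Differentiable ℂ fun x : ℂ × ℂ => (d : ℂ) * x.1 := by fun_prop
  have h2 : Differentiable ℂ fun x : ℂ × ℂ => q (Complex.exp x.1) :=
    hq.comp (Complex.differentiable_exp.comp differentiable_fst)
  have h3 : Differentiable ℂ fun x : ℂ × ℂ => β * x.2 + q (Complex.exp x.1) := by
    fun_prop
  exact h1.prodMk h3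

theorem tr_differentiable (l : ℤ) : Differentiable ℂ (tr l) := by
  unfold tr
  fun_prop

theorem diff_lift (U : Unif f d β q Ψ) (U' : Unif g d' β' q' Ψ') (hd' : 2 ≤ d')
    (hβ' : β' ≠ 0) (hq' : Differentiable ℂ q') {B : S f → S g}
    (hB : Holo f g B) (L : HC → HC) (hLc : Continuous L)
    (hL : ∀ x, B (U.cl x) = U'.cl (L x)) :
    DifferentiableOn ℂ (fun z => (L (rHC z) : ℂ × ℂ)) HC := by
  intro x0 hx0
  apply DifferentiableAt.differentiableWithinAt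
  obtain ⟨W, F, hWo, hx0W, hWs, hF, hFe⟩ := local_lift U U' hB hx0
  obtain ⟨hFm, hFe0⟩ := hFe x0 hx0 hx0W
  have hrel0 : MRel d' β' q' (F x0) (L ⟨x0, hx0⟩) := by
    rw [hL, U'.cl_eq_iff hd'] at hFe0
    exact hFe0.symm'
  obtain ⟨m, n, l, h⟩ := hrel0
  set γ : ℂ × ℂ → ℂ × ℂ := fun z => (tli d' β' q')^[n] (tr l ((tl d' β' q')^[m] z)) with hγ
  have hγd : Differentiable ℂ γ :=
    ((tli_differentiable d' β' hq').iterate n).comp
      ((tr_differentiable l).comp ((tl_differentiable d' β' hq').iterate m))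
  have hγe : ∀ z, (tl d' β' q')^[n] (γ z) = tr l ((tl d' β' q')^[m] z) := fun z =>
    tl_tli_iter hd' hβ' q' n _
  have hγrel : ∀ z, MRel d' β' q' z (γ z) := fun z => ⟨m, n, l, (hγe z).symm⟩
  have hγ0 : γ (F x0) = L ⟨x0, hx0⟩ := by
    apply tl_iter_injective hd' hβ' q' n
    rw [hγe, h]
  have hγm : ∀ z ∈ HC, γ z ∈ HC := fun z hz =>
    (tli_iter_mem hd' hβ' q' n).2 ((tr_mem l).2 ((tl_iter_mem hd' β' q' m).2 hz))
  have hGd : DifferentiableAt ℂ (fun z => γ (F z)) x0 :=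
    (hγd _).comp x0 (hF.differentiableAt (hWo.mem_nhds hx0W))
  refine hGd.congr_of_eventuallyEq ?_
  -- local injectivity
  obtain ⟨V, hV, hVe⟩ := U'.locInj hd' (L ⟨x0, hx0⟩) (L ⟨x0, hx0⟩).2
  have hLc' : ContinuousAt (fun z => (L (rHC z) : ℂ × ℂ)) x0 := by
    have c1 := rHC_continuousAt hx0
    exact (continuous_subtype_val.comp hLc).continuousAt.comp c1
  have e1 : ∀ᶠ z in 𝓝 x0, (L (rHC z) : ℂ × ℂ) ∈ V := by
    apply hLc'
    show V ∈ 𝓝 (L (rHC x0) : ℂ × ℂ)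
    rw [rHC_of_mem hx0]; exact hV
  have e2 : ∀ᶠ z in 𝓝 x0, γ (F z) ∈ V := by
    apply hGd.continuousAt
    show V ∈ 𝓝 (γ (F x0))
    rw [hγ0]; exact hV
  filter_upwards [e1, e2, isOpen_HC.mem_nhds hx0, hWo.mem_nhds hx0W] with z h1 h2 h3 h4
  obtain ⟨hFz, hFe2⟩ := hFe z h3 h4
  have hr : MRel d' β' q' (L (rHC z)) (γ (F z)) := by
    rw [rHC_of_mem h3]
    rw [hL, U'.cl_eq_iff hd'] at hFe2
    exact hFe2.trans'' (hγrel _)
  exact hVe _ ⟨h1, (L (rHC z)).2⟩ _ ⟨h2, hγm _ hFz⟩ hr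

/-- Lifting a biholomorphism of the orbit surfaces to the uniformizing space `HC`. -/
theorem exists_lift {f g : ℂ × ℂ → ℂ × ℂ} {d d' : ℕ} (hd : 2 ≤ d) (hd' : 2 ≤ d') {β β' : ℂ}
    (hβ : β ≠ 0) (hβ' : β' ≠ 0) {q q' : ℂ → ℂ} (hq : Differentiable ℂ q)
    (hq' : Differentiable ℂ q') {Ψ Ψ' : ℂ × ℂ → ℂ × ℂ} (U : Unif f d β q Ψ)
    (U' : Unif g d' β' q' Ψ') (B : Biholo f g) :
    ∃ Φ Θ : ℂ × ℂ → ℂ × ℂ, DifferentiableOn ℂ Φ HC ∧ DifferentiableOn ℂ Θ HC ∧
      MapsTo Φ HC HC ∧ MapsTo Θ HC HC ∧ (∀ x ∈ HC, Θ (Φ x) = x) ∧ (∀ x ∈ HC, Φ (Θ x) = x) ∧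
      (∀ x ∈ HC, ∀ y ∈ HC, MRel d β q x y ↔ MRel d' β' q' (Φ x) (Φ y)) ∧
      (∀ x ∈ HC, ∃ V ∈ 𝓝 x, ∀ y ∈ V ∩ HC, ∀ z ∈ V ∩ HC, MRel d β q y z → y = z) ∧
      (∀ x ∈ HC, ∃ V ∈ 𝓝 x, ∀ y ∈ V ∩ HC, ∀ z ∈ V ∩ HC, MRel d' β' q' y z → y = z) := by
  obtain ⟨B, hB, hB'⟩ := B
  set a0 : HC := ⟨(1, 0), by simp [HC]⟩ with ha0
  obtain ⟨e0, he0⟩ := U'.cl_surj (B (U.cl a0))
  obtain ⟨L, hLc, hL0, hL⟩ := cont_lift U U' hd' hβ' hq' hB a0 e0 he0.symm
  obtain ⟨K, hKc, hK0, hK⟩ := cont_lift U' U hd hβ hq hB' e0 a0 (by rw [he0]; simp)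
  have hKL : ∀ x, K (L x) = x := by
    have h := eq_of_rel (U.locInj hd) (fun x => K (L x)) (fun x => x) (hKc.comp hLc)
      continuous_id (fun x => by
        rw [← U.cl_eq_iff hd, ← hK, ← hL]
        simp) a0 (by rw [hL0, hK0])
    exact fun x => congrFun h x
  have hLK : ∀ x, L (K x) = x := by
    have h := eq_of_rel (U'.locInj hd') (fun x => L (K x)) (fun x => x) (hLc.comp hKc)
      continuous_id (fun x => by
        rw [← U'.cl_eq_iff hd', ← hL, ← hK]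
        simp) e0 (by rw [hK0, hL0])
    exact fun x => congrFun h x
  refine ⟨fun z => L (rHC z), fun z => K (rHC z), diff_lift U U' hd' hβ' hq' hB L hLc hL,
    diff_lift U' U hd hβ hq hB' K hKc hK, fun z _ => (L _).2, fun z _ => (K _).2, ?_, ?_, ?_,
    U.locInj hd, U'.locInj hd'⟩
  · intro x hx
    simp only []
    rw [rHC_coe, hKL, rHC_of_mem hx]
  · intro x hx
    simp only []
    rw [rHC_coe, hLK, rHC_of_mem hx]
  · intro x hx y hy
    simp only []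
    rw [rHC_of_mem hx, rHC_of_mem hy, ← U'.cl_eq_iff hd', ← hL, ← hL, B.injective.eq_iff,
      U.cl_eq_iff hd]

end

end Pool.Agent.H907.Henon
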