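import Mathlib

open Polynomial Filter Topology Set

namespace Pool.Agent.H907.Henon

theorem eval_reflect_inv (S : ℂ[X]) (N : ℕ) (hS : S.natDegree ≤ N) (z : ℂ) (hz : z ≠ 0) :
    (S.reflect N).eval z = z ^ N * S.eval z⁻¹ := by
  have hz' : z⁻¹ ≠ 0 := inv_ne_zero hz
  let _ : Invertible (z⁻¹ : ℂ) := invertibleOfNonzero hz'
  have h := eval₂_reflect_mul_pow (RingHom.id ℂ) (z⁻¹) N S hS
  have h1 : ⅟(z⁻¹ : ℂ) = z := by
    rw [invOf_eq_inv, inv_inv]
  rw [h1] at h
  rw [eval₂_id, eval₂_id] at h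
  rw [← h]
  have : z ^ N * (z⁻¹) ^ N = 1 := by
    rw [← mul_pow, mul_inv_cancel₀ hz, one_pow]
  linear_combination (-(S.reflect N).eval z) * this

/-- The homogenised polynomial in `Y` over `ℂ[X]`. -/
noncomputable def Phi (P : ℂ[X]) (d : ℕ) : ℂ[X][X] :=
  ∑ i ∈ Finset.range (d + 1), C (C (P.coeff i) * X ^ (d - i)) * X ^ i

theorem Phi_eval (P S : ℂ[X]) (d : ℕ) : (Phi P d).eval S =
    ∑ i ∈ Finset.range (d + 1), (C (P.coeff i) * X ^ (d - i)) * S ^ i := by
  simp [Phi, eval_finsetSum]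

theorem Phi_map (P : ℂ[X]) (d : ℕ) (hP : P.natDegree = d) (hm : P.Monic) :
    (Phi P d).map (evalRingHom 0) = X ^ d := by
  rw [Phi, Polynomial.map_sum, Finset.sum_eq_single d]
  · have : P.coeff d = 1 := by rw [← hP]; exact hm
    simp [this]
  · intro i hi hid
    rw [Finset.mem_range] at hi
    have : d - i ≠ 0 := by omega
    simp [this]
  · intro h
    simp at h

theorem exists_S (P : ℂ[X]) (d : ℕ) (hd : 2 ≤ d) (hP : P.natDegree = d) (hm : P.Monic)
    (hc : P.coeff (d - 1) = 0) (m : ℕ) :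
    ∃ S : ℂ[X], S.natDegree ≤ m + 1 ∧ S.coeff 0 = 1 ∧ S.coeff 1 = 0 ∧
      X ^ (m + 2) ∣ (Phi P d).eval S - 1 := by
  induction m with
  | zero =>
    refine ⟨1, by simp, by simp, by simp [coeff_one], ?_⟩
    rw [Phi_eval, Finset.sum_range_succ]
    have h1 : P.coeff d = 1 := by rw [← hP]; exact hm
    rw [h1]
    simp only [one_pow, mul_one, map_one, Nat.sub_self, pow_zero, add_sub_cancel_right]
    refine Finset.dvd_sum fun i hi => ?_
    rw [Finset.mem_range] at hi
    rcases Nat.lt_or_ge i (d - 1) with h | h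
    · exact Dvd.dvd.mul_left (pow_dvd_pow _ (by omega)) _
    · have : i = d - 1 := by omega
      rw [this, hc]
      simp
  | succ m ih =>
    obtain ⟨S, hS, h0, h1, G, hG⟩ := ih
    set c : ℂ := -(G.coeff 0) / d with hcdef
    have hd0 : (d : ℂ) ≠ 0 := by
      rw [Nat.cast_ne_zero]; omega
    obtain ⟨k, hk⟩ := binomExpansion (Phi P d) S (C c * X ^ (m + 2))
    refine ⟨S + C c * X ^ (m + 2), ?_, ?_, ?_, ?_⟩
    · refine (natDegree_add_le _ _).trans (max_le (by omega) ?_)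
      exact (natDegree_C_mul_X_pow_le _ _).trans (by omega)
    · rw [coeff_add, h0, coeff_C_mul, coeff_X_pow, if_neg (by omega)]; simp
    · rw [coeff_add, h1, coeff_C_mul, coeff_X_pow, if_neg (by omega)]; simp
    · have h2 : (Phi P d).eval (S + C c * X ^ (m + 2)) - 1 =
          X ^ (m + 2) * (G + C c * (Phi P d).derivative.eval S + k * (C c) ^ 2 * X ^ (m + 2)) := by
        rw [hk]
        linear_combination hG
      rw [h2, show m + 1 + 2 = (m + 2) + 1 by ring, pow_succ]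
      refine mul_dvd_mul_left _ ?_
      rw [X_dvd_iff, coeff_add, coeff_add, coeff_C_mul]
      have h3 : ((Phi P d).derivative.eval S).coeff 0 = d := by
        rw [coeff_zero_eq_eval_zero]
        have h4 := Polynomial.eval₂_hom (f := evalRingHom (0:ℂ)) (p := (Phi P d).derivative) S
        have h5 : eval 0 (eval S (Phi P d).derivative) =
            evalRingHom 0 (eval S (Phi P d).derivative) := rfl
        rw [h5, ← h4, ← eval_map, ← derivative_map, Phi_map P d hP hm]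
        have h6 : (evalRingHom (0:ℂ)) S = 1 := by
          show S.eval 0 = 1
          rw [← coeff_zero_eq_eval_zero, h0]
        rw [h6]
        simp [derivative_X_pow]
      have h4 : (k * (C c) ^ 2 * X ^ (m + 2)).coeff 0 = 0 := by
        rw [coeff_mul_X_pow', if_neg (by omega)]
      rw [h3, h4, add_zero, hcdef]
      field_simp
      ring

/-- The truncated inverse series. For a monic centered polynomial `P` of degree `d ≥ 2` there is a
monic polynomial `Q` of degree `d+1`, without terms of degree `d` and `0`, such that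
`P(Q(z)/z^d) = z^d + O(1/z)`. -/
theorem exists_Q (P : ℂ[X]) (d : ℕ) (hd : 2 ≤ d) (hP : P.natDegree = d) (hm : P.Monic)
    (hc : P.coeff (d - 1) = 0) :
    ∃ Q : ℂ[X], Q.natDegree = d + 1 ∧ Q.Monic ∧ Q.coeff d = 0 ∧ Q.coeff 0 = 0 ∧
      ∃ K : ℝ, ∀ z : ℂ, 1 ≤ ‖z‖ → ‖P.eval (Q.eval z / z ^ d) - z ^ d‖ ≤ K / ‖z‖ := by
  obtain ⟨S, hS, h0, h1, G, hG⟩ := exists_S P d hd hP hm hc (d - 1)
  have hS' : S.natDegree ≤ d := by omega
  have e1 : ∀ i, i ≤ d + 1 → (S.reflect (d + 1)).coeff i = S.coeff (d + 1 - i) := by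
    intro i hi
    rw [coeff_reflect, revAt_le hi]
  have hQd : (S.reflect (d + 1)).coeff (d + 1) = 1 := by
    rw [e1 _ le_rfl, Nat.sub_self, h0]
  have hdeg : (S.reflect (d + 1)).natDegree ≤ d + 1 := by
    rw [natDegree_le_iff_coeff_eq_zero]
    intro N hN
    rw [coeff_reflect, revAt_eq_self_of_lt hN]
    exact coeff_eq_zero_of_natDegree_lt (by omega)
  have hdeg' : (S.reflect (d + 1)).natDegree = d + 1 := by
    refine le_antisymm hdeg ?_
    exact le_natDegree_of_ne_zero (by rw [hQd]; exact one_ne_zero)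
  refine ⟨S.reflect (d + 1), hdeg', ?_, ?_, ?_, ?_⟩
  · rw [Monic, leadingCoeff, hdeg', hQd]
  · rw [e1 _ (by omega), show d + 1 - d = 1 by omega, h1]
  · rw [e1 _ (by omega), Nat.sub_zero]
    exact coeff_eq_zero_of_natDegree_lt (by omega)
  · -- the bound
    have hcpt : IsCompact (Metric.closedBall (0 : ℂ) 1) := isCompact_closedBall 0 1
    obtain ⟨K, hK⟩ := hcpt.exists_bound_of_continuousOn
      (f := fun u => G.eval u) (G.continuous.continuousOn)
    refine ⟨K, fun z hz => ?_⟩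
    have hz0 : z ≠ 0 := by
      rintro rfl
      rw [norm_zero] at hz
      linarith
    have hzi : ‖z⁻¹‖ ≤ 1 := by
      rw [norm_inv]
      exact inv_le_one_of_one_le₀ hz
    have h2 : (S.reflect (d + 1)).eval z / z ^ d = z * S.eval z⁻¹ := by
      rw [eval_reflect_inv S (d + 1) (by omega) z hz0, pow_succ]
      field_simp
    have h3 : P.eval (z * S.eval z⁻¹) - z ^ d = z⁻¹ * G.eval z⁻¹ := by
      have h4 := congrArg (fun p => p.eval z⁻¹) hG
      rw [Phi_eval] at h4
      simp only [eval_sub, eval_finsetSum, eval_mul, eval_C, eval_pow, eval_X, eval_one] at h4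
      have h5 : P.eval (z * S.eval z⁻¹) =
          z ^ d * ∑ i ∈ Finset.range (d + 1), P.coeff i * z⁻¹ ^ (d - i) * eval z⁻¹ S ^ i := by
        rw [eval_eq_sum_range, hP, Finset.mul_sum]
        refine Finset.sum_congr rfl fun i hi => ?_
        rw [Finset.mem_range] at hi
        have h6 : z ^ d = z ^ (d - i) * z ^ i := by
          rw [← pow_add]; congr 1; omega
        have h7 : z ^ (d - i) * z⁻¹ ^ (d - i) = 1 := by
          rw [← mul_pow, mul_inv_cancel₀ hz0, one_pow]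
        rw [h6, mul_pow]
        linear_combination (-(P.coeff i) * z ^ i * eval z⁻¹ S ^ i) * h7
      rw [h5]
      have h8 : z ^ d * z⁻¹ ^ (d - 1 + 2) = z⁻¹ := by
        rw [show d - 1 + 2 = d + 1 by omega, pow_succ, ← mul_assoc, ← mul_pow,
          mul_inv_cancel₀ hz0, one_pow, one_mul]
      linear_combination z ^ d * h4 + G.eval z⁻¹ * h8
    rw [h2, h3, norm_mul, norm_inv, div_eq_inv_mul]
    refine mul_le_mul_of_nonneg_left ?_ (by positivity)
    exact hK _ (by rw [mem_closedBall_zero_iff]; exact hzi)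

/-- `P` is determined by `Q`. -/
theorem Q_inj (P₁ P₂ Q₁ Q₂ : ℂ[X]) (d : ℕ) (hd : 2 ≤ d) (h1 : P₁.natDegree = d) (h2 : P₂.natDegree = d)
    (m1 : P₁.Monic) (m2 : P₂.Monic)
    (hQ1 : Q₁.natDegree = d + 1 ∧ Q₁.Monic) (hQ2 : Q₂.natDegree = d + 1 ∧ Q₂.Monic)
    (r1 : ∃ K : ℝ, ∀ z : ℂ, 1 ≤ ‖z‖ → ‖P₁.eval (Q₁.eval z / z ^ d) - z ^ d‖ ≤ K / ‖z‖)
    (r2 : ∃ K : ℝ, ∀ z : ℂ, 1 ≤ ‖z‖ → ‖P₂.eval (Q₂.eval z / z ^ d) - z ^ d‖ ≤ K / ‖z‖)
    (hQ : Q₁ = Q₂) : P₁ = P₂ := by
  subst hQ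
  obtain ⟨K1, hK1⟩ := r1
  obtain ⟨K2, hK2⟩ := r2
  by_contra hne
  have hD : P₁ - P₂ ≠ 0 := sub_ne_zero.2 hne
  -- the points
  let z : ℕ → ℂ := fun n => (n : ℂ) + 1
  have hzn : ∀ n, ‖z n‖ = (n : ℝ) + 1 := by
    intro n
    show ‖((n : ℂ) + 1)‖ = _
    rw [show ((n : ℂ) + 1) = ((n + 1 : ℕ) : ℂ) by push_cast; ring, Complex.norm_natCast]
    push_cast; ring
  have hz1 : ∀ n, 1 ≤ ‖z n‖ := by
    intro n; rw [hzn]; have : (0:ℝ) ≤ n := Nat.cast_nonneg n; linarith
  have hz0 : ∀ n, z n ≠ 0 := by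
    intro n h
    have := hz1 n
    rw [h, norm_zero] at this
    linarith
  have hzt : Tendsto (fun n => ‖z n‖) atTop atTop := by
    simp only [hzn]
    exact tendsto_atTop_add_const_right _ _ tendsto_natCast_atTop_atTop
  -- the bound on the difference
  have hb : ∀ n, ‖(P₁ - P₂).eval (Q₁.eval (z n) / z n ^ d)‖ ≤ (K1 + K2) * ‖z n‖⁻¹ := by
    intro n
    rw [eval_sub]
    have e : P₁.eval (Q₁.eval (z n) / z n ^ d) - P₂.eval (Q₁.eval (z n) / z n ^ d) =
      (P₁.eval (Q₁.eval (z n) / z n ^ d) - z n ^ d) -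
        (P₂.eval (Q₁.eval (z n) / z n ^ d) - z n ^ d) := by ring
    rw [e]
    refine (norm_sub_le _ _).trans ?_
    rw [add_mul, ← div_eq_mul_inv, ← div_eq_mul_inv]
    exact add_le_add (hK1 _ (hz1 n)) (hK2 _ (hz1 n))
  have hzi : Tendsto (fun n => ‖z n‖⁻¹) atTop (𝓝 0) := tendsto_inv_atTop_zero.comp hzt
  have hlim : Tendsto (fun n => ‖(P₁ - P₂).eval (Q₁.eval (z n) / z n ^ d)‖) atTop (𝓝 0) := by
    refine squeeze_zero (fun n => norm_nonneg _) hb ?_
    have := hzi.const_mul (K1 + K2)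
    rwa [mul_zero] at this
  -- the argument tends to infinity
  have hσ : Tendsto (fun n => ‖Q₁.eval (z n) / z n ^ d‖) atTop atTop := by
    have hR : ∀ n, Q₁.eval (z n) / z n ^ d = z n * (Q₁.reflect (d + 1)).eval (z n)⁻¹ := by
      intro n
      have h := eval_reflect_inv (Q₁.reflect (d + 1)) (d + 1) (by
        rw [natDegree_le_iff_coeff_eq_zero]
        intro N hN
        rw [coeff_reflect, revAt_eq_self_of_lt hN]
        exact coeff_eq_zero_of_natDegree_lt (by rw [hQ1.1]; omega)) (z n) (hz0 n)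
      rw [reflect_reflect] at h
      rw [h, pow_succ]
      have := hz0 n
      field_simp
    simp only [hR, norm_mul]
    refine Tendsto.atTop_mul_pos one_pos hzt ?_
    have hz' : Tendsto (fun n => (z n)⁻¹) atTop (𝓝 0) := by
      rw [tendsto_zero_iff_norm_tendsto_zero]
      simpa [norm_inv] using hzi
    have h3 := ((Q₁.reflect (d + 1)).continuous.tendsto 0).comp hz'
    have h4 : (Q₁.reflect (d + 1)).eval 0 = 1 := by
      rw [← coeff_zero_eq_eval_zero, coeff_reflect, revAt_le (Nat.zero_le _), Nat.sub_zero,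
        ← hQ1.1]
      exact hQ1.2
    rw [h4] at h3
    have h5 := h3.norm
    rw [norm_one] at h5
    exact h5
  rcases Nat.eq_zero_or_pos (P₁ - P₂).natDegree with h | h
  · rw [natDegree_eq_zero] at h
    obtain ⟨c, hc⟩ := h
    rw [← hc] at hlim hD
    simp only [eval_C] at hlim
    have := tendsto_nhds_unique hlim tendsto_const_nhds
    rw [eq_comm, norm_eq_zero] at this
    rw [this, C_0] at hD
    exact hD rfl
  · have h6 := Polynomial.tendsto_norm_atTop (P₁ - P₂) (natDegree_pos_iff_degree_pos.1 h) hσ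
    exact not_tendsto_nhds_of_tendsto_atTop h6 _ hlim

end Pool.Agent.H907.Henon
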