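import Pool.Agent.H907.Henon.Model

open Polynomial Filter Topology Set

namespace Pool.Agent.H907.Henon.Rig

/-- An entire function with an entire inverse is affine. -/
theorem entire_aut_affine (h k : ℂ → ℂ) (hh : Differentiable ℂ h) (hk : Differentiable ℂ k)
    (h1 : ∀ z, k (h z) = z) (_h2 : ∀ z, h (k z) = z) :
    ∃ b c : ℂ, b ≠ 0 ∧ ∀ z, h z = b * z + c := by
  -- lower bound for `h z - h 0` away from `0`
  obtain ⟨δ, hδ, hδb⟩ : ∃ δ > 0, ∀ z : ℂ, 1 ≤ ‖z‖ → δ ≤ ‖h z - h 0‖ := by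
    have hc : ContinuousAt k (h 0) := (hk (h 0)).continuousAt
    obtain ⟨δ, hδ, hb⟩ := Metric.continuousAt_iff.1 hc 1 one_pos
    refine ⟨δ, hδ, fun z hz => ?_⟩
    by_contra hlt
    rw [not_le] at hlt
    have := hb (x := h z) (by rw [dist_eq_norm]; exact hlt)
    rw [h1, h1, dist_eq_norm, sub_zero] at this
    linarith
  set g : ℂ → ℂ := dslope h 0 with hg
  have hgd : Differentiable ℂ g := by
    have := (Complex.differentiableOn_dslope (s := univ) (c := 0) (f := h) univ_mem).2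
      hh.differentiableOn
    exact fun z => (this z (mem_univ z)).differentiableAt univ_mem
  have hg0 : ∀ z, g z ≠ 0 := by
    intro z hz
    by_cases hz0 : z = 0
    · have hd : deriv h 0 = 0 := by
        rw [hz0] at hz
        simpa [hg, dslope_same] using hz
      have h3 : HasDerivAt (k ∘ h) (deriv k (h 0) * deriv h 0) 0 :=
        (hk (h 0)).hasDerivAt.comp 0 (hh 0).hasDerivAt
      have h4 : (k ∘ h) = id := by funext z; exact h1 z
      rw [h4, hd, mul_zero] at h3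
      have := h3.unique (hasDerivAt_id (0 : ℂ))
      exact one_ne_zero this.symm
    · rw [hg, dslope_of_ne _ hz0, slope_def_field, sub_zero, div_eq_zero_iff] at hz
      rcases hz with hz | hz
      · have : h z = h 0 := sub_eq_zero.1 hz
        apply hz0
        rw [← h1 z, this, h1]
      · exact hz0 hz
  set G : ℂ → ℂ := fun z => (g z)⁻¹ with hG
  have hGd : Differentiable ℂ G := hgd.inv hg0
  have hGb : ∀ z : ℂ, 1 ≤ ‖z‖ → ‖G z‖ ≤ ‖z‖ / δ := by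
    intro z hz
    have hz0 : z ≠ 0 := by intro h; rw [h, norm_zero] at hz; linarith
    have : G z = z / (h z - h 0) := by
      simp only [hG, hg]
      rw [dslope_of_ne _ hz0, slope_def_field, sub_zero, inv_div]
    rw [this, norm_div]
    exact div_le_div_of_nonneg_left (norm_nonneg _) hδ (hδb z hz)
  set D : ℂ → ℂ := dslope G 0 with hD
  have hDd : Differentiable ℂ D := by
    have := (Complex.differentiableOn_dslope (s := univ) (c := 0) (f := G) univ_mem).2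
      hGd.differentiableOn
    exact fun z => (this z (mem_univ z)).differentiableAt univ_mem
  have hDb : Bornology.IsBounded (range D) := by
    obtain ⟨C, hC⟩ := (isCompact_closedBall (0 : ℂ) 1).exists_bound_of_continuousOn
      hDd.continuous.continuousOn
    refine (Metric.isBounded_iff_subset_closedBall (0 : ℂ)).2 ⟨max C (1 / δ + ‖G 0‖), ?_⟩
    rintro _ ⟨z, rfl⟩
    rw [mem_closedBall_zero_iff]
    rcases le_total ‖z‖ 1 with hz | hz
    · exact (hC z (by simpa using hz)).trans (le_max_left _ _)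
    · refine le_trans ?_ (le_max_right _ _)
      have hz0 : z ≠ 0 := by intro h; rw [h, norm_zero] at hz; linarith
      rw [hD, dslope_of_ne _ hz0, slope_def_field, sub_zero, norm_div]
      have hz1 : 0 < ‖z‖ := norm_pos_iff.2 hz0
      rw [div_le_iff₀ hz1]
      calc ‖G z - G 0‖ ≤ ‖G z‖ + ‖G 0‖ := norm_sub_le _ _
        _ ≤ ‖z‖ / δ + ‖G 0‖ * ‖z‖ := by
            refine add_le_add (hGb z hz) ?_
            nlinarith [norm_nonneg (G 0)]
        _ = (1 / δ + ‖G 0‖) * ‖z‖ := by ring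
  have hDc : ∀ z, D z = D 0 := fun z => hDd.apply_eq_apply_of_bounded hDb z 0
  have hGaff : ∀ z, G z = G 0 + D 0 * z := by
    intro z
    by_cases hz0 : z = 0
    · rw [hz0]; ring
    · have := hDc z
      rw [hD, dslope_of_ne _ hz0, slope_def_field, sub_zero, div_eq_iff hz0] at this
      rw [← sub_eq_iff_eq_add', this]
  have hD0 : D 0 = 0 := by
    by_contra hne
    have h5 := hGaff (-(G 0) / D 0)
    have h6 : G (-(G 0) / D 0) = 0 := by rw [h5]; field_simp; ring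
    exact inv_ne_zero (hg0 _) h6
  have hgc : ∀ z, g z = g 0 := by
    intro z
    have := hGaff z
    rw [hD0, zero_mul, add_zero] at this
    exact inv_injective this
  refine ⟨g 0, h 0, hg0 0, fun z => ?_⟩
  by_cases hz0 : z = 0
  · rw [hz0]; ring
  · have := hgc z
    rw [hg, dslope_of_ne _ hz0, slope_def_field, sub_zero, div_eq_iff hz0] at this
    rw [← hg] at this
    rw [← this]; ring

theorem tr_tr (m n : ℤ) (x : ℂ × ℂ) : tr m (tr n x) = tr (m + n) x := by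
  simp only [tr, Prod.mk.injEq, and_true]
  push_cast; ring

theorem tr_zero (x : ℂ × ℂ) : tr 0 x = x := by simp [tr]

theorem tl_tr (d : ℕ) (β : ℂ) (q : ℂ → ℂ) (n : ℤ) (x : ℂ × ℂ) :
    tl d β q (tr n x) = tr (d * n) (tl d β q x) := by
  have : Complex.exp (x.1 + n * (2 * Real.pi * Complex.I)) = Complex.exp x.1 :=
    Complex.exp_eq_exp_iff_exists_int.2 ⟨n, rfl⟩
  simp only [tl, tr, this, Prod.mk.injEq, and_true]
  push_cast; ring

theorem tl_iter_tr (d : ℕ) (β : ℂ) (q : ℂ → ℂ) (m : ℕ) (n : ℤ) (x : ℂ × ℂ) :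
    (tl d β q)^[m] (tr n x) = tr ((d : ℤ) ^ m * n) ((tl d β q)^[m] x) := by
  induction m with
  | zero => simp
  | succ m ih =>
    rw [Function.iterate_succ_apply', Function.iterate_succ_apply', ih, tl_tr]
    congr 1; ring

theorem tl_injective {d : ℕ} (hd : 2 ≤ d) {β : ℂ} (hβ : β ≠ 0) (q : ℂ → ℂ) :
    Function.Injective (tl d β q) := by
  intro x y h
  have hd0 : (d : ℂ) ≠ 0 := by exact_mod_cast (by omega : d ≠ 0)
  have h1 : (d : ℂ) * x.1 = d * y.1 := congrArg Prod.fst h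
  have h2 : β * x.2 + q (Complex.exp x.1) = β * y.2 + q (Complex.exp y.1) := congrArg Prod.snd h
  have h3 : x.1 = y.1 := mul_left_cancel₀ hd0 h1
  rw [h3] at h2
  have h4 : x.2 = y.2 := mul_left_cancel₀ hβ (add_right_cancel h2)
  exact Prod.ext h3 h4

theorem tl_iter_injective {d : ℕ} (hd : 2 ≤ d) {β : ℂ} (hβ : β ≠ 0) (q : ℂ → ℂ) (m : ℕ) :
    Function.Injective ((tl d β q)^[m]) := (tl_injective hd hβ q).iterate m

theorem tr_injective (n : ℤ) : Function.Injective (tr n) := by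
  intro x y h
  have := congrArg (tr (-n)) h
  rwa [tr_tr, tr_tr, neg_add_cancel, tr_zero, tr_zero] at this

/-- The explicit form of the iterates of the model map. -/
theorem exists_Q (d : ℕ) (β : ℂ) {q : ℂ → ℂ} (hq : Differentiable ℂ q) (m : ℕ) :
    ∃ Q : ℂ → ℂ, Differentiable ℂ Q ∧
      ∀ x, (tl d β q)^[m] x = ((d : ℂ) ^ m * x.1, β ^ m * x.2 + Q x.1) := by
  induction m with
  | zero => exact ⟨fun _ => 0, differentiable_const _, fun x => by simp⟩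
  | succ m ih =>
    obtain ⟨Q, hQ, h⟩ := ih
    refine ⟨fun ζ => β * Q ζ + q (Complex.exp ((d : ℂ) ^ m * ζ)), ?_, fun x => ?_⟩
    · exact (hQ.const_mul β).add (hq.comp (Complex.differentiable_exp.comp
        (differentiable_id.const_mul _)))
    · rw [Function.iterate_succ_apply', h, tl]
      simp only [Prod.mk.injEq]
      constructor <;> ring

theorem tl_mem {d : ℕ} (hd : 2 ≤ d) (β : ℂ) (q : ℂ → ℂ) {x : ℂ × ℂ} :
    tl d β q x ∈ HC ↔ x ∈ HC := by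
  have hd0 : (0 : ℝ) < d := by exact_mod_cast (by omega : 0 < d)
  simp only [HC, mem_ofPred_eq, tl]
  rw [← Complex.ofReal_natCast, Complex.re_ofReal_mul]
  exact mul_pos_iff_of_pos_left hd0

theorem tl_iter_mem {d : ℕ} (hd : 2 ≤ d) (β : ℂ) (q : ℂ → ℂ) (m : ℕ) {x : ℂ × ℂ} :
    (tl d β q)^[m] x ∈ HC ↔ x ∈ HC := by
  induction m with
  | zero => simp
  | succ m ih => rw [Function.iterate_succ_apply', tl_mem hd, ih]

theorem tr_mem (n : ℤ) {x : ℂ × ℂ} : tr n x ∈ HC ↔ x ∈ HC := by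
  simp only [HC, mem_ofPred_eq, tr]
  have : ((x.1 + n * (2 * Real.pi * Complex.I)) : ℂ).re = x.1.re := by simp
  rw [this]

/-- The inverse of the model map. -/
noncomputable def tli (d : ℕ) (β : ℂ) (q : ℂ → ℂ) (x : ℂ × ℂ) : ℂ × ℂ :=
  (x.1 / d, (x.2 - q (Complex.exp (x.1 / d))) / β)

theorem tl_tli {d : ℕ} (hd : 2 ≤ d) {β : ℂ} (hβ : β ≠ 0) (q : ℂ → ℂ) (x : ℂ × ℂ) :
    tl d β q (tli d β q x) = x := by
  have hd0 : (d : ℂ) ≠ 0 := by exact_mod_cast (by omega : d ≠ 0)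
  apply Prod.ext
  · simp only [tl, tli]; field_simp
  · simp only [tl, tli]; field_simp; ring

theorem tl_tli_iter {d : ℕ} (hd : 2 ≤ d) {β : ℂ} (hβ : β ≠ 0) (q : ℂ → ℂ) (m : ℕ)
    (x : ℂ × ℂ) : (tl d β q)^[m] ((tli d β q)^[m] x) = x := by
  induction m generalizing x with
  | zero => simp
  | succ m ih =>
    rw [Function.iterate_succ_apply, Function.iterate_succ_apply' (tli d β q), tl_tli hd hβ, ih]

theorem tl_continuous (d : ℕ) (β : ℂ) {q : ℂ → ℂ} (hq : Differentiable ℂ q) :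
    Continuous (tl d β q) := by
  have := hq.continuous
  have h2 : Continuous Complex.exp := Complex.continuous_exp
  unfold tl
  fun_prop

theorem tli_continuous (d : ℕ) (β : ℂ) {q : ℂ → ℂ} (hq : Differentiable ℂ q) :
    Continuous (tli d β q) := by
  have := hq.continuous
  have h2 : Continuous Complex.exp := Complex.continuous_exp
  unfold tli
  fun_prop

theorem tr_continuous (n : ℤ) : Continuous (tr n) := by
  unfold tr
  fun_prop

theorem tli_mem {d : ℕ} (hd : 2 ≤ d) {β : ℂ} (hβ : β ≠ 0) (q : ℂ → ℂ) {x : ℂ × ℂ} :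
    tli d β q x ∈ HC ↔ x ∈ HC := by
  rw [← tl_mem hd β q (x := tli d β q x), tl_tli hd hβ]

theorem tli_iter_mem {d : ℕ} (hd : 2 ≤ d) {β : ℂ} (hβ : β ≠ 0) (q : ℂ → ℂ) (m : ℕ)
    {x : ℂ × ℂ} : (tli d β q)^[m] x ∈ HC ↔ x ∈ HC := by
  induction m with
  | zero => simp
  | succ m ih => rw [Function.iterate_succ_apply', tli_mem hd hβ, ih]

/-- `MRel` is transitive in the needed form. -/
theorem MRel.trans' {d : ℕ} {β : ℂ} {q : ℂ → ℂ} {x y z : ℂ × ℂ}
    (h1 : MRel d β q x y) (h2 : MRel d β q x z) : MRel d β q y z := by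
  obtain ⟨m, n, l, h1⟩ := h1
  obtain ⟨m', n', l', h2⟩ := h2
  refine ⟨m' + n, m + n', (d : ℤ) ^ m * l' - (d : ℤ) ^ m' * l, ?_⟩
  have e1 : (tl d β q)^[m' + n] y = tr ((d : ℤ) ^ m' * l) ((tl d β q)^[m' + m] x) := by
    rw [Function.iterate_add_apply, ← h1, tl_iter_tr, ← Function.iterate_add_apply]
  have e2 : (tl d β q)^[m + n'] z = tr ((d : ℤ) ^ m * l') ((tl d β q)^[m' + m] x) := by
    rw [Function.iterate_add_apply, ← h2, tl_iter_tr, ← Function.iterate_add_apply,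
      add_comm m m']
  rw [e1, e2, tr_tr]
  congr 1; ring

/-- The hypotheses of the rigidity theorem. -/
structure Dat (d d' : ℕ) (β β' : ℂ) (q q' : ℂ → ℂ) (Φ Θ : ℂ × ℂ → ℂ × ℂ) : Prop where
  hd : 2 ≤ d
  hd' : 2 ≤ d'
  hβ : β ≠ 0
  hβ' : β' ≠ 0
  hq : Differentiable ℂ q
  hq' : Differentiable ℂ q'
  hΦ : DifferentiableOn ℂ Φ HC
  hΘ : DifferentiableOn ℂ Θ HC
  mΦ : MapsTo Φ HC HC
  mΘ : MapsTo Θ HC HC
  h1 : ∀ x ∈ HC, Θ (Φ x) = x
  h2 : ∀ x ∈ HC, Φ (Θ x) = x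
  hR : ∀ x ∈ HC, ∀ y ∈ HC, MRel d β q x y ↔ MRel d' β' q' (Φ x) (Φ y)
  hl : ∀ x ∈ HC, ∃ V ∈ 𝓝 x, ∀ y ∈ V ∩ HC, ∀ z ∈ V ∩ HC, MRel d β q y z → y = z
  hl' : ∀ x ∈ HC, ∃ V ∈ 𝓝 x, ∀ y ∈ V ∩ HC, ∀ z ∈ V ∩ HC, MRel d' β' q' y z → y = z

theorem Dat.symm {d d' : ℕ} {β β' : ℂ} {q q' : ℂ → ℂ} {Φ Θ : ℂ × ℂ → ℂ × ℂ}
    (D : Dat d d' β β' q q' Φ Θ) : Dat d' d β' β q' q Θ Φ where
  hd := D.hd'
  hd' := D.hd
  hβ := D.hβ'
  hβ' := D.hβ
  hq := D.hq'
  hq' := D.hq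
  hΦ := D.hΘ
  hΘ := D.hΦ
  mΦ := D.mΘ
  mΘ := D.mΦ
  h1 := D.h2
  h2 := D.h1
  hR := fun x hx y hy => by
    rw [D.hR _ (D.mΘ hx) _ (D.mΘ hy), D.h2 x hx, D.h2 y hy]
  hl := D.hl'
  hl' := D.hl

theorem isOpen_HC : IsOpen HC :=
  isOpen_lt continuous_const (Complex.continuous_re.comp continuous_fst)

theorem convex_HC : Convex ℝ HC := by
  intro x hx y hy a b ha hb hab
  have hx' : 0 < x.1.re := hx
  have hy' : 0 < y.1.re := hy
  show 0 < (a • x + b • y).1.re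
  have : (a • x + b • y).1.re = a * x.1.re + b * y.1.re := by simp
  rw [this]
  rcases ha.eq_or_lt with h | h
  · have hb1 : b = 1 := by linarith
    rw [← h, hb1]; linarith
  · have := mul_pos h hx'
    have := mul_nonneg hb hy'.le
    linarith

section
variable {d d' : ℕ} {β β' : ℂ} {q q' : ℂ → ℂ} {Φ Θ : ℂ × ℂ → ℂ × ℂ}

/-- A deck map of the source corresponds to a deck map of the target. -/
theorem Dat.equi (D : Dat d d' β β' q q' Φ Θ) (γ : ℂ × ℂ → ℂ × ℂ) (hγc : ContinuousOn γ HC)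
    (hγm : MapsTo γ HC HC) (hγR : ∀ x ∈ HC, MRel d β q x (γ x)) :
    ∃ (m n : ℕ) (l : ℤ), ∀ x ∈ HC,
      tr l ((tl d' β' q')^[m] (Φ x)) = (tl d' β' q')^[n] (Φ (γ x)) := by
  have hx0 : ((1, 0) : ℂ × ℂ) ∈ HC := by simp [HC]
  obtain ⟨m, n, l, h0⟩ := (D.hR _ hx0 _ (hγm hx0)).1 (hγR _ hx0)
  refine ⟨m, n, l, ?_⟩
  set F1 : ℂ × ℂ → ℂ × ℂ := fun x =>
    (tli d' β' q')^[n] (tr l ((tl d' β' q')^[m] (Φ x))) with hF1
  set F2 : ℂ × ℂ → ℂ × ℂ := fun x => Φ (γ x) with hF2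
  have hF1c : ContinuousOn F1 HC :=
    (((tli_continuous d' β' D.hq').iterate n).comp ((tr_continuous l).comp
      ((tl_continuous d' β' D.hq').iterate m))).comp_continuousOn D.hΦ.continuousOn
  have hF2c : ContinuousOn F2 HC := D.hΦ.continuousOn.comp hγc hγm
  have hF1m : MapsTo F1 HC HC := fun x hx =>
    (tli_iter_mem D.hd' D.hβ' q' n).2 ((tr_mem l).2 ((tl_iter_mem D.hd' β' q' m).2 (D.mΦ hx)))
  have hF2m : MapsTo F2 HC HC := fun x hx => D.mΦ (hγm hx)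
  have hF1eq : ∀ x, (tl d' β' q')^[n] (F1 x) = tr l ((tl d' β' q')^[m] (Φ x)) := fun x =>
    tl_tli_iter D.hd' D.hβ' q' n _
  have hrel : ∀ x ∈ HC, MRel d' β' q' (F1 x) (F2 x) := fun x hx =>
    MRel.trans' (x := Φ x) ⟨m, n, l, (hF1eq x).symm⟩ ((D.hR _ hx _ (hγm hx)).1 (hγR x hx))
  set u : Set (ℂ × ℂ) := {x | x ∈ HC ∧ F1 x = F2 x} with hu
  have huo : IsOpen u := by
    rw [isOpen_iff_mem_nhds]
    rintro x ⟨hx, hxe⟩
    have c1 : ContinuousAt F1 x := hF1c.continuousAt (isOpen_HC.mem_nhds hx)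
    have c2 : ContinuousAt F2 x := hF2c.continuousAt (isOpen_HC.mem_nhds hx)
    obtain ⟨V, hV, hVe⟩ := D.hl' (F1 x) (hF1m hx)
    have e1 : ∀ᶠ y in 𝓝 x, F1 y ∈ V := c1 hV
    have e2 : ∀ᶠ y in 𝓝 x, F2 y ∈ V := by
      have : V ∈ 𝓝 (F2 x) := by rw [← hxe]; exact hV
      exact c2 this
    filter_upwards [e1, e2, isOpen_HC.mem_nhds hx] with y h1 h2 h3
    exact ⟨h3, hVe _ ⟨h1, hF1m h3⟩ _ ⟨h2, hF2m h3⟩ (hrel y h3)⟩
  have hsub : HC ⊆ u := by
    refine convex_HC.isPreconnected.subset_of_closure_inter_subset huo ⟨(1, 0), hx0, hx0, ?_⟩ ?_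
    · apply tl_iter_injective D.hd' D.hβ' q' n
      rw [hF1eq]; exact h0
    · rintro x ⟨hxc, hx⟩
      refine ⟨hx, ?_⟩
      by_contra hne
      have c1 : ContinuousAt F1 x := hF1c.continuousAt (isOpen_HC.mem_nhds hx)
      have c2 : ContinuousAt F2 x := hF2c.continuousAt (isOpen_HC.mem_nhds hx)
      have e1 : ∀ᶠ y in 𝓝 x, F1 y ≠ F2 y := by
        have ho : IsOpen {p : (ℂ × ℂ) × (ℂ × ℂ) | p.1 ≠ p.2} :=
          isOpen_ne_fun continuous_fst continuous_snd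
        exact (c1.prodMk c2).eventually (ho.mem_nhds hne)
      have e2 : ∃ᶠ y in 𝓝 x, y ∈ u := mem_closure_iff_frequently.1 hxc
      obtain ⟨y, hy1, hy2⟩ := (e2.and_eventually e1).exists
      exact hy2 hy1.2
  intro x hx
  rw [← hF1eq x, (hsub hx).2]

/-- The first component does not depend on `w`. -/
theorem Dat.fst_indep (D : Dat d d' β β' q q' Φ Θ) {ζ : ℂ} (hζ : 0 < ζ.re) (w : ℂ) :
    (Φ (ζ, w)).1 = (Φ (ζ, 0)).1 := by
  have hm : ∀ w : ℂ, ((ζ, w) : ℂ × ℂ) ∈ HC := fun w => hζ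
  have hd : Differentiable ℂ fun w : ℂ => (Φ (ζ, w)).1 := by
    intro w
    have h1 : DifferentiableAt ℂ Φ (ζ, w) :=
      (D.hΦ _ (hm w)).differentiableAt (isOpen_HC.mem_nhds (hm w))
    have h2 : DifferentiableAt ℂ (fun w : ℂ => ((ζ, w) : ℂ × ℂ)) w := by fun_prop
    exact (h1.comp w h2).fst
  have hpos : ∀ w : ℂ, 0 < ((Φ (ζ, w)).1).re := fun w => D.mΦ (hm w)
  have hne : ∀ w : ℂ, 1 + (Φ (ζ, w)).1 ≠ 0 := by
    intro w h
    have := congrArg Complex.re h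
    simp only [Complex.add_re, Complex.one_re, Complex.zero_re] at this
    linarith [hpos w]
  have hd2 : Differentiable ℂ fun w : ℂ => (1 + (Φ (ζ, w)).1)⁻¹ :=
    (hd.const_add 1).inv hne
  have hb : Bornology.IsBounded (range fun w : ℂ => (1 + (Φ (ζ, w)).1)⁻¹) := by
    refine (Metric.isBounded_iff_subset_closedBall (0 : ℂ)).2 ⟨1, ?_⟩
    rintro _ ⟨w, rfl⟩
    rw [mem_closedBall_zero_iff, norm_inv]
    apply inv_le_one_of_one_le₀
    calc (1 : ℝ) ≤ (1 + (Φ (ζ, w)).1).re := by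
          simp only [Complex.add_re, Complex.one_re]; linarith [hpos w]
      _ ≤ ‖1 + (Φ (ζ, w)).1‖ := Complex.re_le_norm _
  have := hd2.apply_eq_apply_of_bounded hb w 0
  have := inv_injective this
  exact add_left_cancel this

/-- The second component is affine in `w`. -/
theorem Dat.snd_affine (D : Dat d d' β β' q q' Φ Θ) {ζ : ℂ} (hζ : 0 < ζ.re) :
    ∃ b c : ℂ, b ≠ 0 ∧ ∀ w, (Φ (ζ, w)).2 = b * w + c := by
  have hm : ∀ w : ℂ, ((ζ, w) : ℂ × ℂ) ∈ HC := fun w => hζ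
  set ζ' : ℂ := (Φ (ζ, 0)).1 with hζ'
  have hζ'pos : 0 < ζ'.re := D.mΦ (hm 0)
  have hm' : ∀ w : ℂ, ((ζ', w) : ℂ × ℂ) ∈ HC := fun w => hζ'pos
  have hΦeq : ∀ w, Φ (ζ, w) = (ζ', (Φ (ζ, w)).2) := fun w =>
    Prod.ext (D.fst_indep hζ w) rfl
  have hΘ1 : ∀ w, (Θ (ζ', w)).1 = ζ := by
    intro w
    rw [D.symm.fst_indep hζ'pos w]
    have h3 := D.symm.fst_indep hζ'pos (Φ (ζ, 0)).2
    rw [← h3, ← hΦeq 0, D.h1 _ (hm 0)]
  have hΘeq : ∀ w, Θ (ζ', w) = (ζ, (Θ (ζ', w)).2) := fun w => Prod.ext (hΘ1 w) rfl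
  refine entire_aut_affine (fun w => (Φ (ζ, w)).2) (fun w => (Θ (ζ', w)).2) ?_ ?_ ?_ ?_
  · intro w
    have h1 : DifferentiableAt ℂ Φ (ζ, w) :=
      (D.hΦ _ (hm w)).differentiableAt (isOpen_HC.mem_nhds (hm w))
    have h2 : DifferentiableAt ℂ (fun w : ℂ => ((ζ, w) : ℂ × ℂ)) w := by fun_prop
    exact (h1.comp w h2).snd
  · intro w
    have h1 : DifferentiableAt ℂ Θ (ζ', w) :=
      (D.hΘ _ (hm' w)).differentiableAt (isOpen_HC.mem_nhds (hm' w))
    have h2 : DifferentiableAt ℂ (fun w : ℂ => ((ζ', w) : ℂ × ℂ)) w := by fun_prop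
    exact (h1.comp w h2).snd
  · intro w
    show (Θ (ζ', (Φ (ζ, w)).2)).2 = w
    rw [← hΦeq w, D.h1 _ (hm w)]
  · intro w
    show (Φ (ζ, (Θ (ζ', w)).2)).2 = w
    rw [← hΘeq w, D.h2 _ (hm' w)]

end

/-- The small vertical translations. -/
noncomputable def hm (d m : ℕ) : ℂ := 2 * Real.pi * Complex.I / (d : ℂ) ^ m

theorem hm_re (d m : ℕ) : (hm d m).re = 0 := by
  unfold hm
  rw [← Complex.ofReal_natCast, ← Complex.ofReal_pow, Complex.div_ofReal_re]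
  simp

theorem hm_ne {d : ℕ} (hd : 2 ≤ d) (m : ℕ) : hm d m ≠ 0 := by
  have hd0 : (d : ℂ) ≠ 0 := by exact_mod_cast (by omega : d ≠ 0)
  have hpi : (Real.pi : ℂ) ≠ 0 := by exact_mod_cast Real.pi_ne_zero
  unfold hm
  exact div_ne_zero (mul_ne_zero (mul_ne_zero two_ne_zero hpi) Complex.I_ne_zero)
    (pow_ne_zero _ hd0)

theorem hm_tendsto {d : ℕ} (hd : 2 ≤ d) : Tendsto (hm d) atTop (𝓝[≠] 0) := by
  rw [tendsto_nhdsWithin_iff]
  refine ⟨?_, Eventually.of_forall fun m => hm_ne hd m⟩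
  rw [tendsto_zero_iff_norm_tendsto_zero]
  have h1 : ∀ m, ‖hm d m‖ = 2 * Real.pi * ((d : ℝ)⁻¹) ^ m := by
    intro m
    unfold hm
    rw [norm_div, norm_mul, norm_mul, norm_pow, Complex.norm_I, Complex.norm_real,
      Complex.norm_natCast, Real.norm_eq_abs, abs_of_pos Real.pi_pos, Complex.norm_two]
    rw [inv_pow]; ring
  simp only [h1]
  have hd1 : (1 : ℝ) < d := by exact_mod_cast (by omega : 1 < d)
  have h2 : Tendsto (fun m : ℕ => ((d : ℝ)⁻¹) ^ m) atTop (𝓝 0) :=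
    tendsto_pow_atTop_nhds_zero_of_lt_one (by positivity) (inv_lt_one_of_one_lt₀ hd1)
  simpa using h2.const_mul (2 * Real.pi)

theorem hm_mul {d : ℕ} (hd : 2 ≤ d) (m : ℕ) : (d : ℂ) ^ m * hm d m = hm d 0 := by
  have hd0 : (d : ℂ) ≠ 0 := by exact_mod_cast (by omega : d ≠ 0)
  unfold hm
  field_simp

theorem hm_zero (d : ℕ) : hm d 0 = 2 * Real.pi * Complex.I := by simp [hm]

section
variable {d d' : ℕ} {β β' : ℂ} {q q' : ℂ → ℂ} {Φ Θ : ℂ × ℂ → ℂ × ℂ}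

theorem Dat.shift (D : Dat d d' β β' q q' Φ Θ) (m : ℕ) :
    ∃ (e : ℂ → ℂ) (a b : ℕ) (l : ℤ), ∀ x ∈ HC,
      tr l ((tl d' β' q')^[a] (Φ x)) =
        (tl d' β' q')^[b] (Φ (x.1 + hm d m, x.2 + e x.1)) := by
  obtain ⟨Q, hQ, hQe⟩ := exists_Q d β D.hq m
  have hβm : β ^ m ≠ 0 := pow_ne_zero _ D.hβ
  have hQc := hQ.continuous
  refine ⟨fun ζ => (Q ζ - Q (ζ + hm d m)) / β ^ m, D.equi
    (fun x => (x.1 + hm d m, x.2 + (Q x.1 - Q (x.1 + hm d m)) / β ^ m)) ?_ ?_ ?_⟩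
  · apply Continuous.continuousOn
    fun_prop
  · intro x hx
    have hx' : 0 < x.1.re := hx
    show 0 < (x.1 + hm d m).re
    rw [Complex.add_re, hm_re, add_zero]; exact hx'
  · intro x _
    refine ⟨m, m, 1, ?_⟩
    rw [hQe, hQe]
    simp only [tr, Int.cast_one, one_mul, Prod.mk.injEq]
    constructor
    · rw [mul_add, hm_mul D.hd, hm_zero]
    · field_simp; ring

theorem iter_fst (d : ℕ) (β : ℂ) {q : ℂ → ℂ} (hq : Differentiable ℂ q) (m : ℕ) (x : ℂ × ℂ) :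
    ((tl d β q)^[m] x).1 = (d : ℂ) ^ m * x.1 := by
  obtain ⟨Q, _, h⟩ := exists_Q d β hq m
  rw [h]

theorem Dat.A_inj (D : Dat d d' β β' q q' Φ Θ) {ζ ζ' : ℂ} (h : 0 < ζ.re) (h' : 0 < ζ'.re)
    (he : (Φ (ζ, 0)).1 = (Φ (ζ', 0)).1) : ζ = ζ' := by
  have hh : ((ζ, 0) : ℂ × ℂ) ∈ HC := h
  have hh' : ((ζ', 0) : ℂ × ℂ) ∈ HC := h'
  have key : ∀ z : ℂ, 0 < z.re → (Θ ((Φ (z, 0)).1, 0)).1 = z := by
    intro z hz
    have hz' : ((z, 0) : ℂ × ℂ) ∈ HC := hz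
    have h2 : 0 < (Φ (z, 0)).1.re := D.mΦ hz'
    rw [← D.symm.fst_indep h2 (Φ (z, 0)).2]
    have h3 : (((Φ (z, 0)).1, (Φ (z, 0)).2) : ℂ × ℂ) = Φ (z, 0) := rfl
    rw [h3, D.h1 _ hz']
  rw [← key ζ h, ← key ζ' h', he]

/-- The equivariance of the first component under the small translations. -/
theorem Dat.A_shift (D : Dat d d' β β' q q' Φ Θ) (m : ℕ) :
    ∃ (a : ℤ) (μ : ℂ), ∀ ζ : ℂ, 0 < ζ.re →
      (Φ (ζ + hm d m, 0)).1 = (d' : ℂ) ^ a * (Φ (ζ, 0)).1 + μ := by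
  obtain ⟨e, a, b, l, h⟩ := D.shift m
  have hd0 : (d' : ℂ) ≠ 0 := by have := D.hd'; exact_mod_cast (by omega : d' ≠ 0)
  refine ⟨a - b, l * (2 * Real.pi * Complex.I) / (d' : ℂ) ^ b, fun ζ hζ => ?_⟩
  have h1 := congrArg Prod.fst (h (ζ, 0) hζ)
  simp only [tr, iter_fst d' β' D.hq'] at h1
  have hζ' : 0 < (ζ + hm d m).re := by rw [Complex.add_re, hm_re, add_zero]; exact hζ
  rw [D.fst_indep hζ'] at h1
  rw [zpow_sub₀ hd0, zpow_natCast, zpow_natCast]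
  have hb : (d' : ℂ) ^ b ≠ 0 := pow_ne_zero _ hd0
  field_simp
  rw [mul_comm _ ((d' : ℂ) ^ b), ← h1]
  ring

theorem Dat.A_iter (_D : Dat d d' β β' q q' Φ Θ) (m : ℕ) {a : ℤ} {μ : ℂ}
    (h : ∀ ζ : ℂ, 0 < ζ.re → (Φ (ζ + hm d m, 0)).1 = (d' : ℂ) ^ a * (Φ (ζ, 0)).1 + μ) (j : ℕ) :
    ∃ μ' : ℂ, ∀ ζ : ℂ, 0 < ζ.re →
      (Φ (ζ + j * hm d m, 0)).1 = ((d' : ℂ) ^ a) ^ j * (Φ (ζ, 0)).1 + μ' := by
  induction j with
  | zero => exact ⟨0, fun ζ _ => by simp⟩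
  | succ j ih =>
    obtain ⟨μ', ih⟩ := ih
    refine ⟨(d' : ℂ) ^ a * μ' + μ, fun ζ hζ => ?_⟩
    have hζ' : 0 < (ζ + j * hm d m).re := by
      rw [Complex.add_re]
      have : ((j : ℂ) * hm d m).re = 0 := by
        rw [← Complex.ofReal_natCast, Complex.re_ofReal_mul, hm_re, mul_zero]
      rw [this, add_zero]; exact hζ
    have e1 : ζ + ((j + 1 : ℕ) : ℂ) * hm d m = (ζ + j * hm d m) + hm d m := by push_cast; ring
    rw [e1, h _ hζ', ih ζ hζ]
    ring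

theorem Dat.A_trans (D : Dat d d' β β' q q' Φ Θ) (m : ℕ) {a : ℤ} {μ : ℂ}
    (h : ∀ ζ : ℂ, 0 < ζ.re → (Φ (ζ + hm d m, 0)).1 = (d' : ℂ) ^ a * (Φ (ζ, 0)).1 + μ) :
    a = 0 := by
  have hd0 : (d' : ℂ) ≠ 0 := by have := D.hd'; exact_mod_cast (by omega : d' ≠ 0)
  obtain ⟨a0, μ0, h0⟩ := D.A_shift 0
  have hne : (Φ (1, 0)).1 ≠ (Φ (2, 0)).1 := by
    intro he
    have := D.A_inj (by simp) (by simp) he
    norm_num at this
  have key : ∀ (m : ℕ) (a : ℤ) (μ : ℂ), (∀ ζ : ℂ, 0 < ζ.re →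
      (Φ (ζ + hm d m, 0)).1 = (d' : ℂ) ^ a * (Φ (ζ, 0)).1 + μ) → a * (d : ℤ) ^ m = a0 := by
    intro m a μ h
    obtain ⟨μ', h'⟩ := D.A_iter m h (d ^ m)
    have e1 : ∀ ζ : ℂ, 0 < ζ.re →
        ((d' : ℂ) ^ a) ^ (d ^ m) * (Φ (ζ, 0)).1 + μ' = (d' : ℂ) ^ a0 * (Φ (ζ, 0)).1 + μ0 := by
      intro ζ hζ
      rw [← h0 ζ hζ, ← h' ζ hζ]
      push_cast
      rw [hm_mul D.hd]
    have e2 := e1 1 (by simp)
    have e3 := e1 2 (by simp)
    have e4 : (((d' : ℂ) ^ a) ^ (d ^ m) - (d' : ℂ) ^ a0) * ((Φ (1, 0)).1 - (Φ (2, 0)).1) = 0 := by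
      linear_combination e2 - e3
    have e5 : ((d' : ℂ) ^ a) ^ (d ^ m) = (d' : ℂ) ^ a0 := by
      rcases mul_eq_zero.1 e4 with h | h
      · exact sub_eq_zero.1 h
      · exact absurd (sub_eq_zero.1 h) hne
    have e6 : ((d' : ℝ)) ^ (a * (d : ℤ) ^ m) = (d' : ℝ) ^ a0 := by
      rw [← zpow_natCast, ← zpow_mul] at e5
      have : ((d ^ m : ℕ) : ℤ) = (d : ℤ) ^ m := by push_cast; rfl
      rw [this] at e5
      apply Complex.ofReal_injective
      push_cast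
      exact e5
    have hd1 : (1 : ℝ) < d' := by have := D.hd'; exact_mod_cast (by omega : 1 < d')
    exact zpow_right_injective₀ (by linarith) (by linarith) e6
  have ha0 : a0 = 0 := by
    by_contra hne0
    obtain ⟨a1, μ1, h1⟩ := D.A_shift a0.natAbs
    have h2 := key _ _ _ h1
    have h3 : (a1 * (d : ℤ) ^ a0.natAbs).natAbs = a0.natAbs := by rw [h2]
    rw [Int.natAbs_mul, Int.natAbs_pow, Int.natAbs_natCast] at h3
    have h4 : a0.natAbs < d ^ a0.natAbs := Nat.lt_pow_self D.hd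
    have h5 : a1.natAbs ≠ 0 := by
      intro h5
      rw [h5, zero_mul] at h3
      exact hne0 (Int.natAbs_eq_zero.1 h3.symm)
    have h6 : d ^ a0.natAbs ≤ a1.natAbs * d ^ a0.natAbs :=
      Nat.le_mul_of_pos_left _ (Nat.pos_of_ne_zero h5)
    omega
  have := key _ _ _ h
  rw [ha0] at this
  rcases mul_eq_zero.1 this with h | h
  · exact h
  · exact absurd h (pow_ne_zero _ (by have := D.hd; exact_mod_cast (by omega : d ≠ 0)))

/-- The first component is affine. -/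
theorem Dat.A_affine (D : Dat d d' β β' q q' Φ Θ) :
    ∃ r c : ℂ, r ≠ 0 ∧ ∀ ζ : ℂ, 0 < ζ.re → (Φ (ζ, 0)).1 = r * ζ + c := by
  have hmem : ∀ ζ : ℂ, 0 < ζ.re → ((ζ, 0) : ℂ × ℂ) ∈ HC := fun ζ h => h
  set A : ℂ → ℂ := fun ζ => (Φ (ζ, 0)).1 with hA
  have hAd : ∀ ζ : ℂ, 0 < ζ.re → DifferentiableAt ℂ A ζ := by
    intro ζ hζ
    have h1 : DifferentiableAt ℂ Φ (ζ, 0) :=
      (D.hΦ _ (hmem ζ hζ)).differentiableAt (isOpen_HC.mem_nhds (hmem ζ hζ))
    have h2 : DifferentiableAt ℂ (fun w : ℂ => ((w, 0) : ℂ × ℂ)) ζ := by fun_prop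
    exact (h1.comp ζ h2).fst
  choose a μ hAS using D.A_shift
  have ha : ∀ m, a m = 0 := fun m => D.A_trans m (hAS m)
  have hlim : ∀ ζ : ℂ, 0 < ζ.re →
      Tendsto (fun m => (hm d m)⁻¹ • μ m) atTop (𝓝 (deriv A ζ)) := by
    intro ζ hζ
    have h1 := hasDerivAt_iff_tendsto_slope_zero.1 (hAd ζ hζ).hasDerivAt
    have h2 := h1.comp (hm_tendsto D.hd)
    refine h2.congr fun m => ?_
    have h3 := hAS m ζ hζ
    rw [ha m, zpow_zero, one_mul] at h3
    simp only [Function.comp]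
    have h4 : A (ζ + hm d m) - A ζ = μ m := by simp only [hA]; rw [h3]; ring
    rw [h4]
  set r := deriv A 1 with hr
  have hder : ∀ ζ : ℂ, 0 < ζ.re → deriv A ζ = r := fun ζ hζ =>
    tendsto_nhds_unique (hlim ζ hζ) (hlim 1 (by simp))
  have hopen : IsOpen {ζ : ℂ | 0 < ζ.re} := isOpen_lt continuous_const Complex.continuous_re
  have hconv : Convex ℝ {ζ : ℂ | 0 < ζ.re} := convex_halfSpace_re_gt 0
  have hconst : ∀ ζ : ℂ, 0 < ζ.re → A ζ - r * ζ = A 1 - r * 1 := by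
    intro ζ hζ
    refine hopen.is_const_of_deriv_eq_zero (f := fun z => A z - r * z) hconv.isPreconnected ?_ ?_
      (show ζ ∈ {ζ : ℂ | 0 < ζ.re} from hζ) (show (1 : ℂ) ∈ {ζ : ℂ | 0 < ζ.re} by simp)
    · intro z hz
      exact ((hAd z hz).sub (by fun_prop)).differentiableWithinAt
    · intro z hz
      have h1 : HasDerivAt (fun z => A z - r * z) (deriv A z - r * 1) z :=
        (hAd z hz).hasDerivAt.sub ((hasDerivAt_id z).const_mul r)
      rw [h1.deriv, hder z hz]; simp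
  refine ⟨r, A 1 - r * 1, ?_, fun ζ hζ => ?_⟩
  · intro hr0
    have h1 := hconst 2 (by simp)
    rw [hr0] at h1
    simp only [zero_mul, sub_zero] at h1
    have := D.A_inj (ζ := 2) (ζ' := 1) (by simp) (by simp) h1
    norm_num at this
  · have := hconst ζ hζ
    have h2 : A ζ = (A ζ - r * ζ) + r * ζ := by ring
    show A ζ = _
    rw [h2, this]; ring

theorem Dat.deg_le (D : Dat d d' β β' q q' Φ Θ) : d' ≤ d := by
  obtain ⟨r, c, hr, hA⟩ := D.A_affine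
  have hmap : MapsTo (tl d β q) HC HC := fun x hx => (tl_mem D.hd β q).2 hx
  obtain ⟨a, b, l, h⟩ := D.equi (tl d β q) (tl_continuous d β D.hq).continuousOn hmap
    (fun x _ => ⟨1, 0, 0, by simp [tr_zero]⟩)
  have h1 : ∀ ζ : ℂ, 0 < ζ.re → (d' : ℂ) ^ a * (r * ζ + c) + l * (2 * Real.pi * Complex.I) =
      (d' : ℂ) ^ b * (r * (d * ζ) + c) := by
    intro ζ hζ
    have h2 := congrArg Prod.fst (h (ζ, 0) hζ)
    simp only [tr, iter_fst d' β' D.hq'] at h2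
    have h3 : 0 < ((d : ℂ) * ζ).re := hmap (show ((ζ, 0) : ℂ × ℂ) ∈ HC from hζ)
    have h4 : (Φ (tl d β q (ζ, 0))).1 = r * (d * ζ) + c := by
      show (Φ ((d : ℂ) * ζ, β * 0 + q (Complex.exp ζ))).1 = _
      rw [D.fst_indep h3, hA _ h3]
    rw [h4, hA ζ hζ] at h2
    exact h2
  have e1 := h1 1 (by simp)
  have e2 := h1 2 (by simp)
  have e3 : r * ((d' : ℂ) ^ a - (d' : ℂ) ^ b * d) = 0 := by linear_combination e2 - e1
  have e4 : (d' : ℂ) ^ a = (d' : ℂ) ^ b * d := by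
    rcases mul_eq_zero.1 e3 with h | h
    · exact absurd h hr
    · exact sub_eq_zero.1 h
  have e5 : d' ^ a = d' ^ b * d := by exact_mod_cast e4
  have hd'pos : 0 < d' := by have := D.hd'; omega
  have hab : b < a := by
    by_contra hle
    rw [not_lt] at hle
    have h6 : d' ^ a ≤ d' ^ b := Nat.pow_le_pow_right hd'pos hle
    have h7 : 0 < d' ^ b := Nat.pow_pos hd'pos
    have := D.hd
    nlinarith
  obtain ⟨k, rfl⟩ : ∃ k, a = b + (k + 1) := ⟨a - b - 1, by omega⟩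
  rw [pow_add] at e5
  have e6 : d' ^ (k + 1) = d := Nat.eq_of_mul_eq_mul_left (Nat.pow_pos hd'pos) e5
  rw [← e6]
  exact Nat.le_self_pow (by omega) d'

end

section
variable {d d' : ℕ} {β β' : ℂ} {q q' : ℂ → ℂ} {Φ Θ : ℂ × ℂ → ℂ × ℂ}

theorem pow_cast_inj {d : ℕ} (hd : 2 ≤ d) {a b : ℕ} (h : (d : ℂ) ^ a = (d : ℂ) ^ b) : a = b := by
  have h' : d ^ a = d ^ b := by exact_mod_cast h
  exact Nat.pow_right_injective hd h'

/-- The linear coefficient of the second component is constant. -/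
theorem Dat.B_const (D : Dat d d β β' q q' Φ Θ) :
    ∃ b0 : ℂ, b0 ≠ 0 ∧ ∀ ζ : ℂ, 0 < ζ.re → ∀ w, (Φ (ζ, w)).2 = b0 * w + (Φ (ζ, 0)).2 := by
  obtain ⟨r, c, hr, hA⟩ := D.A_affine
  set B : ℂ → ℂ := fun ζ => (Φ (ζ, 1)).2 - (Φ (ζ, 0)).2 with hB
  have hB' : ∀ ζ : ℂ, 0 < ζ.re → B ζ ≠ 0 ∧ ∀ w, (Φ (ζ, w)).2 = B ζ * w + (Φ (ζ, 0)).2 := by
    intro ζ hζ
    obtain ⟨b, c, hb, h⟩ := D.snd_affine hζ
    have e1 : B ζ = b := by simp only [hB]; rw [h 1, h 0]; ring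
    rw [e1]
    refine ⟨hb, fun w => ?_⟩
    rw [h w, h 0]; ring
  have hBd : ∀ ζ : ℂ, 0 < ζ.re → DifferentiableAt ℂ B ζ := by
    intro ζ hζ
    have h0 : ∀ v : ℂ, DifferentiableAt ℂ (fun z : ℂ => (Φ (z, v)).2) ζ := by
      intro v
      have hm : ((ζ, v) : ℂ × ℂ) ∈ HC := hζ
      have h1 : DifferentiableAt ℂ Φ (ζ, v) :=
        (D.hΦ _ hm).differentiableAt (isOpen_HC.mem_nhds hm)
      have h2 : DifferentiableAt ℂ (fun z : ℂ => ((z, v) : ℂ × ℂ)) ζ := by fun_prop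
      exact (h1.comp ζ h2).snd
    exact (h0 1).sub (h0 0)
  have hBs : ∀ (m : ℕ) (ζ : ℂ), 0 < ζ.re → B (ζ + hm d m) = B ζ := by
    intro m ζ hζ
    obtain ⟨e, a, b, l, h⟩ := D.shift m
    have hsh : ∀ z : ℂ, 0 < z.re → 0 < (z + hm d m).re := by
      intro z hz
      rw [Complex.add_re, hm_re, add_zero]; exact hz
    have h1 : ∀ z : ℂ, 0 < z.re → (d : ℂ) ^ a * (r * z + c) + l * (2 * Real.pi * Complex.I) =
        (d : ℂ) ^ b * (r * (z + hm d m) + c) := by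
      intro z hz
      have h2 := congrArg Prod.fst (h (z, 0) hz)
      simp only [tr, iter_fst d β' D.hq'] at h2
      rw [D.fst_indep (hsh z hz), hA _ (hsh z hz), hA z hz] at h2
      exact h2
    have e1 := h1 1 (by simp)
    have e2 := h1 2 (by simp)
    have e3 : r * ((d : ℂ) ^ a - (d : ℂ) ^ b) = 0 := by linear_combination e2 - e1
    have e4 : a = b := by
      rcases mul_eq_zero.1 e3 with h | h
      · exact absurd h hr
      · exact pow_cast_inj D.hd (sub_eq_zero.1 h)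
    subst e4
    obtain ⟨Q, _, hQ⟩ := exists_Q d β' D.hq' a
    have s1 := congrArg Prod.snd (h (ζ, 1) hζ)
    have s0 := congrArg Prod.snd (h (ζ, 0) hζ)
    simp only [tr, hQ] at s1 s0
    rw [D.fst_indep hζ, D.fst_indep (hsh ζ hζ), (hB' _ (hsh ζ hζ)).2 (1 + e ζ)] at s1
    rw [D.fst_indep (hsh ζ hζ), (hB' _ (hsh ζ hζ)).2 (0 + e ζ)] at s0
    have hβa : β' ^ a ≠ 0 := pow_ne_zero _ D.hβ'
    have s2 : β' ^ a * (B (ζ + hm d m) - B ζ) = 0 := by
      have : B ζ = (Φ (ζ, 1)).2 - (Φ (ζ, 0)).2 := rfl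
      rw [this]
      linear_combination s0 - s1
    rcases mul_eq_zero.1 s2 with h | h
    · exact absurd h hβa
    · exact sub_eq_zero.1 h
  have hder : ∀ ζ : ℂ, 0 < ζ.re → deriv B ζ = 0 := by
    intro ζ hζ
    have h1 := hasDerivAt_iff_tendsto_slope_zero.1 (hBd ζ hζ).hasDerivAt
    have h2 := h1.comp (hm_tendsto D.hd)
    have h3 : Tendsto (fun _ : ℕ => (0 : ℂ)) atTop (𝓝 (deriv B ζ)) := by
      refine h2.congr fun m => ?_
      simp only [Function.comp]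
      rw [hBs m ζ hζ, sub_self, smul_zero]
    exact (tendsto_nhds_unique tendsto_const_nhds h3).symm
  have hopen : IsOpen {ζ : ℂ | 0 < ζ.re} := isOpen_lt continuous_const Complex.continuous_re
  have hconv : Convex ℝ {ζ : ℂ | 0 < ζ.re} := convex_halfSpace_re_gt 0
  have hconst : ∀ ζ : ℂ, 0 < ζ.re → B ζ = B 1 := fun ζ hζ =>
    hopen.is_const_of_deriv_eq_zero (f := B) hconv.isPreconnected
      (fun z hz => (hBd z hz).differentiableWithinAt) (fun z hz => hder z hz)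
      (show ζ ∈ {ζ : ℂ | 0 < ζ.re} from hζ) (show (1 : ℂ) ∈ {ζ : ℂ | 0 < ζ.re} by simp)
  refine ⟨B 1, (hB' 1 (by simp)).1, fun ζ hζ w => ?_⟩
  rw [(hB' ζ hζ).2 w, hconst ζ hζ]

/-- A function on the right half plane with period `2 π i` descends to `|z| > 1`. -/
theorem descend (H : ℂ → ℂ) (hc : ContinuousOn H {ζ : ℂ | 0 < ζ.re})
    (hp : ∀ ζ : ℂ, 0 < ζ.re → H (ζ + 2 * Real.pi * Complex.I) = H ζ) :
    (∀ ζ : ℂ, 0 < ζ.re → H (Complex.log (Complex.exp ζ)) = H ζ) ∧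
      ContinuousOn (fun z => H (Complex.log z)) {z | 1 < ‖z‖} := by
  have hre : ∀ (ζ : ℂ) (k : ℤ), (ζ + k * (2 * Real.pi * Complex.I)).re = ζ.re := by
    intro ζ k; simp
  have hpk : ∀ (k : ℕ) (ζ : ℂ), 0 < ζ.re → H (ζ + k * (2 * Real.pi * Complex.I)) = H ζ := by
    intro k ζ hζ
    induction k with
    | zero => simp
    | succ k ih =>
      have e1 : ζ + ((k + 1 : ℕ) : ℂ) * (2 * Real.pi * Complex.I) =
          (ζ + ((k : ℤ) : ℂ) * (2 * Real.pi * Complex.I)) + 2 * Real.pi * Complex.I := by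
        push_cast; ring
      rw [e1, hp _ (by rw [hre]; exact hζ)]
      exact_mod_cast ih
  have hpz : ∀ (k : ℤ) (ζ : ℂ), 0 < ζ.re → H (ζ + k * (2 * Real.pi * Complex.I)) = H ζ := by
    intro k ζ hζ
    rcases Int.eq_nat_or_neg k with ⟨n, rfl | rfl⟩
    · exact_mod_cast hpk n ζ hζ
    · have := hpk n (ζ + ((-n : ℤ) : ℂ) * (2 * Real.pi * Complex.I)) (by rw [hre]; exact hζ)
      rw [← this]
      congr 1
      push_cast; ring
  have h1 : ∀ ζ : ℂ, 0 < ζ.re → H (Complex.log (Complex.exp ζ)) = H ζ := by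
    intro ζ hζ
    obtain ⟨k, hk⟩ := Complex.exp_eq_exp_iff_exists_int.1
      (Complex.exp_log (Complex.exp_ne_zero ζ))
    rw [hk, hpz k ζ hζ]
  refine ⟨h1, ?_⟩
  intro z hz
  have hz1 : 1 < ‖z‖ := hz
  have hz0 : z ≠ 0 := by
    intro h; rw [h, norm_zero] at hz1; linarith
  apply ContinuousAt.continuousWithinAt
  have hopen : IsOpen {ζ : ℂ | 0 < ζ.re} := isOpen_lt continuous_const Complex.continuous_re
  by_cases hs : z ∈ Complex.slitPlane
  · have hl : 0 < (Complex.log z).re := by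
      rw [Complex.log_re]; exact Real.log_pos hz1
    exact ContinuousAt.comp (f := Complex.log) (g := H) (x := z)
      (hc.continuousAt (hopen.mem_nhds hl)) (continuousAt_clog hs)
  · have hs' : -z ∈ Complex.slitPlane := by
      rw [Complex.mem_slitPlane_iff] at hs ⊢
      push Not at hs
      left
      rw [Complex.neg_re]
      have hne : z.re ≠ 0 := by
        intro h
        exact hz0 (Complex.ext h hs.2)
      rcases lt_or_gt_of_ne hne with h | h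
      · linarith
      · linarith [hs.1]
    have hl : 0 < (Complex.log (-z) + Real.pi * Complex.I).re := by
      rw [Complex.add_re, Complex.log_re, norm_neg]
      simp only [Complex.mul_re, Complex.ofReal_re, Complex.I_re, mul_zero, Complex.ofReal_im,
        Complex.I_im, mul_one, sub_self, add_zero]
      exact Real.log_pos hz1
    have hcont : ContinuousAt (fun w => H (Complex.log (-w) + Real.pi * Complex.I)) z := by
      have c1 : ContinuousAt (fun w : ℂ => Complex.log (-w) + Real.pi * Complex.I) z :=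
        (ContinuousAt.clog continuous_neg.continuousAt hs').add continuousAt_const
      exact ContinuousAt.comp (f := fun w : ℂ => Complex.log (-w) + Real.pi * Complex.I) (g := H)
        (x := z) (hc.continuousAt (hopen.mem_nhds hl)) c1
    refine hcont.congr ?_
    have hev : ∀ᶠ w in 𝓝 z, 1 < ‖w‖ :=
      (isOpen_lt continuous_const continuous_norm).mem_nhds hz1
    filter_upwards [hev] with w hw
    have hw0 : w ≠ 0 := by
      intro h; rw [h, norm_zero] at hw; linarith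
    have hl' : 0 < (Complex.log (-w) + Real.pi * Complex.I).re := by
      rw [Complex.add_re, Complex.log_re, norm_neg]
      simp only [Complex.mul_re, Complex.ofReal_re, Complex.I_re, mul_zero, Complex.ofReal_im,
        Complex.I_im, mul_one, sub_self, add_zero]
      exact Real.log_pos hw
    rw [← h1 _ hl', Complex.exp_add, Complex.exp_log (neg_ne_zero.2 hw0), Complex.exp_pi_mul_I]
    congr 2; ring

theorem iter_comm (d : ℕ) (β : ℂ) (q : ℂ → ℂ) (a b : ℕ) (x : ℂ × ℂ) :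
    (tl d β q)^[a] ((tl d β q)^[b] x) = (tl d β q)^[b] ((tl d β q)^[a] x) := by
  rw [← Function.iterate_add_apply, ← Function.iterate_add_apply, add_comm]

theorem Dat.final (D : Dat d d β β' q q' Φ Θ) :
    β = β' ∧ ∃ (b α : ℂ) (r : ℕ) (h : ℂ → ℂ), b ≠ 0 ∧ 0 < r ∧ α ^ (d - 1) = 1 ∧
      ContinuousOn h {z | 1 < ‖z‖} ∧
      ∀ z, 1 < ‖z‖ → b * q z + h (z ^ d) = β * h z + q' (α * z ^ r) := by
  obtain ⟨r, c, hr, hA⟩ := D.A_affine
  obtain ⟨b0, hb0, hB⟩ := D.B_const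
  have hd0 : (d : ℂ) ≠ 0 := by have := D.hd; exact_mod_cast (by omega : d ≠ 0)
  have hpi : (2 * Real.pi * Complex.I : ℂ) ≠ 0 := by
    have := hm_ne D.hd 0
    rwa [hm_zero] at this
  -- the translation
  obtain ⟨a1, b1, l1, ht1⟩ := D.equi (tr 1) (tr_continuous 1).continuousOn
    (fun x hx => (tr_mem 1).2 hx) (fun x _ => ⟨0, 0, 1, by simp⟩)
  have hsh : ∀ z : ℂ, 0 < z.re → 0 < (z + 2 * Real.pi * Complex.I).re := by
    intro z hz
    have := hm_re d 0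
    rw [hm_zero] at this
    rw [Complex.add_re, this, add_zero]; exact hz
  have f1 : ∀ z : ℂ, 0 < z.re → (d : ℂ) ^ a1 * (r * z + c) + l1 * (2 * Real.pi * Complex.I) =
      (d : ℂ) ^ b1 * (r * (z + 2 * Real.pi * Complex.I) + c) := by
    intro z hz
    have h2 := congrArg Prod.fst (ht1 (z, 0) hz)
    simp only [tr, iter_fst d β' D.hq', Int.cast_one, one_mul] at h2
    rw [hA _ (hsh z hz), hA z hz] at h2
    exact h2
  have hab1 : a1 = b1 := by
    have e1 := f1 1 (by simp)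
    have e2 := f1 2 (by simp)
    have e3 : r * ((d : ℂ) ^ a1 - (d : ℂ) ^ b1) = 0 := by linear_combination e2 - e1
    rcases mul_eq_zero.1 e3 with h | h
    · exact absurd h hr
    · exact pow_cast_inj D.hd (sub_eq_zero.1 h)
  subst hab1
  have hl1 : (l1 : ℂ) = (d : ℂ) ^ a1 * r := by
    have e1 := f1 1 (by simp)
    apply mul_right_cancel₀ hpi
    linear_combination e1
  -- the model map
  have hmap : MapsTo (tl d β q) HC HC := fun x hx => (tl_mem D.hd β q).2 hx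
  obtain ⟨a2, b2, l2, ht2⟩ := D.equi (tl d β q) (tl_continuous d β D.hq).continuousOn hmap
    (fun x _ => ⟨1, 0, 0, by simp [tr_zero]⟩)
  have f2 : ∀ ζ : ℂ, 0 < ζ.re → (d : ℂ) ^ a2 * (r * ζ + c) + l2 * (2 * Real.pi * Complex.I) =
      (d : ℂ) ^ b2 * (r * (d * ζ) + c) := by
    intro ζ hζ
    have h2 := congrArg Prod.fst (ht2 (ζ, 0) hζ)
    simp only [tr, iter_fst d β' D.hq'] at h2
    have h3 : 0 < ((d : ℂ) * ζ).re := hmap (show ((ζ, 0) : ℂ × ℂ) ∈ HC from hζ)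
    have h4 : (Φ (tl d β q (ζ, 0))).1 = r * (d * ζ) + c := by
      show (Φ ((d : ℂ) * ζ, β * 0 + q (Complex.exp ζ))).1 = _
      rw [D.fst_indep h3, hA _ h3]
    rw [h4, hA ζ hζ] at h2
    exact h2
  have hab2 : a2 = b2 + 1 := by
    have e1 := f2 1 (by simp)
    have e2 := f2 2 (by simp)
    have e3 : r * ((d : ℂ) ^ a2 - (d : ℂ) ^ (b2 + 1)) = 0 := by
      rw [pow_succ]; linear_combination e2 - e1
    rcases mul_eq_zero.1 e3 with h | h
    · exact absurd h hr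
    · exact pow_cast_inj D.hd (sub_eq_zero.1 h)
  subst hab2
  have hl2 : (l2 : ℂ) * (2 * Real.pi * Complex.I) = -((d : ℂ) ^ b2 * (d - 1) * c) := by
    have e1 := f2 1 (by simp)
    rw [pow_succ] at e1
    linear_combination e1
  -- the normalised map
  set M := a1 + b2 with hM
  set Ψ : ℂ × ℂ → ℂ × ℂ := fun x => (tl d β' q')^[M] (Φ x) with hΨ
  set R : ℤ := (d : ℤ) ^ b2 * l1 with hR
  set c' : ℂ := (d : ℂ) ^ M * c with hc'
  have hΨm : MapsTo Ψ HC HC := fun x hx => (tl_iter_mem D.hd β' q' M).2 (D.mΦ hx)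
  have hΨ1 : ∀ ζ : ℂ, 0 < ζ.re → ∀ w, (Ψ (ζ, w)).1 = R * ζ + c' := by
    intro ζ hζ w
    simp only [hΨ]
    rw [iter_fst d β' D.hq', D.fst_indep hζ, hA ζ hζ, hR, hc', hM]
    push_cast
    rw [hl1, pow_add]; ring
  have hRr : (R : ℂ) = (d : ℂ) ^ M * r := by
    rw [hR, hM]; push_cast; rw [hl1, pow_add]; ring
  have hR0 : R ≠ 0 := by
    intro h
    rw [h] at hRr
    have : (d : ℂ) ^ M * r ≠ 0 := mul_ne_zero (pow_ne_zero _ hd0) hr
    exact this (by rw [← hRr]; simp)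
  have hRpos : 0 < R := by
    by_contra hneg
    have hR1 : R ≤ -1 := by omega
    set x : ℝ := |c'.re| + 1 with hx
    have hx0 : 0 < x := by positivity
    have h1 : ((x : ℂ), (0 : ℂ)) ∈ HC := by
      show 0 < (x : ℂ).re
      simpa using hx0
    have h2 : 0 < (Ψ ((x : ℂ), (0 : ℂ))).1.re := hΨm h1
    rw [hΨ1 (x : ℂ) (by simpa using hx0)] at h2
    have h3 : ((R : ℂ) * (x : ℂ) + c').re = R * x + c'.re := by
      rw [Complex.add_re, ← Complex.ofReal_intCast, Complex.re_ofReal_mul, Complex.ofReal_re]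
    rw [h3] at h2
    have h4 : (R : ℝ) ≤ -1 := by exact_mod_cast hR1
    have h5 : c'.re ≤ |c'.re| := le_abs_self _
    nlinarith
  obtain ⟨n, hn⟩ : ∃ n : ℕ, R = n := ⟨R.toNat, (Int.toNat_of_nonneg hRpos.le).symm⟩
  obtain ⟨Q, hQd, hQ⟩ := exists_Q d β' D.hq' M
  set b : ℂ := β' ^ M * b0 with hb
  set H : ℂ → ℂ := fun ζ => (Ψ (ζ, 0)).2 with hH
  have hΨ2 : ∀ ζ : ℂ, 0 < ζ.re → ∀ w, (Ψ (ζ, w)).2 = b * w + H ζ := by
    intro ζ hζ w
    simp only [hH, hΨ, hQ]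
    rw [hB ζ hζ w, D.fst_indep hζ w, hb]
    ring
  -- equivariance of the normalised map
  have g1 : ∀ x ∈ HC, tr R (Ψ x) = Ψ (tr 1 x) := by
    intro x hx
    apply tl_iter_injective D.hd D.hβ' q' a1
    rw [tl_iter_tr]
    have h3 := congrArg ((tl d β' q')^[M]) (ht1 x hx)
    rw [tl_iter_tr, iter_comm d β' q' M a1, iter_comm d β' q' M a1] at h3
    have e : (d : ℤ) ^ a1 * R = (d : ℤ) ^ M * l1 := by rw [hR, hM, pow_add]; ring
    rw [e]
    exact h3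
  have g2 : ∀ x ∈ HC, tr ((d : ℤ) ^ a1 * l2) (tl d β' q' (Ψ x)) = Ψ (tl d β q x) := by
    intro x hx
    apply tl_iter_injective D.hd D.hβ' q' b2
    rw [tl_iter_tr]
    have h3 := congrArg ((tl d β' q')^[M]) (ht2 x hx)
    rw [tl_iter_tr, iter_comm d β' q' M (b2 + 1), iter_comm d β' q' M b2] at h3
    have e : (d : ℤ) ^ b2 * ((d : ℤ) ^ a1 * l2) = (d : ℤ) ^ M * l2 := by rw [hM, pow_add]; ring
    rw [e, ← Function.iterate_succ_apply]
    exact h3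
  -- the key identity
  have key : ∀ ζ : ℂ, 0 < ζ.re → ∀ w, β' * (b * w + H ζ) + q' (Complex.exp (R * ζ + c')) =
      b * (β * w + q (Complex.exp ζ)) + H (d * ζ) := by
    intro ζ hζ w
    have h2 := congrArg Prod.snd (g2 (ζ, w) hζ)
    have h3 : 0 < ((d : ℂ) * ζ).re := hmap (show ((ζ, 0) : ℂ × ℂ) ∈ HC from hζ)
    have h4 : (Ψ (tl d β q (ζ, w))).2 = b * (β * w + q (Complex.exp ζ)) + H (d * ζ) := by
      show (Ψ ((d : ℂ) * ζ, β * w + q (Complex.exp ζ))).2 = _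
      rw [hΨ2 _ h3]
    rw [h4] at h2
    have h5 : (tr ((d : ℤ) ^ a1 * l2) (tl d β' q' (Ψ (ζ, w)))).2 =
        β' * (Ψ (ζ, w)).2 + q' (Complex.exp (Ψ (ζ, w)).1) := rfl
    rw [h5, hΨ2 ζ hζ, hΨ1 ζ hζ] at h2
    exact h2
  have hbne : b ≠ 0 := mul_ne_zero (pow_ne_zero _ D.hβ') hb0
  have hββ : β = β' := by
    have k0 := key 1 (by simp) 0
    have k1 := key 1 (by simp) 1
    have : b * (β' - β) = 0 := by linear_combination k1 - k0
    rcases mul_eq_zero.1 this with h | h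
    · exact absurd h hbne
    · exact (sub_eq_zero.1 h).symm
  -- descent
  have hHc : ContinuousOn H {ζ : ℂ | 0 < ζ.re} := by
    have h1 : ContinuousOn (fun ζ : ℂ => Ψ (ζ, 0)) {ζ : ℂ | 0 < ζ.re} := by
      have h2 : ContinuousOn (fun ζ : ℂ => Φ (ζ, 0)) {ζ : ℂ | 0 < ζ.re} :=
        D.hΦ.continuousOn.comp (f := fun ζ : ℂ => ((ζ, 0) : ℂ × ℂ))
          (by fun_prop) (fun z hz => hz)
      exact ((tl_continuous d β' D.hq').iterate M).comp_continuousOn h2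
    exact continuous_snd.comp_continuousOn h1
  have hHp : ∀ ζ : ℂ, 0 < ζ.re → H (ζ + 2 * Real.pi * Complex.I) = H ζ := by
    intro ζ hζ
    have h2 := congrArg Prod.snd (g1 (ζ, 0) hζ)
    have h3 : tr 1 ((ζ, 0) : ℂ × ℂ) = (ζ + 2 * Real.pi * Complex.I, 0) := by simp [tr]
    rw [h3] at h2
    exact h2.symm
  obtain ⟨d1, d2⟩ := descend H hHc hHp
  refine ⟨hββ, b, Complex.exp c', n, fun z => H (Complex.log z), hbne, ?_, ?_, d2, ?_⟩
  · rw [hn] at hRpos; exact_mod_cast hRpos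
  · rw [← Complex.exp_nat_mul, Complex.exp_eq_one_iff]
    refine ⟨-((d : ℤ) ^ a1 * l2), ?_⟩
    have hcast : ((d - 1 : ℕ) : ℂ) = (d : ℂ) - 1 := by
      have := D.hd
      rw [Nat.cast_sub (by omega)]; simp
    rw [hcast, hc', hM]
    push_cast
    rw [pow_add]
    linear_combination ((d : ℂ) ^ a1) * hl2
  · intro z hz
    have hz0 : z ≠ 0 := by
      intro h; rw [h, norm_zero] at hz; linarith
    have hl : 0 < (Complex.log z).re := by
      rw [Complex.log_re]; exact Real.log_pos hz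
    have k := key (Complex.log z) hl 0
    rw [Complex.exp_log hz0] at k
    have hl' : 0 < ((d : ℂ) * Complex.log z).re :=
      hmap (show ((Complex.log z, 0) : ℂ × ℂ) ∈ HC from hl)
    have e1 : z ^ d = Complex.exp (d * Complex.log z) := by
      rw [Complex.exp_nat_mul, Complex.exp_log hz0]
    have e2 : Complex.exp (R * Complex.log z + c') = Complex.exp c' * z ^ n := by
      rw [Complex.exp_add, hn]
      push_cast
      rw [Complex.exp_nat_mul, Complex.exp_log hz0, mul_comm]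
    have e3 : H (Complex.log (z ^ d)) = H (d * Complex.log z) := by
      rw [e1, d1 _ hl']
    simp only []
    rw [e3, hββ]
    rw [e2] at k
    linear_combination -k

end

/-- Rigidity of the models. -/
theorem rigid {d d' : ℕ} (hd : 2 ≤ d) (hd' : 2 ≤ d') {β β' : ℂ} (hβ : β ≠ 0) (hβ' : β' ≠ 0)
    {q q' : ℂ → ℂ} (hq : Differentiable ℂ q) (hq' : Differentiable ℂ q')
    (Φ Θ : ℂ × ℂ → ℂ × ℂ) (hΦ : DifferentiableOn ℂ Φ HC) (hΘ : DifferentiableOn ℂ Θ HC)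
    (mΦ : MapsTo Φ HC HC) (mΘ : MapsTo Θ HC HC) (h1 : ∀ x ∈ HC, Θ (Φ x) = x)
    (h2 : ∀ x ∈ HC, Φ (Θ x) = x)
    (hR : ∀ x ∈ HC, ∀ y ∈ HC, MRel d β q x y ↔ MRel d' β' q' (Φ x) (Φ y))
    (hl : ∀ x ∈ HC, ∃ V ∈ 𝓝 x, ∀ y ∈ V ∩ HC, ∀ z ∈ V ∩ HC, MRel d β q y z → y = z)
    (hl' : ∀ x ∈ HC, ∃ V ∈ 𝓝 x, ∀ y ∈ V ∩ HC, ∀ z ∈ V ∩ HC, MRel d' β' q' y z → y = z) :
    d = d' ∧ β = β' ∧ ∃ (b α : ℂ) (r : ℕ) (h : ℂ → ℂ), b ≠ 0 ∧ 0 < r ∧ α ^ (d - 1) = 1 ∧
      ContinuousOn h {z | 1 < ‖z‖} ∧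
      ∀ z, 1 < ‖z‖ → b * q z + h (z ^ d) = β * h z + q' (α * z ^ r) := by
  have D : Dat d d' β β' q q' Φ Θ :=
    ⟨hd, hd', hβ, hβ', hq, hq', hΦ, hΘ, mΦ, mΘ, h1, h2, hR, hl, hl'⟩
  have hdd : d = d' := le_antisymm D.symm.deg_le D.deg_le
  subst hdd
  exact ⟨rfl, D.final⟩

end Pool.Agent.H907.Henon.Rig
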