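import Pool.Agent.H907.Henon.Fin1
import Pool.Agent.H907.Henon.Glob4
import Pool.Agent.H907.Henon.Est
import Pool.Agent.H907.Henon.QPoly
import Pool.Agent.H907.Henon.Rigid
import Pool.Agent.H907.Henon.Lift
import Pool.Agent.H907.Henon.Comb

/-!
The main argument: a biholomorphism of the orbit surfaces forces the factors to be similar.
-/

open Filter Topology Set Metric Polynomial

namespace Pool.Agent.H907.Henon

/-- monic and centered -/
def Nrm (h : Fac) : Prop := h.P.Monic ∧ h.P.coeff (h.P.natDegree - 1) = 0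

/-- the property of the polynomial `Q` attached to `P` -/
def QProp (P Q : ℂ[X]) : Prop :=
  Q.natDegree = P.natDegree + 1 ∧ Q.Monic ∧ Q.coeff P.natDegree = 0 ∧ Q.coeff 0 = 0 ∧
      ∃ K : ℝ, ∀ z : ℂ, 1 ≤ ‖z‖ →
        ‖P.eval (Q.eval z / z ^ P.natDegree) - z ^ P.natDegree‖ ≤ K / ‖z‖

/-- the data attached to a normalized factor -/
noncomputable def datOf (h : Fac) : Dat :=
  ⟨h.P.natDegree - 2, h.a, h.P, Classical.epsilon (QProp h.P)⟩

theorem datOf_spec {h : Fac} (hn : Nrm h) : QProp h.P (datOf h).Q := by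
  obtain ⟨Q, hQ⟩ := exists_Q h.P h.P.natDegree h.hP rfl hn.1 hn.2
  exact Classical.epsilon_spec (p := QProp h.P) ⟨Q, hQ⟩

theorem datOf_m (h : Fac) : (datOf h).m + 2 = h.P.natDegree := by
  have := h.hP
  show h.P.natDegree - 2 + 2 = h.P.natDegree
  omega

theorem datOf_d (h : Fac) : (datOf h).d = h.P.natDegree := datOf_m h

theorem datOf_alg {h : Fac} (hn : Nrm h) : (datOf h).Alg := by
  obtain ⟨h1, h2, h3, h4, -⟩ := datOf_spec hn
  have hm := datOf_m h
  refine ⟨h.ha, ?_, h2, ?_, h4⟩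
  · rw [h1]; omega
  · rw [hm]; exact h3

theorem datOf_est {h : Fac} (hn : Nrm h) : ∃ C : ℝ, 1 ≤ C ∧ (datOf h).Est C := by
  obtain ⟨h1, h2, h3, h4, h5⟩ := datOf_spec hn
  have hm := datOf_m h
  refine exists_est (datOf h) h.ha hm.symm hn.1 ?_ ?_ h2 ?_ ?_
  · have : (datOf h).m + 1 = h.P.natDegree - 1 := by omega
    rw [this]; exact hn.2
  · rw [h1]; omega
  · rw [hm]; exact h3
  · rw [hm]; exact h5

theorem exists_common_est {S : ℕ → Fac} {k : ℕ} (hk : 0 < k) (hS : ∀ j, S (j + k) = S j)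
    (hn : ∀ j, Nrm (S j)) : ∃ C : ℝ, 1 ≤ C ∧ ∀ j, (datOf (S j)).Est C := by
  choose C hC1 hC using fun j => datOf_est (hn j)
  have hmod : ∀ j, S j = S (j % k) := by
    intro j
    conv_lhs => rw [← Nat.mod_add_div j k]
    generalize j / k = m
    induction m with
    | zero => simp
    | succ m ih => rw [Nat.mul_succ, ← Nat.add_assoc, hS, ih]
  refine ⟨∑ i ∈ Finset.range k, C i, ?_, fun j => ?_⟩
  · calc (1:ℝ) ≤ C 0 := hC1 0
      _ ≤ _ := Finset.single_le_sum (f := C) (fun i _ => by have := hC1 i; linarith)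
        (Finset.mem_range.2 hk)
  · rw [hmod j]
    refine (hC (j % k)).mono ?_
    exact Finset.single_le_sum (f := C) (fun i _ => by have := hC1 i; linarith)
      (Finset.mem_range.2 (Nat.mod_lt j hk))

theorem orb_datOf (S : ℕ → Fac) (k : ℕ) : orb (fun j => datOf (S j)) k = cmp S k := by
  induction k with
  | zero => rfl
  | succ k ih =>
    funext q
    rw [orb_succ', ih]
    rfl

theorem Dp_ge_two {S : ℕ → Dat} {k : ℕ} (hk : 0 < k) : 2 ≤ Dp S k := by
  calc 2 = 2 ^ 1 := by norm_num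
    _ ≤ 2 ^ k := Nat.pow_le_pow_right (by norm_num) hk
    _ ≤ _ := Dp_ge S k

/-- the relation of the polynomials `P` from the relation of the polynomials `Q` -/
theorem P_of_Q {F G : Fac} (hF : Nrm F) (hG : Nrm G) (hm : F.P.natDegree = G.P.natDegree)
    {u u' : ℂ} (hu : ‖u‖ = 1) (hu' : u' = u ^ G.P.natDegree)
    (hQ : ∀ t, 1 ≤ t → (datOf F).Q.coeff t * (u * u') = (datOf G).Q.coeff t * u ^ t) :
    C u' * F.P = G.P.comp (C u * X) := by
  obtain ⟨f1, f2, f3, f4, f5⟩ := datOf_spec hF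
  obtain ⟨g1, g2, g3, g4, K, hK⟩ := datOf_spec hG
  have hu0 : u ≠ 0 := by rintro rfl; simp at hu
  have hu'0 : u' ≠ 0 := by rw [hu']; exact pow_ne_zero _ hu0
  set d := G.P.natDegree with hd
  set P2 : ℂ[X] := C u'⁻¹ * G.P.comp (C u * X) with hP2
  set Q2 : ℂ[X] := C (u * u')⁻¹ * (datOf G).Q.comp (C u * X) with hQ2
  have hP2c : ∀ i, P2.coeff i = u'⁻¹ * (G.P.coeff i * u ^ i) := fun i => by
    rw [hP2, coeff_C_mul, comp_C_mul_X_coeff]
  have hQ2c : ∀ i, Q2.coeff i = (u * u')⁻¹ * ((datOf G).Q.coeff i * u ^ i) := fun i => by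
    rw [hQ2, coeff_C_mul, comp_C_mul_X_coeff]
  have hP2d : P2.natDegree ≤ d := by
    rw [natDegree_le_iff_coeff_eq_zero]
    intro i hi
    rw [hP2c, coeff_eq_zero_of_natDegree_lt hi]; simp
  have hP2l : P2.coeff d = 1 := by
    rw [hP2c, ← hu']
    have : G.P.coeff d = 1 := hG.1
    rw [this, one_mul, inv_mul_cancel₀ hu'0]
  have hP2deg : P2.natDegree = d := le_antisymm hP2d
    (le_natDegree_of_ne_zero (by rw [hP2l]; exact one_ne_zero))
  have hP2m : P2.Monic := by
    rw [Monic, leadingCoeff, hP2deg]; exact hP2l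
  have hQeq : (datOf F).Q = Q2 := by
    ext t
    rw [hQ2c]
    cases t with
    | zero => rw [f4, g4]; simp
    | succ t =>
      have := hQ (t + 1) (by omega)
      rw [← this]
      field_simp
  have key : F.P = P2 := by
    refine Q_inj F.P P2 (datOf F).Q Q2 d (by rw [hd]; exact G.hP) hm hP2deg hF.1 hP2m
      ⟨by rw [f1, hm], f2⟩ ?_ ?_ ?_ hQeq
    · rw [← hQeq]; exact ⟨by rw [f1, hm], f2⟩
    · rw [hm] at f5; exact f5
    · refine ⟨K, fun z hz => ?_⟩
      have hz0 : z ≠ 0 := norm_pos_iff.1 (by linarith)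
      have huz : 1 ≤ ‖u * z‖ := by rw [norm_mul, hu, one_mul]; exact hz
      have h1 := hK (u * z) huz
      have e1 : P2.eval (Q2.eval z / z ^ d) - z ^ d =
          u'⁻¹ * (G.P.eval ((datOf G).Q.eval (u * z) / (u * z) ^ d) - (u * z) ^ d) := by
        have e2 : Q2.eval z = (u * u')⁻¹ * (datOf G).Q.eval (u * z) := by
          simp [hQ2, eval_comp]
        have e3 : P2.eval (Q2.eval z / z ^ d) = u'⁻¹ * G.P.eval (u * (Q2.eval z / z ^ d)) := by
          simp [hP2, eval_comp]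
        rw [e3, e2]
        have e4 : u * ((u * u')⁻¹ * (datOf G).Q.eval (u * z) / z ^ d) =
            (datOf G).Q.eval (u * z) / (u * z) ^ d := by
          rw [mul_pow, ← hu']
          field_simp
        rw [e4, mul_pow, ← hu']
        field_simp
      rw [e1, norm_mul, norm_inv]
      have hu'n : ‖u'‖ = 1 := by rw [hu', norm_pow, hu, one_pow]
      rw [hu'n, inv_one, one_mul]
      rw [norm_mul, hu, one_mul] at h1
      exact h1
  rw [key, hP2, ← mul_assoc, ← C_mul, mul_inv_cancel₀ hu'0, C_1, one_mul]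

/-- Main step for normalized periodic sequences. -/
theorem main_normalized {S T : ℕ → Fac} {k l : ℕ} (hk : 0 < k) (hl : 0 < l)
    (hS : ∀ j, S (j + k) = S j) (hT : ∀ j, T (j + l) = T j) (nS : ∀ j, Nrm (S j))
    (nT : ∀ j, Nrm (T j)) (hB : Biholo (cmp S k) (cmp T l)) :
    k = l ∧ ∃ s : ℕ, Sim k T (fun j => S (j + s)) := by
  set D : ℕ → Dat := fun j => datOf (S j) with hD
  set E : ℕ → Dat := fun j => datOf (T j) with hE
  have hDper : ∀ j, D (j + k) = D j := fun j => by simp only [hD, hS]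
  have hEper : ∀ j, E (j + l) = E j := fun j => by simp only [hE, hT]
  obtain ⟨C, hC, hCD⟩ := exists_common_est hk hS nS
  obtain ⟨C', hC', hCE⟩ := exists_common_est hl hT nT
  obtain ⟨c, hc, Ψ, U⟩ := exists_unif' hC hCD hk hDper
  obtain ⟨c', hc', Ψ', U'⟩ := exists_unif' hC' hCE hl hEper
  rw [orb_datOf] at U U'
  have hAD : ∀ n, (D n).Alg := fun n => datOf_alg (nS n)
  have hAE : ∀ n, (E n).Alg := fun n => datOf_alg (nT n)
  have hβ : Bp D k ≠ 0 := Bp_ne hCD k
  have hβ' : Bp E l ≠ 0 := Bp_ne hCE l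
  obtain ⟨Φ, Θ, h1, h2, h3, h4, h5, h6, h7, h8, h9⟩ := exists_lift (Dp_ge_two hk) (Dp_ge_two hl)
    hβ hβ' (qp D c k).differentiable (qp E c' l).differentiable U U' hB
  obtain ⟨hdd, hbb, b, α, r, h, hb, hr, hα, hcont, hfe⟩ := Rig.rigid (Dp_ge_two hk) (Dp_ge_two hl)
    hβ hβ' (qp D c k).differentiable (qp E c' l).differentiable Φ Θ h1 h2 h3 h4 h5 h6 h7 h8 h9
  obtain ⟨hkl, s, hs⟩ := comb hk hl hDper hEper hc hc' hAD hAE hdd hbb hb hr hα hcont hfe
  refine ⟨hkl, s, ?_⟩
  subst hkl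
  -- the scaling
  set N := Dp E k with hN
  have hN2 : 2 ≤ N := Dp_ge_two hk
  have hα1 : α ^ N = α := by
    rw [hdd] at hα
    obtain ⟨M, hM⟩ := Nat.exists_eq_add_of_le (by omega : 1 ≤ N)
    rw [hM, Nat.add_sub_cancel_left] at hα
    rw [hM, pow_add, pow_one, hα, mul_one]
  have hαn : ‖α‖ = 1 := by
    have h10 : ‖α‖ ^ (N - 1) = 1 := by rw [← norm_pow, ← hdd, hα, norm_one]
    exact (pow_eq_one_iff_of_nonneg (norm_nonneg _) (by omega)).1 h10
  have hEadd : ∀ j, Dp E (j + k) = N * Dp E j := by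
    intro j
    rw [Dp_add hEper]
  have hper : ∀ j, α ^ Dp E (j + k) = α ^ Dp E j := by
    intro j
    rw [hEadd, pow_mul, hα1]
  obtain ⟨k', rfl⟩ := Nat.exists_eq_succ_of_ne_zero hk.ne'
  simp only [Nat.succ_eq_add_one] at *
  refine ⟨fun j => α ^ Dp E (j + k'), fun _ => 0, ?_, fun _ => rfl, ?_, ?_, ?_⟩
  · intro j
    show α ^ Dp E (j + (k' + 1) + k') = α ^ Dp E (j + k')
    rw [← hper (j + k')]
    congr 2
    ring
  · intro j
    refine pow_ne_zero _ ?_
    rintro rfl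
    simp at hαn
  · intro j
    obtain ⟨-, ha, -⟩ := hs (j + k')
    have e1 : D (j + k' + 1 + s) = D (j + s) := by
      rw [show j + k' + 1 + s = (j + s) + (k' + 1) by ring, hDper]
    have e2 : E (j + k' + 1) = E j := hEper j
    rw [e1, e2] at ha
    have e3 : (D (j + s)).a = (S (j + s)).a := rfl
    have e4 : (E j).a = (T j).a := rfl
    rw [e3, e4] at ha
    show (S (j + s)).a * α ^ Dp E (j + 2 + k') = (T j).a * α ^ Dp E (j + k')
    rw [← ha]
    congr 3
    ring
  · intro j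
    obtain ⟨hm, -, hQ⟩ := hs j
    have e1 : α ^ Dp E (j + 2 + k') = α ^ Dp E (j + 1) := by
      rw [← hper (j + 1)]; congr 2; ring
    have e2 : α ^ Dp E (j + 1 + k') = α ^ Dp E j := by
      rw [← hper j]; congr 2; ring
    show Polynomial.C (α ^ Dp E (j + 2 + k')) * (S (j + s)).P + Polynomial.C (0 + (T j).a * 0) =
      (T j).P.comp (Polynomial.C (α ^ Dp E (j + 1 + k')) * X + Polynomial.C 0)
    rw [e1, e2]
    simp only [mul_zero, add_zero, map_zero]
    have hdeg : (S (j + s)).P.natDegree = (T j).P.natDegree := by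
      have e5 := datOf_m (S (j + s))
      have e6 := datOf_m (T j)
      have e7 : (datOf (S (j + s))).m = (datOf (T j)).m := hm
      omega
    refine P_of_Q (nS _) (nT _) hdeg (by rw [norm_pow, hαn, one_pow]) ?_ ?_
    · rw [← pow_mul, Dp_succ']
      congr 2
      exact datOf_d (T j)
    · intro t ht
      have := hQ t ht
      rw [pow_add] at this
      rw [← pow_mul]
      exact this

end Pool.Agent.H907.Henon
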