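import Pool.Agent.H907.Henon.Fin2

/-!
Polynomial conjugacy, explicit description, and the implications between them.
-/

open Filter Topology Set Metric Polynomial
open scoped ContDiff

namespace Pool.Agent.H907.Henon

/-- the affine map `A_i(x, y) = (σ_i x + τ_i, σ_{i+1} y + τ_{i+1})` -/
def aff (σ t : ℕ → ℂ) (i : ℕ) (q : ℂ × ℂ) : ℂ × ℂ := (σ i * q.1 + t i, σ (i + 1) * q.2 + t (i + 1))

theorem IsPolyMap.contDiff {τ : ℂ × ℂ → ℂ × ℂ} (h : IsPolyMap τ) : ContDiff ℂ ω τ := by
  obtain ⟨p, q, hpq⟩ := h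
  have key : ∀ p : MvPolynomial (Fin 2) ℂ,
      ContDiff ℂ ω fun x : ℂ × ℂ => MvPolynomial.eval ![x.1, x.2] p := by
    intro p
    induction p using MvPolynomial.induction_on with
    | C a => simpa using contDiff_const
    | add p q hp hq => simpa using hp.add hq
    | mul_X p i hp =>
      simp only [map_mul, MvPolynomial.eval_X]
      refine hp.mul ?_
      fin_cases i
      · simpa using contDiff_fst
      · simpa using contDiff_snd
  have : τ = fun x => (MvPolynomial.eval ![x.1, x.2] p, MvPolynomial.eval ![x.1, x.2] q) :=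
    funext hpq
  rw [this]
  exact (key p).prodMk (key q)

theorem IsPolyMap.comp {τ σ : ℂ × ℂ → ℂ × ℂ} (h : IsPolyMap τ) (h' : IsPolyMap σ) :
    IsPolyMap (τ ∘ σ) := by
  obtain ⟨p, q, hpq⟩ := h
  obtain ⟨p', q', hpq'⟩ := h'
  refine ⟨MvPolynomial.bind₁ ![p', q'] p, MvPolynomial.bind₁ ![p', q'] q, fun x => ?_⟩
  have key : ∀ r : MvPolynomial (Fin 2) ℂ, MvPolynomial.eval ![x.1, x.2]
      (MvPolynomial.bind₁ ![p', q'] r) = MvPolynomial.eval
        ![MvPolynomial.eval ![x.1, x.2] p', MvPolynomial.eval ![x.1, x.2] q'] r := by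
    intro r
    induction r using MvPolynomial.induction_on with
    | C a => simp
    | add p q hp hq => simp [hp, hq]
    | mul_X p i hp =>
      simp only [map_mul, hp, MvPolynomial.bind₁_X_right, MvPolynomial.eval_X]
      congr 1
      fin_cases i <;> rfl
  rw [key, key, Function.comp, hpq', hpq]

theorem isPolyMap_of_aux (P : ℂ[X]) (i : Fin 2) (x : ℂ × ℂ) :
    MvPolynomial.eval ![x.1, x.2] (Polynomial.aeval (MvPolynomial.X i) P) =
      P.eval (![x.1, x.2] i) := by
  induction P using Polynomial.induction_on' with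
  | add p q hp hq => simp [hp, hq]
  | monomial n a => simp [Polynomial.aeval_monomial]

theorem Fac.map_isPoly (h : Fac) : IsPolyMap h.map := by
  refine ⟨Polynomial.aeval (MvPolynomial.X 0) h.P - MvPolynomial.C h.a * MvPolynomial.X 1,
    MvPolynomial.X 0, fun x => ?_⟩
  simp only [map_sub, map_mul, MvPolynomial.eval_X, MvPolynomial.eval_C, isPolyMap_of_aux]
  rfl

/-- the inverse of an elementary Hénon map -/
noncomputable def Fac.inv (h : Fac) (q : ℂ × ℂ) : ℂ × ℂ := (q.2, (h.P.eval q.2 - q.1) / h.a)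

theorem Fac.inv_map (h : Fac) (q : ℂ × ℂ) : h.inv (h.map q) = q := by
  have ha := h.ha
  unfold Fac.inv Fac.map
  ext
  · rfl
  · simp only
    field_simp
    ring

theorem Fac.map_inv (h : Fac) (q : ℂ × ℂ) : h.map (h.inv q) = q := by
  have ha := h.ha
  unfold Fac.inv Fac.map
  ext
  · simp only
    field_simp
    ring
  · rfl

theorem Fac.inv_isPoly (h : Fac) : IsPolyMap h.inv := by
  refine ⟨MvPolynomial.X 1, MvPolynomial.C h.a⁻¹ *
    (Polynomial.aeval (MvPolynomial.X 1) h.P - MvPolynomial.X 0), fun x => ?_⟩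
  simp only [map_sub, map_mul, MvPolynomial.eval_X, MvPolynomial.eval_C, isPolyMap_of_aux]
  unfold Fac.inv
  ext
  · rfl
  · simp [div_eq_inv_mul]

theorem PolyConj.refl (f : ℂ × ℂ → ℂ × ℂ) : PolyConj f f := by
  refine ⟨id, id, ?_, ?_, fun _ => rfl, fun _ => rfl, fun _ => rfl⟩ <;>
  exact ⟨MvPolynomial.X 0, MvPolynomial.X 1, fun x => by simp⟩

theorem PolyConj.trans {f g k : ℂ × ℂ → ℂ × ℂ} (h : PolyConj f g) (h' : PolyConj g k) :
    PolyConj f k := by
  obtain ⟨τ, τ', h1, h2, h3, h4, h5⟩ := h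
  obtain ⟨σ, σ', h1', h2', h3', h4', h5'⟩ := h'
  refine ⟨σ ∘ τ, τ' ∘ σ', h1'.comp h1, h2.comp h2', fun q => ?_, fun q => ?_, fun q => ?_⟩
  · simp only [Function.comp, h3', h3]
  · simp only [Function.comp, h4', h4]
  · simp only [Function.comp, h5', h5]

theorem PolyConj.symm {f g : ℂ × ℂ → ℂ × ℂ} (h : PolyConj f g) : PolyConj g f := by
  obtain ⟨τ, τ', h1, h2, h3, h4, h5⟩ := h
  refine ⟨τ', τ, h2, h1, h4, h3, fun q => ?_⟩
  have := h5 (τ' q)
  rw [h4] at this
  rw [this, h3]

theorem aff_isPoly (σ t : ℕ → ℂ) (i : ℕ) : IsPolyMap (aff σ t i) := by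
  refine ⟨MvPolynomial.C (σ i) * MvPolynomial.X 0 + MvPolynomial.C (t i),
    MvPolynomial.C (σ (i + 1)) * MvPolynomial.X 1 + MvPolynomial.C (t (i + 1)), fun x => ?_⟩
  simp [aff]

theorem aff_inv (σ t : ℕ → ℂ) (hσ : ∀ i, σ i ≠ 0) (i : ℕ) (q : ℂ × ℂ) :
    aff (fun j => (σ j)⁻¹) (fun j => -(t j / σ j)) i (aff σ t i q) = q := by
  have h1 := hσ i
  have h2 := hσ (i + 1)
  unfold aff
  ext
  · simp only
    field_simp
    ring
  · simp only
    field_simp
    ring

theorem aff_inv' (σ t : ℕ → ℂ) (hσ : ∀ i, σ i ≠ 0) (i : ℕ) (q : ℂ × ℂ) :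
    aff σ t i (aff (fun j => (σ j)⁻¹) (fun j => -(t j / σ j)) i q) = q := by
  have h1 := hσ i
  have h2 := hσ (i + 1)
  unfold aff
  ext
  · simp only
    field_simp
    ring
  · simp only
    field_simp
    ring

theorem polyConj_rotate (l : List Fac) (r : ℕ) : PolyConj (Henon.comp (l.rotate r)) (Henon.comp l) := by
  induction r with
  | zero => simpa using PolyConj.refl _
  | succ r ih =>
    refine PolyConj.trans ?_ ih
    rw [← List.rotate_rotate l r 1]
    generalize l.rotate r = L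
    cases L with
    | nil => exact PolyConj.refl _
    | cons h t =>
      have e : (h :: t).rotate 1 = t ++ [h] := by simp
      rw [e]
      refine ⟨h.map, h.inv, h.map_isPoly, h.inv_isPoly, h.inv_map, h.map_inv, fun q => ?_⟩
      rw [comp_append]
      rfl

theorem comp_aff (σ t : ℕ → ℂ) (n : ℕ) (L m : List Fac) (hlen : m.length = L.length)
    (h : ∀ (i : ℕ) (h : i < m.length) (h' : i < L.length) (q : ℂ × ℂ),
      aff σ t (n + i) (m[i].map q) = L[i].map (aff σ t (n + i + 1) q)) (q : ℂ × ℂ) :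
    aff σ t n (Henon.comp m q) = Henon.comp L (aff σ t (n + m.length) q) := by
  induction m generalizing L n with
  | nil =>
    have : L = [] := List.length_eq_zero_iff.1 hlen.symm
    subst this
    rfl
  | cons a m ih =>
    cases L with
    | nil => simp at hlen
    | cons b L =>
      have h0 := h 0 (by simp) (by simp) (Henon.comp m q)
      simp only [Nat.add_zero, List.getElem_cons_zero] at h0
      have h1 := ih (n + 1) L (by simpa using hlen) (fun i hi hi' q' => by
        have := h (i + 1) (by simpa using hi) (by simpa using hi') q'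
        simp only [List.getElem_cons_succ] at this
        rw [show n + 1 + i = n + (i + 1) by ring]
        exact this)
      show aff σ t n (a.map (Henon.comp m q)) = b.map (Henon.comp L (aff σ t (n + (m.length + 1)) q))
      rw [h0, h1]
      congr 3
      ring

theorem aff_map {F G : Fac} {σ t : ℕ → ℂ} {i : ℕ} (h1 : σ i * G.a = F.a * σ (i + 2))
    (h2 : C (σ i) * G.P + C (t i + F.a * t (i + 2)) = F.P.comp (C (σ (i + 1)) * X + C (t (i + 1))))
    (q : ℂ × ℂ) : aff σ t i (G.map q) = F.map (aff σ t (i + 1) q) := by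
  have h3 := congrArg (Polynomial.eval q.1) h2
  simp only [eval_add, eval_mul, eval_C, eval_comp, eval_X] at h3
  unfold aff Fac.map
  ext
  · simp only
    rw [← h3]
    linear_combination (-q.2) * h1
  · rfl

theorem Explicit.polyConj {l m : List Fac} (h : Explicit l m) :
    PolyConj (Henon.comp l) (Henon.comp m) := by
  obtain ⟨hlen, r, σ, t, hσ, c1, c2, c3, c4, hrel⟩ := h
  have h1 : ∀ q, aff σ t 0 (Henon.comp m q) = Henon.comp (l.rotate r) (aff σ t 0 q) := by
    intro q
    have := comp_aff σ t 0 (l.rotate r) m (by simpa using hlen)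
      (fun i hi hi' q' => by
        obtain ⟨r1, r2⟩ := hrel i hi hi'
        rw [Nat.zero_add]
        exact aff_map r1 r2 q') q
    rw [this, Nat.zero_add, hlen]
    congr 1
    unfold aff
    rw [c1, c2, c3, c4]
  refine (polyConj_rotate l r).symm.trans ?_
  refine PolyConj.symm ⟨aff σ t 0, aff (fun j => (σ j)⁻¹) (fun j => -(t j / σ j)) 0,
    aff_isPoly _ _ _, aff_isPoly _ _ _, aff_inv σ t hσ 0, aff_inv' σ t hσ 0, fun q => (h1 q).symm⟩

theorem PolyConj.holConj {f g : ℂ × ℂ → ℂ × ℂ} (h : PolyConj f g) : HolConj f g := by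
  obtain ⟨τ, τ', h1, h2, h3, h4, h5⟩ := h
  exact ⟨τ, τ', h1.contDiff.differentiable (by simp), h2.contDiff.differentiable (by simp),
    h3, h4, h5⟩

theorem HolConj.biholo {f g : ℂ × ℂ → ℂ × ℂ} (hf : IsGenHenon f) (hg : IsGenHenon g)
    (h : HolConj f g) : Biholo f g := by
  obtain ⟨τ, τ', h1, h2, h3, h4, h5⟩ := h
  exact Easy.biholo_of_conj hf hg τ τ' h1 h2 h3 h4 h5

end Pool.Agent.H907.Henon
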