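import Pool.Agent.H907.Henon.Fin3

/-!
The classification theorem for the orbit surfaces.
-/

open Filter Topology Set Metric Polynomial
open scoped ContDiff

namespace Pool.Agent.H907.Henon

theorem biholo_normalize {k : ℕ} {S S' : ℕ → Fac} (h : Sim k S S') :
    HolConj (cmp S' k) (cmp S k) := by
  obtain ⟨s₀, t₀, s₁, t₁, h0, h1, hc⟩ := h.conj
  refine ⟨fun q => (s₁ * q.1 + t₁, s₀ * q.2 + t₀), fun q => ((q.1 - t₁) / s₁, (q.2 - t₀) / s₀),
    ?_, ?_, fun q => ?_, fun q => ?_, fun q => ?_⟩
  · exact ((differentiable_fst.const_mul s₁).add_const t₁).prodMk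
      ((differentiable_snd.const_mul s₀).add_const t₀)
  · simp only [div_eq_mul_inv]
    exact ((differentiable_fst.sub_const t₁).mul_const _).prodMk
      ((differentiable_snd.sub_const t₀).mul_const _)
  · ext
    · simp only; field_simp; ring
    · simp only; field_simp; ring
  · ext
    · simp only; field_simp; ring
    · simp only; field_simp; ring
  · exact hc q.1 q.2

/-- Main theorem for periodic sequences of factors. -/
theorem main_seq {S T : ℕ → Fac} {k l : ℕ} (hk : 0 < k) (hl : 0 < l)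
    (hS : ∀ j, S (j + k) = S j) (hT : ∀ j, T (j + l) = T j)
    (hB : Biholo (cmp S k) (cmp T l)) :
    k = l ∧ ∃ s : ℕ, Sim k (fun j => S (j + s)) T := by
  obtain ⟨S', hS'p, hSS', hS'n⟩ := exists_normal hk S hS
  obtain ⟨T', hT'p, hTT', hT'n⟩ := exists_normal hl T hT
  have b1 : Biholo (cmp S' k) (cmp S k) :=
    (biholo_normalize hSS').biholo (cmp_isGenHenon hk) (cmp_isGenHenon hk)
  have b2 : Biholo (cmp T' l) (cmp T l) :=
    (biholo_normalize hTT').biholo (cmp_isGenHenon hl) (cmp_isGenHenon hl)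
  have b3 : Biholo (cmp S' k) (cmp T' l) := (b1.trans hB).trans b2.symm
  obtain ⟨hkl, s, hs⟩ := main_normalized hk hl hS'p hT'p
    (fun j => ⟨(hS'n j).2.1, (hS'n j).2.2⟩) (fun j => ⟨(hT'n j).2.1, (hT'n j).2.2⟩) b3
  subst hkl
  exact ⟨rfl, s, ((hTT'.trans hs).trans (hSS'.shift s).symm).symm⟩

/-- reduction of the shift modulo the period -/
theorem shift_mod {α : Type*} {S : ℕ → α} {k : ℕ} (hS : ∀ j, S (j + k) = S j) (s j : ℕ) :
    S (j + s) = S (j + s % k) := by
  conv_lhs => rw [← Nat.mod_add_div s k]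
  generalize s / k = m
  induction m with
  | zero => simp
  | succ m ih => rw [Nat.mul_succ, ← Nat.add_assoc, ← Nat.add_assoc, hS]; rw [← ih, Nat.add_assoc]

theorem lst_shift {S : ℕ → Fac} {k : ℕ} (hk : 0 < k) (hS : ∀ j, S (j + k) = S j) (s : ℕ) :
    ∃ r, lst (fun j => S (j + s)) k = (lst S k).rotate r := by
  have h0 : (fun j => S (j + s)) = fun j => S (j + s % k) := funext fun j => shift_mod hS s j
  rw [h0]
  have hlt : s % k < k := Nat.mod_lt _ hk
  generalize s % k = s at hlt
  obtain ⟨n, rfl⟩ := Nat.exists_eq_add_of_le hlt.le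
  refine ⟨n, ?_⟩
  have e1 : lst S (s + n) = lst (fun j => S (j + s)) n ++ lst S s := lst_add S s n
  have e2 : lst (fun j => S (j + s)) (n + s) =
      lst (fun j => S (j + n + s)) s ++ lst (fun j => S (j + s)) n :=
    lst_add (fun j => S (j + s)) n s
  have e3 : (fun j => S (j + n + s)) = S := by
    funext j
    rw [show j + n + s = j + (s + n) by ring, hS]
  rw [e3] at e2
  rw [e1, Nat.add_comm s n, e2]
  have e4 := List.rotate_append_length_eq (lst (fun j => S (j + s)) n) (lst S s)
  rw [lst_length] at e4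
  exact e4.symm

theorem lst_getElem (S : ℕ → Fac) (k i : ℕ) (h : i < (lst S k).length) :
    (lst S k)[i] = S (k - 1 - i) := by
  induction k generalizing i with
  | zero => simp [lst] at h
  | succ k ih =>
    cases i with
    | zero => simp [lst]
    | succ i =>
      simp only [lst, List.getElem_cons_succ]
      rw [ih]
      congr 1
      omega

theorem explicit_of_sim {S T : ℕ → Fac} {k : ℕ} (hk : 0 < k) (hS : ∀ j, S (j + k) = S j) {s : ℕ}
    (h : Sim k (fun j => S (j + s)) T) : Explicit (lst S k) (lst T k) := by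
  obtain ⟨r, hr⟩ := lst_shift hk hS s
  refine ⟨by rw [lst_length, lst_length], r, ?_⟩
  obtain ⟨σ, t, h1, h2, h3, h4, h5⟩ := h
  have e1 : σ (k + 1) = σ 1 := by rw [Nat.add_comm, h1]
  have e2 : t (k + 1) = t 1 := by rw [Nat.add_comm, h2]
  have e3 : σ k = σ 0 := by have := h1 0; rwa [Nat.zero_add] at this
  have e4 : t k = t 0 := by have := h2 0; rwa [Nat.zero_add] at this
  have f1 : k + 1 - k = 1 := by omega
  have f2 : k + 1 - (k + 1) = 0 := by omega
  have f3 : k + 1 - 0 = k + 1 := by omega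
  have f4 : k + 1 - 1 = k := by omega
  refine ⟨fun i => σ (k + 1 - i), fun i => t (k + 1 - i), fun i => h3 _, ?_, ?_, ?_, ?_, ?_⟩
  · simp only [lst_length, f1, f3, e1]
  · simp only [lst_length, f2, f4, e3]
  · simp only [lst_length, f1, f3, e2]
  · simp only [lst_length, f2, f4, e4]
  · intro i hi hi'
    rw [lst_length] at hi
    have e1 : ((lst S k).rotate r)[i] = S (k - 1 - i + s) := by
      have : ((lst S k).rotate r)[i] = (lst (fun j => S (j + s)) k)[i]'(by
          rw [lst_length]; exact hi) := by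
        congr 1
        exact hr.symm
      rw [this, lst_getElem]
    rw [e1, lst_getElem]
    obtain ⟨j, hj⟩ : ∃ j, k = j + 1 + i := ⟨k - 1 - i, by omega⟩
    have g1 : k - 1 - i = j := by omega
    have g2 : k + 1 - i = j + 2 := by omega
    have g3 : k + 1 - (i + 1) = j + 1 := by omega
    have g4 : k + 1 - (i + 2) = j := by omega
    simp only [g1, g2, g3, g4]
    exact ⟨by rw [mul_comm]; exact h4 j, h5 j⟩

/-- The orbit surface determines the factors. -/
theorem explicit_of_biholo {l m : List Fac} (hl : l ≠ []) (hm : m ≠ [])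
    (h : Biholo (Henon.comp l) (Henon.comp m)) : Explicit l m := by
  obtain ⟨S, hS, hSl⟩ := exists_seq l hl
  obtain ⟨T, hT, hTm⟩ := exists_seq m hm
  have hlp : 0 < l.length := List.length_pos_iff.2 hl
  have hmp : 0 < m.length := List.length_pos_iff.2 hm
  have hB : Biholo (cmp S l.length) (cmp T m.length) := by
    rw [← comp_lst, ← comp_lst, hSl, hTm]; exact h
  obtain ⟨hk, s, hs⟩ := main_seq hlp hmp hS hT hB
  have := explicit_of_sim hlp hS hs
  rw [hSl, hk, hTm] at this
  exact this

theorem tfae_main {l m : List Fac} (hl : l ≠ []) (hm : m ≠ []) :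
    List.TFAE [Biholo (Henon.comp l) (Henon.comp m), Explicit l m,
      PolyConj (Henon.comp l) (Henon.comp m), HolConj (Henon.comp l) (Henon.comp m)] := by
  tfae_have 1 → 2 := explicit_of_biholo hl hm
  tfae_have 2 → 3 := fun h => h.polyConj
  tfae_have 3 → 4 := fun h => h.holConj
  tfae_have 4 → 1 := fun h => h.biholo ⟨l, hl, rfl⟩ ⟨m, hm, rfl⟩
  tfae_finish

/-- The basin is open. -/
theorem isOpen_Om {f : ℂ × ℂ → ℂ × ℂ} (hf : IsGenHenon f) : IsOpen (Om f) := by
  obtain ⟨l, hl, rfl⟩ := hf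
  obtain ⟨S, hS, hSl⟩ := exists_seq l hl
  have hk : 0 < l.length := List.length_pos_iff.2 hl
  set k := l.length with hkdef
  obtain ⟨S', hS'p, hSS', hS'n⟩ := exists_normal hk S hS
  obtain ⟨τ, τ', h1, h2, h3, h4, h5⟩ := biholo_normalize hSS'
  have hn : ∀ j, Nrm (S' j) := fun j => ⟨(hS'n j).2.1, (hS'n j).2.2⟩
  obtain ⟨C, hC, hCD⟩ := exists_common_est hk hS'p hn
  obtain ⟨c, hc, Ψ, U⟩ := exists_unif' hC hCD hk (fun j => by rw [hS'p])
  rw [orb_datOf] at U
  have hopen : IsOpen (Om (cmp S' k)) := by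
    rw [isOpen_iff_mem_nhds]
    intro q hq
    rw [← U.image] at hq
    obtain ⟨x, hx, rfl⟩ := hq
    obtain ⟨W, hW, hxW, lam, -, -, hlam, -⟩ := U.loc x hx
    refine mem_of_superset (hW.mem_nhds hxW) fun u hu => ?_
    rw [← U.image]
    exact ⟨lam u, (hlam u hu).1, (hlam u hu).2⟩
  have hcomp : Henon.comp l = cmp S k := by rw [← comp_lst, hSl]
  rw [hcomp]
  have h5' : ∀ q, cmp S' k (τ' q) = τ' (cmp S k q) := by
    intro q
    rw [← h3 (cmp S' k (τ' q)), ← h5, h4]
  have : Om (cmp S k) = τ' ⁻¹' Om (cmp S' k) := by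
    ext q
    constructor
    · intro hq
      exact Easy.mem_Om_conj (cmp_isGenHenon hk) (cmp_isGenHenon hk) τ' τ h1.continuous h4 h3 h5' hq
    · intro hq
      have := Easy.mem_Om_conj (cmp_isGenHenon hk) (cmp_isGenHenon hk) τ τ' h2.continuous h3 h4 h5
        (q := τ' q) hq
      rwa [h4] at this
  rw [this]
  exact hopen.preimage h2.continuous

end Pool.Agent.H907.Henon
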