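import Pool.Agent.H907.Henon.Defs

/-!
The model maps on the product of the right half plane and the complex line, and the notion of a
uniformization of the basin of a generalized Hénon map.
-/

open Filter Topology Set

namespace Pool.Agent.H907.Henon

/-- The product of the right half plane and `ℂ`. -/
def HC : Set (ℂ × ℂ) := {x | 0 < x.1.re}

/-- The model map `(ζ, w) ↦ (d ζ, β w + q(e^ζ))`. -/
noncomputable def tl (d : ℕ) (β : ℂ) (q : ℂ → ℂ) (x : ℂ × ℂ) : ℂ × ℂ :=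
  ((d : ℂ) * x.1, β * x.2 + q (Complex.exp x.1))

/-- The translation `(ζ, w) ↦ (ζ + 2 π i n, w)`. -/
noncomputable def tr (n : ℤ) (x : ℂ × ℂ) : ℂ × ℂ := (x.1 + n * (2 * Real.pi * Complex.I), x.2)

/-- Two points of `HC` lie in the same orbit of the group generated by the model map and the
translation. -/
def MRel (d : ℕ) (β : ℂ) (q : ℂ → ℂ) (x y : ℂ × ℂ) : Prop :=
  ∃ (m n : ℕ) (l : ℤ), tr l ((tl d β q)^[m] x) = (tl d β q)^[n] y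

/-- A uniformization of the basin `Ω(f)` by `HC`, conjugating `f` to the model map. -/
structure Unif (f : ℂ × ℂ → ℂ × ℂ) (d : ℕ) (β : ℂ) (q : ℂ → ℂ) (Ψ : ℂ × ℂ → ℂ × ℂ) : Prop where
  diff : DifferentiableOn ℂ Ψ HC
  image : Ψ '' HC = Om f
  conj : ∀ x ∈ HC, Ψ (tl d β q x) = f (Ψ x)
  ker : ∀ x ∈ HC, ∀ y ∈ HC, Ψ x = Ψ y ↔ ∃ (m : ℕ) (l : ℤ),
    tr l ((tl d β q)^[m] x) = (tl d β q)^[m] y
  loc : ∀ x ∈ HC, ∃ U : Set (ℂ × ℂ), IsOpen U ∧ Ψ x ∈ U ∧ ∃ lam : ℂ × ℂ → ℂ × ℂ,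
    DifferentiableOn ℂ lam U ∧ lam (Ψ x) = x ∧ (∀ u ∈ U, lam u ∈ HC ∧ Ψ (lam u) = u) ∧
    ∀ᶠ y in 𝓝 x, lam (Ψ y) = y

end Pool.Agent.H907.Henon
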