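import Pool.Agent.H907.Henon.Near5
import Pool.Agent.H907.Henon.Model

/-!
Globalization: the model dynamics on `HC` and the uniformizing map.
-/

open Filter Topology Set Metric Polynomial

set_option linter.unusedSectionVars false

namespace Pool.Agent.H907.Henon

/-- one step of the model -/
noncomputable def stp (h : Dat) (c : ℂ) (x : ℂ × ℂ) : ℂ × ℂ :=
  (((h.m + 2 : ℕ) : ℂ) * x.1, h.b * x.2 + h.Q.eval (Complex.exp x.1) + c)

/-- inverse of one step of the model -/
noncomputable def stpInv (h : Dat) (c : ℂ) (x : ℂ × ℂ) : ℂ × ℂ :=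
  (x.1 / ((h.m + 2 : ℕ) : ℂ), (x.2 - h.Q.eval (Complex.exp (x.1 / ((h.m + 2 : ℕ) : ℂ))) - c) / h.b)

theorem stpInv_stp {h : Dat} (hb : h.b ≠ 0) (c : ℂ) (x : ℂ × ℂ) : stpInv h c (stp h c x) = x := by
  have hd := h.d_ne
  unfold stpInv stp
  ext
  · simp only
    rw [mul_div_cancel_left₀ _ hd]
  · simp only
    rw [mul_div_cancel_left₀ _ hd]
    field_simp
    ring

theorem stp_stpInv {h : Dat} (hb : h.b ≠ 0) (c : ℂ) (x : ℂ × ℂ) : stp h c (stpInv h c x) = x := by
  have hd := h.d_ne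
  unfold stpInv stp
  ext
  · simp only
    rw [mul_div_cancel₀ _ hd]
  · simp only
    field_simp
    ring

theorem stp_differentiable (h : Dat) (c : ℂ) : Differentiable ℂ (stp h c) := by
  unfold stp
  refine (differentiable_fst.const_mul _).prodMk ?_
  exact ((differentiable_snd.const_mul _).add
    (h.Q.differentiable.comp (Complex.differentiable_exp.comp differentiable_fst))).add_const c

theorem stpInv_differentiable (h : Dat) (c : ℂ) : Differentiable ℂ (stpInv h c) := by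
  unfold stpInv
  simp only [div_eq_mul_inv]
  refine (differentiable_fst.mul_const _).prodMk ?_
  refine Differentiable.mul_const ?_ _
  refine (differentiable_snd.sub ?_).sub_const c
  exact h.Q.differentiable.comp (Complex.differentiable_exp.comp (differentiable_fst.mul_const _))

theorem stp_re (h : Dat) (c : ℂ) (x : ℂ × ℂ) :
    (stp h c x).1.re = ((h.m + 2 : ℕ) : ℝ) * x.1.re := by
  unfold stp
  simp only
  rw [← Complex.ofReal_natCast, Complex.re_ofReal_mul]

theorem stp_HC {h : Dat} {c : ℂ} {x : ℂ × ℂ} (hx : x ∈ HC) : stp h c x ∈ HC := by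
  have hx' : 0 < x.1.re := hx
  show 0 < (stp h c x).1.re
  rw [stp_re]
  positivity

theorem stpInv_HC {h : Dat} {c : ℂ} (hb : h.b ≠ 0) {x : ℂ × ℂ} (hx : x ∈ HC) :
    stpInv h c x ∈ HC := by
  have hx' : 0 < x.1.re := hx
  have h1 := stp_re h c (stpInv h c x)
  rw [stp_stpInv hb] at h1
  show 0 < (stpInv h c x).1.re
  by_contra hcon
  rw [h1] at hx'
  have : (0:ℝ) ≤ ((h.m + 2 : ℕ) : ℝ) := by positivity
  nlinarith

/-- `n` steps of the model -/
noncomputable def mo : (ℕ → Dat) → (ℕ → ℂ) → ℕ → ℂ × ℂ → ℂ × ℂ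
  | _, _, 0, x => x
  | S, c, n + 1, x => mo (sh S) (sh c) n (stp (S 0) (c 0) x)

/-- inverse of `n` steps of the model -/
noncomputable def moInv : (ℕ → Dat) → (ℕ → ℂ) → ℕ → ℂ × ℂ → ℂ × ℂ
  | _, _, 0, x => x
  | S, c, n + 1, x => stpInv (S 0) (c 0) (moInv (sh S) (sh c) n x)

@[simp] theorem mo_zero (S : ℕ → Dat) (c : ℕ → ℂ) (x : ℂ × ℂ) : mo S c 0 x = x := rfl

theorem mo_succ (S : ℕ → Dat) (c : ℕ → ℂ) (n : ℕ) (x : ℂ × ℂ) :
    mo S c (n + 1) x = mo (sh S) (sh c) n (stp (S 0) (c 0) x) := rfl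

theorem mo_succ' (S : ℕ → Dat) (c : ℕ → ℂ) (n : ℕ) (x : ℂ × ℂ) :
    mo S c (n + 1) x = stp (S n) (c n) (mo S c n x) := by
  induction n generalizing S c x with
  | zero => rfl
  | succ n ih => rw [mo_succ, ih (sh S) (sh c), mo_succ]; rfl

theorem moInv_mo {S : ℕ → Dat} (hb : ∀ n, (S n).b ≠ 0) (c : ℕ → ℂ) (n : ℕ) (x : ℂ × ℂ) :
    moInv S c n (mo S c n x) = x := by
  induction n generalizing S c x with
  | zero => rfl
  | succ n ih =>
    show stpInv (S 0) (c 0) (moInv (sh S) (sh c) n (mo (sh S) (sh c) n (stp (S 0) (c 0) x))) = x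
    rw [ih (S := sh S) (fun n => hb (n + 1)), stpInv_stp (hb 0)]

theorem mo_moInv {S : ℕ → Dat} (hb : ∀ n, (S n).b ≠ 0) (c : ℕ → ℂ) (n : ℕ) (x : ℂ × ℂ) :
    mo S c n (moInv S c n x) = x := by
  induction n generalizing S c x with
  | zero => rfl
  | succ n ih =>
    show mo (sh S) (sh c) n (stp (S 0) (c 0) (stpInv (S 0) (c 0) (moInv (sh S) (sh c) n x))) = x
    rw [stp_stpInv (hb 0), ih (S := sh S) (fun n => hb (n + 1))]

theorem mo_HC {S : ℕ → Dat} {c : ℕ → ℂ} {x : ℂ × ℂ} (hx : x ∈ HC) (n : ℕ) : mo S c n x ∈ HC := by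
  induction n generalizing S c x with
  | zero => exact hx
  | succ n ih => exact ih (stp_HC hx)

theorem moInv_HC {S : ℕ → Dat} (hb : ∀ n, (S n).b ≠ 0) {c : ℕ → ℂ} {x : ℂ × ℂ} (hx : x ∈ HC)
    (n : ℕ) : moInv S c n x ∈ HC := by
  induction n generalizing S c x with
  | zero => exact hx
  | succ n ih => exact stpInv_HC (hb 0) (ih (fun n => hb (n + 1)) hx)

theorem mo_differentiable (S : ℕ → Dat) (c : ℕ → ℂ) (n : ℕ) : Differentiable ℂ (mo S c n) := by
  induction n generalizing S c with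
  | zero => exact differentiable_id
  | succ n ih =>
    have : mo S c (n + 1) = (mo (sh S) (sh c) n) ∘ stp (S 0) (c 0) := rfl
    rw [this]
    exact (ih _ _).comp (stp_differentiable _ _)

theorem moInv_differentiable (S : ℕ → Dat) (c : ℕ → ℂ) (n : ℕ) :
    Differentiable ℂ (moInv S c n) := by
  induction n generalizing S c with
  | zero => exact differentiable_id
  | succ n ih =>
    have : moInv S c (n + 1) = stpInv (S 0) (c 0) ∘ (moInv (sh S) (sh c) n) := rfl
    rw [this]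
    exact (stpInv_differentiable _ _).comp (ih _ _)

theorem mo_re (S : ℕ → Dat) (c : ℕ → ℂ) (n : ℕ) (x : ℂ × ℂ) :
    (mo S c n x).1.re = (Dp S n : ℝ) * x.1.re := by
  induction n with
  | zero => simp [Dp]
  | succ n ih =>
    rw [mo_succ', stp_re, ih, Dp_succ']
    push_cast [Dat.d]
    ring

theorem exp_int_two_pi (l : ℤ) (ζ : ℂ) :
    Complex.exp (ζ + (l : ℂ) * (2 * Real.pi * Complex.I)) = Complex.exp ζ := by
  rw [Complex.exp_add, Complex.exp_int_mul_two_pi_mul_I, mul_one]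

theorem stp_tr (h : Dat) (c : ℂ) (l : ℤ) (x : ℂ × ℂ) :
    stp h c (tr l x) = tr (((h.m + 2 : ℕ) : ℤ) * l) (stp h c x) := by
  unfold stp tr
  ext
  · simp only
    push_cast
    ring
  · simp only
    rw [exp_int_two_pi]

theorem mo_tr (S : ℕ → Dat) (c : ℕ → ℂ) (n : ℕ) (l : ℤ) (x : ℂ × ℂ) :
    mo S c n (tr l x) = tr ((Dp S n : ℤ) * l) (mo S c n x) := by
  induction n with
  | zero => simp [Dp]
  | succ n ih =>
    rw [mo_succ', ih, stp_tr, mo_succ', Dp_succ']
    congr 1
    push_cast [Dat.d]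
    ring

/-- the coordinates `(z, w/z)` -/
noncomputable def ex (x : ℂ × ℂ) : ℂ × ℂ := (Complex.exp x.1, x.2 / Complex.exp x.1)

theorem ex_differentiable : Differentiable ℂ ex := by
  unfold ex
  simp only [div_eq_mul_inv]
  have h1 : Differentiable ℂ fun x : ℂ × ℂ => Complex.exp x.1 :=
    Complex.differentiable_exp.comp differentiable_fst
  exact h1.prodMk (differentiable_snd.mul (h1.fun_inv fun x => Complex.exp_ne_zero _))

theorem ex_tr (l : ℤ) (x : ℂ × ℂ) : ex (tr l x) = ex x := by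
  unfold ex tr
  simp only
  rw [exp_int_two_pi]

theorem ex_eq_iff {x y : ℂ × ℂ} : ex x = ex y ↔ ∃ l : ℤ, tr l x = y := by
  constructor
  · intro h
    have h1 : Complex.exp x.1 = Complex.exp y.1 := congrArg Prod.fst h
    have h2 : x.2 / Complex.exp x.1 = y.2 / Complex.exp y.1 := congrArg Prod.snd h
    obtain ⟨n, hn⟩ := Complex.exp_eq_exp_iff_exists_int.1 h1.symm
    refine ⟨n, ?_⟩
    unfold tr
    ext
    · simp only
      rw [hn]
    · simp only
      rw [h1, div_left_inj' (Complex.exp_ne_zero _)] at h2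
      exact h2
  · rintro ⟨l, rfl⟩
    exact (ex_tr l x).symm

/-- The inverse of an elementary Hénon map. -/
noncomputable def Dat.Hinv (h : Dat) (q : ℂ × ℂ) : ℂ × ℂ := (q.2, (h.P.eval q.2 - q.1) / h.a)

theorem Dat.Hinv_H {h : Dat} (ha : h.a ≠ 0) (q : ℂ × ℂ) : h.Hinv (h.H q) = q := by
  unfold Dat.Hinv Dat.H
  ext
  · rfl
  · simp only
    field_simp
    ring

theorem Dat.H_Hinv {h : Dat} (ha : h.a ≠ 0) (q : ℂ × ℂ) : h.H (h.Hinv q) = q := by
  unfold Dat.Hinv Dat.H
  ext
  · simp only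
    field_simp
    ring
  · rfl

theorem Dat.Hinv_differentiable (h : Dat) : Differentiable ℂ h.Hinv := by
  unfold Dat.Hinv
  simp only [div_eq_mul_inv]
  exact differentiable_snd.prodMk
    (((h.P.differentiable.comp differentiable_snd).sub differentiable_fst).mul_const _)

/-- inverse orbit -/
noncomputable def orbInv : (ℕ → Dat) → ℕ → ℂ × ℂ → ℂ × ℂ
  | _, 0, q => q
  | S, n + 1, q => (S 0).Hinv (orbInv (sh S) n q)

theorem orbInv_orb {S : ℕ → Dat} (ha : ∀ n, (S n).a ≠ 0) (n : ℕ) (q : ℂ × ℂ) :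
    orbInv S n (orb S n q) = q := by
  induction n generalizing S q with
  | zero => rfl
  | succ n ih =>
    show (S 0).Hinv (orbInv (sh S) n (orb (sh S) n ((S 0).H q))) = q
    rw [ih (S := sh S) (fun n => ha (n + 1)), Dat.Hinv_H (ha 0)]

theorem orb_orbInv {S : ℕ → Dat} (ha : ∀ n, (S n).a ≠ 0) (n : ℕ) (q : ℂ × ℂ) :
    orb S n (orbInv S n q) = q := by
  induction n generalizing S q with
  | zero => rfl
  | succ n ih =>
    show orb (sh S) n ((S 0).H ((S 0).Hinv (orbInv (sh S) n q))) = q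
    rw [Dat.H_Hinv (ha 0), ih (S := sh S) (fun n => ha (n + 1))]

theorem orbInv_differentiable (S : ℕ → Dat) (n : ℕ) : Differentiable ℂ (orbInv S n) := by
  induction n generalizing S with
  | zero => exact differentiable_id
  | succ n ih =>
    have : orbInv S (n + 1) = (S 0).Hinv ∘ (orbInv (sh S) n) := rfl
    rw [this]
    exact (Dat.Hinv_differentiable _).comp (ih _)

end Pool.Agent.H907.Henon
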