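import Pool.Agent.H907.Henon.Glob1

/-!
Globalization: the uniformizing map.
-/

open Filter Topology Set Metric Polynomial

set_option linter.unusedSectionVars false

namespace Pool.Agent.H907.Henon

theorem exp_norm (ζ : ℂ) : ‖Complex.exp ζ‖ = Real.exp ζ.re := Complex.norm_exp ζ

section
variable {C R : ℝ} (B : Big C R)
include B

theorem Dat.Est.b_le {h : Dat} (hE : h.Est C) : ‖h.b‖ ≤ C := by
  unfold Dat.b
  rw [norm_div, Complex.norm_natCast]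
  have h1 := hE.aC
  have h2 : (1:ℝ) ≤ ((h.m + 2 : ℕ) : ℝ) := by push_cast; linarith [Nat.cast_nonneg (α := ℝ) h.m]
  exact (div_le_self (norm_nonneg _) h2).trans h1

theorem Dat.Est.Q_le {h : Dat} (hE : h.Est C) {z : ℂ} (hz : 1 ≤ ‖z‖) :
    ‖h.Q.eval z‖ ≤ (1 + C) * ‖z‖ ^ (h.m + 3) := by
  have h1 := hE.Q1 z hz
  have hz0 : 0 < ‖z‖ := by linarith
  have hzn : z ≠ 0 := norm_pos_iff.1 hz0
  have hC := B.pos
  have e : h.Q.eval z = (h.Q.eval z / z ^ (h.m + 2) - z + z) * z ^ (h.m + 2) := by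
    field_simp
    ring
  rw [e, norm_mul, norm_pow]
  have h2 : ‖h.Q.eval z / z ^ (h.m + 2) - z + z‖ ≤ C / ‖z‖ + ‖z‖ :=
    (norm_add_le _ _).trans (add_le_add h1 le_rfl)
  have h3 : C / ‖z‖ + ‖z‖ ≤ (1 + C) * ‖z‖ := by
    have : C / ‖z‖ ≤ C * ‖z‖ := by
      rw [div_le_iff₀ hz0]
      have h4 : 1 ≤ ‖z‖ * ‖z‖ := by nlinarith
      have h5 := mul_le_mul_of_nonneg_left h4 hC.le
      linarith
    linarith
  calc _ ≤ ((1 + C) * ‖z‖) * ‖z‖ ^ (h.m + 2) := by gcongr; exact h2.trans h3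
    _ = _ := by ring

theorem Dat.Est.Q_le' {h : Dat} (hE : h.Est C) {z : ℂ} (hz : C ≤ ‖z‖) :
    ‖h.Q.eval z‖ ≤ 2 * ‖z‖ ^ (h.m + 3) := by
  have hC := B.pos
  have hz1 : 1 ≤ ‖z‖ := B.C1.trans hz
  have h1 := hE.Q1 z hz1
  have hz0 : 0 < ‖z‖ := by linarith
  have hzn : z ≠ 0 := norm_pos_iff.1 hz0
  have e : h.Q.eval z = (h.Q.eval z / z ^ (h.m + 2) - z + z) * z ^ (h.m + 2) := by
    field_simp
    ring
  rw [e, norm_mul, norm_pow]
  have h2 : ‖h.Q.eval z / z ^ (h.m + 2) - z + z‖ ≤ C / ‖z‖ + ‖z‖ :=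
    (norm_add_le _ _).trans (add_le_add h1 le_rfl)
  have h3 : C / ‖z‖ + ‖z‖ ≤ 2 * ‖z‖ := by
    have : C / ‖z‖ ≤ ‖z‖ := by
      rw [div_le_iff₀ hz0]
      nlinarith
    linarith
  calc _ ≤ (2 * ‖z‖) * ‖z‖ ^ (h.m + 2) := by gcongr; exact h2.trans h3
    _ = _ := by ring

theorem ex_stp_mem {h : Dat} (hE : h.Est C) {c : ℂ} (hc : ‖c‖ ≤ 600 * C ^ 3) {x : ℂ × ℂ}
    (hx : ex x ∈ PP R) : ex (stp h c x) ∈ PP R := by
  obtain ⟨h1, h2⟩ := hx
  set z := Complex.exp x.1 with hz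
  have hzn : z ≠ 0 := Complex.exp_ne_zero _
  have hz0 : 0 < ‖z‖ := norm_pos_iff.2 hzn
  have h1' : 4 * R < ‖z‖ := h1
  have h2' : ‖x.2‖ < ‖z‖ ^ 2 / 4 := by
    have : ‖x.2 / z‖ < ‖z‖ / 4 := h2
    rw [norm_div, div_lt_iff₀ hz0] at this
    calc _ < _ := this
      _ = _ := by ring
  have hC := B.pos
  have hR0 := B.R0
  have hR1 := B.R1
  have hz1 : 1 ≤ ‖z‖ := by linarith
  have e1 : (stp h c x).1 = ((h.m + 2 : ℕ) : ℂ) * x.1 := rfl
  have e2 : Complex.exp (stp h c x).1 = z ^ (h.m + 2) := by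
    rw [e1, Complex.exp_nat_mul]
  have e3 : (stp h c x).2 = h.b * x.2 + h.Q.eval z + c := rfl
  have hzp : ‖z‖ ≤ ‖z‖ ^ (h.m + 2) := le_self_pow₀ hz1 (by omega)
  refine ⟨?_, ?_⟩
  · show 4 * R < ‖Complex.exp (stp h c x).1‖
    rw [e2, norm_pow]
    linarith
  · show ‖(stp h c x).2 / Complex.exp (stp h c x).1‖ < ‖Complex.exp (stp h c x).1‖ / 4
    rw [e2, e3, norm_div, norm_pow, div_lt_iff₀ (by positivity)]
    have h3 : ‖h.b * x.2 + h.Q.eval z + c‖ ≤ C * (‖z‖ ^ 2 / 4) + 2 * ‖z‖ ^ (h.m + 3) +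
        600 * C ^ 3 := by
      refine (norm_add_le _ _).trans (add_le_add ((norm_add_le _ _).trans (add_le_add ?_ ?_)) hc)
      · rw [norm_mul]
        exact mul_le_mul (hE.b_le B) h2'.le (norm_nonneg _) hC.le
      · exact hE.Q_le' B (by linarith)
    refine lt_of_le_of_lt h3 ?_
    have hzm1 : ‖z‖ ^ 2 ≤ ‖z‖ ^ (h.m + 3) := pow_le_pow_right₀ hz1 (by omega)
    have hzm2 : ‖z‖ ≤ ‖z‖ ^ (h.m + 3) := le_self_pow₀ hz1 (by omega)
    have hX : 0 < ‖z‖ ^ (h.m + 3) := by positivity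
    have h4 : ‖z‖ ^ (h.m + 3) * (‖z‖ / 4) ≤ ‖z‖ ^ (h.m + 2) / 4 * ‖z‖ ^ (h.m + 2) := by
      have : ‖z‖ ^ (h.m + 4) ≤ ‖z‖ ^ (h.m + 2 + (h.m + 2)) := pow_le_pow_right₀ hz1 (by omega)
      calc ‖z‖ ^ (h.m + 3) * (‖z‖ / 4) = ‖z‖ ^ (h.m + 4) / 4 := by ring
        _ ≤ ‖z‖ ^ (h.m + 2 + (h.m + 2)) / 4 := by linarith
        _ = _ := by ring
    refine lt_of_lt_of_le ?_ h4
    have h5 : C * (‖z‖ ^ 2 / 4) ≤ ‖z‖ ^ (h.m + 3) * (C / 4) := by nlinarith
    have h6 : 600 * C ^ 3 ≤ ‖z‖ ^ (h.m + 3) := by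
      have := B.R7 3 (by norm_num)
      have : 0 < C ^ 3 := by positivity
      linarith
    have h7 : C / 4 + 2 + 1 < ‖z‖ / 4 := by linarith
    calc C * (‖z‖ ^ 2 / 4) + 2 * ‖z‖ ^ (h.m + 3) + 600 * C ^ 3
        ≤ ‖z‖ ^ (h.m + 3) * (C / 4) + 2 * ‖z‖ ^ (h.m + 3) + ‖z‖ ^ (h.m + 3) := by linarith
      _ = ‖z‖ ^ (h.m + 3) * (C / 4 + 2 + 1) := by ring
      _ < ‖z‖ ^ (h.m + 3) * (‖z‖ / 4) := by gcongr

theorem psi_step {S : ℕ → Dat} (hS : ∀ n, (S n).Est C) {c : ℕ → ℂ} (hc : Cst C R S c)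
    {x : ℂ × ℂ} (hx : ex x ∈ PP R) :
    psi C (sh S) (sh c) (ex (stp (S 0) (c 0) x)) = (S 0).H (psi C S c (ex x)) := by
  have hq := psi_mem B hS hc hx
  have hchi := (psi_spec B hS hc hx).2
  set q := psi C S c (ex x) with hqd
  have hq' := H_mem B (hS 0) hq
  have h1 : phi S q = Complex.exp x.1 := congrArg Prod.fst hchi
  have h2 : Wf S c q / phi S q = x.2 / Complex.exp x.1 := congrArg Prod.snd hchi
  have h3 : Wf S c q = x.2 := by
    rw [h1, div_left_inj' (Complex.exp_ne_zero _)] at h2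
    exact h2
  have h4 : chi (sh S) (sh c) ((S 0).H q) = ex (stp (S 0) (c 0) x) := by
    unfold chi ex
    rw [phi_funeq B hS hq, Wf_funeq B hS hc hq, h1, h3]
    unfold stp
    simp only
    rw [← Complex.exp_nat_mul]
  rw [← h4]
  refine psi_chi B (shift_est hS) hc.shift hq' ?_
  rw [h4]
  exact ex_stp_mem B (hS 0) (hc.bd 0) hx

end

/-- auxiliary growth statement -/
theorem exists_large (A K r M : ℝ) (hA : 1 ≤ A) (hK : 0 < K) (hr : 0 < r) :
    ∀ᶠ n : ℕ in atTop, M < Real.exp (2 ^ n * r) ∧ K * A ^ n * Real.exp (-(2 ^ n * r / 2)) < 1 / 4 := by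
  have h2 : Tendsto (fun n : ℕ => (2:ℝ) ^ n) atTop atTop := tendsto_pow_atTop_atTop_of_one_lt one_lt_two
  have h3 : Tendsto (fun n : ℕ => Real.exp (2 ^ n * r)) atTop atTop :=
    Real.tendsto_exp_atTop.comp (h2.atTop_mul_const hr)
  have h4 : Tendsto (fun n : ℕ => (n : ℝ) / 2 ^ n) atTop (𝓝 0) := by
    simpa using tendsto_pow_const_div_const_pow_of_one_lt 1 (one_lt_two (α := ℝ))
  have h5 : Tendsto (fun n : ℕ => (n : ℝ) / 2 ^ n * Real.log A) atTop (𝓝 (0 * Real.log A)) :=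
    h4.mul_const _
  rw [zero_mul] at h5
  have h6 : ∀ᶠ n : ℕ in atTop, (n : ℝ) / 2 ^ n * Real.log A < r / 4 :=
    h5.eventually_lt_const (by positivity)
  have h7 : Tendsto (fun n : ℕ => K * Real.exp (-(2 ^ n * (r / 4)))) atTop (𝓝 (K * 0)) := by
    refine Tendsto.const_mul _ ?_
    refine Real.tendsto_exp_atBot.comp ?_
    exact tendsto_neg_atTop_atBot.comp (h2.atTop_mul_const (by positivity))
  rw [mul_zero] at h7
  have h8 : ∀ᶠ n : ℕ in atTop, K * Real.exp (-(2 ^ n * (r / 4))) < 1 / 4 :=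
    h7.eventually_lt_const (by norm_num)
  filter_upwards [h3.eventually_gt_atTop M, h6, h8] with n a b c
  refine ⟨a, lt_of_le_of_lt ?_ c⟩
  have hA0 : 0 < A := by linarith
  have e1 : A ^ n = Real.exp (n * Real.log A) := by
    rw [Real.exp_nat_mul, Real.exp_log hA0]
  rw [e1, mul_assoc, ← Real.exp_add]
  refine mul_le_mul_of_nonneg_left (Real.exp_le_exp.2 ?_) hK.le
  have hp : (0:ℝ) < 2 ^ n := by positivity
  have e2 : (n : ℝ) * Real.log A = 2 ^ n * ((n : ℝ) / 2 ^ n * Real.log A) := by field_simp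
  rw [e2]
  have := mul_lt_mul_of_pos_left b hp
  nlinarith

section ev
variable {C R : ℝ} (B : Big C R) {S : ℕ → Dat} (hS : ∀ n, (S n).Est C) {c : ℕ → ℂ}
  (hc : Cst C R S c)
include B hS hc

theorem mo_snd_le {x : ℂ × ℂ} (hx : x ∈ HC) (n : ℕ) :
    ‖(mo S c n x).2‖ ≤ max 1 ‖x.2‖ * (1 + C + C + 600 * C ^ 3) ^ n *
      Real.exp (3 / 2 * (Dp S n * x.1.re)) := by
  have hC := B.pos
  have hx' : 0 < x.1.re := hx
  set A := 1 + C + C + 600 * C ^ 3 with hA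
  have hA1 : 1 ≤ A := by
    have : 0 < C ^ 3 := by positivity
    linarith
  set K := max 1 ‖x.2‖ with hK
  have hK1 : 1 ≤ K := le_max_left _ _
  induction n with
  | zero =>
    simp only [mo_zero, pow_zero, mul_one, Dp, Nat.cast_one, one_mul]
    have h1 : ‖x.2‖ ≤ K := le_max_right _ _
    have h2 : 1 ≤ Real.exp (3 / 2 * x.1.re) := Real.one_le_exp (by positivity)
    nlinarith
  | succ n ih =>
    rw [mo_succ']
    set u := mo S c n x with hu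
    have hre : u.1.re = (Dp S n : ℝ) * x.1.re := mo_re S c n x
    set ρ := (Dp S n : ℝ) * x.1.re with hρ
    have hρ0 : 0 ≤ ρ := by positivity
    have e3 : (stp (S n) (c n) u).2 = (S n).b * u.2 + (S n).Q.eval (Complex.exp u.1) + c n := rfl
    have hz1 : 1 ≤ ‖Complex.exp u.1‖ := by
      rw [exp_norm, hre]; exact Real.one_le_exp hρ0
    have hQ := (hS n).Q_le B hz1
    rw [exp_norm, hre, ← Real.exp_nat_mul] at hQ
    have hD : (Dp S (n + 1) : ℝ) * x.1.re = (((S n).m : ℝ) + 2) * ρ := by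
      rw [Dp_succ', hρ]
      push_cast [Dat.d]
      ring
    rw [e3, hD]
    have hm0 : (0:ℝ) ≤ (S n).m := Nat.cast_nonneg _
    set E := Real.exp (3 / 2 * ((((S n).m : ℝ) + 2) * ρ)) with hEdef
    have hE1 : 1 ≤ E := Real.one_le_exp (by positivity)
    have h1 : Real.exp (3 / 2 * ρ) ≤ E := Real.exp_le_exp.2 (by nlinarith [mul_nonneg hm0 hρ0])
    have h2 : Real.exp (((S n).m + 3 : ℕ) * ρ) ≤ E := by
      refine Real.exp_le_exp.2 ?_
      push_cast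
      nlinarith [mul_nonneg hm0 hρ0]
    have h3 : ‖(S n).b * u.2‖ ≤ C * (K * A ^ n * E) := by
      rw [norm_mul]
      refine mul_le_mul ((hS n).b_le B) (ih.trans ?_) (norm_nonneg _) hC.le
      gcongr
    have hKA : 1 ≤ K * A ^ n := by
      have : 1 ≤ A ^ n := one_le_pow₀ hA1
      nlinarith
    have h4 : ‖(S n).Q.eval (Complex.exp u.1)‖ ≤ (1 + C) * (K * A ^ n * E) := by
      refine hQ.trans ?_
      refine mul_le_mul_of_nonneg_left ?_ (by positivity)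
      refine h2.trans ?_
      nlinarith
    have h5 : ‖c n‖ ≤ 600 * C ^ 3 * (K * A ^ n * E) := by
      refine (hc.bd n).trans ?_
      have : 0 < 600 * C ^ 3 := by positivity
      have : 1 ≤ K * A ^ n * E := by nlinarith
      nlinarith
    calc ‖(S n).b * u.2 + (S n).Q.eval (Complex.exp u.1) + c n‖
        ≤ C * (K * A ^ n * E) + (1 + C) * (K * A ^ n * E) + 600 * C ^ 3 * (K * A ^ n * E) :=
          (norm_add_le _ _).trans (add_le_add ((norm_add_le _ _).trans (add_le_add h3 h4)) h5)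
      _ = K * A ^ (n + 1) * E := by rw [hA]; ring

theorem eventually_mem {x : ℂ × ℂ} (hx : x ∈ HC) : ∀ᶠ n in atTop, ex (mo S c n x) ∈ PP R := by
  have hC := B.pos
  have hx' : 0 < x.1.re := hx
  set A := 1 + C + C + 600 * C ^ 3 with hA
  have hA1 : 1 ≤ A := by
    have : 0 < C ^ 3 := by positivity
    linarith
  set K := max 1 ‖x.2‖ with hK
  have hK1 : 1 ≤ K := le_max_left _ _
  filter_upwards [exists_large A K x.1.re (4 * R) hA1 (by linarith) hx'] with n hn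
  obtain ⟨h1, h2⟩ := hn
  have hre : (mo S c n x).1.re = (Dp S n : ℝ) * x.1.re := mo_re S c n x
  have hsnd := mo_snd_le B hS hc hx n
  rw [← hA, ← hK] at hsnd
  set ρ := (Dp S n : ℝ) * x.1.re with hρ
  have hρ2 : 2 ^ n * x.1.re ≤ ρ := by
    have : ((2 ^ n : ℕ) : ℝ) ≤ (Dp S n : ℝ) := by exact_mod_cast Dp_ge S n
    push_cast at this
    exact mul_le_mul_of_nonneg_right this hx'.le
  refine ⟨?_, ?_⟩
  · show 4 * R < ‖Complex.exp (mo S c n x).1‖
    rw [exp_norm, hre]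
    exact lt_of_lt_of_le h1 (Real.exp_le_exp.2 hρ2)
  · show ‖(mo S c n x).2 / Complex.exp (mo S c n x).1‖ < ‖Complex.exp (mo S c n x).1‖ / 4
    rw [norm_div, exp_norm, hre, div_lt_iff₀ (Real.exp_pos _)]
    refine lt_of_le_of_lt hsnd ?_
    have e1 : Real.exp (3 / 2 * ρ) = Real.exp (-(ρ / 2)) * (Real.exp ρ * Real.exp ρ) := by
      rw [← Real.exp_add, ← Real.exp_add]; congr 1; ring
    have e2 : Real.exp (-(ρ / 2)) ≤ Real.exp (-(2 ^ n * x.1.re / 2)) :=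
      Real.exp_le_exp.2 (by linarith)
    have hEE : 0 < Real.exp ρ * Real.exp ρ := by positivity
    calc K * A ^ n * Real.exp (3 / 2 * ρ)
        = (K * A ^ n * Real.exp (-(ρ / 2))) * (Real.exp ρ * Real.exp ρ) := by rw [e1]; ring
      _ ≤ (K * A ^ n * Real.exp (-(2 ^ n * x.1.re / 2))) * (Real.exp ρ * Real.exp ρ) := by gcongr
      _ < 1 / 4 * (Real.exp ρ * Real.exp ρ) := by gcongr
      _ = Real.exp ρ / 4 * Real.exp ρ := by ring

end ev

end Pool.Agent.H907.Henon
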