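import Pool.Agent.H907.Henon.Glob2

/-!
Globalization: definition and properties of the uniformizing map.
-/

open Filter Topology Set Metric Polynomial

set_option linter.unusedSectionVars false

namespace Pool.Agent.H907.Henon

theorem sh_iter_succ {α : Type*} (S : ℕ → α) (n : ℕ) : sh^[n + 1] S = sh (sh^[n] S) :=
  Function.iterate_succ_apply' _ _ _

theorem iter_zero' {α : Type*} (S : ℕ → α) (n : ℕ) : sh^[n] S 0 = S n := by
  induction n generalizing S with
  | zero => rfl
  | succ n ih => exact ih (sh S)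

theorem Cst.iter {C R : ℝ} {S : ℕ → Dat} {c : ℕ → ℂ} (h : Cst C R S c) (n : ℕ) :
    Cst C R (sh^[n] S) (sh^[n] c) := by
  induction n generalizing S c with
  | zero => exact h
  | succ n ih => exact ih h.shift

/-- level `n` approximation of the uniformizing map -/
noncomputable def Gn (C : ℝ) (S : ℕ → Dat) (c : ℕ → ℂ) (n : ℕ) (x : ℂ × ℂ) : ℂ × ℂ :=
  orbInv S n (psi C (sh^[n] S) (sh^[n] c) (ex (mo S c n x)))

open Classical in
/-- the uniformizing map -/
noncomputable def Psi (C R : ℝ) (S : ℕ → Dat) (c : ℕ → ℂ) (x : ℂ × ℂ) : ℂ × ℂ :=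
  if h : ∃ n, ex (mo S c n x) ∈ PP R then Gn C S c (Nat.find h) x else 0

section
variable {C R : ℝ} (B : Big C R) {S : ℕ → Dat} (hS : ∀ n, (S n).Est C) {c : ℕ → ℂ}
  (hc : Cst C R S c)
include B hS hc

theorem valid_succ {n : ℕ} {x : ℂ × ℂ} (h : ex (mo S c n x) ∈ PP R) :
    ex (mo S c (n + 1) x) ∈ PP R := by
  rw [mo_succ']
  exact ex_stp_mem B (hS n) (hc.bd n) h

theorem valid_le {n n' : ℕ} (hn : n ≤ n') {x : ℂ × ℂ} (h : ex (mo S c n x) ∈ PP R) :
    ex (mo S c n' x) ∈ PP R := by
  induction n', hn using Nat.le_induction with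
  | base => exact h
  | succ n' _ ih => exact valid_succ B hS hc ih

theorem Gn_succ {n : ℕ} {x : ℂ × ℂ} (h : ex (mo S c n x) ∈ PP R) :
    Gn C S c (n + 1) x = Gn C S c n x := by
  have ha : ∀ n, (S n).a ≠ 0 := fun n => (hS n).a0
  have h0 : orb S (n + 1) (Gn C S c (n + 1) x) = orb S (n + 1) (Gn C S c n x) := by
    have e1 : orb S (n + 1) (Gn C S c (n + 1) x) =
        psi C (sh^[n + 1] S) (sh^[n + 1] c) (ex (mo S c (n + 1) x)) := orb_orbInv ha _ _
    have e2 : orb S n (Gn C S c n x) = psi C (sh^[n] S) (sh^[n] c) (ex (mo S c n x)) :=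
      orb_orbInv ha _ _
    rw [e1, orb_succ', e2, sh_iter_succ, sh_iter_succ, mo_succ']
    have := psi_step B (iter_est hS n) (hc.iter n) h
    rw [iter_zero', iter_zero'] at this
    exact this
  have h1 := congrArg (orbInv S (n + 1)) h0
  rwa [orbInv_orb ha, orbInv_orb ha] at h1

theorem Gn_le {n n' : ℕ} (hn : n ≤ n') {x : ℂ × ℂ} (h : ex (mo S c n x) ∈ PP R) :
    Gn C S c n' x = Gn C S c n x := by
  induction n', hn using Nat.le_induction with
  | base => rfl
  | succ n' hn' ih => rw [Gn_succ B hS hc (valid_le B hS hc hn' h), ih]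

theorem Psi_eq {n : ℕ} {x : ℂ × ℂ} (h : ex (mo S c n x) ∈ PP R) :
    Psi C R S c x = Gn C S c n x := by
  classical
  have hex : ∃ n, ex (mo S c n x) ∈ PP R := ⟨n, h⟩
  unfold Psi
  rw [dif_pos hex]
  have h1 := Nat.find_spec hex
  have h2 := Nat.find_min' hex h
  exact (Gn_le B hS hc h2 h1).symm

theorem orb_Psi {n : ℕ} {x : ℂ × ℂ} (h : ex (mo S c n x) ∈ PP R) :
    orb S n (Psi C R S c x) = psi C (sh^[n] S) (sh^[n] c) (ex (mo S c n x)) := by
  rw [Psi_eq B hS hc h]
  exact orb_orbInv (fun n => (hS n).a0) _ _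

theorem chi_orb_Psi {n : ℕ} {x : ℂ × ℂ} (h : ex (mo S c n x) ∈ PP R) :
    chi (sh^[n] S) (sh^[n] c) (orb S n (Psi C R S c x)) = ex (mo S c n x) := by
  rw [orb_Psi B hS hc h]
  exact (psi_spec B (iter_est hS n) (hc.iter n) h).2

theorem orb_Psi_mem {n : ℕ} {x : ℂ × ℂ} (h : ex (mo S c n x) ∈ PP R) :
    orb S n (Psi C R S c x) ∈ V R := by
  rw [orb_Psi B hS hc h]
  exact psi_mem B (iter_est hS n) (hc.iter n) h

theorem valid_nhds {n : ℕ} {x : ℂ × ℂ} (h : ex (mo S c n x) ∈ PP R) :
    ∀ᶠ y in 𝓝 x, ex (mo S c n y) ∈ PP R := by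
  have h1 : Continuous fun y => ex (mo S c n y) :=
    ex_differentiable.continuous.comp (mo_differentiable S c n).continuous
  exact h1.continuousAt.eventually_mem ((isOpen_PP R).mem_nhds h)

theorem Psi_differentiableAt {x : ℂ × ℂ} (hx : x ∈ HC) : DifferentiableAt ℂ (Psi C R S c) x := by
  obtain ⟨n, hn⟩ := (eventually_mem B hS hc hx).exists
  have h1 : Psi C R S c =ᶠ[𝓝 x] Gn C S c n := by
    filter_upwards [valid_nhds B hS hc hn] with y hy
    exact Psi_eq B hS hc hy
  refine DifferentiableAt.congr_of_eventuallyEq ?_ h1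
  have h2 := psi_differentiableAt B (iter_est hS n) (hc.iter n) hn
  have h3 : DifferentiableAt ℂ (fun y => ex (mo S c n y)) x :=
    (ex_differentiable.comp (mo_differentiable S c n)) x
  have h4 : DifferentiableAt ℂ
      (fun y => psi C (sh^[n] S) (sh^[n] c) (ex (mo S c n y))) x :=
    DifferentiableAt.comp (g := psi C (sh^[n] S) (sh^[n] c)) x h2 h3
  exact DifferentiableAt.comp (g := orbInv S n) x (orbInv_differentiable S n _) h4

theorem Psi_step {x : ℂ × ℂ} (hx : x ∈ HC) :
    Psi C R (sh S) (sh c) (stp (S 0) (c 0) x) = (S 0).H (Psi C R S c x) := by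
  obtain ⟨n, hn⟩ := (eventually_mem B hS hc hx).exists
  have hn1 := valid_succ B hS hc hn
  have hn1' : ex (mo (sh S) (sh c) n (stp (S 0) (c 0) x)) ∈ PP R := hn1
  rw [Psi_eq B (shift_est hS) hc.shift hn1', Psi_eq B hS hc hn1]
  show orbInv (sh S) n _ = (S 0).H ((S 0).Hinv (orbInv (sh S) n _))
  rw [Dat.H_Hinv (hS 0).a0]
  rfl

theorem Psi_mo {x : ℂ × ℂ} (hx : x ∈ HC) (n : ℕ) :
    Psi C R (sh^[n] S) (sh^[n] c) (mo S c n x) = orb S n (Psi C R S c x) := by
  induction n generalizing S c x with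
  | zero => rfl
  | succ n ih =>
    have := ih (shift_est hS) hc.shift (stp_HC (h := S 0) (c := c 0) hx)
    rw [orb_succ, ← Psi_step B hS hc hx, ← this]
    rfl

theorem Psi_ker {x y : ℂ × ℂ} (hx : x ∈ HC) (hy : y ∈ HC) :
    Psi C R S c x = Psi C R S c y ↔ ∃ (m : ℕ) (l : ℤ), tr l (mo S c m x) = mo S c m y := by
  constructor
  · intro h
    obtain ⟨n, hn, hn'⟩ := ((eventually_mem B hS hc hx).and (eventually_mem B hS hc hy)).exists
    refine ⟨n, ?_⟩
    rw [← ex_eq_iff, ← chi_orb_Psi B hS hc hn, ← chi_orb_Psi B hS hc hn', h]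
  · rintro ⟨m, l, h⟩
    have h1 : ∀ n, ∃ l : ℤ, tr l (mo S c (m + n) x) = mo S c (m + n) y := by
      intro n
      induction n with
      | zero => exact ⟨l, h⟩
      | succ n ih =>
        obtain ⟨l', hl'⟩ := ih
        refine ⟨(((S (m + n)).m + 2 : ℕ) : ℤ) * l', ?_⟩
        rw [← Nat.add_assoc, mo_succ', mo_succ', ← hl', stp_tr]
    obtain ⟨n, ⟨hn, hn'⟩, hm⟩ := (((eventually_mem B hS hc hx).and
      (eventually_mem B hS hc hy)).and (eventually_ge_atTop m)).exists
    obtain ⟨k, rfl⟩ := Nat.exists_eq_add_of_le hm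
    have h2 := ex_eq_iff.2 (h1 k)
    rw [Psi_eq B hS hc hn, Psi_eq B hS hc hn']
    unfold Gn
    rw [h2]

/-- surjectivity onto the set of points whose orbit enters the region near infinity -/
theorem Psi_surj {q : ℂ × ℂ} {n : ℕ} (hq : orb S n q ∈ V R) : ∃ x ∈ HC, Psi C R S c x = q := by
  have hC := B.pos
  have hR := B.Rpos
  have hR0 := B.R0
  have hb : ∀ n, (S n).b ≠ 0 := fun n => (hS n).b0
  -- large index
  have key : ∃ j, orb S j q ∈ V R ∧ 16 * R ≤ ‖(orb S j q).1‖ ∧
      ‖(orb S j q).2‖ ≤ 1 / 16 * ‖(orb S j q).1‖ := by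
    have horb : ∀ j, orb S (n + j) q = orb (sh^[n] S) j (orb S n q) := by
      intro j
      induction j with
      | zero => rfl
      | succ j ih =>
        rw [← Nat.add_assoc, orb_succ', ih, orb_succ']
        congr 1
        rw [← iter_zero' (sh^[n] S) j, ← Function.iterate_add_apply, iter_zero', Nat.add_comm]
    have hg := orb_growth B (iter_est hS n) hq 1
    have hrho := orb_rho B (iter_est hS n) hq 1
    have hm := orb_mem B (iter_est hS n) hq 1
    rw [← horb 1] at hg hrho hm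
    refine ⟨n + 1, hm, ?_, ?_⟩
    · have h1 := hq.1
      rw [pow_one] at hg
      nlinarith
    · have h2 : 2 * (2 / R) ^ 1 ≤ 1 / 16 := by
        rw [pow_one, ← mul_div_assoc, div_le_div_iff₀ hR (by norm_num)]
        linarith
      have h3 := norm_nonneg (orb S (n + 1) q).1
      nlinarith
  obtain ⟨j, hjV, hj1, hj2⟩ := key
  set p := orb S j q with hp
  have hSj := iter_est hS j
  have hcj := hc.iter j
  have h1 := phi_lower B hSj hjV
  have h2 := chi_sub_le B hSj hcj hjV
  have hK : 2 ^ 14 * C ^ 7 ≤ R / 64 := by have := B.RC; linarith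
  have hchi : chi (sh^[j] S) (sh^[j] c) p ∈ PP R := by
    rw [Prod.norm_def, max_le_iff] at h2
    have h3 : ‖(chi (sh^[j] S) (sh^[j] c) p).1 - p.1‖ ≤ R / 64 := h2.1.trans hK
    have h4 : ‖(chi (sh^[j] S) (sh^[j] c) p).2 - p.2‖ ≤ R / 64 := h2.2.trans hK
    set A := (chi (sh^[j] S) (sh^[j] c) p).1
    set D := (chi (sh^[j] S) (sh^[j] c) p).2
    have h5 : ‖p.1‖ ≤ ‖A‖ + ‖A - p.1‖ := by
      calc ‖p.1‖ = ‖A - (A - p.1)‖ := by congr 1; ring
        _ ≤ _ := norm_sub_le _ _
    have h6 : ‖D‖ ≤ ‖p.2‖ + ‖D - p.2‖ := by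
      calc ‖D‖ = ‖p.2 + (D - p.2)‖ := by congr 1; ring
        _ ≤ _ := norm_add_le _ _
    exact ⟨by linarith, by linarith⟩
  set z := phi (sh^[j] S) p with hz
  set w := Wf (sh^[j] S) (sh^[j] c) p with hw
  have hz1 : 1 < ‖z‖ := by
    have : 4 * R < ‖z‖ := hchi.1
    linarith
  have hz0 : z ≠ 0 := norm_pos_iff.1 (by linarith)
  set x' : ℂ × ℂ := (Complex.log z, w) with hx'
  have hx'HC : x' ∈ HC := by
    show 0 < (Complex.log z).re
    rw [Complex.log_re]
    exact Real.log_pos hz1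
  have hex : ex x' = chi (sh^[j] S) (sh^[j] c) p := by
    unfold ex chi
    simp only [hx', Complex.exp_log hz0, ← hz, ← hw]
  refine ⟨moInv S c j x', moInv_HC hb hx'HC j, ?_⟩
  have hv : ex (mo S c j (moInv S c j x')) ∈ PP R := by rw [mo_moInv hb, hex]; exact hchi
  rw [Psi_eq B hS hc hv]
  unfold Gn
  rw [mo_moInv hb, hex, psi_chi B hSj hcj hjV hchi, hp, orbInv_orb (fun n => (hS n).a0)]

/-- local inverses -/
theorem Psi_loc {x : ℂ × ℂ} (hx : x ∈ HC) : ∃ U : Set (ℂ × ℂ), IsOpen U ∧ Psi C R S c x ∈ U ∧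
    ∃ lam : ℂ × ℂ → ℂ × ℂ, DifferentiableOn ℂ lam U ∧ lam (Psi C R S c x) = x ∧
      (∀ u ∈ U, lam u ∈ HC ∧ Psi C R S c (lam u) = u) ∧
      ∀ᶠ y in 𝓝 x, lam (Psi C R S c y) = y := by
  have hb : ∀ n, (S n).b ≠ 0 := fun n => (hS n).b0
  obtain ⟨n, hn⟩ := (eventually_mem B hS hc hx).exists
  have hSn := iter_est hS n
  have hcn := hc.iter n
  set S' := sh^[n] S with hS'
  set c' := sh^[n] c with hc'
  set ζ0 := (mo S c n x).1 with hζ0
  set lg : ℂ → ℂ := fun z => Complex.log (z / Complex.exp ζ0) + ζ0 with hlg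
  set lam : ℂ × ℂ → ℂ × ℂ := fun u =>
    moInv S c n (lg (phi S' (orb S n u)), Wf S' c' (orb S n u)) with hlam
  have hexp0 : Complex.exp ζ0 ≠ 0 := Complex.exp_ne_zero _
  have hexplg : ∀ z, z ≠ 0 → Complex.exp (lg z) = z := by
    intro z hz
    simp only [hlg]
    rw [Complex.exp_add, Complex.exp_log (div_ne_zero hz hexp0)]
    field_simp
  set q0 := Psi C R S c x with hq0
  -- the good set
  set good : Set (ℂ × ℂ) := {u | orb S n u ∈ V R ∧ chi S' c' (orb S n u) ∈ PP R ∧
    phi S' (orb S n u) / Complex.exp ζ0 ∈ Complex.slitPlane} with hgood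
  have hgood_open : IsOpen good := by
    have h1 : IsOpen {u | orb S n u ∈ V R} :=
      (isOpen_V R).preimage (orb_differentiable S n).continuous
    have hchi_c : ContinuousOn (fun u => chi S' c' (orb S n u)) {u | orb S n u ∈ V R} :=
      (chi_differentiableOn B hSn hcn).continuousOn.comp
        (orb_differentiable S n).continuous.continuousOn (fun u hu => hu)
    have hphi_c : ContinuousOn (fun u => phi S' (orb S n u) / Complex.exp ζ0)
        {u | orb S n u ∈ V R} :=
      ((phi_differentiableOn B hSn).continuousOn.comp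
        (orb_differentiable S n).continuous.continuousOn (fun u hu => hu)).div_const _
    have h2 := hchi_c.isOpen_inter_preimage h1 (isOpen_PP R)
    have h3 := hphi_c.isOpen_inter_preimage h1 Complex.isOpen_slitPlane
    have : good = ({u | orb S n u ∈ V R} ∩ (fun u => chi S' c' (orb S n u)) ⁻¹' PP R) ∩
        ({u | orb S n u ∈ V R} ∩
          (fun u => phi S' (orb S n u) / Complex.exp ζ0) ⁻¹' Complex.slitPlane) := by
      ext u
      simp only [hgood, mem_ofPred_eq, mem_inter_iff, mem_preimage]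
      tauto
    rw [this]
    exact h2.inter h3
  have hchi0 : chi S' c' (orb S n q0) = ex (mo S c n x) := chi_orb_Psi B hS hc hn
  have hphi0 : phi S' (orb S n q0) = Complex.exp ζ0 := congrArg Prod.fst hchi0
  have hq0good : q0 ∈ good := by
    refine ⟨orb_Psi_mem B hS hc hn, ?_, ?_⟩
    · rw [hchi0]; exact hn
    · rw [hphi0, div_self hexp0]; exact Complex.one_mem_slitPlane
  have hlamgood : ∀ u ∈ good, ex (mo S c n (lam u)) = chi S' c' (orb S n u) := by
    intro u hu
    have hz0 : phi S' (orb S n u) ≠ 0 := phi_ne B hSn hu.1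
    simp only [hlam]
    rw [mo_moInv hb]
    unfold ex chi
    simp only
    rw [hexplg _ hz0]
  refine ⟨good, hgood_open, hq0good, lam, ?_, ?_, ?_, ?_⟩
  · intro u hu
    obtain ⟨hu1, hu2, hu3⟩ := hu
    refine DifferentiableAt.differentiableWithinAt ?_
    have ho := orb_differentiable S n u
    have hd1 : DifferentiableAt ℂ (fun u => phi S' (orb S n u)) u :=
      DifferentiableAt.comp (g := phi S') u
        (((phi_differentiableOn B hSn) _ hu1).differentiableAt ((isOpen_V R).mem_nhds hu1)) ho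
    have hd2 : DifferentiableAt ℂ (fun u => Wf S' c' (orb S n u)) u :=
      DifferentiableAt.comp (g := Wf S' c') u
        (((Wf_differentiableOn B hSn hcn) _ hu1).differentiableAt ((isOpen_V R).mem_nhds hu1)) ho
    have hd3 : DifferentiableAt ℂ (fun u => lg (phi S' (orb S n u))) u := by
      have : DifferentiableAt ℂ (fun u => phi S' (orb S n u) / Complex.exp ζ0) u := by
        simp only [div_eq_mul_inv]
        exact hd1.mul_const _
      exact (this.clog hu3).add_const ζ0
    exact DifferentiableAt.comp (g := moInv S c n) u (moInv_differentiable S c n _)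
      (hd3.prodMk hd2)
  · have h1 : lg (phi S' (orb S n q0)) = ζ0 := by
      rw [hphi0]; simp only [hlg]; rw [div_self hexp0, Complex.log_one, zero_add]
    have h2 : Wf S' c' (orb S n q0) = (mo S c n x).2 := by
      have h3 : Wf S' c' (orb S n q0) / phi S' (orb S n q0) =
        (mo S c n x).2 / Complex.exp ζ0 := congrArg Prod.snd hchi0
      rw [hphi0, div_left_inj' hexp0] at h3
      exact h3
    simp only [hlam]
    rw [h1, h2]
    exact moInv_mo hb c n x
  · intro u hu
    have h1 := hlamgood u hu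
    have hz : 4 * R < ‖phi S' (orb S n u)‖ := hu.2.1.1
    have hz0 : phi S' (orb S n u) ≠ 0 := phi_ne B hSn hu.1
    constructor
    · refine moInv_HC hb ?_ n
      show 0 < (lg (phi S' (orb S n u))).re
      have h2 : ‖Complex.exp (lg (phi S' (orb S n u)))‖ = ‖phi S' (orb S n u)‖ := by
        rw [hexplg _ hz0]
      rw [exp_norm] at h2
      have h3 : 1 < Real.exp (lg (phi S' (orb S n u))).re := by
        rw [h2]; have := B.R0; linarith
      exact Real.one_lt_exp_iff.1 h3
    · have h4 : ex (mo S c n (lam u)) ∈ PP R := by rw [h1]; exact hu.2.1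
      rw [Psi_eq B hS hc h4]
      unfold Gn
      rw [h1, psi_chi B hSn hcn hu.1 hu.2.1, orbInv_orb (fun n => (hS n).a0)]
  · have hcont : Continuous fun y => (mo S c n y).1 :=
      continuous_fst.comp (mo_differentiable S c n).continuous
    have h1 : ∀ᶠ y in 𝓝 x, ‖(mo S c n y).1 - ζ0‖ < Real.pi := by
      have : Tendsto (fun y => ‖(mo S c n y).1 - ζ0‖) (𝓝 x) (𝓝 ‖(mo S c n x).1 - ζ0‖) :=
        ((hcont.sub continuous_const).norm).continuousAt
      rw [← hζ0, sub_self, norm_zero] at this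
      exact this.eventually_lt_const Real.pi_pos
    filter_upwards [valid_nhds B hS hc hn, h1] with y hy hy2
    have h2 := chi_orb_Psi B hS hc hy
    have h3 : phi S' (orb S n (Psi C R S c y)) = Complex.exp (mo S c n y).1 :=
      congrArg Prod.fst h2
    have h4 : Wf S' c' (orb S n (Psi C R S c y)) = (mo S c n y).2 := by
      have h5 : Wf S' c' (orb S n (Psi C R S c y)) / phi S' (orb S n (Psi C R S c y)) =
        (mo S c n y).2 / Complex.exp (mo S c n y).1 := congrArg Prod.snd h2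
      rw [h3, div_left_inj' (Complex.exp_ne_zero _)] at h5
      exact h5
    have h6 : lg (Complex.exp (mo S c n y).1) = (mo S c n y).1 := by
      simp only [hlg]
      rw [← Complex.exp_sub]
      have him : |((mo S c n y).1 - ζ0).im| < Real.pi :=
        lt_of_le_of_lt (Complex.abs_im_le_norm _) hy2
      rw [Complex.log_exp (abs_lt.1 him).1 (abs_lt.1 him).2.le]
      ring
    simp only [hlam]
    rw [h3, h4, h6]
    exact moInv_mo hb c n y

end

end Pool.Agent.H907.Henon
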