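import Pool.Agent.H907.Henon.Cplx

/-!
Analysis near infinity: growth of orbits and the Böttcher coordinate.
-/

open Filter Topology Set Metric Polynomial

set_option linter.unusedSectionVars false

namespace Pool.Agent.H907.Henon

/-- Data of a normalized elementary Hénon map of degree `m + 2`. -/
structure Dat where
  m : ℕ
  a : ℂ
  P : ℂ[X]
  Q : ℂ[X]

/-- the degree -/
def Dat.d (h : Dat) : ℕ := h.m + 2

/-- the map -/
noncomputable def Dat.H (h : Dat) (q : ℂ × ℂ) : ℂ × ℂ := (h.P.eval q.1 - h.a * q.2, q.1)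

/-- Uniform estimates for the data. -/
structure Dat.Est (C : ℝ) (h : Dat) : Prop where
  dC : (h.d : ℝ) ≤ C
  a0 : h.a ≠ 0
  aC : ‖h.a‖ ≤ C
  aC' : ‖h.a‖⁻¹ ≤ C
  P1 : ∀ x : ℂ, 1 ≤ ‖x‖ → ‖h.P.eval x - x ^ (h.m + 2)‖ ≤ C * ‖x‖ ^ h.m
  P2 : ∀ z x s : ℂ, 1 ≤ ‖z‖ → ‖x - z‖ ≤ ‖z‖ → ‖s - z‖ ≤ ‖z‖ →
    ‖h.P.eval x - h.P.eval s - ((h.m + 2 : ℕ) : ℂ) * z ^ (h.m + 1) * (x - s)‖ ≤
      C * ‖z‖ ^ h.m * (‖x - z‖ + ‖s - z‖ + 1 / ‖z‖) * ‖x - s‖
  Q1 : ∀ z : ℂ, 1 ≤ ‖z‖ → ‖h.Q.eval z / z ^ (h.m + 2) - z‖ ≤ C / ‖z‖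
  Q2 : ∀ z : ℂ, 1 ≤ ‖z‖ → ‖h.P.eval (h.Q.eval z / z ^ (h.m + 2)) - z ^ (h.m + 2)‖ ≤ C / ‖z‖

/-- The constants are large enough. -/
structure Big (C R : ℝ) : Prop where
  C1 : 1 ≤ C
  RC : 2 ^ 20 * C ^ 7 ≤ R

theorem Big.pos {C R : ℝ} (h : Big C R) : 0 < C := lt_of_lt_of_le one_pos h.C1

theorem Big.R7 {C R : ℝ} (h : Big C R) (k : ℕ) (hk : k ≤ 7) : 2 ^ 20 * C ^ k ≤ R :=
  le_trans (mul_le_mul_of_nonneg_left (pow_le_pow_right₀ h.C1 hk) (by norm_num)) h.RC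

theorem Big.R1 {C R : ℝ} (h : Big C R) : 2 ^ 20 * C ≤ R := by simpa using h.R7 1 (by norm_num)

theorem Big.R0 {C R : ℝ} (h : Big C R) : 2 ^ 20 ≤ R := by simpa using h.R7 0 (by norm_num)

theorem Big.Rpos {C R : ℝ} (h : Big C R) : 0 < R := lt_of_lt_of_le (by norm_num) h.R0

/-- The region near infinity. -/
def V (R : ℝ) : Set (ℂ × ℂ) := {q | R < ‖q.1‖ ∧ ‖q.2‖ < ‖q.1‖}

theorem isOpen_V (R : ℝ) : IsOpen (V R) := by
  have h1 : IsOpen {q : ℂ × ℂ | R < ‖q.1‖} := isOpen_lt continuous_const (by fun_prop)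
  have h2 : IsOpen {q : ℂ × ℂ | ‖q.2‖ < ‖q.1‖} := isOpen_lt (by fun_prop) (by fun_prop)
  exact h1.inter h2

/-- `(x'/x^d) - 1`. -/
noncomputable def Dat.eps (h : Dat) (q : ℂ × ℂ) : ℂ :=
  (h.P.eval q.1 - h.a * q.2) / q.1 ^ (h.m + 2) - 1

section est
variable {C R : ℝ} (B : Big C R) {h : Dat} (hE : h.Est C) {q : ℂ × ℂ} (hq : q ∈ V R)
include B hq

theorem V.pos : 0 < ‖q.1‖ := lt_trans B.Rpos hq.1
theorem V.ne : q.1 ≠ 0 := norm_pos_iff.1 (V.pos B hq)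
theorem V.one : 1 ≤ ‖q.1‖ := by have := B.R0; have := hq.1; linarith

/-- `(1 + |y|)/|x| ≤ 2` -/
theorem V.rho : 1 + ‖q.2‖ ≤ 2 * ‖q.1‖ := by have := V.one B hq; have := hq.2; linarith

include hE

theorem eps_le : ‖h.eps q‖ ≤ C * (1 + ‖q.2‖) / ‖q.1‖ ^ 2 := by
  have hx := V.pos B hq
  have hx1 := V.one B hq
  have hx0 := V.ne B hq
  have hpow : (0:ℝ) < ‖q.1‖ ^ (h.m + 2) := by positivity
  have e1 : h.eps q = ((h.P.eval q.1 - q.1 ^ (h.m + 2)) - h.a * q.2) / q.1 ^ (h.m + 2) := by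
    unfold Dat.eps
    field_simp
    ring
  rw [e1, norm_div, norm_pow, div_le_div_iff₀ hpow (by positivity)]
  have h1 : ‖(h.P.eval q.1 - q.1 ^ (h.m + 2)) - h.a * q.2‖ ≤ C * ‖q.1‖ ^ h.m + C * ‖q.2‖ := by
    refine (norm_sub_le _ _).trans (add_le_add (hE.P1 _ hx1) ?_)
    rw [norm_mul]
    exact mul_le_mul_of_nonneg_right hE.aC (norm_nonneg _)
  have h2 : C * ‖q.1‖ ^ h.m + C * ‖q.2‖ ≤ C * (1 + ‖q.2‖) * ‖q.1‖ ^ h.m := by
    have : (1:ℝ) ≤ ‖q.1‖ ^ h.m := one_le_pow₀ hx1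
    nlinarith [mul_nonneg B.pos.le (norm_nonneg q.2), norm_nonneg q.2, B.pos]
  calc _ ≤ (C * (1 + ‖q.2‖) * ‖q.1‖ ^ h.m) * ‖q.1‖ ^ 2 :=
        mul_le_mul_of_nonneg_right (h1.trans h2) (by positivity)
    _ = C * (1 + ‖q.2‖) * ‖q.1‖ ^ (h.m + 2) := by ring

theorem eps_le' : ‖h.eps q‖ ≤ 2 * C / ‖q.1‖ := by
  have hx := V.pos B hq
  refine (eps_le B hE hq).trans ?_
  rw [div_le_div_iff₀ (by positivity) hx]
  have := V.rho B hq
  nlinarith [mul_nonneg B.pos.le hx.le, mul_le_mul_of_nonneg_left this (mul_nonneg B.pos.le hx.le)]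

theorem eps_small : ‖h.eps q‖ ≤ 1 / 8 := by
  refine (eps_le' B hE hq).trans ?_
  have hx := V.pos B hq
  rw [div_le_iff₀ hx]
  have := B.R1
  have := hq.1
  linarith

theorem H_fst : (h.H q).1 = q.1 ^ (h.m + 2) * (1 + h.eps q) := by
  have hx0 := V.ne B hq
  unfold Dat.eps Dat.H
  field_simp
  ring

theorem H_fst_lower : ‖q.1‖ ^ (h.m + 2) / 2 ≤ ‖(h.H q).1‖ := by
  rw [H_fst B hE hq, norm_mul, norm_pow]
  have h1 : (1:ℝ) / 2 ≤ ‖1 + h.eps q‖ := by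
    have h2 := eps_small B hE hq
    have h3 : ‖(1:ℂ)‖ ≤ ‖1 + h.eps q‖ + ‖h.eps q‖ := by
      calc ‖(1:ℂ)‖ = ‖(1 + h.eps q) - h.eps q‖ := by congr 1; ring
        _ ≤ _ := norm_sub_le _ _
    rw [norm_one] at h3
    linarith
  have : (0:ℝ) ≤ ‖q.1‖ ^ (h.m + 2) := by positivity
  nlinarith

theorem H_fst_lower2 : ‖q.1‖ ^ 2 / 2 ≤ ‖(h.H q).1‖ := by
  refine le_trans ?_ (H_fst_lower B hE hq)
  have hx1 := V.one B hq
  have : ‖q.1‖ ^ 2 ≤ ‖q.1‖ ^ (h.m + 2) := pow_le_pow_right₀ hx1 (by omega)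
  linarith

theorem H_growth : R / 2 * ‖q.1‖ ≤ ‖(h.H q).1‖ := by
  refine le_trans ?_ (H_fst_lower2 B hE hq)
  have := hq.1
  have hx := V.pos B hq
  nlinarith

theorem H_mem : h.H q ∈ V R := by
  have h1 := H_growth B hE hq
  have hx := V.pos B hq
  have h2 := B.R0
  have h3 := hq.1
  refine ⟨?_, ?_⟩
  · nlinarith
  · show ‖q.1‖ < ‖(h.H q).1‖
    nlinarith

/-- ratio `(1+|y'|)/|x'|` after one step. -/
theorem H_rho : 1 + ‖(h.H q).2‖ ≤ 4 / ‖q.1‖ * ‖(h.H q).1‖ := by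
  have h1 := H_fst_lower2 B hE hq
  have hx := V.pos B hq
  have hx1 := V.one B hq
  show 1 + ‖q.1‖ ≤ _
  calc 1 + ‖q.1‖ ≤ 2 * ‖q.1‖ := by linarith
    _ = 4 / ‖q.1‖ * (‖q.1‖ ^ 2 / 2) := by field_simp; ring
    _ ≤ _ := mul_le_mul_of_nonneg_left h1 (by positivity)

end est

/-- shift of a sequence of data -/
def sh {α : Type*} (S : ℕ → α) : ℕ → α := fun n => S (n + 1)

/-- orbit under the nonautonomous iteration -/
noncomputable def orb : (ℕ → Dat) → ℕ → ℂ × ℂ → ℂ × ℂ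
  | _, 0, q => q
  | S, n + 1, q => orb (sh S) n ((S 0).H q)

@[simp] theorem orb_zero (S : ℕ → Dat) (q : ℂ × ℂ) : orb S 0 q = q := rfl

theorem orb_succ (S : ℕ → Dat) (n : ℕ) (q : ℂ × ℂ) :
    orb S (n + 1) q = orb (sh S) n ((S 0).H q) := rfl

theorem orb_succ' (S : ℕ → Dat) (n : ℕ) (q : ℂ × ℂ) : orb S (n + 1) q = (S n).H (orb S n q) := by
  induction n generalizing S q with
  | zero => rfl
  | succ n ih => rw [orb_succ, ih (sh S), orb_succ]; rfl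

/-- product of the degrees -/
def Dp : (ℕ → Dat) → ℕ → ℕ
  | _, 0 => 1
  | S, n + 1 => (S 0).d * Dp (sh S) n

theorem Dp_succ (S : ℕ → Dat) (n : ℕ) : Dp S (n + 1) = (S 0).d * Dp (sh S) n := rfl

theorem Dp_succ' (S : ℕ → Dat) (n : ℕ) : Dp S (n + 1) = Dp S n * (S n).d := by
  induction n generalizing S with
  | zero => simp [Dp]
  | succ n ih =>
    rw [Dp_succ, ih (sh S), Dp_succ]
    simp only [sh]
    ring

theorem Dp_ge (S : ℕ → Dat) (n : ℕ) : 2 ^ n ≤ Dp S n := by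
  induction n generalizing S with
  | zero => simp [Dp]
  | succ n ih =>
    rw [Dp_succ, pow_succ, mul_comm]
    exact Nat.mul_le_mul (by simp [Dat.d]) (ih _)

theorem Dp_pos (S : ℕ → Dat) (n : ℕ) : 0 < Dp S n := lt_of_lt_of_le (by positivity) (Dp_ge S n)

theorem shift_est {C : ℝ} {S : ℕ → Dat} (hS : ∀ n, (S n).Est C) : ∀ n, (sh S n).Est C :=
  fun n => hS (n + 1)

section orbit
variable {C R : ℝ} (B : Big C R)

include B in
theorem orb_mem {S : ℕ → Dat} (hS : ∀ n, (S n).Est C) {q : ℂ × ℂ} (hq : q ∈ V R) (n : ℕ) :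
    orb S n q ∈ V R := by
  induction n generalizing S q with
  | zero => exact hq
  | succ n ih => exact ih (shift_est hS) (H_mem B (hS 0) hq)

include B in
theorem orb_growth {S : ℕ → Dat} (hS : ∀ n, (S n).Est C) {q : ℂ × ℂ} (hq : q ∈ V R) (n : ℕ) :
    (R / 2) ^ n * ‖q.1‖ ≤ ‖(orb S n q).1‖ := by
  induction n with
  | zero => simp
  | succ n ih =>
    rw [orb_succ', pow_succ]
    have h1 := H_growth B (hS n) (orb_mem B hS hq n)
    have := B.Rpos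
    calc (R / 2) ^ n * (R / 2) * ‖q.1‖ = R / 2 * ((R / 2) ^ n * ‖q.1‖) := by ring
      _ ≤ R / 2 * ‖(orb S n q).1‖ := mul_le_mul_of_nonneg_left ih (by positivity)
      _ ≤ _ := h1

include B in
theorem orb_rho {S : ℕ → Dat} (hS : ∀ n, (S n).Est C) {q : ℂ × ℂ} (hq : q ∈ V R) (n : ℕ) :
    1 + ‖(orb S n q).2‖ ≤ 2 * (2 / R) ^ n * ‖(orb S n q).1‖ := by
  cases n with
  | zero => simpa using V.rho B hq
  | succ n =>
    rw [orb_succ']
    have hm := orb_mem B hS hq n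
    have h1 := H_rho B (hS n) hm
    refine h1.trans (mul_le_mul_of_nonneg_right ?_ (norm_nonneg _))
    have h2 := orb_growth B hS hq n
    have hR := B.Rpos
    have hx := V.pos B hm
    have h3 : (R / 2) ^ n * R ≤ ‖(orb S n q).1‖ :=
      le_trans (mul_le_mul_of_nonneg_left hq.1.le (by positivity)) h2
    have h4 : 4 / ‖(orb S n q).1‖ ≤ 4 / ((R / 2) ^ n * R) :=
      div_le_div_of_nonneg_left (by norm_num) (by positivity) h3
    refine h4.trans (le_of_eq ?_)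
    rw [pow_succ, show (2 / R) = (R / 2)⁻¹ by rw [inv_div], inv_pow]
    field_simp
    norm_num

end orbit

theorem Dat.H_differentiable (h : Dat) : Differentiable ℂ h.H := by
  unfold Dat.H
  refine Differentiable.prodMk ?_ differentiable_fst
  exact (h.P.differentiable.comp differentiable_fst).sub (differentiable_snd.const_mul _)

theorem orb_differentiable (S : ℕ → Dat) (n : ℕ) : Differentiable ℂ (orb S n) := by
  induction n generalizing S with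
  | zero => exact differentiable_id
  | succ n ih =>
    have : orb S (n + 1) = (orb (sh S) n) ∘ (S 0).H := rfl
    rw [this]
    exact (ih _).comp (S 0).H_differentiable

end Pool.Agent.H907.Henon
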