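import Pool.Agent.H907.Henon.Near1

/-!
The Böttcher coordinate near infinity.
-/

open Filter Topology Set Metric Polynomial

set_option linter.unusedSectionVars false

namespace Pool.Agent.H907.Henon

/-- logarithm of the ratio of the Böttcher coordinate and `x` -/
noncomputable def Lf (S : ℕ → Dat) (q : ℂ × ℂ) : ℂ :=
  ∑' n, ((Dp S (n + 1) : ℕ) : ℂ)⁻¹ * Complex.log (1 + (S n).eps (orb S n q))

/-- the Böttcher coordinate -/
noncomputable def phi (S : ℕ → Dat) (q : ℂ × ℂ) : ℂ := q.1 * Complex.exp (Lf S q)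

theorem Dp_inv_le (S : ℕ → Dat) (n : ℕ) : ‖((Dp S n : ℕ) : ℂ)⁻¹‖ ≤ (1 / 2) ^ n := by
  rw [norm_inv, Complex.norm_natCast, one_div, inv_pow]
  exact inv_anti₀ (by positivity) (by exact_mod_cast Dp_ge S n)

section phi
variable {C R : ℝ} (B : Big C R) {S : ℕ → Dat} (hS : ∀ n, (S n).Est C)
  {q : ℂ × ℂ} (hq : q ∈ V R)
include B hS hq

theorem term_le (n : ℕ) : ‖((Dp S (n + 1) : ℕ) : ℂ)⁻¹ *
    Complex.log (1 + (S n).eps (orb S n q))‖ ≤
    (1 / 2) ^ (n + 1) * (3 / 2 * ‖(S n).eps (orb S n q)‖) := by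
  rw [norm_mul]
  refine mul_le_mul (Dp_inv_le S (n + 1)) ?_ (norm_nonneg _) (by positivity)
  refine Complex.norm_log_one_add_half_le_self ?_
  exact (eps_small B (hS n) (orb_mem B hS hq n)).trans (by norm_num)

theorem term_le' (n : ℕ) : ‖((Dp S (n + 1) : ℕ) : ℂ)⁻¹ *
    Complex.log (1 + (S n).eps (orb S n q))‖ ≤ (1 / 2) ^ (n + 1) := by
  refine (term_le B hS hq n).trans ?_
  have h := eps_small B (hS n) (orb_mem B hS hq n)
  have : (0:ℝ) ≤ (1 / 2) ^ (n + 1) := by positivity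
  nlinarith

theorem eps_orb_le (n : ℕ) : ‖(S n).eps (orb S n q)‖ ≤ 4 * C * (1 + ‖q.2‖) / ‖q.1‖ ^ 2 := by
  have hx := V.pos B hq
  have hC := B.pos
  cases n with
  | zero =>
    refine (eps_le B (hS 0) hq).trans ?_
    gcongr
    linarith
  | succ n =>
    have hm := orb_mem B hS hq (n + 1)
    have h1 := eps_le' B (hS (n + 1)) hm
    refine h1.trans ?_
    have h2 := orb_growth B (shift_est hS) (H_mem B (hS 0) hq) n
    rw [← orb_succ] at h2
    have h3 := H_fst_lower2 B (hS 0) hq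
    have h4 : (1:ℝ) ≤ (R / 2) ^ n := one_le_pow₀ (by have := B.R0; linarith)
    have h5 : ‖q.1‖ ^ 2 / 2 ≤ ‖(orb S (n + 1) q).1‖ := by
      refine le_trans h3 (le_trans ?_ h2)
      nlinarith [norm_nonneg ((S 0).H q).1]
    calc 2 * C / ‖(orb S (n + 1) q).1‖ ≤ 2 * C / (‖q.1‖ ^ 2 / 2) :=
          div_le_div_of_nonneg_left (by positivity) (by positivity) h5
      _ = 4 * C * 1 / ‖q.1‖ ^ 2 := by field_simp; ring
      _ ≤ _ := by gcongr; linarith [norm_nonneg q.2]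

theorem Lf_summable : Summable fun n => ((Dp S (n + 1) : ℕ) : ℂ)⁻¹ *
    Complex.log (1 + (S n).eps (orb S n q)) := by
  refine Summable.of_norm_bounded (g := fun n : ℕ => (1 / 2 : ℝ) ^ (n + 1)) ?_
    (fun n => term_le' B hS hq n)
  exact (summable_nat_add_iff 1).2 summable_geometric_two

theorem Lf_le : ‖Lf S q‖ ≤ 6 * C * (1 + ‖q.2‖) / ‖q.1‖ ^ 2 := by
  have h1 : HasSum (fun n : ℕ => (1 / 2 : ℝ) ^ (n + 1) * (6 * C * (1 + ‖q.2‖) / ‖q.1‖ ^ 2))
      (1 * (6 * C * (1 + ‖q.2‖) / ‖q.1‖ ^ 2)) := by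
    refine HasSum.mul_right _ ?_
    have := (hasSum_geometric_two).mul_left (1 / 2 : ℝ)
    simpa [pow_succ, mul_comm] using this
  rw [one_mul] at h1
  refine tsum_of_norm_bounded h1 fun n => ?_
  refine (term_le B hS hq n).trans ?_
  have h2 := eps_orb_le B hS hq n
  have : (0:ℝ) ≤ (1 / 2) ^ (n + 1) := by positivity
  refine mul_le_mul_of_nonneg_left ?_ this
  calc 3 / 2 * ‖(S n).eps (orb S n q)‖ ≤ 3 / 2 * (4 * C * (1 + ‖q.2‖) / ‖q.1‖ ^ 2) := by
        linarith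
    _ = _ := by ring

theorem Lf_le' : ‖Lf S q‖ ≤ 12 * C / ‖q.1‖ := by
  have hx := V.pos B hq
  refine (Lf_le B hS hq).trans ?_
  rw [div_le_div_iff₀ (by positivity) hx]
  have := V.rho B hq
  nlinarith [mul_le_mul_of_nonneg_left this (mul_nonneg B.pos.le hx.le), mul_nonneg B.pos.le hx.le]

theorem Lf_small : ‖Lf S q‖ ≤ 1 := by
  refine (Lf_le' B hS hq).trans ?_
  have hx := V.pos B hq
  rw [div_le_iff₀ hx]
  have := B.R1
  have := hq.1
  have := B.pos
  linarith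

theorem phi_sub_le : ‖phi S q - q.1‖ ≤ 12 * C * (1 + ‖q.2‖) / ‖q.1‖ := by
  have hx := V.pos B hq
  have e : phi S q - q.1 = q.1 * (Complex.exp (Lf S q) - 1) := by unfold phi; ring
  rw [e, norm_mul]
  have h1 := Complex.norm_exp_sub_one_le (Lf_small B hS hq)
  have h2 := Lf_le B hS hq
  calc ‖q.1‖ * ‖Complex.exp (Lf S q) - 1‖ ≤ ‖q.1‖ * (2 * (6 * C * (1 + ‖q.2‖) / ‖q.1‖ ^ 2)) := by
        gcongr; linarith
    _ = _ := by field_simp; ring

theorem phi_sub_le' : ‖phi S q - q.1‖ ≤ 24 * C := by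
  have hx := V.pos B hq
  refine (phi_sub_le B hS hq).trans ?_
  rw [div_le_iff₀ hx]
  have := V.rho B hq
  nlinarith [B.pos]

theorem phi_lower : ‖q.1‖ / 2 ≤ ‖phi S q‖ := by
  have h := phi_sub_le' B hS hq
  have h1 : ‖q.1‖ ≤ ‖phi S q‖ + ‖phi S q - q.1‖ := by
    calc ‖q.1‖ = ‖phi S q - (phi S q - q.1)‖ := by congr 1; ring
      _ ≤ _ := norm_sub_le _ _
  have := B.R1
  have := hq.1
  have := B.pos
  linarith

theorem phi_upper : ‖phi S q‖ ≤ 2 * ‖q.1‖ := by
  have h := phi_sub_le' B hS hq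
  have h1 : ‖phi S q‖ ≤ ‖q.1‖ + ‖phi S q - q.1‖ := by
    calc ‖phi S q‖ = ‖q.1 + (phi S q - q.1)‖ := by congr 1; ring
      _ ≤ _ := norm_add_le _ _
  have := B.R1
  have := hq.1
  have := B.pos
  linarith

theorem Lf_funeq : ((S 0).d : ℂ) * Lf S q =
    Complex.log (1 + (S 0).eps q) + Lf (sh S) ((S 0).H q) := by
  unfold Lf
  rw [(Lf_summable B hS hq).tsum_eq_zero_add, mul_add, ← tsum_mul_left]
  have hd : ((S 0).d : ℂ) ≠ 0 := by
    simp only [Dat.d]; exact_mod_cast (by omega : (S 0).m + 2 ≠ 0)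
  congr 1
  · simp only [Dp, orb_zero, mul_one]
    rw [← mul_assoc, mul_inv_cancel₀ hd, one_mul]
  · congr 1
    ext n
    rw [Dp_succ S (n + 1), orb_succ]
    push_cast
    rw [mul_inv, ← mul_assoc, ← mul_assoc, mul_inv_cancel₀ hd, one_mul]
    rfl

theorem phi_funeq : phi (sh S) ((S 0).H q) = phi S q ^ ((S 0).m + 2) := by
  have h1 := Lf_funeq B hS hq
  have h2 := eps_small B (hS 0) hq
  have h3 : (1 : ℂ) + (S 0).eps q ≠ 0 := by
    intro h
    have : (S 0).eps q = -1 := by linear_combination h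
    rw [this, norm_neg, norm_one] at h2
    norm_num at h2
  unfold phi
  rw [H_fst B (hS 0) hq, mul_pow, ← Complex.exp_nat_mul]
  have e : (((S 0).m + 2 : ℕ) : ℂ) * Lf S q =
      Complex.log (1 + (S 0).eps q) + Lf (sh S) ((S 0).H q) := h1
  rw [e, Complex.exp_add, Complex.exp_log h3]
  ring

end phi

theorem Dat.eps_differentiableOn {C R : ℝ} (B : Big C R) (h : Dat) :
    DifferentiableOn ℂ h.eps (V R) := by
  intro q hq
  have h0 := V.ne B hq
  unfold Dat.eps
  refine DifferentiableAt.differentiableWithinAt ?_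
  have h1 : DifferentiableAt ℂ (fun q : ℂ × ℂ => h.P.eval q.1 - h.a * q.2) q :=
    (h.H_differentiable q).fst
  have h2 : DifferentiableAt ℂ (fun q : ℂ × ℂ => q.1 ^ (h.m + 2)) q :=
    (differentiableAt_fst (𝕜 := ℂ)).pow _
  have h3 : q.1 ^ (h.m + 2) ≠ 0 := pow_ne_zero _ h0
  have h4 : DifferentiableAt ℂ
      (fun q : ℂ × ℂ => (h.P.eval q.1 - h.a * q.2) / q.1 ^ (h.m + 2)) q := by
    simp only [div_eq_mul_inv]
    exact h1.mul (h2.inv h3)
  exact h4.sub_const 1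

theorem Lf_differentiableOn {C R : ℝ} (B : Big C R) {S : ℕ → Dat} (hS : ∀ n, (S n).Est C) :
    DifferentiableOn ℂ (Lf S) (V R) := by
  refine differentiableOn_tsum' (isOpen_V R) (u := fun n : ℕ => (1 / 2 : ℝ) ^ (n + 1))
    ((summable_nat_add_iff 1).2 summable_geometric_two) ?_ (fun n q hq => term_le' B hS hq n)
  intro n
  have h1 : DifferentiableOn ℂ (fun q => (S n).eps (orb S n q)) (V R) :=
    ((S n).eps_differentiableOn B).comp (orb_differentiable S n).differentiableOn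
      (fun q hq => orb_mem B hS hq n)
  have h2 : DifferentiableOn ℂ (fun q => Complex.log (1 + (S n).eps (orb S n q))) (V R) := by
    refine DifferentiableOn.clog (h1.const_add 1) fun q hq => ?_
    have h3 := eps_small B (hS n) (orb_mem B hS hq n)
    refine Complex.mem_slitPlane_iff.2 (Or.inl ?_)
    have h4 : |((S n).eps (orb S n q)).re| ≤ 1 / 8 := (Complex.abs_re_le_norm _).trans h3
    rw [Complex.add_re, Complex.one_re]
    have := (abs_le.1 h4).1
    linarith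
  exact h2.const_mul _

theorem phi_differentiableOn {C R : ℝ} (B : Big C R) {S : ℕ → Dat} (hS : ∀ n, (S n).Est C) :
    DifferentiableOn ℂ (phi S) (V R) :=
  differentiableOn_fst.mul (Lf_differentiableOn B hS).cexp

end Pool.Agent.H907.Henon
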