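import Pool.Agent.H907.Henon.Near2

/-!
The second coordinate near infinity: the error term.
-/

open Filter Topology Set Metric Polynomial

set_option linter.unusedSectionVars false

namespace Pool.Agent.H907.Henon

/-- `β = a/d` -/
noncomputable def Dat.b (h : Dat) : ℂ := h.a / ((h.m + 2 : ℕ) : ℂ)

/-- the error term `z^d x - β z y - Q(z)` -/
noncomputable def E0 (S : ℕ → Dat) (q : ℂ × ℂ) : ℂ :=
  phi S q ^ ((S 0).m + 2) * q.1 - (S 0).b * phi S q * q.2 - (S 0).Q.eval (phi S q)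

theorem Dat.d_ne (h : Dat) : (((h.m + 2 : ℕ) : ℂ)) ≠ 0 := by
  exact_mod_cast (by omega : h.m + 2 ≠ 0)

section E0
variable {C R : ℝ} (B : Big C R) {S : ℕ → Dat} (hS : ∀ n, (S n).Est C)
  {q : ℂ × ℂ} (hq : q ∈ V R)
include B hS hq

theorem phi_big : 2 ^ 19 * C ^ 7 ≤ ‖phi S q‖ := by
  have h1 := phi_lower B hS hq
  have h2 := hq.1
  have h3 := B.RC
  linarith

theorem phi_ne : phi S q ≠ 0 := by
  have h1 := phi_lower B hS hq
  have h2 := V.pos B hq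
  exact norm_pos_iff.1 (by linarith)

theorem theta_le : ‖phi S q ^ ((S 0).m + 2) - ((S 0).H q).1‖ ≤ 48 * C / ‖q.1‖ := by
  rw [← phi_funeq B hS hq]
  have h1 := phi_sub_le B (shift_est hS) (H_mem B (hS 0) hq)
  refine h1.trans ?_
  have h2 := H_rho B (hS 0) hq
  have hx := V.pos B hq
  have hx' := V.pos B (H_mem B (hS 0) hq)
  rw [div_le_iff₀ hx']
  have hC := B.pos
  calc 12 * C * (1 + ‖((S 0).H q).2‖) ≤ 12 * C * (4 / ‖q.1‖ * ‖((S 0).H q).1‖) := by gcongr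
    _ = _ := by ring

theorem E0_le : ‖E0 S q‖ ≤ 60 * C ^ 3 * (1 + (1 + ‖q.2‖) ^ 2 / ‖q.1‖) := by
  set z := phi S q with hz
  set x := q.1 with hxdef
  set y := q.2 with hydef
  set m := (S 0).m with hm
  set P := (S 0).P with hP
  set Q := (S 0).Q with hQ
  set s := Q.eval z / z ^ (m + 2) with hs
  have hC := B.pos
  have hC1 := B.C1
  have hx : 0 < ‖x‖ := V.pos B hq
  have hxR : R < ‖x‖ := hq.1
  have hR1 := B.R1
  have hR0 := B.R0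
  have hx1 : 1 ≤ ‖x‖ := V.one B hq
  have hzl : ‖x‖ / 2 ≤ ‖z‖ := phi_lower B hS hq
  have hzu : ‖z‖ ≤ 2 * ‖x‖ := phi_upper B hS hq
  have hz1 : 1 ≤ ‖z‖ := by linarith
  have hz0 : 0 < ‖z‖ := by linarith
  have hzne : z ≠ 0 := norm_pos_iff.1 hz0
  have hy0 : 0 ≤ ‖y‖ := norm_nonneg y
  have hρ : 1 + ‖y‖ ≤ 2 * ‖x‖ := V.rho B hq
  -- distances
  have h1z : 1 / ‖z‖ ≤ 2 / ‖x‖ := by
    rw [div_le_div_iff₀ hz0 hx]; linarith
  have hxz : ‖x - z‖ ≤ 12 * C * (1 + ‖y‖) / ‖x‖ := by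
    rw [norm_sub_rev]; exact phi_sub_le B hS hq
  have hxz' : ‖x - z‖ ≤ 24 * C := by
    rw [norm_sub_rev]; exact phi_sub_le' B hS hq
  have hsz : ‖s - z‖ ≤ C / ‖z‖ := (hS 0).Q1 z hz1
  have hsz' : ‖s - z‖ ≤ 2 * C * (1 + ‖y‖) / ‖x‖ := by
    refine hsz.trans ?_
    calc C / ‖z‖ = C * (1 / ‖z‖) := by ring
      _ ≤ C * (2 / ‖x‖) := by gcongr
      _ = 2 * C * 1 / ‖x‖ := by ring
      _ ≤ _ := by gcongr; linarith
  have hsz2 : ‖s - z‖ ≤ C := hsz.trans (div_le_self hC.le hz1)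
  -- theta and tau
  have hθ : ‖z ^ (m + 2) - ((S 0).H q).1‖ ≤ 48 * C / ‖x‖ := theta_le B hS hq
  have hτ : ‖P.eval s - z ^ (m + 2)‖ ≤ 2 * C / ‖x‖ := by
    refine ((hS 0).Q2 z hz1).trans ?_
    calc C / ‖z‖ = C * (1 / ‖z‖) := by ring
      _ ≤ C * (2 / ‖x‖) := by gcongr
      _ = _ := by ring
  -- err
  set err := P.eval x - P.eval s - ((m + 2 : ℕ) : ℂ) * z ^ (m + 1) * (x - s) with herr
  have herr1 : ‖err‖ ≤ C * ‖z‖ ^ m * (‖x - z‖ + ‖s - z‖ + 1 / ‖z‖) * ‖x - s‖ :=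
    (hS 0).P2 z x s hz1 (by linarith) (by linarith)
  have hsum : ‖x - z‖ + ‖s - z‖ + 1 / ‖z‖ ≤ 16 * C * (1 + ‖y‖) / ‖x‖ := by
    have : 2 / ‖x‖ ≤ 2 * C * (1 + ‖y‖) / ‖x‖ := by
      gcongr
      nlinarith
    calc _ ≤ 12 * C * (1 + ‖y‖) / ‖x‖ + 2 * C * (1 + ‖y‖) / ‖x‖ + 2 * C * (1 + ‖y‖) / ‖x‖ := by
          linarith
      _ = _ := by ring
  have herr2 : ‖err‖ ≤ C * ‖z‖ ^ m * (16 * C * (1 + ‖y‖) / ‖x‖) * ‖x - s‖ := by
    refine herr1.trans ?_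
    gcongr
  have hpm : 0 ≤ ‖z‖ ^ m := by positivity
  have hδ0 : 0 ≤ ‖x - s‖ := norm_nonneg _
  have hrat : 16 * C * (1 + ‖y‖) / ‖x‖ ≤ 32 * C := by
    rw [div_le_iff₀ hx]; nlinarith
  have hzb : 2 ^ 19 * C ^ 2 ≤ ‖z‖ := by
    have := B.R7 2 (by norm_num)
    linarith
  have herr3 : ‖err‖ ≤ 1 / 2 * (‖z‖ ^ (m + 1) * ‖x - s‖) := by
    refine herr2.trans ?_
    calc C * ‖z‖ ^ m * (16 * C * (1 + ‖y‖) / ‖x‖) * ‖x - s‖
        ≤ C * ‖z‖ ^ m * (32 * C) * ‖x - s‖ := by gcongr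
      _ = (32 * C ^ 2) * (‖z‖ ^ m * ‖x - s‖) := by ring
      _ ≤ (1 / 2 * ‖z‖) * (‖z‖ ^ m * ‖x - s‖) := by
          refine mul_le_mul_of_nonneg_right ?_ (by positivity)
          have := sq_nonneg C
          linarith
      _ = _ := by ring
  -- the main identity
  have hid : ((m + 2 : ℕ) : ℂ) * z ^ (m + 1) * (x - s) - (S 0).a * y =
      -(z ^ (m + 2) - ((S 0).H q).1) - (P.eval s - z ^ (m + 2)) - err := by
    have : ((S 0).H q).1 = P.eval x - (S 0).a * y := rfl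
    rw [this, herr]
    ring
  have hmd : (2:ℝ) ≤ ((m + 2 : ℕ) : ℝ) := by push_cast; linarith [Nat.cast_nonneg (α := ℝ) m]
  have hay : ‖(S 0).a * y‖ ≤ C * ‖y‖ := by
    rw [norm_mul]; exact mul_le_mul_of_nonneg_right (hS 0).aC hy0
  have h50 : 50 * C / ‖x‖ ≤ C := by
    rw [div_le_iff₀ hx]; nlinarith
  have hδ : ‖z‖ ^ (m + 1) * ‖x - s‖ ≤ C * (1 + ‖y‖) := by
    have e1 : ((m + 2 : ℕ) : ℂ) * z ^ (m + 1) * (x - s) =
        (S 0).a * y + (-(z ^ (m + 2) - ((S 0).H q).1) - (P.eval s - z ^ (m + 2)) - err) := by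
      rw [← hid]; ring
    have e2 : ‖((m + 2 : ℕ) : ℂ) * z ^ (m + 1) * (x - s)‖ =
        ((m + 2 : ℕ) : ℝ) * (‖z‖ ^ (m + 1) * ‖x - s‖) := by
      rw [norm_mul, norm_mul, norm_pow, Complex.norm_natCast]; ring
    have e3 : ‖((m + 2 : ℕ) : ℂ) * z ^ (m + 1) * (x - s)‖ ≤
        C * ‖y‖ + (48 * C / ‖x‖ + 2 * C / ‖x‖ + 1 / 2 * (‖z‖ ^ (m + 1) * ‖x - s‖)) := by
      rw [e1]
      refine (norm_add_le _ _).trans (add_le_add hay ?_)
      refine (norm_sub_le _ _).trans (add_le_add ?_ herr3)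
      refine (norm_sub_le _ _).trans (add_le_add ?_ hτ)
      rw [norm_neg]; exact hθ
    rw [e2] at e3
    have e4 : (0:ℝ) ≤ ‖z‖ ^ (m + 1) * ‖x - s‖ := by positivity
    have e5 : 48 * C / ‖x‖ + 2 * C / ‖x‖ = 50 * C / ‖x‖ := by ring
    nlinarith
  have herr4 : ‖z‖ * ‖err‖ ≤ 16 * C ^ 3 * ((1 + ‖y‖) ^ 2 / ‖x‖) := by
    calc ‖z‖ * ‖err‖ ≤ ‖z‖ * (C * ‖z‖ ^ m * (16 * C * (1 + ‖y‖) / ‖x‖) * ‖x - s‖) := by gcongr
      _ = 16 * C ^ 2 * (1 + ‖y‖) / ‖x‖ * (‖z‖ ^ (m + 1) * ‖x - s‖) := by ring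
      _ ≤ 16 * C ^ 2 * (1 + ‖y‖) / ‖x‖ * (C * (1 + ‖y‖)) := by gcongr
      _ = _ := by ring
  have hE : E0 S q = z / ((m + 2 : ℕ) : ℂ) *
      (((m + 2 : ℕ) : ℂ) * z ^ (m + 1) * (x - s) - (S 0).a * y) := by
    have hd : ((m + 2 : ℕ) : ℂ) ≠ 0 := (S 0).d_ne
    have e1 : Q.eval z = s * z ^ (m + 2) := by rw [hs]; field_simp
    have e2 : E0 S q = z ^ (m + 2) * x - (S 0).a / ((m + 2 : ℕ) : ℂ) * z * y - Q.eval z := rfl
    rw [e2, e1]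
    generalize ((m + 2 : ℕ) : ℂ) = dd at hd
    field_simp
    ring
  rw [hE, hid, norm_mul, norm_div, Complex.norm_natCast]
  have e6 : ‖-(z ^ (m + 2) - ((S 0).H q).1) - (P.eval s - z ^ (m + 2)) - err‖ ≤
      50 * C / ‖x‖ + ‖err‖ := by
    refine (norm_sub_le _ _).trans (add_le_add ?_ le_rfl)
    refine (norm_sub_le _ _).trans ?_
    rw [norm_neg]
    calc _ ≤ 48 * C / ‖x‖ + 2 * C / ‖x‖ := add_le_add hθ hτ
      _ = _ := by ring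
  calc ‖z‖ / ((m + 2 : ℕ) : ℝ) * ‖-(z ^ (m + 2) - ((S 0).H q).1) - (P.eval s - z ^ (m + 2)) - err‖
      ≤ ‖z‖ / 2 * (50 * C / ‖x‖ + ‖err‖) := by gcongr
    _ = 25 * C * (‖z‖ / ‖x‖) + 1 / 2 * (‖z‖ * ‖err‖) := by ring
    _ ≤ 25 * C * 2 + 1 / 2 * (16 * C ^ 3 * ((1 + ‖y‖) ^ 2 / ‖x‖)) := by
        gcongr
        rw [div_le_iff₀ hx]; exact hzu
    _ ≤ 60 * C ^ 3 * (1 + (1 + ‖y‖) ^ 2 / ‖x‖) := by
        have : C ≤ C ^ 3 := by
          calc C = C ^ 1 := by ring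
            _ ≤ C ^ 3 := pow_le_pow_right₀ hC1 (by norm_num)
        have h3 : 0 ≤ (1 + ‖y‖) ^ 2 / ‖x‖ := by positivity
        have h4 : 0 ≤ C ^ 3 := by positivity
        nlinarith [mul_nonneg h4 h3]

theorem E0_le' : ‖E0 S q‖ ≤ 300 * C ^ 3 * ‖q.1‖ := by
  refine (E0_le B hS hq).trans ?_
  have hx := V.pos B hq
  have hx1 := V.one B hq
  have h1 := V.rho B hq
  have h2 : (1 + ‖q.2‖) ^ 2 / ‖q.1‖ ≤ 4 * ‖q.1‖ := by
    rw [div_le_iff₀ hx]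
    nlinarith [norm_nonneg q.2]
  have h3 : 0 ≤ C ^ 3 := by have := B.pos; positivity
  nlinarith [mul_le_mul_of_nonneg_left h2 h3, mul_le_mul_of_nonneg_left hx1 h3]

/-- bound of the error after one step -/
theorem E0_H_le : ‖E0 (sh S) ((S 0).H q)‖ ≤ 600 * C ^ 3 := by
  refine (E0_le B (shift_est hS) (H_mem B (hS 0) hq)).trans ?_
  have hx := V.pos B hq
  have hx1 := V.one B hq
  have hx' := V.pos B (H_mem B (hS 0) hq)
  have h2 := H_fst_lower2 B (hS 0) hq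
  have h3 : (1 + ‖((S 0).H q).2‖) ^ 2 / ‖((S 0).H q).1‖ ≤ 8 := by
    rw [div_le_iff₀ hx']
    have : ((S 0).H q).2 = q.1 := rfl
    rw [this]
    nlinarith
  have h4 : 0 ≤ C ^ 3 := by have := B.pos; positivity
  nlinarith [mul_le_mul_of_nonneg_left h3 h4]

end E0

theorem E0_differentiableOn {C R : ℝ} (B : Big C R) {S : ℕ → Dat} (hS : ∀ n, (S n).Est C) :
    DifferentiableOn ℂ (E0 S) (V R) := by
  have h1 := phi_differentiableOn B hS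
  unfold E0
  refine ((h1.pow _).mul differentiableOn_fst).sub ((h1.const_mul _).mul differentiableOn_snd)
    |>.sub ?_
  exact (S 0).Q.differentiable.comp_differentiableOn h1

theorem E0H_differentiableOn {C R : ℝ} (B : Big C R) {S : ℕ → Dat} (hS : ∀ n, (S n).Est C) :
    DifferentiableOn ℂ (fun q => E0 (sh S) ((S 0).H q)) (V R) :=
  (E0_differentiableOn B (shift_est hS)).comp (S 0).H_differentiable.differentiableOn
    (fun _ hq => H_mem B (hS 0) hq)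

/-- The limit constant of the error term. -/
theorem exists_const {C R : ℝ} (B : Big C R) {S : ℕ → Dat} (hS : ∀ n, (S n).Est C) :
    ∃ c : ℂ, ‖c‖ ≤ 600 * C ^ 3 ∧ ∀ q ∈ V R,
      ‖E0 (sh S) ((S 0).H q) - c‖ ≤ 1200 * C ^ 3 * R * (1 + ‖q.2‖) / ‖q.1‖ := by
  have hR := B.Rpos
  have hmem0 : ∀ x : ℂ, R < ‖x‖ → ((x, 0) : ℂ × ℂ) ∈ V R := fun x hx =>
    ⟨hx, by simpa using lt_trans hR hx⟩
  set e : ℂ × ℂ → ℂ := fun q => E0 (sh S) ((S 0).H q) with he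
  have hed : DifferentiableOn ℂ e (V R) := E0H_differentiableOn B hS
  have hg : DifferentiableOn ℂ (fun x : ℂ => e (x, 0)) {x | R < ‖x‖} := by
    refine hed.comp ?_ (fun x hx => hmem0 x hx)
    exact (differentiable_id.prodMk (differentiable_const 0)).differentiableOn
  obtain ⟨c, hc, hc'⟩ := exists_lim_inf hR hg (K := 600 * C ^ 3)
    (fun x hx => E0_H_le B hS (hmem0 x hx))
  refine ⟨c, hc, ?_⟩
  rintro ⟨x, y⟩ hq
  have hx : 0 < ‖x‖ := V.pos B hq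
  have hxR : R < ‖x‖ := hq.1
  have hyx : ‖y‖ < ‖x‖ := hq.2
  have h1 := hc' x hxR
  have hf : DifferentiableOn ℂ (fun t : ℂ => e (x, t)) (ball 0 ‖x‖) := by
    refine hed.comp ?_ (fun t ht => ⟨hxR, by simpa using ht⟩)
    exact ((differentiable_const x).prodMk differentiable_id).differentiableOn
  have h2 := dist_le_of_bound (M := 600 * C ^ 3) (z := y) hf
    (fun t ht => E0_H_le B hS ⟨hxR, by simpa using ht⟩) (by simpa using hyx)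
  simp only [sub_zero] at h2
  have e1 : e (x, y) - c = (e (x, y) - e (x, 0)) + (e (x, 0) - c) := by ring
  have hC3 : 0 ≤ C ^ 3 := by have := B.pos; positivity
  calc ‖e (x, y) - c‖ ≤ ‖e (x, y) - e (x, 0)‖ + ‖e (x, 0) - c‖ := by
        rw [e1]; exact norm_add_le _ _
    _ ≤ 2 * (600 * C ^ 3) / ‖x‖ * ‖y‖ + 2 * (600 * C ^ 3) * R / ‖x‖ := add_le_add h2 h1
    _ ≤ 2 * (600 * C ^ 3) / ‖x‖ * (R * ‖y‖) + 2 * (600 * C ^ 3) * R / ‖x‖ := by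
        gcongr
        have h5 : 1 ≤ R := by have := B.R0; linarith
        nlinarith [norm_nonneg y]
    _ = _ := by ring

end Pool.Agent.H907.Henon
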