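import Pool.Agent.H907.Henon.Near3

/-!
The second coordinate near infinity.
-/

open Filter Topology Set Metric Polynomial

set_option linter.unusedSectionVars false

namespace Pool.Agent.H907.Henon

/-- product of the `β`'s -/
noncomputable def Bp : (ℕ → Dat) → ℕ → ℂ
  | _, 0 => 1
  | S, n + 1 => (S 0).b * Bp (sh S) n

theorem Bp_succ (S : ℕ → Dat) (n : ℕ) : Bp S (n + 1) = (S 0).b * Bp (sh S) n := rfl

theorem Bp_succ' (S : ℕ → Dat) (n : ℕ) : Bp S (n + 1) = Bp S n * (S n).b := by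
  induction n generalizing S with
  | zero => simp [Bp]
  | succ n ih =>
    rw [Bp_succ, ih (sh S), Bp_succ]
    simp only [sh]
    ring

/-- error term one step later -/
noncomputable def En (S : ℕ → Dat) (n : ℕ) (q : ℂ × ℂ) : ℂ :=
  E0 (sh (sh^[n] S)) ((sh^[n] S 0).H q)

theorem En_succ (S : ℕ → Dat) (n : ℕ) (q : ℂ × ℂ) : En S (n + 1) q = En (sh S) n q := rfl

/-- admissible constants -/
structure Cst (C R : ℝ) (S : ℕ → Dat) (c : ℕ → ℂ) : Prop where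
  bd : ∀ n, ‖c n‖ ≤ 600 * C ^ 3
  lim : ∀ n, ∀ q ∈ V R, ‖En S n q - c (n + 1)‖ ≤ 1200 * C ^ 3 * R * (1 + ‖q.2‖) / ‖q.1‖

theorem Cst.shift {C R : ℝ} {S : ℕ → Dat} {c : ℕ → ℂ} (h : Cst C R S c) :
    Cst C R (sh S) (sh c) := ⟨fun n => h.bd (n + 1), fun n q hq => h.lim (n + 1) q hq⟩

theorem iter_est {C : ℝ} {S : ℕ → Dat} (hS : ∀ n, (S n).Est C) (k : ℕ) :
    ∀ n, (sh^[k] S n).Est C := by
  induction k generalizing S with
  | zero => exact hS
  | succ k ih => exact ih (shift_est hS)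

theorem iter_zero (S : ℕ → Dat) (n : ℕ) : sh^[n] S 0 = S n := by
  induction n generalizing S with
  | zero => rfl
  | succ n ih => exact ih (sh S)

theorem En_differentiableOn {C R : ℝ} (B : Big C R) {S : ℕ → Dat} (hS : ∀ n, (S n).Est C)
    (n : ℕ) : DifferentiableOn ℂ (En S n) (V R) :=
  E0H_differentiableOn B (iter_est hS n)

/-- tail series -/
noncomputable def Tl (S : ℕ → Dat) (c : ℕ → ℂ) (q : ℂ × ℂ) : ℂ :=
  ∑' n, (Bp S (n + 2))⁻¹ * (En S n (orb S n q) - c (n + 1))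

/-- the second coordinate -/
noncomputable def Wf (S : ℕ → Dat) (c : ℕ → ℂ) (q : ℂ × ℂ) : ℂ :=
  (S 0).b⁻¹ * (phi S q ^ ((S 0).m + 2) * q.1 - (S 0).Q.eval (phi S q) - c 0) + Tl S c q

section
variable {C R : ℝ} (B : Big C R)

theorem Dat.Est.b0 {h : Dat} (hE : h.Est C) : h.b ≠ 0 :=
  div_ne_zero hE.a0 h.d_ne

include B in
theorem Dat.Est.b_inv {h : Dat} (hE : h.Est C) : ‖h.b⁻¹‖ ≤ C ^ 2 := by
  unfold Dat.b
  rw [norm_inv, norm_div, Complex.norm_natCast, inv_div, div_eq_mul_inv, sq]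
  refine mul_le_mul ?_ hE.aC' (by positivity) B.pos.le
  have := hE.dC
  simpa [Dat.d] using this

include B in
theorem Bp_inv_le {S : ℕ → Dat} (hS : ∀ n, (S n).Est C) (n : ℕ) :
    ‖(Bp S n)⁻¹‖ ≤ (C ^ 2) ^ n := by
  induction n with
  | zero => simp [Bp]
  | succ n ih =>
    rw [Bp_succ', mul_inv, norm_mul, pow_succ]
    exact mul_le_mul ih ((hS n).b_inv B) (norm_nonneg _) (by positivity)

theorem Bp_ne {S : ℕ → Dat} (hS : ∀ n, (S n).Est C) (n : ℕ) : Bp S n ≠ 0 := by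
  induction n with
  | zero => simp [Bp]
  | succ n ih => rw [Bp_succ']; exact mul_ne_zero ih (hS n).b0

variable {S : ℕ → Dat} (hS : ∀ n, (S n).Est C) {c : ℕ → ℂ} (hc : Cst C R S c)
include B hS hc

theorem Tl_term_le {q : ℂ × ℂ} (hq : q ∈ V R) (n : ℕ) :
    ‖(Bp S (n + 2))⁻¹ * (En S n (orb S n q) - c (n + 1))‖ ≤ 2400 * C ^ 7 * R * (1 / 2) ^ n := by
  have hC := B.pos
  have hR := B.Rpos
  have hm := orb_mem B hS hq n
  have hx := V.pos B hm
  rw [norm_mul]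
  have h1 := Bp_inv_le B hS (n + 2)
  have h2 := hc.lim n _ hm
  have h3 := orb_rho B hS hq n
  have h4 : 1200 * C ^ 3 * R * (1 + ‖(orb S n q).2‖) / ‖(orb S n q).1‖ ≤
      1200 * C ^ 3 * R * (2 * (2 / R) ^ n) := by
    rw [div_le_iff₀ hx]
    calc 1200 * C ^ 3 * R * (1 + ‖(orb S n q).2‖)
        ≤ 1200 * C ^ 3 * R * (2 * (2 / R) ^ n * ‖(orb S n q).1‖) := by gcongr
      _ = _ := by ring
  calc ‖(Bp S (n + 2))⁻¹‖ * ‖En S n (orb S n q) - c (n + 1)‖
      ≤ (C ^ 2) ^ (n + 2) * (1200 * C ^ 3 * R * (2 * (2 / R) ^ n)) :=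
        mul_le_mul h1 (h2.trans h4) (norm_nonneg _) (by positivity)
    _ = 2400 * C ^ 7 * R * (C ^ 2 * (2 / R)) ^ n := by ring
    _ ≤ 2400 * C ^ 7 * R * (1 / 2) ^ n := by
        gcongr
        rw [← mul_div_assoc, div_le_div_iff₀ hR (by norm_num)]
        have := B.R7 2 (by norm_num)
        have := sq_nonneg C
        linarith

theorem Tl_summable {q : ℂ × ℂ} (hq : q ∈ V R) :
    Summable fun n => (Bp S (n + 2))⁻¹ * (En S n (orb S n q) - c (n + 1)) :=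
  Summable.of_norm_bounded (summable_geometric_two.mul_left _) (Tl_term_le B hS hc hq)

theorem Tl_le {q : ℂ × ℂ} (hq : q ∈ V R) : ‖Tl S c q‖ ≤ 4800 * C ^ 7 * R := by
  have h1 : HasSum (fun n : ℕ => 2400 * C ^ 7 * R * (1 / 2 : ℝ) ^ n) (2400 * C ^ 7 * R * 2) :=
    hasSum_geometric_two.mul_left _
  have h2 := tsum_of_norm_bounded h1 (Tl_term_le B hS hc hq)
  calc _ ≤ _ := h2
    _ = _ := by ring

theorem Tl_differentiableOn : DifferentiableOn ℂ (Tl S c) (V R) := by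
  refine differentiableOn_tsum' (isOpen_V R) (u := fun n : ℕ => 2400 * C ^ 7 * R * (1 / 2) ^ n)
    (summable_geometric_two.mul_left _) ?_ (fun n q hq => Tl_term_le B hS hc hq n)
  intro n
  have h1 : DifferentiableOn ℂ (fun q => En S n (orb S n q)) (V R) :=
    (En_differentiableOn B hS n).comp (orb_differentiable S n).differentiableOn
      (fun q hq => orb_mem B hS hq n)
  exact (h1.sub_const _).const_mul _

theorem Wf_differentiableOn : DifferentiableOn ℂ (Wf S c) (V R) := by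
  have h1 := phi_differentiableOn B hS
  unfold Wf
  refine DifferentiableOn.add (DifferentiableOn.const_mul ?_ _) (Tl_differentiableOn B hS hc)
  refine (((h1.pow _).mul differentiableOn_fst).sub ?_).sub_const _
  exact (S 0).Q.differentiable.comp_differentiableOn h1

theorem Tl_funeq {q : ℂ × ℂ} (hq : q ∈ V R) : (S 0).b * Tl S c q =
    (S 1).b⁻¹ * (E0 (sh S) ((S 0).H q) - c 1) + Tl (sh S) (sh c) ((S 0).H q) := by
  have hb := (hS 0).b0
  unfold Tl
  rw [(Tl_summable B hS hc hq).tsum_eq_zero_add, mul_add, ← tsum_mul_left]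
  congr 1
  · have e : En S 0 (orb S 0 q) = E0 (sh S) ((S 0).H q) := rfl
    have e2 : Bp S (0 + 2) = (S 0).b * (S 1).b := by simp [Bp, sh]
    rw [e, e2, mul_inv, ← mul_assoc, ← mul_assoc, mul_inv_cancel₀ hb, one_mul]
  · congr 1
    ext n
    have e2 : Bp S (n + 1 + 2) = (S 0).b * Bp (sh S) (n + 2) := rfl
    rw [e2, mul_inv, ← mul_assoc, ← mul_assoc, mul_inv_cancel₀ hb, one_mul]
    rfl

theorem Wf_funeq {q : ℂ × ℂ} (hq : q ∈ V R) : Wf (sh S) (sh c) ((S 0).H q) =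
    (S 0).b * Wf S c q + (S 0).Q.eval (phi S q) + c 0 := by
  have h1 := Tl_funeq B hS hc hq
  have hb := (hS 0).b0
  have hb1 := (hS 1).b0
  have h2 := phi_funeq B hS hq
  have e1 : Wf (sh S) (sh c) ((S 0).H q) = (S 1).b⁻¹ *
    (phi (sh S) ((S 0).H q) ^ ((S 1).m + 2) * ((S 0).H q).1 -
      (S 1).Q.eval (phi (sh S) ((S 0).H q)) - c 1) + Tl (sh S) (sh c) ((S 0).H q) := rfl
  have e2 : E0 (sh S) ((S 0).H q) = phi (sh S) ((S 0).H q) ^ ((S 1).m + 2) * ((S 0).H q).1 -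
      (S 1).b * phi (sh S) ((S 0).H q) * q.1 - (S 1).Q.eval (phi (sh S) ((S 0).H q)) := rfl
  have e3 : Tl (sh S) (sh c) ((S 0).H q) =
      (S 0).b * Tl S c q - (S 1).b⁻¹ * (E0 (sh S) ((S 0).H q) - c 1) := by rw [h1]; ring
  have e4 : phi (sh S) ((S 0).H q) * q.1 = phi S q ^ ((S 0).m + 2) * q.1 := by rw [h2]
  rw [e1, e3, e2]
  unfold Wf
  have e5 : (S 0).b * ((S 0).b⁻¹ * (phi S q ^ ((S 0).m + 2) * q.1 -
      (S 0).Q.eval (phi S q) - c 0) + Tl S c q) =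
      (phi S q ^ ((S 0).m + 2) * q.1 - (S 0).Q.eval (phi S q) - c 0) + (S 0).b * Tl S c q := by
    rw [mul_add, ← mul_assoc, mul_inv_cancel₀ hb, one_mul]
  rw [e5, ← e4]
  field_simp
  ring

theorem Wf_sub_le {q : ℂ × ℂ} (hq : q ∈ V R) :
    ‖Wf S c q - phi S q * q.2‖ ≤ 5700 * C ^ 7 * ‖q.1‖ := by
  have hb := (hS 0).b0
  have e : Wf S c q - phi S q * q.2 = (S 0).b⁻¹ * (E0 S q - c 0) + Tl S c q := by
    unfold Wf E0
    field_simp
    ring
  have hC := B.pos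
  have hx := V.pos B hq
  have hx1 := V.one B hq
  rw [e]
  calc ‖(S 0).b⁻¹ * (E0 S q - c 0) + Tl S c q‖
      ≤ ‖(S 0).b⁻¹‖ * (‖E0 S q‖ + ‖c 0‖) + ‖Tl S c q‖ := by
        refine (norm_add_le _ _).trans (add_le_add ?_ le_rfl)
        rw [norm_mul]
        exact mul_le_mul_of_nonneg_left (norm_sub_le _ _) (norm_nonneg _)
    _ ≤ C ^ 2 * (300 * C ^ 3 * ‖q.1‖ + 600 * C ^ 3) + 4800 * C ^ 7 * R := by
        gcongr
        · exact (hS 0).b_inv B
        · exact E0_le' B hS hq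
        · exact hc.bd 0
        · exact Tl_le B hS hc hq
    _ ≤ C ^ 2 * (300 * C ^ 3 * ‖q.1‖ + 600 * C ^ 3 * ‖q.1‖) + 4800 * C ^ 7 * ‖q.1‖ := by
        have h3 : 600 * C ^ 3 ≤ 600 * C ^ 3 * ‖q.1‖ :=
          le_mul_of_one_le_right (by positivity) hx1
        have h4 : 4800 * C ^ 7 * R ≤ 4800 * C ^ 7 * ‖q.1‖ :=
          mul_le_mul_of_nonneg_left hq.1.le (by positivity)
        gcongr
    _ = (900 * C ^ 5 + 4800 * C ^ 7) * ‖q.1‖ := by ring
    _ ≤ 5700 * C ^ 7 * ‖q.1‖ := by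
        gcongr
        have : C ^ 5 ≤ C ^ 7 := pow_le_pow_right₀ B.C1 (by norm_num)
        linarith

end

/-- the chart near infinity -/
noncomputable def chi (S : ℕ → Dat) (c : ℕ → ℂ) (q : ℂ × ℂ) : ℂ × ℂ :=
  (phi S q, Wf S c q / phi S q)

section chi
variable {C R : ℝ} (B : Big C R) {S : ℕ → Dat} (hS : ∀ n, (S n).Est C) {c : ℕ → ℂ}
  (hc : Cst C R S c)
include B hS hc

theorem chi_sub_le {q : ℂ × ℂ} (hq : q ∈ V R) : ‖chi S c q - q‖ ≤ 2 ^ 14 * C ^ 7 := by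
  have hC := B.pos
  have hx := V.pos B hq
  have h1 := phi_sub_le' B hS hq
  have h2 := Wf_sub_le B hS hc hq
  have h3 := phi_lower B hS hq
  have h4 := phi_ne B hS hq
  have h5 : 0 < ‖phi S q‖ := norm_pos_iff.2 h4
  rw [Prod.norm_def]
  refine max_le ?_ ?_
  · refine h1.trans ?_
    have : C ≤ C ^ 7 := by
      calc C = C ^ 1 := by ring
        _ ≤ _ := pow_le_pow_right₀ B.C1 (by norm_num)
    have : 0 < C ^ 7 := by positivity
    linarith
  · show ‖Wf S c q / phi S q - q.2‖ ≤ _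
    have e : Wf S c q / phi S q - q.2 = (Wf S c q - phi S q * q.2) / phi S q := by
      field_simp
    rw [e, norm_div, div_le_iff₀ h5]
    have h6 : 0 ≤ C ^ 7 := by positivity
    calc _ ≤ _ := h2
      _ ≤ 2 ^ 14 * C ^ 7 * (‖q.1‖ / 2) := by nlinarith [mul_nonneg h6 hx.le]
      _ ≤ _ := by gcongr

theorem chi_differentiableOn : DifferentiableOn ℂ (chi S c) (V R) := by
  have h1 := phi_differentiableOn B hS
  have h2 := Wf_differentiableOn B hS hc
  unfold chi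
  refine h1.prodMk ?_
  simp only [div_eq_mul_inv]
  exact h2.mul (h1.fun_inv fun q hq => phi_ne B hS hq)

end chi

end Pool.Agent.H907.Henon
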