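import Pool.Agent.H907.Henon.Near4

/-!
The inverse of the chart near infinity.
-/

open Filter Topology Set Metric Polynomial

set_option linter.unusedSectionVars false

namespace Pool.Agent.H907.Henon

/-- General inversion: a holomorphic perturbation of the identity with small derivative. -/
theorem exists_inverse_pt {E : Type*} [NormedAddCommGroup E] [NormedSpace ℂ E] [CompleteSpace E]
    {f : E → E} {p : E} {K : ℝ} (hK : 0 ≤ K)
    (hd : ∀ q ∈ closedBall p K, DifferentiableAt ℂ f q)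
    (hb : ∀ q ∈ closedBall p K, ‖f q - q‖ ≤ K)
    (hl : ∀ q ∈ closedBall p K, ‖fderiv ℂ (fun x => f x - x) q‖ ≤ 1 / 8) :
    ∃ q ∈ closedBall p K, f q = p := by
  set g : E → E := fun q => p - (f q - q) with hg
  have hmaps : MapsTo g (closedBall p K) (closedBall p K) := by
    intro q hq
    rw [mem_closedBall, dist_eq_norm]
    have : g q - p = -(f q - q) := by simp only [hg]; abel
    rw [this, norm_neg]
    exact hb q hq
  have hlip : ∀ q ∈ closedBall p K, ∀ q' ∈ closedBall p K,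
      ‖(f q' - q') - (f q - q)‖ ≤ 1 / 8 * ‖q' - q‖ := by
    intro q hq q' hq'
    refine Convex.norm_image_sub_le_of_norm_fderiv_le (𝕜 := ℂ) (f := fun x => f x - x) ?_ ?_
      (convex_closedBall p K) hq hq'
    · intro x hx
      exact (hd x hx).sub differentiableAt_id
    · exact hl
  have hcontr : ContractingWith (1 / 8) (hmaps.restrict g (closedBall p K) (closedBall p K)) := by
    refine ⟨by rw [← NNReal.coe_lt_coe]; norm_num, ?_⟩
    refine LipschitzWith.of_dist_le_mul fun x y => ?_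
    rw [Subtype.dist_eq, Subtype.dist_eq]
    simp only [MapsTo.val_restrict_apply, dist_eq_norm]
    have : g x.1 - g y.1 = -((f x.1 - x.1) - (f y.1 - y.1)) := by simp only [hg]; abel
    rw [this, norm_neg]
    have := hlip y.1 y.2 x.1 x.2
    simpa using this
  obtain ⟨y, hy, hfix, -⟩ := ContractingWith.exists_fixedPoint'
    (isClosed_closedBall.isComplete) hmaps hcontr (mem_closedBall_self hK) (edist_ne_top _ _)
  refine ⟨y, hy, ?_⟩
  have h1 : p - (f y - y) = y := hfix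
  have : f y = p - (p - (f y - y)) + y := by abel
  rw [this, h1]
  abel

section inv
variable {C R : ℝ} (B : Big C R) {S : ℕ → Dat} (hS : ∀ n, (S n).Est C) {c : ℕ → ℂ}
  (hc : Cst C R S c)

/-- a smaller region -/
def V' (R : ℝ) : Set (ℂ × ℂ) := {q | 2 * R < ‖q.1‖ ∧ ‖q.2‖ < ‖q.1‖ / 2}

theorem V'_sub (hR : 0 < R) : V' R ⊆ V R := fun q hq =>
  ⟨by have := hq.1; linarith, by have := hq.2; have := hq.1; linarith⟩

theorem isOpen_V' (R : ℝ) : IsOpen (V' R) := by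
  have h1 : IsOpen {q : ℂ × ℂ | 2 * R < ‖q.1‖} := isOpen_lt continuous_const (by fun_prop)
  have h2 : IsOpen {q : ℂ × ℂ | ‖q.2‖ < ‖q.1‖ / 2} := isOpen_lt (by fun_prop) (by fun_prop)
  exact h1.inter h2

theorem ball_sub_V (hR : 0 < R) {q : ℂ × ℂ} (hq : q ∈ V' R) : ball q (‖q.1‖ / 8) ⊆ V R := by
  intro p hp
  rw [mem_ball, dist_eq_norm, Prod.norm_def, max_lt_iff] at hp
  have h1 : ‖p.1 - q.1‖ < ‖q.1‖ / 8 := hp.1
  have h2 : ‖p.2 - q.2‖ < ‖q.1‖ / 8 := hp.2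
  have h3 := hq.1
  have h4 := hq.2
  have h5 : ‖q.1‖ ≤ ‖p.1‖ + ‖p.1 - q.1‖ := by
    calc ‖q.1‖ = ‖p.1 - (p.1 - q.1)‖ := by congr 1; ring
      _ ≤ _ := norm_sub_le _ _
  have h6 : ‖p.2‖ ≤ ‖q.2‖ + ‖p.2 - q.2‖ := by
    calc ‖p.2‖ = ‖q.2 + (p.2 - q.2)‖ := by congr 1; ring
      _ ≤ _ := norm_add_le _ _
  exact ⟨by linarith, by linarith⟩

include B hS hc

theorem chi_diffAt {q : ℂ × ℂ} (hq : q ∈ V R) : DifferentiableAt ℂ (chi S c) q :=
  ((chi_differentiableOn B hS hc) q hq).differentiableAt ((isOpen_V R).mem_nhds hq)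

theorem chi_fderiv_le {q : ℂ × ℂ} (hq : q ∈ V' R) :
    ‖fderiv ℂ (fun x => chi S c x - x) q‖ ≤ 1 / 8 := by
  have hR := B.Rpos
  have hqV := V'_sub hR hq
  have hx := V.pos B hqV
  have h1 := norm_fderiv_le_of_bound (f := fun x => chi S c x - x) (c := q) (R := ‖q.1‖ / 8)
    (M := 2 ^ 14 * C ^ 7) (by positivity)
    (((chi_differentiableOn B hS hc).mono (ball_sub_V hR hq)).sub differentiableOn_id)
    (fun x hx => chi_sub_le B hS hc (ball_sub_V hR hq hx))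
  refine h1.trans ?_
  rw [div_le_div_iff₀ (by positivity) (by norm_num)]
  have := hq.1
  have := B.RC
  linarith

/-- the domain of the inverse chart -/
def PP (R : ℝ) : Set (ℂ × ℂ) := {p | 4 * R < ‖p.1‖ ∧ ‖p.2‖ < ‖p.1‖ / 4}

omit B hS hc in
theorem isOpen_PP (R : ℝ) : IsOpen (PP R) := by
  have h1 : IsOpen {q : ℂ × ℂ | 4 * R < ‖q.1‖} := isOpen_lt continuous_const (by fun_prop)
  have h2 : IsOpen {q : ℂ × ℂ | ‖q.2‖ < ‖q.1‖ / 4} := isOpen_lt (by fun_prop) (by fun_prop)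
  exact h1.inter h2

omit hS hc in
theorem closedBall_sub_V' {p : ℂ × ℂ} (hp : p ∈ PP R) :
    closedBall p (2 * (2 ^ 14 * C ^ 7)) ⊆ V' R := by
  intro q hq
  rw [mem_closedBall, dist_eq_norm, Prod.norm_def, max_le_iff] at hq
  have h1 : ‖q.1 - p.1‖ ≤ 2 * (2 ^ 14 * C ^ 7) := hq.1
  have h2 : ‖q.2 - p.2‖ ≤ 2 * (2 ^ 14 * C ^ 7) := hq.2
  have h3 := hp.1
  have h4 := hp.2
  have h5 : ‖p.1‖ ≤ ‖q.1‖ + ‖q.1 - p.1‖ := by
    calc ‖p.1‖ = ‖q.1 - (q.1 - p.1)‖ := by congr 1; ring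
      _ ≤ _ := norm_sub_le _ _
  have h6 : ‖q.2‖ ≤ ‖p.2‖ + ‖q.2 - p.2‖ := by
    calc ‖q.2‖ = ‖p.2 + (q.2 - p.2)‖ := by congr 1; ring
      _ ≤ _ := norm_add_le _ _
  have h7 := B.RC
  have h8 : 0 < C ^ 7 := by have := B.pos; positivity
  exact ⟨by linarith, by linarith⟩

omit hS hc in
theorem closedBall_sub_V'' {p : ℂ × ℂ} (hp : p ∈ PP R) :
    closedBall p (2 ^ 14 * C ^ 7) ⊆ V' R :=
  (closedBall_subset_closedBall (by have h8 : 0 < C ^ 7 := by have := B.pos; positivity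
                                    linarith)).trans (closedBall_sub_V' B hp)

theorem exists_preimage {p : ℂ × ℂ} (hp : p ∈ PP R) :
    ∃ q ∈ closedBall p (2 ^ 14 * C ^ 7), chi S c q = p := by
  have hR := B.Rpos
  refine exists_inverse_pt (by have := B.pos; positivity) ?_ ?_ ?_
  · intro q hq
    exact chi_diffAt B hS hc (V'_sub hR (closedBall_sub_V'' B hp hq))
  · intro q hq
    exact chi_sub_le B hS hc (V'_sub hR (closedBall_sub_V'' B hp hq))
  · intro q hq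
    exact chi_fderiv_le B hS hc (closedBall_sub_V'' B hp hq)

theorem chi_expand {p : ℂ × ℂ} (hp : p ∈ PP R) {q q' : ℂ × ℂ}
    (hq : q ∈ closedBall p (2 * (2 ^ 14 * C ^ 7))) (hq' : q' ∈ closedBall p (2 * (2 ^ 14 * C ^ 7))) :
    ‖q' - q‖ ≤ 2 * ‖chi S c q' - chi S c q‖ := by
  have hR := B.Rpos
  have h1 : ‖(chi S c q' - q') - (chi S c q - q)‖ ≤ 1 / 8 * ‖q' - q‖ := by
    refine Convex.norm_image_sub_le_of_norm_fderiv_le (𝕜 := ℂ) (f := fun x => chi S c x - x) ?_ ?_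
      (convex_closedBall p (2 * (2 ^ 14 * C ^ 7))) hq hq'
    · intro x hx
      exact (chi_diffAt B hS hc (V'_sub hR (closedBall_sub_V' B hp hx))).sub differentiableAt_id
    · intro x hx
      exact chi_fderiv_le B hS hc (closedBall_sub_V' B hp hx)
  have h2 : ‖q' - q‖ ≤ ‖chi S c q' - chi S c q‖ + ‖(chi S c q' - q') - (chi S c q - q)‖ := by
    calc ‖q' - q‖ = ‖(chi S c q' - chi S c q) - ((chi S c q' - q') - (chi S c q - q))‖ := by
          congr 1; abel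
      _ ≤ _ := norm_sub_le _ _
  linarith [norm_nonneg (q' - q)]

omit B hS hc in
/-- the inverse chart -/
noncomputable def psi (C : ℝ) (S : ℕ → Dat) (c : ℕ → ℂ) (p : ℂ × ℂ) : ℂ × ℂ :=
  Classical.epsilon fun q => q ∈ closedBall p (2 ^ 14 * C ^ 7) ∧ chi S c q = p

theorem psi_spec {p : ℂ × ℂ} (hp : p ∈ PP R) :
    psi C S c p ∈ closedBall p (2 ^ 14 * C ^ 7) ∧ chi S c (psi C S c p) = p := by
  obtain ⟨q, h1, h2⟩ := exists_preimage B hS hc hp
  exact Classical.epsilon_spec (p := fun q => q ∈ closedBall p (2 ^ 14 * C ^ 7) ∧ chi S c q = p)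
    ⟨q, h1, h2⟩

theorem psi_mem {p : ℂ × ℂ} (hp : p ∈ PP R) : psi C S c p ∈ V R :=
  V'_sub B.Rpos (closedBall_sub_V'' B hp (psi_spec B hS hc hp).1)

theorem psi_chi {q : ℂ × ℂ} (hq : q ∈ V R) (hp : chi S c q ∈ PP R) :
    psi C S c (chi S c q) = q := by
  obtain ⟨h1, h2⟩ := psi_spec B hS hc hp
  have hC : 0 < C ^ 7 := by have := B.pos; positivity
  have hsub : closedBall (chi S c q) (2 ^ 14 * C ^ 7) ⊆
      closedBall (chi S c q) (2 * (2 ^ 14 * C ^ 7)) := closedBall_subset_closedBall (by linarith)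
  have h3 : q ∈ closedBall (chi S c q) (2 ^ 14 * C ^ 7) := by
    rw [mem_closedBall, dist_eq_norm, norm_sub_rev]
    exact chi_sub_le B hS hc hq
  have h4 := chi_expand B hS hc hp (hsub h3) (hsub h1)
  rw [h2] at h4
  simp only [sub_self, norm_zero, mul_zero] at h4
  exact sub_eq_zero.1 (norm_le_zero_iff.1 h4)

theorem psi_lip {p p' : ℂ × ℂ} (hp : p ∈ PP R) (hp' : p' ∈ PP R)
    (h : ‖p' - p‖ ≤ 2 ^ 14 * C ^ 7) : ‖psi C S c p' - psi C S c p‖ ≤ 2 * ‖p' - p‖ := by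
  obtain ⟨h1, h2⟩ := psi_spec B hS hc hp
  obtain ⟨h3, h4⟩ := psi_spec B hS hc hp'
  have hC : 0 < C ^ 7 := by have := B.pos; positivity
  have h5 : psi C S c p ∈ closedBall p (2 * (2 ^ 14 * C ^ 7)) :=
    closedBall_subset_closedBall (by linarith) h1
  have h6 : psi C S c p' ∈ closedBall p (2 * (2 ^ 14 * C ^ 7)) := by
    rw [mem_closedBall, dist_eq_norm] at *
    calc ‖psi C S c p' - p‖ = ‖(psi C S c p' - p') + (p' - p)‖ := by congr 1; abel
      _ ≤ _ := norm_add_le _ _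
      _ ≤ _ := by linarith
  have h7 := chi_expand B hS hc hp h5 h6
  rw [h2, h4] at h7
  exact h7

theorem psi_continuousAt {p : ℂ × ℂ} (hp : p ∈ PP R) : ContinuousAt (psi C S c) p := by
  have hC : 0 < C ^ 7 := by have := B.pos; positivity
  rw [Metric.continuousAt_iff]
  intro ε hε
  obtain ⟨δ, hδ, hδ'⟩ := Metric.isOpen_iff.1 (isOpen_PP R) p hp
  refine ⟨min δ (min (2 ^ 14 * C ^ 7) (ε / 2)), by positivity, fun x hx => ?_⟩
  rw [dist_eq_norm] at *
  have hx1 : ‖x - p‖ < δ := lt_of_lt_of_le hx (min_le_left _ _)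
  have hx2 : ‖x - p‖ < 2 ^ 14 * C ^ 7 :=
    lt_of_lt_of_le hx ((min_le_right _ _).trans (min_le_left _ _))
  have hx3 : ‖x - p‖ < ε / 2 := lt_of_lt_of_le hx ((min_le_right _ _).trans (min_le_right _ _))
  have := psi_lip B hS hc hp (hδ' (by rw [mem_ball, dist_eq_norm]; exact hx1)) hx2.le
  linarith

theorem psi_differentiableAt {p : ℂ × ℂ} (hp : p ∈ PP R) : DifferentiableAt ℂ (psi C S c) p := by
  have hq := closedBall_sub_V'' B hp (psi_spec B hS hc hp).1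
  have hqV := V'_sub B.Rpos hq
  have hd := chi_diffAt B hS hc hqV
  have hl := chi_fderiv_le B hS hc hq
  set q := psi C S c p with hqdef
  set D := fderiv ℂ (chi S c) q with hD
  have hDeq : fderiv ℂ (fun x => chi S c x - x) q = D - 1 := by
    have := (hd.hasFDerivAt.sub (hasFDerivAt_id q)).fderiv
    exact this
  rw [hDeq] at hl
  have hlt : ‖-(D - 1)‖ < 1 := by rw [norm_neg]; linarith
  set u := Units.oneSub (-(D - 1)) hlt with hu
  set e : (ℂ × ℂ) ≃L[ℂ] (ℂ × ℂ) := ContinuousLinearEquiv.unitsEquiv ℂ (ℂ × ℂ) u with he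
  have hcoe : (e : (ℂ × ℂ) →L[ℂ] (ℂ × ℂ)) = D := by
    refine ContinuousLinearMap.ext fun x => ?_
    have h9 : (e : (ℂ × ℂ) →L[ℂ] (ℂ × ℂ)) x = (u : (ℂ × ℂ) →L[ℂ] (ℂ × ℂ)) x := rfl
    have h10 : (u : (ℂ × ℂ) →L[ℂ] (ℂ × ℂ)) = 1 - (-(D - 1)) := rfl
    rw [h9, h10]
    simp
  have h1 : HasFDerivAt (chi S c) (e : (ℂ × ℂ) →L[ℂ] (ℂ × ℂ)) (psi C S c p) := by
    rw [hcoe]; exact hd.hasFDerivAt
  refine (HasFDerivAt.of_local_left_inverse (psi_continuousAt B hS hc hp) h1 ?_).differentiableAt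
  filter_upwards [(isOpen_PP R).mem_nhds hp] with y hy
  exact (psi_spec B hS hc hy).2

end inv

end Pool.Agent.H907.Henon
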