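import Pool.Agent.H907.Henon.Defs

open Polynomial Filter Topology Set

namespace Pool.Agent.H907.Henon

/-- `H_{k-1} ∘ ⋯ ∘ H_0` for a sequence of factors. -/
noncomputable def cmp (S : ℕ → Fac) : ℕ → ℂ × ℂ → ℂ × ℂ
  | 0 => id
  | k + 1 => (S k).map ∘ cmp S k

/-- Affine change of variables `x_j = s_{j+1} x'_j + t_{j+1}` with `k`-periodic `s, t`. -/
def Sim (k : ℕ) (S S' : ℕ → Fac) : Prop :=
  ∃ s t : ℕ → ℂ, (∀ j, s (j + k) = s j) ∧ (∀ j, t (j + k) = t j) ∧ (∀ j, s j ≠ 0) ∧
    (∀ j, (S' j).a * s (j + 2) = (S j).a * s j) ∧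
    ∀ j, C (s (j + 2)) * (S' j).P + C (t (j + 2) + (S j).a * t j) =
      (S j).P.comp (C (s (j + 1)) * X + C (t (j + 1)))

theorem Sim.symm {k : ℕ} {S S' : ℕ → Fac} (h : Sim k S S') : Sim k S' S := by
  obtain ⟨s, t, hs, ht, h0, ha, hP⟩ := h
  refine ⟨fun j => (s j)⁻¹, fun j => -t j / s j, fun j => by simp only [hs],
    fun j => by simp only [hs, ht], fun j => inv_ne_zero (h0 j), fun j => ?_, fun j => ?_⟩
  · have h1 := h0 j
    have h2 := h0 (j + 2)
    have h3 := ha j
    field_simp
    linear_combination -h3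
  · have h1 := h0 j
    have h2 := h0 (j + 2)
    have h4 := h0 (j + 1)
    have h3 := ha j
    refine Polynomial.funext fun x => ?_
    have h5 := congrArg (fun p => p.eval (x / s (j + 1) - t (j + 1) / s (j + 1))) (hP j)
    simp only [eval_add, eval_mul, eval_C, eval_comp, eval_X] at h5 ⊢
    have h6 : s (j + 1) * (x / s (j + 1) - t (j + 1) / s (j + 1)) + t (j + 1) = x := by
      field_simp; ring
    have h7 : (s (j + 1))⁻¹ * x + -t (j + 1) / s (j + 1) =
      x / s (j + 1) - t (j + 1) / s (j + 1) := by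
      field_simp
      ring
    rw [h6] at h5
    rw [h7, ← h5]
    field_simp
    linear_combination (-t j) * h3

theorem Sim.trans {k : ℕ} {S S' S'' : ℕ → Fac} (h : Sim k S S') (h' : Sim k S' S'') :
    Sim k S S'' := by
  obtain ⟨s, t, hs, ht, h0, ha, hP⟩ := h
  obtain ⟨s', t', hs', ht', h0', ha', hP'⟩ := h'
  refine ⟨fun j => s j * s' j, fun j => s j * t' j + t j, fun j => by simp only [hs, hs'],
    fun j => by simp only [hs, ht, ht'], fun j => mul_ne_zero (h0 j) (h0' j), fun j => ?_,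
    fun j => ?_⟩
  · linear_combination (s (j + 2)) * ha' j + (s' j) * ha j
  · refine Polynomial.funext fun x => ?_
    have h5 := congrArg (fun p => p.eval x) (hP' j)
    have h6 := congrArg (fun p => p.eval (s' (j + 1) * x + t' (j + 1))) (hP j)
    simp only [eval_add, eval_mul, eval_C, eval_comp, eval_X] at h5 h6 ⊢
    have h7 : s (j + 1) * s' (j + 1) * x + (s (j + 1) * t' (j + 1) + t (j + 1)) =
      s (j + 1) * (s' (j + 1) * x + t' (j + 1)) + t (j + 1) := by ring
    rw [h7, ← h6]
    linear_combination (s (j + 2)) * h5 - (t' j) * ha j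

/-- The affine conjugacy. -/
theorem Sim.conj {k : ℕ} {S S' : ℕ → Fac} (h : Sim k S S') :
    ∃ s₀ t₀ s₁ t₁ : ℂ, s₀ ≠ 0 ∧ s₁ ≠ 0 ∧ ∀ x y : ℂ,
      cmp S k (s₁ * x + t₁, s₀ * y + t₀) =
        (s₁ * (cmp S' k (x, y)).1 + t₁, s₀ * (cmp S' k (x, y)).2 + t₀) := by
  obtain ⟨s, t, hs, ht, h0, ha, hP⟩ := h
  have key : ∀ n x y, cmp S n (s 1 * x + t 1, s 0 * y + t 0) =
      (s (n + 1) * (cmp S' n (x, y)).1 + t (n + 1), s n * (cmp S' n (x, y)).2 + t n) := by
    intro n x y
    induction n with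
    | zero => simp [cmp]
    | succ n ih =>
      simp only [cmp, Function.comp_apply]
      rw [ih]
      simp only [Fac.map]
      have h6 := congrArg (fun p => p.eval (cmp S' n (x, y)).1) (hP n)
      simp only [eval_add, eval_mul, eval_C, eval_comp, eval_X] at h6
      rw [Prod.mk.injEq]
      refine ⟨?_, rfl⟩
      rw [← h6]
      linear_combination ((cmp S' n (x, y)).2) * ha n
  refine ⟨s 0, t 0, s 1, t 1, h0 0, h0 1, fun x y => ?_⟩
  rw [key k x y]
  have h1 : s (k + 1) = s 1 := by rw [add_comm, hs]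
  have h2 : t (k + 1) = t 1 := by rw [add_comm, ht]
  have h3 : s k = s 0 := by have := hs 0; rwa [zero_add] at this
  have h4 : t k = t 0 := by have := ht 0; rwa [zero_add] at this
  rw [h1, h2, h3, h4]

theorem coeff_comp_affine (P : ℂ[X]) (u v : ℂ) (hd : 1 ≤ P.natDegree) :
    (P.comp (C u * X + C v)).coeff (P.natDegree - 1) =
      u ^ (P.natDegree - 1) * (P.coeff (P.natDegree - 1) + P.natDegree * P.leadingCoeff * v) := by
  have h1 : P.comp (C u * X + C v) = (taylor v P).comp (C u * X) := by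
    rw [taylor_apply, comp_assoc]
    simp
  rw [h1, comp_C_mul_X_coeff, taylor_coeff]
  obtain ⟨d, hd'⟩ : ∃ d, P.natDegree = d + 1 := ⟨P.natDegree - 1, by omega⟩
  have h2 : (hasseDeriv (P.natDegree - 1) P) =
      C (P.coeff (P.natDegree - 1)) + C (P.natDegree * P.leadingCoeff) * X := by
    ext n
    rw [hasseDeriv_coeff]
    rw [leadingCoeff, hd']
    simp only [Nat.add_sub_cancel]
    rcases n with _ | _ | n
    · simp
    · simp only [zero_add, coeff_add, coeff_C_mul, coeff_X_one, mul_one]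
      rw [coeff_C]
      simp only [one_ne_zero, if_false, zero_add]
      rw [add_comm 1 d, Nat.choose_succ_self_right]
    · rw [coeff_eq_zero_of_natDegree_lt (p := P) (by omega)]
      simp [coeff_X, coeff_C, coeff_one]
  rw [h2]
  simp only [eval_add, eval_C, eval_mul, eval_X]
  ring

/-- Normalization: every periodic sequence of factors is similar to one with monic centered
polynomials. -/
theorem exists_normal {k : ℕ} (hk : 0 < k) (S : ℕ → Fac) (hS : ∀ j, S (j + k) = S j) :
    ∃ S' : ℕ → Fac, (∀ j, S' (j + k) = S' j) ∧ Sim k S S' ∧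
      ∀ j, (S' j).P.natDegree = (S j).P.natDegree ∧ (S' j).P.Monic ∧
        (S' j).P.coeff ((S' j).P.natDegree - 1) = 0 := by
  -- recursion for `w`
  have hlead : ∀ j, (S j).P.leadingCoeff ≠ 0 := by
    intro j h
    rw [leadingCoeff_eq_zero] at h
    have := (S j).hP
    rw [h] at this
    simp at this
  have hMN : ∀ n, ∃ M : ℂ, ∃ N : ℕ, M ≠ 0 ∧ n < N ∧ ∀ u : ℂ,
      (Nat.rec u (fun j w => (S j).P.leadingCoeff * w ^ (S j).P.natDegree) n : ℂ) = M * u ^ N := by
    intro n
    induction n with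
    | zero => exact ⟨1, 1, one_ne_zero, by omega, fun u => by simp⟩
    | succ n ih =>
      obtain ⟨M, N, hM, hN, h⟩ := ih
      refine ⟨(S n).P.leadingCoeff * M ^ (S n).P.natDegree, N * (S n).P.natDegree,
        mul_ne_zero (hlead n) (pow_ne_zero _ hM), ?_, fun u => ?_⟩
      · have := (S n).hP
        nlinarith
      · show (S n).P.leadingCoeff * _ ^ (S n).P.natDegree = _
        rw [h u, mul_pow, ← pow_mul]
        ring
  obtain ⟨M, N, hM, hN, hMN⟩ := hMN k
  obtain ⟨u, hu⟩ := IsAlgClosed.exists_pow_nat_eq (M⁻¹) (n := N - 1) (by omega)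
  have hu0 : u ≠ 0 := by
    rintro rfl
    rw [zero_pow (by omega)] at hu
    exact inv_ne_zero hM hu.symm
  set w : ℕ → ℂ := fun n =>
    Nat.rec u (fun j w => (S j).P.leadingCoeff * w ^ (S j).P.natDegree) n with hw
  have hw0 : w 0 = u := rfl
  have hws : ∀ n, w (n + 1) = (S n).P.leadingCoeff * w n ^ (S n).P.natDegree := fun n => rfl
  have hwk : w k = u := by
    rw [hw]
    show (Nat.rec u (fun j w => (S j).P.leadingCoeff * w ^ (S j).P.natDegree) k : ℂ) = u
    rw [hMN u]
    have : u ^ N = u ^ (N - 1) * u := by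
      rw [← pow_succ]; congr 1; omega
    rw [this, hu]
    field_simp
  have hwp : ∀ n, w (n + k) = w n := by
    intro n
    induction n with
    | zero => rw [zero_add, hwk, hw0]
    | succ n ih =>
      rw [show n + 1 + k = (n + k) + 1 by ring, hws, hws, ih, hS]
  have hwn : ∀ n, w n ≠ 0 := by
    intro n
    induction n with
    | zero => rw [hw0]; exact hu0
    | succ n ih => rw [hws]; exact mul_ne_zero (hlead n) (pow_ne_zero _ ih)
  set T : ℕ → ℂ := fun j => -(S j).P.coeff ((S j).P.natDegree - 1) /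
    ((S j).P.natDegree * (S j).P.leadingCoeff) with hT
  have hTp : ∀ j, T (j + k) = T j := by intro j; simp only [hT, hS]
  set s : ℕ → ℂ := fun j => w (j + (k - 1)) with hs
  set t : ℕ → ℂ := fun j => T (j + (k - 1)) with ht
  have hs1 : ∀ j, s (j + 1) = w j := by
    intro j
    show w (j + 1 + (k - 1)) = w j
    rw [show j + 1 + (k - 1) = j + k by omega, hwp]
  have ht1 : ∀ j, t (j + 1) = T j := by
    intro j
    show T (j + 1 + (k - 1)) = T j
    rw [show j + 1 + (k - 1) = j + k by omega, hTp]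
  have hsp : ∀ j, s (j + k) = s j := by
    intro j
    show w (j + k + (k - 1)) = w (j + (k - 1))
    rw [show j + k + (k - 1) = j + (k - 1) + k by omega, hwp]
  have htp : ∀ j, t (j + k) = t j := by
    intro j
    show T (j + k + (k - 1)) = T (j + (k - 1))
    rw [show j + k + (k - 1) = j + (k - 1) + k by omega, hTp]
  have hs0 : ∀ j, s j ≠ 0 := fun j => hwn _
  have hs2 : ∀ j, s (j + 2) = (S j).P.leadingCoeff * s (j + 1) ^ (S j).P.natDegree := by
    intro j
    rw [show j + 2 = (j + 1) + 1 by ring, hs1, hs1, hws]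
  have hdeg : ∀ j, (C (s (j + 2))⁻¹ * ((S j).P.comp (C (s (j + 1)) * X + C (t (j + 1))) -
      C (t (j + 2) + (S j).a * t j))).natDegree = (S j).P.natDegree := by
    intro j
    rw [natDegree_C_mul (inv_ne_zero (hs0 _)), natDegree_sub_C, natDegree_comp,
      natDegree_linear (hs0 _), mul_one]
  let S' : ℕ → Fac := fun j =>
    { a := (S j).a * s j / s (j + 2)
      P := C (s (j + 2))⁻¹ * ((S j).P.comp (C (s (j + 1)) * X + C (t (j + 1))) -
        C (t (j + 2) + (S j).a * t j))
      ha := div_ne_zero (mul_ne_zero (S j).ha (hs0 j)) (hs0 _)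
      hP := by rw [hdeg]; exact (S j).hP }
  refine ⟨S', fun j => ?_, ⟨s, t, hsp, htp, hs0, fun j => ?_, fun j => ?_⟩, fun j => ⟨hdeg j, ?_, ?_⟩⟩
  · have e1 : s (j + k + 2) = s (j + 2) := by
      rw [show j + k + 2 = j + 2 + k by ring, hsp]
    have e2 : s (j + k + 1) = s (j + 1) := by
      rw [show j + k + 1 = j + 1 + k by ring, hsp]
    have e3 : t (j + k + 2) = t (j + 2) := by
      rw [show j + k + 2 = j + 2 + k by ring, htp]
    have e4 : t (j + k + 1) = t (j + 1) := by
      rw [show j + k + 1 = j + 1 + k by ring, htp]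
    simp only [S', e1, e2, e3, e4, hsp, htp, hS]
  · show (S j).a * s j / s (j + 2) * s (j + 2) = (S j).a * s j
    exact div_mul_cancel₀ _ (hs0 _)
  · show C (s (j + 2)) * (C (s (j + 2))⁻¹ * _) + _ = _
    rw [← mul_assoc, ← C_mul, mul_inv_cancel₀ (hs0 _), C_1, one_mul, sub_add_cancel]
  · show Monic (C (s (j + 2))⁻¹ * _)
    rw [Monic, leadingCoeff, hdeg, coeff_C_mul, coeff_sub]
    have h2 := (S j).hP
    rw [coeff_C, if_neg (by omega), sub_zero]
    have h3 : ((S j).P.comp (C (s (j + 1)) * X + C (t (j + 1)))).coeff (S j).P.natDegree =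
        (S j).P.leadingCoeff * s (j + 1) ^ (S j).P.natDegree := by
      have h4 := leadingCoeff_comp (p := (S j).P) (q := C (s (j + 1)) * X + C (t (j + 1)))
        (by rw [natDegree_linear (hs0 _)]; exact one_ne_zero)
      rw [leadingCoeff_linear (hs0 _), leadingCoeff, natDegree_comp, natDegree_linear (hs0 _),
        mul_one] at h4
      exact h4
    rw [h3, ← hs2, inv_mul_cancel₀ (hs0 _)]
  · show (C (s (j + 2))⁻¹ * _ : ℂ[X]).coeff ((C (s (j + 2))⁻¹ * _ : ℂ[X]).natDegree - 1) = 0
    have h2 := (S j).hP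
    rw [hdeg, coeff_C_mul, coeff_sub, coeff_C, if_neg (by omega), sub_zero,
      coeff_comp_affine _ _ _ (by omega), ht1]
    have h5 : ((S j).P.natDegree : ℂ) ≠ 0 := by
      rw [Nat.cast_ne_zero]; omega
    have h6 := hlead j
    simp only [hT]
    field_simp
    ring

end Pool.Agent.H907.Henon
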