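import Pool.Agent.H907.Henon.Glob3

/-!
The polynomial of the model after `n` steps.
-/

open Filter Topology Set Metric Polynomial

namespace Pool.Agent.H907.Henon

/-- the polynomial of the second coordinate after `n` steps of the model -/
noncomputable def qp (S : ℕ → Dat) (c : ℕ → ℂ) : ℕ → ℂ[X]
  | 0 => 0
  | n + 1 => C (S n).b * qp S c n + ((S n).Q + C (c n)).comp (X ^ Dp S n)

theorem mo_eq (S : ℕ → Dat) (c : ℕ → ℂ) (n : ℕ) (x : ℂ × ℂ) :
    mo S c n x = tl (Dp S n) (Bp S n) (fun z => (qp S c n).eval z) x := by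
  induction n with
  | zero => simp [tl, Dp, Bp, qp]
  | succ n ih =>
    rw [mo_succ', ih]
    unfold tl stp
    ext
    · simp only [Dp_succ', Dat.d]
      push_cast
      ring
    · simp only [qp, Bp_succ', eval_add, eval_mul, eval_C, eval_comp, eval_pow, eval_X]
      rw [Complex.exp_nat_mul]
      ring

theorem mo_add (S : ℕ → Dat) (c : ℕ → ℂ) (n j : ℕ) (x : ℂ × ℂ) :
    mo S c (n + j) x = mo (sh^[n] S) (sh^[n] c) j (mo S c n x) := by
  induction n generalizing S c x with
  | zero => simp
  | succ n ih =>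
    rw [show n + 1 + j = (n + j) + 1 by ring, mo_succ, ih]
    rfl

theorem orb_add (S : ℕ → Dat) (n j : ℕ) (q : ℂ × ℂ) :
    orb S (n + j) q = orb (sh^[n] S) j (orb S n q) := by
  induction n generalizing S q with
  | zero => simp
  | succ n ih =>
    rw [show n + 1 + j = (n + j) + 1 by ring, orb_succ, ih]
    rfl

theorem sh_iter_apply {α : Type*} (S : ℕ → α) (n j : ℕ) : sh^[n] S j = S (j + n) := by
  induction n generalizing S with
  | zero => rfl
  | succ n ih =>
    rw [Function.iterate_succ_apply, ih]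
    rfl

theorem sh_iter_period {α : Type*} {S : ℕ → α} {k : ℕ} (h : ∀ n, S (n + k) = S n) (m : ℕ) :
    sh^[k * m] S = S := by
  induction m with
  | zero => rfl
  | succ m ih =>
    have : sh^[k] S = S := by ext j; rw [sh_iter_apply, h]
    rw [Nat.mul_succ, Function.iterate_add_apply, this, ih]

theorem mo_period {S : ℕ → Dat} {c : ℕ → ℂ} {k : ℕ} (hS : ∀ n, S (n + k) = S n)
    (hc : ∀ n, c (n + k) = c n) (m : ℕ) :
    (tl (Dp S k) (Bp S k) (fun z => (qp S c k).eval z))^[m] = mo S c (k * m) := by
  induction m with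
  | zero => rfl
  | succ m ih =>
    funext x
    rw [Function.iterate_succ_apply', ih, Nat.mul_succ, mo_add, sh_iter_period hS,
      sh_iter_period hc, mo_eq S c k]

theorem orb_period {S : ℕ → Dat} {k : ℕ} (hS : ∀ n, S (n + k) = S n) (m : ℕ) :
    (orb S k)^[m] = orb S (k * m) := by
  induction m with
  | zero => rfl
  | succ m ih =>
    funext x
    rw [Function.iterate_succ_apply', ih, Nat.mul_succ, orb_add, sh_iter_period hS]

end Pool.Agent.H907.Henon
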